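import Mathlib
import Pool.Agent.Helper82.FL.Raw

/-!
# Digits

The top digit of a product of two numbers with nine digits, modulo `b ^ 9`.
-/

set_option autoImplicit false

namespace Pool.Agent.Helper82.FL

theorem B1_eq : B1 = 2 ^ 256 := by decide +kernel
theorem B4_eq : B4 = B1 ^ 4 := by decide +kernel
theorem B8_eq : B8 = B1 ^ 8 := by decide +kernel
theorem B9_eq : B9 = B1 ^ 9 := by decide +kernel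
theorem BI8_eq : BI8 = 2 ^ 255 * (1 + B1 + B1 ^ 2 + B1 ^ 3 + B1 ^ 4 + B1 ^ 5 + B1 ^ 6 + B1 ^ 7) := by
  decide +kernel
theorem BI9_eq : BI9 = 2 ^ 255 *
    (1 + B1 + B1 ^ 2 + B1 ^ 3 + B1 ^ 4 + B1 ^ 5 + B1 ^ 6 + B1 ^ 7 + B1 ^ 8) := by
  decide +kernel
theorem JJ_eq : JJ = 1 + B1 ^ 4 + B1 ^ 8 := by decide +kernel
theorem K75_eq : K75 = B1 ^ 7 + B1 ^ 5 := by decide +kernel
theorem K62_eq : K62 = B1 ^ 6 + B1 ^ 2 := by decide +kernel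
theorem K31_eq : K31 = B1 ^ 3 + B1 := by decide +kernel
theorem N75_eq : N75 + (B1 ^ 7 + B1 ^ 5) = B1 ^ 9 := by decide +kernel
theorem N62_eq : N62 + (B1 ^ 6 + B1 ^ 2) = B1 ^ 9 := by decide +kernel
theorem N31_eq : N31 + (B1 ^ 3 + B1) = B1 ^ 9 := by decide +kernel

/-- nine digits -/
def p9 (b c0 c1 c2 c3 c4 c5 c6 c7 c8 : ℤ) : ℤ :=
  c0 + b * (c1 + b * (c2 + b * (c3 + b * (c4 + b * (c5 + b * (c6 + b * (c7 + b * c8)))))))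

theorem step_bd {b e r R : ℤ} (hb : 0 < b) (he : 0 ≤ e ∧ e < b) (hr : 0 ≤ r ∧ r < R) :
    0 ≤ e + b * r ∧ e + b * r < b * R := by
  obtain ⟨he, he'⟩ := he
  obtain ⟨hr, hr'⟩ := hr
  constructor
  · positivity
  · nlinarith [mul_le_mul_of_nonneg_left (Int.add_one_le_iff.mpr hr') hb.le]

/-- the lower eight digits -/
theorem low_bd {b : ℤ} (hb : 0 < b) {e0 e1 e2 e3 e4 e5 e6 e7 : ℤ} (h0 : 0 ≤ e0 ∧ e0 < b)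
    (h1 : 0 ≤ e1 ∧ e1 < b) (h2 : 0 ≤ e2 ∧ e2 < b) (h3 : 0 ≤ e3 ∧ e3 < b) (h4 : 0 ≤ e4 ∧ e4 < b)
    (h5 : 0 ≤ e5 ∧ e5 < b) (h6 : 0 ≤ e6 ∧ e6 < b) (h7 : 0 ≤ e7 ∧ e7 < b) :
    0 ≤ p9 b e0 e1 e2 e3 e4 e5 e6 e7 0 ∧ p9 b e0 e1 e2 e3 e4 e5 e6 e7 0 < b ^ 8 := by
  have a8 : 0 ≤ (0 : ℤ) ∧ (0 : ℤ) < 1 := by norm_num
  have a7 := step_bd hb h7 a8
  have a6 := step_bd hb h6 a7
  have a5 := step_bd hb h5 a6
  have a4 := step_bd hb h4 a5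
  have a3 := step_bd hb h3 a4
  have a2 := step_bd hb h2 a3
  have a1 := step_bd hb h1 a2
  have a0 := step_bd hb h0 a1
  refine ⟨a0.1, ?_⟩
  have e : b * (b * (b * (b * (b * (b * (b * (b * 1))))))) = b ^ 8 := by ring
  rw [← e]
  exact a0.2

theorem p9_top (b c0 c1 c2 c3 c4 c5 c6 c7 c8 : ℤ) :
    p9 b c0 c1 c2 c3 c4 c5 c6 c7 c8 = p9 b c0 c1 c2 c3 c4 c5 c6 c7 0 + b ^ 8 * c8 := by
  unfold p9
  ring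

/-- the top digit of a number which is known modulo `b ^ 9` -/
theorem top_digit {b : ℤ} (hb : 0 < b) (x : ℤ) {e0 e1 e2 e3 e4 e5 e6 e7 e8 : ℤ}
    (hx : x ≡ p9 b e0 e1 e2 e3 e4 e5 e6 e7 e8 [ZMOD b ^ 9]) (h0 : 0 ≤ e0 ∧ e0 < b)
    (h1 : 0 ≤ e1 ∧ e1 < b) (h2 : 0 ≤ e2 ∧ e2 < b) (h3 : 0 ≤ e3 ∧ e3 < b) (h4 : 0 ≤ e4 ∧ e4 < b)
    (h5 : 0 ≤ e5 ∧ e5 < b) (h6 : 0 ≤ e6 ∧ e6 < b) (h7 : 0 ≤ e7 ∧ e7 < b) (h8 : 0 ≤ e8 ∧ e8 < b) :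
    x % b ^ 9 / b ^ 8 = e8 := by
  obtain ⟨l0, l1⟩ := low_bd hb h0 h1 h2 h3 h4 h5 h6 h7
  have hb8 : 0 < b ^ 8 := by positivity
  have hlt : p9 b e0 e1 e2 e3 e4 e5 e6 e7 e8 < b ^ 9 := by
    rw [p9_top]
    have e : b ^ 9 = b ^ 8 * b := by ring
    rw [e]
    nlinarith [mul_le_mul_of_nonneg_left (Int.add_one_le_iff.mpr h8.2) hb8.le]
  have hge : 0 ≤ p9 b e0 e1 e2 e3 e4 e5 e6 e7 e8 := by
    rw [p9_top]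
    have := mul_nonneg hb8.le h8.1
    linarith
  have hm : x % b ^ 9 = p9 b e0 e1 e2 e3 e4 e5 e6 e7 e8 := by
    have h := hx
    unfold Int.ModEq at h
    rw [h]
    exact Int.emod_eq_of_lt hge hlt
  rw [hm, p9_top, Int.add_mul_ediv_left _ _ hb8.ne', Int.ediv_eq_zero_of_lt l0 l1, zero_add]

/-- the product of two numbers with nine digits -/
theorem conv9 (b u0 u1 u2 u3 u4 u5 u6 u7 u8 a0 a1 a2 a3 a4 a5 a6 a7 a8 : ℤ) :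
    p9 b u0 u1 u2 u3 u4 u5 u6 u7 u8 * p9 b a0 a1 a2 a3 a4 a5 a6 a7 a8 ≡
    p9 b (u0 * a0) (u0 * a1 + u1 * a0) (u0 * a2 + u1 * a1 + u2 * a0)
      (u0 * a3 + u1 * a2 + u2 * a1 + u3 * a0) (u0 * a4 + u1 * a3 + u2 * a2 + u3 * a1 + u4 * a0)
      (u0 * a5 + u1 * a4 + u2 * a3 + u3 * a2 + u4 * a1 + u5 * a0)
      (u0 * a6 + u1 * a5 + u2 * a4 + u3 * a3 + u4 * a2 + u5 * a1 + u6 * a0)
      (u0 * a7 + u1 * a6 + u2 * a5 + u3 * a4 + u4 * a3 + u5 * a2 + u6 * a1 + u7 * a0)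
      (u0 * a8 + u1 * a7 + u2 * a6 + u3 * a5 + u4 * a4 + u5 * a3 + u6 * a2 + u7 * a1 + u8 * a0)
      [ZMOD b ^ 9] := by
  apply Int.ModEq.symm
  apply Int.modEq_of_dvd
  refine ⟨p9 b (u1 * a8 + u2 * a7 + u3 * a6 + u4 * a5 + u5 * a4 + u6 * a3 + u7 * a2 + u8 * a1)
    (u2 * a8 + u3 * a7 + u4 * a6 + u5 * a5 + u6 * a4 + u7 * a3 + u8 * a2)
    (u3 * a8 + u4 * a7 + u5 * a6 + u6 * a5 + u7 * a4 + u8 * a3)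
    (u4 * a8 + u5 * a7 + u6 * a6 + u7 * a5 + u8 * a4)
    (u5 * a8 + u6 * a7 + u7 * a6 + u8 * a5) (u6 * a8 + u7 * a7 + u8 * a6) (u7 * a8 + u8 * a7)
    (u8 * a8) 0, ?_⟩
  unfold p9
  ring

end Pool.Agent.Helper82.FL
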