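import Mathlib
import Pool.Agent.Helper28.TT.LeafB

/-!
# The leaf lemma with a triangular factor of the metric

`R = (1 / ρ) Lᵀ L` with an upper triangular integer matrix `L`, `P = R⁻¹`.
-/

set_option autoImplicit false

namespace Pool.Agent.Helper82.FL

open Matrix Pool.Agent.Helper28.TT

/-- the upper triangular matrix `[[a,d,e],[0,b,f],[0,0,c]]` -/
structure T3 where
  a : ℤ
  b : ℤ
  c : ℤ
  d : ℤ
  e : ℤ
  f : ℤ

namespace T3

def toM (l : T3) : Matrix (Fin 3) (Fin 3) ℝ :=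
  !![(l.a : ℝ), (l.d : ℝ), (l.e : ℝ); 0, (l.b : ℝ), (l.f : ℝ); 0, 0, (l.c : ℝ)]

def adjM (l : T3) : Matrix (Fin 3) (Fin 3) ℝ :=
  !![(l.b : ℝ) * l.c, -((l.d : ℝ) * l.c), (l.d : ℝ) * l.f - l.e * l.b;
    0, (l.a : ℝ) * l.c, -((l.a : ℝ) * l.f); 0, 0, (l.a : ℝ) * l.b]

def det (l : T3) : ℤ := l.a * (l.b * l.c)

/-- the sum of the squares of the entries of the adjugate -/
def S (l : T3) : ℤ :=
  (l.b * l.c) ^ 2 + (l.d * l.c) ^ 2 + ((l.d * l.f - l.e * l.b) ^ 2 + (l.a * l.c) ^ 2) +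
    ((l.a * l.f) ^ 2 + (l.a * l.b) ^ 2)

def mul (l : T3) (m : M3) : M3 :=
  ⟨l.a * m.a0 + l.d * m.b0 + l.e * m.c0, l.a * m.a1 + l.d * m.b1 + l.e * m.c1,
    l.a * m.a2 + l.d * m.b2 + l.e * m.c2, l.b * m.b0 + l.f * m.c0, l.b * m.b1 + l.f * m.c1,
    l.b * m.b2 + l.f * m.c2, l.c * m.c0, l.c * m.c1, l.c * m.c2⟩

theorem mul_toM (l : T3) (m : M3) : (l.mul m).toM = l.toM * m.toM := by
  unfold mul M3.toM toM
  ext i j
  fin_cases i <;> fin_cases j <;> simp [Matrix.mul_apply, Fin.sum_univ_three]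

theorem toM_mul_adj (l : T3) : l.toM * l.adjM = (l.det : ℝ) • (1 : Matrix (Fin 3) (Fin 3) ℝ) := by
  unfold toM adjM det
  ext i j
  fin_cases i <;> fin_cases j <;>
    simp [Matrix.mul_apply, Fin.sum_univ_three] <;> ring

theorem adj_mul_toM (l : T3) : l.adjM * l.toM = (l.det : ℝ) • (1 : Matrix (Fin 3) (Fin 3) ℝ) := by
  unfold toM adjM det
  ext i j
  fin_cases i <;> fin_cases j <;>
    simp [Matrix.mul_apply, Fin.sum_univ_three] <;> ring

theorem S_real (l : T3) : (l.S : ℝ) = trace (l.adjM * l.adjMᵀ) := by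
  unfold S adjM
  simp only [Matrix.trace, Matrix.diag, Matrix.mul_apply, Fin.sum_univ_three,
    Matrix.transpose_apply]
  simp
  ring

end T3

theorem tmul_self (g : M3) : (M3.tmul g g).toM = g.toMᵀ * g.toM := by
  unfold M3.tmul M3.toM S3.toM
  ext i j
  fin_cases i <;> fin_cases j <;>
    simp [Matrix.mul_apply, Fin.sum_univ_three, Matrix.transpose_apply] <;> ring

/-- the metric -/
noncomputable def RR (l : T3) (rho : ℝ) : Matrix (Fin 3) (Fin 3) ℝ := rho⁻¹ • (l.toMᵀ * l.toM)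

noncomputable def PP (l : T3) (rho : ℝ) : Matrix (Fin 3) (Fin 3) ℝ :=
  (rho / (l.det : ℝ) ^ 2) • (l.adjM * l.adjMᵀ)

theorem PP_mul_RR (l : T3) (rho : ℝ) (hr : 0 < rho) (hd : (l.det : ℝ) ≠ 0) :
    PP l rho * RR l rho = 1 := by
  unfold PP RR
  have h1 : l.adjM * l.adjMᵀ * (l.toMᵀ * l.toM) = ((l.det : ℝ) ^ 2) • 1 := by
    have h2 : l.adjMᵀ * l.toMᵀ = (l.det : ℝ) • (1 : Matrix (Fin 3) (Fin 3) ℝ) := by
      rw [← Matrix.transpose_mul, l.toM_mul_adj, Matrix.transpose_smul, Matrix.transpose_one]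
    calc l.adjM * l.adjMᵀ * (l.toMᵀ * l.toM) = l.adjM * (l.adjMᵀ * l.toMᵀ) * l.toM := by
          simp only [Matrix.mul_assoc]
      _ = ((l.det : ℝ) ^ 2) • 1 := by
          rw [h2, Matrix.mul_smul, Matrix.mul_one, Matrix.smul_mul, l.adj_mul_toM, smul_smul, sq]
  rw [Matrix.smul_mul, Matrix.mul_smul, h1, smul_smul, smul_smul]
  have h3 : rho / (l.det : ℝ) ^ 2 * (rho⁻¹ * (l.det : ℝ) ^ 2) = 1 := by
    field_simp
  rw [show rho / (l.det : ℝ) ^ 2 * rho⁻¹ * (l.det : ℝ) ^ 2 = 1 from by rw [mul_assoc, h3],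
    one_smul]

theorem RR_psd (l : T3) (rho : ℝ) (hr : 0 < rho) : (RR l rho).PosSemidef := by
  unfold RR
  have h1 : (l.toMᵀ * l.toM).PosSemidef := by
    have := Matrix.posSemidef_conjTranspose_mul_self l.toM
    simpa using this
  exact h1.smul (inv_nonneg.2 hr.le)

theorem PP_symm (l : T3) (rho : ℝ) : (PP l rho)ᵀ = PP l rho := by
  unfold PP
  rw [Matrix.transpose_smul, Matrix.transpose_mul, Matrix.transpose_transpose]

theorem PP_trace (l : T3) (rho : ℝ) : trace (PP l rho) = rho * l.S / (l.det : ℝ) ^ 2 := by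
  unfold PP
  rw [trace_smul, ← l.S_real, smul_eq_mul]
  ring

theorem tr_quad (l : T3) (rho : ℝ) (C : M3) (A : Matrix (Fin 3) (Fin 3) ℝ) :
    trace (RR l rho * (C.toM * A * C.toMᵀ)) =
      rho⁻¹ * trace (A * ((l.mul C).toMᵀ * (l.mul C).toM)) := by
  unfold RR
  rw [Matrix.smul_mul, trace_smul, smul_eq_mul, l.mul_toM]
  congr 1
  rw [Matrix.transpose_mul]
  calc trace (l.toMᵀ * l.toM * (C.toM * A * C.toMᵀ))
      = trace ((l.toMᵀ * l.toM * C.toM) * (A * C.toMᵀ)) := by simp only [Matrix.mul_assoc]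
    _ = trace ((A * C.toMᵀ) * (l.toMᵀ * l.toM * C.toM)) := trace_mul_comm _ _
    _ = trace (A * (C.toMᵀ * l.toMᵀ * (l.toM * C.toM))) := by simp only [Matrix.mul_assoc]

theorem tr_cross (l : T3) (rho : ℝ) (C M : M3) :
    trace (RR l rho * (C.toM * M.toMᵀ + M.toM * C.toMᵀ)) =
      2 * rho⁻¹ * (M3.pair (l.mul C) (l.mul M) : ℝ) := by
  rw [m3_pair]
  unfold RR
  rw [Matrix.smul_mul, trace_smul, smul_eq_mul, l.mul_toM, l.mul_toM, Matrix.transpose_mul,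
    Matrix.mul_add, trace_add]
  have h1 : trace (l.toMᵀ * l.toM * (C.toM * M.toMᵀ)) =
      trace (l.toM * C.toM * (M.toMᵀ * l.toMᵀ)) := by
    calc trace (l.toMᵀ * l.toM * (C.toM * M.toMᵀ))
        = trace (l.toMᵀ * (l.toM * C.toM * M.toMᵀ)) := by simp only [Matrix.mul_assoc]
      _ = trace ((l.toM * C.toM * M.toMᵀ) * l.toMᵀ) := trace_mul_comm _ _
      _ = _ := by simp only [Matrix.mul_assoc]
  have h2 : trace (l.toMᵀ * l.toM * (M.toM * C.toMᵀ)) =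
      trace (l.toM * C.toM * (M.toMᵀ * l.toMᵀ)) := by
    rw [← trace_transpose]
    have : (l.toMᵀ * l.toM * (M.toM * C.toMᵀ))ᵀ = C.toM * M.toMᵀ * (l.toMᵀ * l.toM) := by
      simp only [Matrix.transpose_mul, Matrix.transpose_transpose]
    rw [this, trace_mul_comm, h1]
  rw [h1, h2]
  ring

/-- the basic inequality with given scales `n v` -/
theorem cone_bound {ι : Type*} [Fintype ι] (F C M Z P R : Matrix (Fin 3) (Fin 3) ℝ)
    (hZ : (Fᵀ * F) * Z = 1) (hPR : P * R = 1) (hP : Pᵀ = P) (hR : R.PosSemidef)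
    (lam : ι → ℝ) (hlam : ∀ v, 0 ≤ lam v) (A X : ι → Matrix (Fin 3) (Fin 3) ℝ)
    (hF : Fᵀ * F = ∑ v, lam v • A v) (hA : ∀ v, (A v).PosSemidef) (hX : ∀ v, A v * X v = Mᵀ)
    (n : ι → ℝ) (hn : ∀ v, 0 < n v) (D κ μ : ℝ)
    (hK : ∀ v, trace P + trace (R * (C * Mᵀ + M * Cᵀ)) + (n v)⁻¹ * trace (R * (C * A v * Cᵀ)) +
      n v * trace (R * (M * X v)) ≤ D)
    (hκ0 : 0 ≤ κ) (hμ0 : 0 ≤ μ) (hD : D ^ 2 < 16 * (κ * μ)) :
    0 < ∑ v, lam v * n v ∧
    trace (Fᵀ * C) + (∑ v, lam v * n v) * trace ((F * Z)ᵀ * M) < κ + (∑ v, lam v * n v) * μ := by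
  obtain ⟨q, hq⟩ : ∃ q : ℝ, q = ∑ v, lam v * n v := ⟨_, rfl⟩
  rw [← hq]
  have hq0 : 0 ≤ q := by
    rw [hq]
    exact Finset.sum_nonneg fun v _ => mul_nonneg (hlam v) (hn v).le
  have hq1 : q ≠ 0 := by
    intro h0
    rw [hq, Finset.sum_eq_zero_iff_of_nonneg fun v _ => mul_nonneg (hlam v) (hn v).le] at h0
    have h1 : Fᵀ * F = 0 := by
      rw [hF]
      refine Finset.sum_eq_zero fun v hv => ?_
      have h3 : lam v = 0 := by
        rcases mul_eq_zero.mp (h0 v hv) with h | h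
        · exact h
        · exact absurd h (hn v).ne'
      rw [h3, zero_smul]
    rw [h1, Matrix.zero_mul] at hZ
    have h2 := congrFun (congrFun hZ 0) 0
    simp at h2
  have hqp : 0 < q := lt_of_le_of_ne hq0 (Ne.symm hq1)
  obtain ⟨s, hs⟩ : ∃ s : ℝ, s = Real.sqrt q := ⟨_, rfl⟩
  have hs0 : 0 < s := by rw [hs]; exact Real.sqrt_pos.mpr hqp
  have hss : s * s = q := by rw [hs]; exact Real.mul_self_sqrt hq0
  have hF1 : (s⁻¹ • F)ᵀ * (s⁻¹ • F) = ∑ v, (lam v * n v / q) • ((n v)⁻¹ • A v) := by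
    rw [Matrix.transpose_smul, Matrix.smul_mul, Matrix.mul_smul, smul_smul, hF, Finset.smul_sum]
    refine Finset.sum_congr rfl fun v _ => ?_
    rw [smul_smul, smul_smul]
    congr 1
    rw [← hss]
    have := (hn v).ne'
    have := hs0.ne'
    field_simp
  have hZ1 : ((s⁻¹ • F)ᵀ * (s⁻¹ • F)) * (q • Z) = 1 := by
    simp only [Matrix.transpose_smul, Matrix.smul_mul, Matrix.mul_smul, smul_smul, hZ]
    rw [← hss]
    convert one_smul ℝ (1 : Matrix (Fin 3) (Fin 3) ℝ) using 2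
    have := hs0.ne'
    field_simp
  have key := leaf_bound (s⁻¹ • F) C M (q • Z) P R hZ1 hPR hP hR
    (fun v => lam v * n v / q) (fun v => div_nonneg (mul_nonneg (hlam v) (hn v).le) hq0)
    (by rw [← Finset.sum_div, ← hq, div_self hq1])
    (fun v => (n v)⁻¹ • A v) (fun v => (n v) • X v) hF1
    (fun v => (hA v).smul (inv_nonneg.2 (hn v).le))
    (fun v => by
      rw [Matrix.smul_mul, Matrix.mul_smul, smul_smul, inv_mul_cancel₀ (hn v).ne', one_smul, hX v])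
    (D - trace P) (fun v => by
      have e1 : trace (R * (C * ((n v)⁻¹ • A v) * Cᵀ + C * Mᵀ + M * Cᵀ + M * ((n v) • X v))) =
          (n v)⁻¹ * trace (R * (C * A v * Cᵀ)) + trace (R * (C * Mᵀ + M * Cᵀ)) +
          (n v) * trace (R * (M * X v)) := by
        simp only [Matrix.mul_smul, Matrix.smul_mul, Matrix.mul_add, trace_add, trace_smul,
          smul_eq_mul]
        ring
      rw [e1]
      have := hK v
      linarith)
  have e2 : trace ((s⁻¹ • F)ᵀ * C) = s⁻¹ * trace (Fᵀ * C) := by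
    rw [Matrix.transpose_smul, Matrix.smul_mul, trace_smul, smul_eq_mul]
  have e3 : trace ((s⁻¹ • F * (q • Z))ᵀ * M) = s * trace ((F * Z)ᵀ * M) := by
    rw [Matrix.smul_mul, Matrix.mul_smul, smul_smul, Matrix.transpose_smul, Matrix.smul_mul,
      trace_smul, smul_eq_mul, ← hss]
    congr 1
    have := hs0.ne'
    field_simp
  rw [e2, e3] at key
  have h9 : 0 ≤ s⁻¹ * κ + s * μ := by positivity
  have h7 : 4 * (κ * μ) ≤ (s⁻¹ * κ + s * μ) ^ 2 := by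
    have h8 : (s⁻¹ * κ) * (s * μ) = κ * μ := by
      have := hs0.ne'
      field_simp
    nlinarith [sq_nonneg (s⁻¹ * κ - s * μ)]
  have h10 : D < 2 * (s⁻¹ * κ + s * μ) := by
    by_contra hcon
    push Not at hcon
    nlinarith
  have h11 : s⁻¹ * trace (Fᵀ * C) + s * trace ((F * Z)ᵀ * M) < s⁻¹ * κ + s * μ := by linarith
  refine ⟨hqp, ?_⟩
  have h12 := mul_lt_mul_of_pos_left h11 hs0
  have h13 : s * (s⁻¹ * trace (Fᵀ * C) + s * trace ((F * Z)ᵀ * M)) =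
      trace (Fᵀ * C) + q * trace ((F * Z)ᵀ * M) := by
    rw [← hss]
    have := hs0.ne'
    field_simp
  have h14 : s * (s⁻¹ * κ + s * μ) = κ + q * μ := by
    rw [← hss]
    have := hs0.ne'
    field_simp
  rw [h13, h14] at h12
  exact h12

/-- the value of the quadratic part -/
def qa (l : T3) (A : S3) (C : M3) : ℤ := S3.pair A (M3.tmul (l.mul C) (l.mul C))

/-- the number `E` -/
def EE (l : T3) (rho D : ℤ) (C M : M3) : ℤ :=
  rho * l.det ^ 2 * D - rho ^ 2 * l.S - 2 * l.det ^ 2 * M3.pair (l.mul C) (l.mul M)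

theorem qa_real (l : T3) (rho : ℝ) (A : S3) (C : M3) :
    trace (RR l rho * (C.toM * A.toM * C.toMᵀ)) = rho⁻¹ * (qa l A C : ℝ) := by
  rw [tr_quad]
  unfold qa
  rw [pair_real, tmul_self]

section

variable {ι : Type*} [Fintype ι] (F Z : Matrix (Fin 3) (Fin 3) ℝ) (hZ : (Fᵀ * F) * Z = 1)
  (lam : ι → ℝ) (hlam : ∀ v, 0 ≤ lam v) (A B : ι → S3) (d : ι → ℤ) (hd : ∀ v, 0 < d v)
  (hpsd : ∀ v, (A v).toM.PosSemidef) (C M : M3)
  (hinv : ∀ v, (A v).toM * ((B v).toM * M.toMᵀ) = (d v : ℝ) • M.toMᵀ)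
  (hF : Fᵀ * F = ∑ v, lam v • (A v).toM) (l : T3) (ha : 0 < l.a) (hb : 0 < l.b) (hc : 0 < l.c)
  (rho D κ μ : ℤ) (hr : 0 < rho) (ω : ℝ) (hω : 0 < ω) (hκ0 : 0 ≤ κ) (hμ0 : 0 ≤ μ)
  (hD : (D : ℝ) ^ 2 < 16 * ((κ : ℝ) * (ω * μ)))

include hZ hlam hd hpsd hinv hF ha hb hc hr hω hκ0 hμ0 hD

/-- **the test with given scales** -/
theorem tri_test (n : ι → ℝ) (hn : ∀ v, 0 < n v)
    (hT : ∀ v, (l.det : ℝ) ^ 2 * ((d v : ℝ) * (qa l (A v) C : ℝ) + (n v) ^ 2 * (qa l (B v) M : ℝ)) ≤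
      n v * (d v : ℝ) * (EE l rho D C M : ℝ)) :
    0 < ∑ v, lam v * n v ∧
    trace (Fᵀ * C.toM) + (∑ v, lam v * n v) * trace ((F * Z)ᵀ * M.toM) <
      κ + (∑ v, lam v * n v) * (ω * μ) := by
  have hr' : (0 : ℝ) < rho := by exact_mod_cast hr
  have hdet : (0 : ℤ) < l.det := mul_pos ha (mul_pos hb hc)
  have hdet' : (0 : ℝ) < l.det := by exact_mod_cast hdet
  have hdv : ∀ v, (0 : ℝ) < (d v : ℝ) := fun v => by exact_mod_cast hd v
  refine cone_bound F C.toM M.toM Z (PP l rho) (RR l rho) hZ (PP_mul_RR l rho hr' hdet'.ne')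
    (PP_symm l rho) (RR_psd l rho hr') lam hlam (fun v => (A v).toM)
    (fun v => (d v : ℝ)⁻¹ • ((B v).toM * M.toMᵀ)) hF hpsd (fun v => ?_) n hn D κ (ω * μ)
    (fun v => ?_) (by exact_mod_cast hκ0) (mul_nonneg hω.le (by exact_mod_cast hμ0)) hD
  · rw [Matrix.mul_smul, hinv v, smul_smul, inv_mul_cancel₀ (hdv v).ne', one_smul]
  · have e1 : trace (RR l rho * (M.toM * ((d v : ℝ)⁻¹ • ((B v).toM * M.toMᵀ)))) =
        (d v : ℝ)⁻¹ * ((rho : ℝ)⁻¹ * (qa l (B v) M : ℝ)) := by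
      rw [Matrix.mul_smul, Matrix.mul_smul, trace_smul, smul_eq_mul, ← qa_real, Matrix.mul_assoc]
    rw [PP_trace, tr_cross, qa_real, e1]
    have h1 := hT v
    have hnv := hn v
    have hdvv := hdv v
    unfold EE at h1
    push_cast at h1
    rw [← sub_nonneg] at h1 ⊢
    have h2 : (D : ℝ) - (↑rho * ↑l.S / (l.det : ℝ) ^ 2 +
        2 * (rho : ℝ)⁻¹ * ((M3.pair (l.mul C) (l.mul M) : ℤ) : ℝ) +
        (n v)⁻¹ * ((rho : ℝ)⁻¹ * (qa l (A v) C : ℝ)) +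
        n v * ((d v : ℝ)⁻¹ * ((rho : ℝ)⁻¹ * (qa l (B v) M : ℝ)))) =
        (n v * (d v : ℝ) * ((rho : ℝ) * (l.det : ℝ) ^ 2 * D - (rho : ℝ) ^ 2 * l.S -
          2 * (l.det : ℝ) ^ 2 * ((M3.pair (l.mul C) (l.mul M) : ℤ) : ℝ)) -
        (l.det : ℝ) ^ 2 * ((d v : ℝ) * (qa l (A v) C : ℝ) + (n v) ^ 2 * (qa l (B v) M : ℝ))) /
        (rho * (l.det : ℝ) ^ 2 * n v * d v) := by
      field_simp
      ring
    rw [h2]
    exact div_nonneg h1 (by positivity)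

/-- **the test with free scales** -/
theorem tri_free (hE : 0 < EE l rho D C M)
    (hT : ∀ v, 4 * (l.det ^ 2) ^ 2 * (qa l (A v) C * qa l (B v) M) ≤
      (EE l rho D C M) ^ 2 * d v) :
    ∃ σ : ℝ, 0 < σ ∧
    trace (Fᵀ * C.toM) + σ * trace ((F * Z)ᵀ * M.toM) < κ + σ * (ω * μ) := by
  have hr' : (0 : ℝ) < rho := by exact_mod_cast hr
  have hdet : (0 : ℤ) < l.det := mul_pos ha (mul_pos hb hc)
  have hdet' : (0 : ℝ) < l.det := by exact_mod_cast hdet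
  have hdv : ∀ v, (0 : ℝ) < (d v : ℝ) := fun v => by exact_mod_cast hd v
  have hE' : (0 : ℝ) < (EE l rho D C M : ℝ) := by exact_mod_cast hE
  have hX : ∀ v, (A v).toM * ((d v : ℝ)⁻¹ • ((B v).toM * M.toMᵀ)) = M.toMᵀ := by
    intro v
    rw [Matrix.mul_smul, hinv v, smul_smul, inv_mul_cancel₀ (hdv v).ne', one_smul]
  have e1 : ∀ v, trace (RR l rho * (M.toM * ((d v : ℝ)⁻¹ • ((B v).toM * M.toMᵀ)))) =
      (d v : ℝ)⁻¹ * ((rho : ℝ)⁻¹ * (qa l (B v) M : ℝ)) := by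
    intro v
    rw [Matrix.mul_smul, Matrix.mul_smul, trace_smul, smul_eq_mul, ← qa_real, Matrix.mul_assoc]
  have hα : ∀ v, 0 ≤ (rho : ℝ)⁻¹ * (qa l (A v) C : ℝ) := by
    intro v
    rw [← qa_real]
    have := trace_conj_nonneg (RR l rho) ((A v).toM) (C.toMᵀ) (RR_psd l rho hr') (hpsd v)
    simpa using this
  have hβ : ∀ v, 0 ≤ (d v : ℝ)⁻¹ * ((rho : ℝ)⁻¹ * (qa l (B v) M : ℝ)) := by
    intro v
    rw [← e1 v]
    have := trace_conj_nonneg (RR l rho) ((A v).toM) ((d v : ℝ)⁻¹ • ((B v).toM * M.toMᵀ))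
      (RR_psd l rho hr') (hpsd v)
    have e := hX v
    have hAs := (A v).toM_transpose
    have e2 : ((d v : ℝ)⁻¹ • ((B v).toM * M.toMᵀ))ᵀ * (A v).toM = M.toM := by
      have := congrArg transpose e
      rw [Matrix.transpose_mul, hAs, Matrix.transpose_transpose] at this
      exact this
    rw [e2] at this
    exact this
  obtain ⟨T, hTd⟩ : ∃ T : ℝ, T = trace (PP l rho) +
      trace (RR l rho * (C.toM * M.toMᵀ + M.toM * C.toMᵀ)) := ⟨_, rfl⟩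
  have hDT : (D : ℝ) - T = (EE l rho D C M : ℝ) / (rho * (l.det : ℝ) ^ 2) := by
    rw [hTd, PP_trace, tr_cross]
    unfold EE
    push_cast
    field_simp
    ring
  have hDT0 : 0 < (D : ℝ) - T := by
    rw [hDT]
    positivity
  have hs : ∀ v, ∃ a : ℝ, 0 < a ∧ a * ((rho : ℝ)⁻¹ * (qa l (A v) C : ℝ)) +
      ((d v : ℝ)⁻¹ * ((rho : ℝ)⁻¹ * (qa l (B v) M : ℝ))) / a ≤ D - T := by
    intro v
    refine exists_scale _ _ _ (hα v) (hβ v) hDT0 ?_
    have h1 := hT v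
    have h2 : 4 * ((l.det : ℝ) ^ 2) ^ 2 * ((qa l (A v) C : ℝ) * (qa l (B v) M : ℝ)) ≤
        ((EE l rho D C M : ℤ) : ℝ) ^ 2 * d v := by exact_mod_cast h1
    have hdvv := hdv v
    rw [hDT, div_pow, le_div_iff₀ (by positivity)]
    have h3 : 4 * ((rho : ℝ)⁻¹ * (qa l (A v) C : ℝ) *
        ((d v : ℝ)⁻¹ * ((rho : ℝ)⁻¹ * (qa l (B v) M : ℝ)))) * (rho * (l.det : ℝ) ^ 2) ^ 2 =
        (4 * ((l.det : ℝ) ^ 2) ^ 2 * ((qa l (A v) C : ℝ) * (qa l (B v) M : ℝ))) / d v := by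
      field_simp
    rw [h3, div_le_iff₀ hdvv]
    exact h2
  choose a ha0 haT using hs
  have key := cone_bound F C.toM M.toM Z (PP l rho) (RR l rho) hZ (PP_mul_RR l rho hr' hdet'.ne')
    (PP_symm l rho) (RR_psd l rho hr') lam hlam (fun v => (A v).toM)
    (fun v => (d v : ℝ)⁻¹ • ((B v).toM * M.toMᵀ)) hF hpsd hX (fun v => (a v)⁻¹)
    (fun v => inv_pos.2 (ha0 v)) D κ (ω * μ)
    (fun v => by
      rw [e1, qa_real, ← hTd, inv_inv]
      have := haT v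
      rw [div_eq_inv_mul] at this
      linarith) (by exact_mod_cast hκ0) (mul_nonneg hω.le (by exact_mod_cast hμ0)) hD
  exact ⟨_, key.1, key.2⟩

end

end Pool.Agent.Helper82.FL
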