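import Mathlib
import Pool.Agent.Helper82.FL.Dig
import Pool.Agent.Helper82.FL.Tri

/-!
# The packed matrices

Rows of integer matrices as natural numbers modulo `b ^ 9`, scalar products as top digits.
-/

set_option autoImplicit false

namespace Pool.Agent.Helper82.FL

open Pool.Agent.Helper28.TT

/-- `x` stands for `z` modulo `b ^ 9` -/
def Rs (x : ℕ) (z : ℤ) : Prop := (x : ℤ) ≡ z [ZMOD (B1 : ℤ) ^ 9]

theorem Rs.add {x y : ℕ} {z w : ℤ} (h : Rs x z) (h' : Rs y w) : Rs (x + y) (z + w) := by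
  unfold Rs at *
  push_cast
  exact h.add h'

theorem Rs.mul {x y : ℕ} {z w : ℤ} (h : Rs x z) (h' : Rs y w) : Rs (x * y) (z * w) := by
  unfold Rs at *
  push_cast
  exact h.mul h'

theorem Rs.refl (x : ℕ) : Rs x (x : ℤ) := Int.ModEq.refl _

theorem Rs.congr {x : ℕ} {z w : ℤ} (h : Rs x z) (e : z = w) : Rs x w := e ▸ h

theorem Rs.mod {x : ℕ} {z : ℤ} (h : Rs x z) : Rs (x % B9) z := by
  unfold Rs at *
  rw [B9_eq]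
  push_cast
  exact (Int.mod_modEq _ _).trans h

theorem Rs.of_eq {x : ℕ} {z q : ℤ} (h : (x : ℤ) = z + (B1 : ℤ) ^ 9 * q) : Rs x z := by
  unfold Rs
  rw [h]
  exact Int.modEq_iff_dvd.mpr ⟨-q, by ring⟩

theorem B1_int : (B1 : ℤ) = 2 ^ 256 := by
  rw [B1_eq]
  push_cast

theorem B1_pos : (0 : ℤ) < (B1 : ℤ) := by
  rw [B1_int]
  norm_num

theorem bd_add {x y A B : ℤ} (hx : |x| ≤ A) (hy : |y| ≤ B) : |x + y| ≤ A + B :=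
  (abs_add_le x y).trans (add_le_add hx hy)

theorem bd_mul {x y A B : ℤ} (hx : |x| ≤ A) (hy : |y| ≤ B) : |x * y| ≤ A * B := by
  rw [abs_mul]
  exact mul_le_mul hx hy (abs_nonneg y) ((abs_nonneg x).trans hx)

/-- a shifted digit -/
theorem sh {c N : ℤ} (h : |c| ≤ N) (hN : N < 2 ^ 255) : 0 ≤ c + 2 ^ 255 ∧ c + 2 ^ 255 < (B1 : ℤ) := by
  rw [B1_int]
  have h1 := (abs_le.mp h).1
  have h2 := (abs_le.mp h).2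
  have e : (2 : ℤ) ^ 256 = 2 ^ 255 + 2 ^ 255 := by norm_num
  rw [e]
  constructor <;> linarith

section

variable {u a : ℕ} {u0 u1 u2 u3 u4 u5 u6 u7 u8 a0 a1 a2 a3 a4 a5 a6 a7 a8 X : ℤ}

/-- the top digit of a product -/
theorem prod_top (hu : Rs u (p9 B1 u0 u1 u2 u3 u4 u5 u6 u7 u8))
    (ha : Rs a (p9 B1 a0 a1 a2 a3 a4 a5 a6 a7 a8))
    (b0 : |u0| ≤ 2 ^ 150) (b1 : |u1| ≤ 2 ^ 150) (b2 : |u2| ≤ 2 ^ 150) (b3 : |u3| ≤ 2 ^ 150)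
    (b4 : |u4| ≤ 2 ^ 150) (b5 : |u5| ≤ 2 ^ 150) (b6 : |u6| ≤ 2 ^ 150) (b7 : |u7| ≤ 2 ^ 150)
    (c0 : |a0| ≤ 2 ^ 100) (c1 : |a1| ≤ 2 ^ 100) (c2 : |a2| ≤ 2 ^ 100) (c3 : |a3| ≤ 2 ^ 100)
    (c4 : |a4| ≤ 2 ^ 100) (c5 : |a5| ≤ 2 ^ 100) (c6 : |a6| ≤ 2 ^ 100) (c7 : |a7| ≤ 2 ^ 100)
    (T : ℤ) (hT : T = u0 * a8 + u1 * a7 + u2 * a6 + u3 * a5 + u4 * a4 + u5 * a3 + u6 * a2 + u7 * a1 +
      u8 * a0) (s : ℤ) (hs : 0 ≤ T + s ∧ T + s < (B1 : ℤ)) :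
    ((u : ℤ) * a + (2 ^ 255 * (1 + (B1 : ℤ) + B1 ^ 2 + B1 ^ 3 + B1 ^ 4 + B1 ^ 5 + B1 ^ 6 + B1 ^ 7) +
      s * B1 ^ 8)) % (B1 : ℤ) ^ 9 / B1 ^ 8 = T + s := by
  have N : ∀ {x y : ℤ}, |x| ≤ 2 ^ 150 → |y| ≤ 2 ^ 100 → |x * y| ≤ 2 ^ 250 := by
    intro x y hx hy
    have := bd_mul hx hy
    rw [← pow_add] at this
    exact this
  have h1 := (Int.ModEq.mul hu ha).trans (conv9 _ _ _ _ _ _ _ _ _ _ _ _ _ _ _ _ _ _ _)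
  have h2 := h1.add_right (2 ^ 255 * (1 + (B1 : ℤ) + B1 ^ 2 + B1 ^ 3 + B1 ^ 4 + B1 ^ 5 + B1 ^ 6 +
    B1 ^ 7) + s * B1 ^ 8)
  refine top_digit B1_pos _ (h2.trans (Int.ModEq.symm ?_)) (sh (N b0 c0) (by norm_num))
    (sh (bd_add (N b0 c1) (N b1 c0)) (by norm_num))
    (sh (bd_add (bd_add (N b0 c2) (N b1 c1)) (N b2 c0)) (by norm_num))
    (sh (bd_add (bd_add (bd_add (N b0 c3) (N b1 c2)) (N b2 c1)) (N b3 c0)) (by norm_num))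
    (sh (bd_add (bd_add (bd_add (bd_add (N b0 c4) (N b1 c3)) (N b2 c2)) (N b3 c1)) (N b4 c0))
      (by norm_num))
    (sh (bd_add (bd_add (bd_add (bd_add (bd_add (N b0 c5) (N b1 c4)) (N b2 c3)) (N b3 c2))
      (N b4 c1)) (N b5 c0)) (by norm_num))
    (sh (bd_add (bd_add (bd_add (bd_add (bd_add (bd_add (N b0 c6) (N b1 c5)) (N b2 c4)) (N b3 c3))
      (N b4 c2)) (N b5 c1)) (N b6 c0)) (by norm_num))
    (sh (bd_add (bd_add (bd_add (bd_add (bd_add (bd_add (bd_add (N b0 c7) (N b1 c6)) (N b2 c5))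
      (N b3 c4)) (N b4 c3)) (N b5 c2)) (N b6 c1)) (N b7 c0)) (by norm_num)) hs
  rw [hT]
  apply Int.modEq_of_dvd
  refine ⟨0, ?_⟩
  unfold p9
  ring

end

/-- reversed digits of a symmetric matrix -/
def pS (A : S3) : ℤ := p9 B1 A.c A.f A.e A.f A.b A.d A.e A.d A.a

/-- bounded entries -/
def S3bd (A : S3) (Y : ℤ) : Prop :=
  |A.a| ≤ Y ∧ |A.b| ≤ Y ∧ |A.c| ≤ Y ∧ |A.d| ≤ Y ∧ |A.e| ≤ Y ∧ |A.f| ≤ Y

/-- bounded entries -/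
def M3bd (A : M3) (Y : ℤ) : Prop :=
  |A.a0| ≤ Y ∧ |A.a1| ≤ Y ∧ |A.a2| ≤ Y ∧ |A.b0| ≤ Y ∧ |A.b1| ≤ Y ∧ |A.b2| ≤ Y ∧
    |A.c0| ≤ Y ∧ |A.c1| ≤ Y ∧ |A.c2| ≤ Y

/-- the rows of a matrix in both strides -/
structure Rows (m : M3) (x0 x1 x2 y0 y1 y2 : ℕ) : Prop where
  x0 : Rs x0 (m.a0 + m.a1 * B1 + m.a2 * B1 ^ 2)
  x1 : Rs x1 (m.b0 + m.b1 * B1 + m.b2 * B1 ^ 2)
  x2 : Rs x2 (m.c0 + m.c1 * B1 + m.c2 * B1 ^ 2)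
  y0 : Rs y0 (m.a0 + m.a1 * B1 ^ 3 + m.a2 * B1 ^ 6)
  y1 : Rs y1 (m.b0 + m.b1 * B1 ^ 3 + m.b2 * B1 ^ 6)
  y2 : Rs y2 (m.c0 + m.c1 * B1 ^ 3 + m.c2 * B1 ^ 6)

/-- digits of `Gᵀ H` -/
def pT (g h : M3) : ℤ :=
  p9 B1 (g.a0 * h.a0 + g.b0 * h.b0 + g.c0 * h.c0) (g.a1 * h.a0 + g.b1 * h.b0 + g.c1 * h.c0)
    (g.a2 * h.a0 + g.b2 * h.b0 + g.c2 * h.c0) (g.a0 * h.a1 + g.b0 * h.b1 + g.c0 * h.c1)
    (g.a1 * h.a1 + g.b1 * h.b1 + g.c1 * h.c1) (g.a2 * h.a1 + g.b2 * h.b1 + g.c2 * h.c1)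
    (g.a0 * h.a2 + g.b0 * h.b2 + g.c0 * h.c2) (g.a1 * h.a2 + g.b1 * h.b2 + g.c1 * h.c2)
    (g.a2 * h.a2 + g.b2 * h.b2 + g.c2 * h.c2)

theorem uu_spec {g h : M3} {x0 x1 x2 y0 y1 y2 z0 z1 z2 w0 w1 w2 : ℕ}
    (hg : Rows g x0 x1 x2 y0 y1 y2) (hh : Rows h z0 z1 z2 w0 w1 w2) :
    Rs (uu x0 x1 x2 w0 w1 w2) (pT g h) := by
  have h1 := (((hg.x0.mul hh.y0).add (hg.x1.mul hh.y1)).add (hg.x2.mul hh.y2)).mod
  refine Rs.congr (x := uu x0 x1 x2 w0 w1 w2) h1 ?_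
  unfold pT p9
  ring

/-- a triangular factor with residues -/
structure TRes (l : T3) (a b c d e f : ℕ) : Prop where
  a : Rs a l.a
  b : Rs b l.b
  c : Rs c l.c
  d : Rs d l.d
  e : Rs e l.e
  f : Rs f l.f

theorem rows_mul {l : T3} {a b c d e f : ℕ} (hl : TRes l a b c d e f) {m : M3}
    {x0 x1 x2 y0 y1 y2 : ℕ} (hm : Rows m x0 x1 x2 y0 y1 y2) :
    Rows (l.mul m) (r0 a d e x0 x1 x2) (r1 b f x1 x2) (Nat.mul c x2)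
      (r0 a d e y0 y1 y2) (r1 b f y1 y2) (Nat.mul c y2) where
  x0 := Rs.congr (((hl.a.mul hm.x0).add (hl.d.mul hm.x1)).add (hl.e.mul hm.x2)) (by
    simp only [T3.mul]; ring)
  x1 := Rs.congr ((hl.b.mul hm.x1).add (hl.f.mul hm.x2)) (by simp only [T3.mul]; ring)
  x2 := Rs.congr (hl.c.mul hm.x2) (by simp only [T3.mul]; ring)
  y0 := Rs.congr (((hl.a.mul hm.y0).add (hl.d.mul hm.y1)).add (hl.e.mul hm.y2)) (by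
    simp only [T3.mul]; ring)
  y1 := Rs.congr ((hl.b.mul hm.y1).add (hl.f.mul hm.y2)) (by simp only [T3.mul]; ring)
  y2 := Rs.congr (hl.c.mul hm.y2) (by simp only [T3.mul]; ring)

theorem bd3 {x y z x' y' z' : ℤ} (h1 : |x| ≤ 2 ^ 74) (h2 : |y| ≤ 2 ^ 74) (h3 : |z| ≤ 2 ^ 74)
    (h1' : |x'| ≤ 2 ^ 74) (h2' : |y'| ≤ 2 ^ 74) (h3' : |z'| ≤ 2 ^ 74) :
    |x * x' + y * y' + z * z'| ≤ 2 ^ 150 := by
  have := bd_add (bd_add (bd_mul h1 h1') (bd_mul h2 h2')) (bd_mul h3 h3')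
  refine this.trans ?_
  norm_num

/-- the scalar product with a symmetric matrix -/
theorem dig_pair {g : M3} {u a : ℕ} {A : S3} (hu : Rs u (pT g g)) (ha : Rs a (pS A))
    (hg : M3bd g (2 ^ 74)) (hA : S3bd A (2 ^ 100)) (h0 : 0 ≤ S3.pair A (M3.tmul g g)) :
    (dig u a : ℤ) = S3.pair A (M3.tmul g g) := by
  obtain ⟨g1, g2, g3, g4, g5, g6, g7, g8, g9⟩ := hg
  obtain ⟨c1, c2, c3, c4, c5, c6⟩ := hA
  have hlt : S3.pair A (M3.tmul g g) < (B1 : ℤ) := by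
    have t1 := (bd_mul c1 (bd3 g1 g4 g7 g1 g4 g7))
    have t2 := (bd_mul c2 (bd3 g2 g5 g8 g2 g5 g8))
    have t3 := (bd_mul c3 (bd3 g3 g6 g9 g3 g6 g9))
    have t4 := (bd_mul c4 (bd3 g1 g4 g7 g2 g5 g8))
    have t5 := (bd_mul c5 (bd3 g1 g4 g7 g3 g6 g9))
    have t6 := (bd_mul c6 (bd3 g2 g5 g8 g3 g6 g9))
    have e : (2 : ℤ) ^ 100 * 2 ^ 150 = 2 ^ 250 := by norm_num
    rw [e] at t1 t2 t3 t4 t5 t6
    unfold S3.pair M3.tmul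
    rw [B1_int]
    have e2 : (2 : ℤ) ^ 256 = 64 * 2 ^ 250 := by norm_num
    rw [e2]
    have s1 := (abs_le.mp t1).2
    have s2 := (abs_le.mp t2).2
    have s3 := (abs_le.mp t3).2
    have s4 := (abs_le.mp t4).2
    have s5 := (abs_le.mp t5).2
    have s6 := (abs_le.mp t6).2
    have e3 : (0 : ℤ) < 2 ^ 250 := by norm_num
    linarith
  have key := prod_top (a := a) (u := u) hu ha (bd3 g1 g4 g7 g1 g4 g7) (bd3 g2 g5 g8 g1 g4 g7)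
    (bd3 g3 g6 g9 g1 g4 g7) (bd3 g1 g4 g7 g2 g5 g8) (bd3 g2 g5 g8 g2 g5 g8)
    (bd3 g3 g6 g9 g2 g5 g8) (bd3 g1 g4 g7 g3 g6 g9) (bd3 g2 g5 g8 g3 g6 g9)
    c3 c6 c5 c6 c2 c4 c5 c4 (S3.pair A (M3.tmul g g)) (by unfold S3.pair M3.tmul; ring) 0
    (by rw [add_zero]; exact ⟨h0, hlt⟩)
  rw [add_zero, zero_mul, add_zero] at key
  have e : ((dig u a : ℕ) : ℤ) = ((u : ℤ) * a + 2 ^ 255 * (1 + (B1 : ℤ) + B1 ^ 2 + B1 ^ 3 + B1 ^ 4 +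
      B1 ^ 5 + B1 ^ 6 + B1 ^ 7)) % (B1 : ℤ) ^ 9 / B1 ^ 8 := by
    have : dig u a = (u * a + BI8) % B9 / B8 := rfl
    rw [this, BI8_eq, B9_eq, B8_eq]
    push_cast
    rfl
  rw [e, key]

/-- the scalar product of two matrices, shifted -/
theorem tra_pair {g h : M3} {t : ℕ} (ht : Rs t (pT g h)) (hg : M3bd g (2 ^ 74))
    (hh : M3bd h (2 ^ 74)) :
    ((Nat.div (Nat.mod (Nat.add (Nat.mul t JJ) BI9) B9) B8 : ℕ) : ℤ) = M3.pair g h + 2 ^ 255 := by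
  obtain ⟨g1, g2, g3, g4, g5, g6, g7, g8, g9⟩ := hg
  obtain ⟨k1, k2, k3, k4, k5, k6, k7, k8, k9⟩ := hh
  have hJ : Rs JJ (p9 B1 1 0 0 0 1 0 0 0 1) := by
    refine Rs.congr (Rs.refl JJ) ?_
    rw [JJ_eq]
    unfold p9
    push_cast
    ring
  have o1 : |(1 : ℤ)| ≤ 2 ^ 100 := by norm_num
  have o0 : |(0 : ℤ)| ≤ 2 ^ 100 := by norm_num
  have hT : |M3.pair g h| ≤ 2 ^ 150 + 2 ^ 150 + 2 ^ 150 := by
    have := bd_add (bd_add (bd3 g1 g4 g7 k1 k4 k7) (bd3 g2 g5 g8 k2 k5 k8)) (bd3 g3 g6 g9 k3 k6 k9)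
    refine le_trans (le_of_eq ?_) this
    congr 1
    unfold M3.pair
    ring
  have key := prod_top (a := JJ) (u := t) ht hJ (bd3 g1 g4 g7 k1 k4 k7) (bd3 g2 g5 g8 k1 k4 k7)
    (bd3 g3 g6 g9 k1 k4 k7) (bd3 g1 g4 g7 k2 k5 k8) (bd3 g2 g5 g8 k2 k5 k8)
    (bd3 g3 g6 g9 k2 k5 k8) (bd3 g1 g4 g7 k3 k6 k9) (bd3 g2 g5 g8 k3 k6 k9)
    o1 o0 o0 o0 o1 o0 o0 o0 (M3.pair g h) (by unfold M3.pair; ring) (2 ^ 255)
    (sh hT (by norm_num))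
  have e : ((Nat.div (Nat.mod (Nat.add (Nat.mul t JJ) BI9) B9) B8 : ℕ) : ℤ) =
      ((t : ℤ) * JJ + (2 ^ 255 * (1 + (B1 : ℤ) + B1 ^ 2 + B1 ^ 3 + B1 ^ 4 +
      B1 ^ 5 + B1 ^ 6 + B1 ^ 7) + 2 ^ 255 * B1 ^ 8)) % (B1 : ℤ) ^ 9 / B1 ^ 8 := by
    have : Nat.div (Nat.mod (Nat.add (Nat.mul t JJ) BI9) B9) B8 = (t * JJ + BI9) % B9 / B8 := rfl
    rw [this, BI9_eq, B9_eq, B8_eq]
    push_cast
    congr 2
  rw [e, key]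

theorem pk_spec (a b c d e f : ℕ) :
    Rs (pk a b c d e f) (pS ⟨a, b, c, d, e, f⟩) := by
  refine Rs.congr (Rs.refl _) ?_
  have : pk a b c d e f = a * B8 + (d * K75 + (e * K62 + (b * B4 + (f * K31 + c)))) := rfl
  rw [this, B8_eq, K75_eq, K62_eq, B4_eq, K31_eq]
  unfold pS p9
  push_cast
  ring

theorem pkA_spec (a b c d e f : ℕ) :
    Rs (pkA a b c d e f) (pS ⟨a, b, c, -d, -e, -f⟩) := by
  have : pkA a b c d e f = a * B8 + (d * N75 + (e * N62 + (b * B4 + (f * N31 + c)))) := rfl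
  have h1 : (N75 : ℤ) = B1 ^ 9 - (B1 ^ 7 + B1 ^ 5) := by
    have := N75_eq
    have h : (N75 : ℤ) + (B1 ^ 7 + B1 ^ 5) = B1 ^ 9 := by exact_mod_cast this
    linarith
  have h2 : (N62 : ℤ) = B1 ^ 9 - (B1 ^ 6 + B1 ^ 2) := by
    have := N62_eq
    have h : (N62 : ℤ) + (B1 ^ 6 + B1 ^ 2) = B1 ^ 9 := by exact_mod_cast this
    linarith
  have h3 : (N31 : ℤ) = B1 ^ 9 - (B1 ^ 3 + B1) := by
    have := N31_eq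
    have h : (N31 : ℤ) + (B1 ^ 3 + B1) = B1 ^ 9 := by exact_mod_cast this
    linarith
  refine Rs.of_eq (q := d + e + f) ?_
  rw [this, B8_eq, B4_eq]
  push_cast
  rw [h1, h2, h3]
  unfold pS p9
  ring

end Pool.Agent.Helper82.FL
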