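import Mathlib
import Pool.Agent.Helper82.FL.Dig2

/-!
# The corners

For an admissible corner with the form `A` there are `B`, `N` with `A B + N = d`, packed in the corner.
-/

set_option autoImplicit false

namespace Pool.Agent.Helper82.FL

open Matrix Pool.Agent.Helper28.TT

/-- the form of a corner -/
def formS (v : V) : S3 := ofP v.p0 v.p1 v.p2 v.p3 v.p4 v.p5

/-- the form of a corner as a real matrix -/
def formV (v : V) : Matrix (Fin 3) (Fin 3) ℝ := (formS v).toM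

/-- admissible corners -/
def okV (v : V) : Prop :=
  v = mkV v.p0 v.p1 v.p2 v.p3 v.p4 v.p5 v.s ∧ v.l ≤ 140737488355328 ∧ 1 ≤ v.d

theorem psd_of_quad (A : S3) (h : ∀ x y z : ℝ, 0 ≤ (A.a : ℝ) * x ^ 2 + A.b * y ^ 2 + A.c * z ^ 2 +
    2 * (A.d * (x * y) + A.e * (x * z) + A.f * (y * z))) : A.toM.PosSemidef := by
  refine Matrix.PosSemidef.of_dotProduct_mulVec_nonneg ?_ ?_
  · have := A.toM_transpose
    simpa [Matrix.IsHermitian] using this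
  · intro x
    have e : star x ⬝ᵥ A.toM *ᵥ x =
        (A.a : ℝ) * x 0 ^ 2 + A.b * x 1 ^ 2 + A.c * x 2 ^ 2 +
        2 * (A.d * (x 0 * x 1) + A.e * (x 0 * x 2) + A.f * (x 1 * x 2)) := by
      unfold S3.toM
      simp [dotProduct, Matrix.mulVec, Fin.sum_univ_three]
      ring
    rw [e]
    exact h _ _ _

/-- the trace form minus the matrix -/
def trm (A : S3) : S3 := ⟨A.b + A.c, A.a + A.c, A.a + A.b, -A.d, -A.e, -A.f⟩

/-- the unit matrix -/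
def one3 : S3 := ⟨1, 1, 1, 0, 0, 0⟩

/-- zero -/
def zero3 : S3 := ⟨0, 0, 0, 0, 0, 0⟩

section

variable (p0 p1 p2 p3 p4 p5 : ℕ)

theorem adj_psd : ((ofP p0 p1 p2 p3 p4 p5).adj).toM.PosSemidef := by
  apply psd_of_quad
  intro x y z
  have h0 : (0 : ℝ) ≤ p0 := Nat.cast_nonneg _
  have h1 : (0 : ℝ) ≤ p1 := Nat.cast_nonneg _
  have h2 : (0 : ℝ) ≤ p2 := Nat.cast_nonneg _
  have h3 : (0 : ℝ) ≤ p3 := Nat.cast_nonneg _
  have h4 : (0 : ℝ) ≤ p4 := Nat.cast_nonneg _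
  have h5 : (0 : ℝ) ≤ p5 := Nat.cast_nonneg _
  unfold ofP S3.adj
  push_cast
  have e : (((p0 : ℝ) + p3 + p4) * (p1 + p3 + p5) - -(p3 : ℝ) * -(p3 : ℝ)) * x ^ 2 +
      (((p0 : ℝ) + p1 + p2) * (p1 + p3 + p5) - -(p1 : ℝ) * -(p1 : ℝ)) * y ^ 2 +
      (((p0 : ℝ) + p1 + p2) * (p0 + p3 + p4) - -(p0 : ℝ) * -(p0 : ℝ)) * z ^ 2 +
      2 * ((-(p1 : ℝ) * -(p3 : ℝ) - (p1 + p3 + p5) * -(p0 : ℝ)) * (x * y) +
      (-(p0 : ℝ) * -(p3 : ℝ) - (p0 + p3 + p4) * -(p1 : ℝ)) * (x * z) +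
      (-(p0 : ℝ) * -(p1 : ℝ) - (p0 + p1 + p2) * -(p3 : ℝ)) * (y * z)) =
      (p0 : ℝ) * p1 * (x + y + z) ^ 2 + (p0 : ℝ) * p3 * (x + y + z) ^ 2 +
      (p1 : ℝ) * p3 * (x + y + z) ^ 2 +
      (p0 : ℝ) * p2 * z ^ 2 + (p0 : ℝ) * p4 * z ^ 2 + (p0 : ℝ) * p5 * (x + y) ^ 2 +
      (p1 : ℝ) * p2 * y ^ 2 + (p1 : ℝ) * p4 * (x + z) ^ 2 + (p1 : ℝ) * p5 * y ^ 2 +
      (p2 : ℝ) * p3 * (y + z) ^ 2 + (p2 : ℝ) * p4 * z ^ 2 + (p2 : ℝ) * p5 * y ^ 2 +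
      (p3 : ℝ) * p4 * x ^ 2 + (p3 : ℝ) * p5 * x ^ 2 + (p4 : ℝ) * p5 * x ^ 2 := by
    ring
  rw [e]
  positivity

theorem trm_psd : (trm (ofP p0 p1 p2 p3 p4 p5)).toM.PosSemidef := by
  apply psd_of_quad
  intro x y z
  have h0 : (0 : ℝ) ≤ p0 := Nat.cast_nonneg _
  have h1 : (0 : ℝ) ≤ p1 := Nat.cast_nonneg _
  have h2 : (0 : ℝ) ≤ p2 := Nat.cast_nonneg _
  have h3 : (0 : ℝ) ≤ p3 := Nat.cast_nonneg _
  have h4 : (0 : ℝ) ≤ p4 := Nat.cast_nonneg _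
  have h5 : (0 : ℝ) ≤ p5 := Nat.cast_nonneg _
  unfold trm ofP
  push_cast
  have e : ((p0 : ℝ) + p3 + p4 + (p1 + p3 + p5)) * x ^ 2 +
      ((p0 : ℝ) + p1 + p2 + (p1 + p3 + p5)) * y ^ 2 +
      ((p0 : ℝ) + p1 + p2 + (p0 + p3 + p4)) * z ^ 2 +
      2 * (- -(p0 : ℝ) * (x * y) + - -(p1 : ℝ) * (x * z) + - -(p3 : ℝ) * (y * z)) =
      (p0 : ℝ) * ((x + y) ^ 2 + 2 * z ^ 2) + (p1 : ℝ) * ((x + z) ^ 2 + 2 * y ^ 2) +
      (p3 : ℝ) * ((y + z) ^ 2 + 2 * x ^ 2) + (p2 : ℝ) * (y ^ 2 + z ^ 2) +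
      (p4 : ℝ) * (x ^ 2 + z ^ 2) + (p5 : ℝ) * (x ^ 2 + y ^ 2) := by
    ring
  rw [e]
  positivity

end

theorem one3_toM : one3.toM = 1 := by
  unfold one3 S3.toM
  ext i j
  fin_cases i <;> fin_cases j <;> simp

theorem zero3_toM : zero3.toM = 0 := by
  unfold zero3 S3.toM
  ext i j
  fin_cases i <;> fin_cases j <;> simp

theorem mul_trm (A : S3) : A.toM * (trm A).toM + A.adj.toM =
    ((A.adj.tr : ℤ) : ℝ) • (1 : Matrix (Fin 3) (Fin 3) ℝ) := by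
  unfold trm S3.adj S3.toM S3.tr
  ext i j
  fin_cases i <;> fin_cases j <;>
    simp [Matrix.mul_apply, Fin.sum_univ_three] <;> ring

theorem one_trm (A : S3) : A.toM * one3.toM + (trm A).toM =
    ((A.tr : ℤ) : ℝ) • (1 : Matrix (Fin 3) (Fin 3) ℝ) := by
  rw [one3_toM, Matrix.mul_one]
  unfold trm S3.toM S3.tr
  ext i j
  fin_cases i <;> fin_cases j <;> simp <;> ring

theorem S3bd.mono {A : S3} {X Y : ℤ} (h : S3bd A X) (hXY : X ≤ Y) : S3bd A Y := by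
  obtain ⟨h1, h2, h3, h4, h5, h6⟩ := h
  exact ⟨h1.trans hXY, h2.trans hXY, h3.trans hXY, h4.trans hXY, h5.trans hXY, h6.trans hXY⟩

/-- what is packed in a corner -/
structure CornOK (v : V) (B N : S3) : Prop where
  a : Rs v.a (pS (formS v))
  b : Rs v.b (pS B)
  n : Rs v.n (pS N)
  ba : S3bd (formS v) (2 ^ 97)
  bb : S3bd B (2 ^ 97)
  bn : S3bd N (2 ^ 97)
  psdB : B.toM.PosSemidef
  psdN : N.toM.PosSemidef
  id : (formS v).toM * B.toM + N.toM = ((v.d : ℤ) : ℝ) • (1 : Matrix (Fin 3) (Fin 3) ℝ)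
  d : 1 ≤ v.d

theorem natbd {x : ℕ} (h : x ≤ 2 ^ 97) : |(x : ℤ)| ≤ 2 ^ 97 := by
  rw [abs_of_nonneg (by positivity)]
  exact_mod_cast h

theorem negbd {x : ℕ} (h : x ≤ 2 ^ 97) : |(-(x : ℤ))| ≤ 2 ^ 97 := by
  rw [abs_neg]
  exact natbd h

theorem pS_zero : Rs 0 (pS zero3) := by
  refine Rs.congr (Rs.refl 0) ?_
  unfold pS zero3 p9
  simp

theorem pS_one : Rs JJ (pS one3) := by
  refine Rs.congr (Rs.refl JJ) ?_
  rw [JJ_eq]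
  unfold pS one3 p9
  push_cast
  ring

theorem mkV2_cases (p0 p1 p2 p3 p4 p5 s l a b c aa ab ac ad ae af det : ℕ) :
    (1 ≤ det ∧ mkV2 p0 p1 p2 p3 p4 p5 s l a b c aa ab ac ad ae af det =
      V.mk p0 p1 p2 p3 p4 p5 s (pkA a b c p0 p1 p3) (pk aa ab ac ad ae af) 0 det l) ∨
    (1 ≤ aa + (ab + ac) ∧ mkV2 p0 p1 p2 p3 p4 p5 s l a b c aa ab ac ad ae af det =
      V.mk p0 p1 p2 p3 p4 p5 s (pkA a b c p0 p1 p3) (pk (b + c) (a + c) (a + b) p0 p1 p3)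
        (pk aa ab ac ad ae af) (aa + (ab + ac)) l) ∨
    (mkV2 p0 p1 p2 p3 p4 p5 s l a b c aa ab ac ad ae af det =
      V.mk p0 p1 p2 p3 p4 p5 s (pkA a b c p0 p1 p3) JJ (pk (b + c) (a + c) (a + b) p0 p1 p3)
        (a + (b + c)) l) := by
  unfold mkV2
  cases h : Nat.ble 1 det with
  | true => exact Or.inl ⟨Nat.le_of_ble_eq_true h, rfl⟩
  | false =>
    cases h' : Nat.ble 1 (Nat.add aa (Nat.add ab ac)) with
    | true => exact Or.inr (Or.inl ⟨Nat.le_of_ble_eq_true h', rfl⟩)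
    | false => exact Or.inr (Or.inr rfl)

theorem mkV_eq (p0 p1 p2 p3 p4 p5 s : ℕ) : mkV p0 p1 p2 p3 p4 p5 s =
    mkV2 p0 p1 p2 p3 p4 p5 s ((p0 + (p1 + p2)) + (p3 + (p4 + p5))) (p0 + (p1 + p2))
      (p0 + (p3 + p4)) (p1 + (p3 + p5))
      ((p0 + (p3 + p4)) * (p1 + (p3 + p5)) - p3 * p3) ((p0 + (p1 + p2)) * (p1 + (p3 + p5)) - p1 * p1)
      ((p0 + (p1 + p2)) * (p0 + (p3 + p4)) - p0 * p0) (p1 * p3 + (p1 + (p3 + p5)) * p0)
      (p0 * p3 + (p0 + (p3 + p4)) * p1) (p0 * p1 + (p0 + (p1 + p2)) * p3)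
      ((p0 + (p1 + p2)) * ((p0 + (p3 + p4)) * (p1 + (p3 + p5)) - p3 * p3) -
        (p0 * (p1 * p3 + (p1 + (p3 + p5)) * p0) + p1 * (p0 * p3 + (p0 + (p3 + p4)) * p1))) := rfl

theorem mkV_fields (p0 p1 p2 p3 p4 p5 s : ℕ) :
    (mkV p0 p1 p2 p3 p4 p5 s).p0 = p0 ∧ (mkV p0 p1 p2 p3 p4 p5 s).p1 = p1 ∧
    (mkV p0 p1 p2 p3 p4 p5 s).p2 = p2 ∧ (mkV p0 p1 p2 p3 p4 p5 s).p3 = p3 ∧
    (mkV p0 p1 p2 p3 p4 p5 s).p4 = p4 ∧ (mkV p0 p1 p2 p3 p4 p5 s).p5 = p5 ∧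
    (mkV p0 p1 p2 p3 p4 p5 s).s = s ∧
    (mkV p0 p1 p2 p3 p4 p5 s).l = (p0 + (p1 + p2)) + (p3 + (p4 + p5)) := by
  rw [mkV_eq]
  rcases mkV2_cases p0 p1 p2 p3 p4 p5 s ((p0 + (p1 + p2)) + (p3 + (p4 + p5))) (p0 + (p1 + p2))
      (p0 + (p3 + p4)) (p1 + (p3 + p5))
      ((p0 + (p3 + p4)) * (p1 + (p3 + p5)) - p3 * p3) ((p0 + (p1 + p2)) * (p1 + (p3 + p5)) - p1 * p1)
      ((p0 + (p1 + p2)) * (p0 + (p3 + p4)) - p0 * p0) (p1 * p3 + (p1 + (p3 + p5)) * p0)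
      (p0 * p3 + (p0 + (p3 + p4)) * p1) (p0 * p1 + (p0 + (p1 + p2)) * p3)
      ((p0 + (p1 + p2)) * ((p0 + (p3 + p4)) * (p1 + (p3 + p5)) - p3 * p3) -
        (p0 * (p1 * p3 + (p1 + (p3 + p5)) * p0) + p1 * (p0 * p3 + (p0 + (p3 + p4)) * p1)))
      with ⟨_, h⟩ | ⟨_, h⟩ | h <;> rw [h] <;> exact ⟨rfl, rfl, rfl, rfl, rfl, rfl, rfl, rfl⟩

theorem mulbd {x y : ℕ} (hx : x ≤ 2 ^ 48) (hy : y ≤ 2 ^ 48) : x * y ≤ 2 ^ 96 := by
  calc x * y ≤ 2 ^ 48 * 2 ^ 48 := Nat.mul_le_mul hx hy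
    _ = 2 ^ 96 := by norm_num

theorem corn_mkV (p0 p1 p2 p3 p4 p5 s : ℕ)
    (hl : (mkV p0 p1 p2 p3 p4 p5 s).l ≤ 140737488355328) (hd : 1 ≤ (mkV p0 p1 p2 p3 p4 p5 s).d) :
    ∃ B N : S3, CornOK (mkV p0 p1 p2 p3 p4 p5 s) B N := by
  obtain ⟨f0, f1, f2, f3, f4, f5, fs, fl⟩ := mkV_fields p0 p1 p2 p3 p4 p5 s
  rw [fl] at hl
  have hform : formS (mkV p0 p1 p2 p3 p4 p5 s) = ofP p0 p1 p2 p3 p4 p5 := by
    unfold formS
    rw [f0, f1, f2, f3, f4, f5]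
  -- the numbers
  obtain ⟨a, ha⟩ : ∃ a : ℕ, a = p0 + (p1 + p2) := ⟨_, rfl⟩
  obtain ⟨b, hb⟩ : ∃ b : ℕ, b = p0 + (p3 + p4) := ⟨_, rfl⟩
  obtain ⟨c, hc⟩ : ∃ c : ℕ, c = p1 + (p3 + p5) := ⟨_, rfl⟩
  have e47 : (140737488355328 : ℕ) ≤ 2 ^ 48 := by norm_num
  have la : a ≤ 2 ^ 48 := by omega
  have lb : b ≤ 2 ^ 48 := by omega
  have lc : c ≤ 2 ^ 48 := by omega
  have l0 : p0 ≤ 2 ^ 48 := by omega
  have l1 : p1 ≤ 2 ^ 48 := by omega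
  have l3 : p3 ≤ 2 ^ 48 := by omega
  have mbc := mulbd lb lc
  have mac := mulbd la lc
  have mab := mulbd la lb
  have m13 := mulbd l1 l3
  have mc0 := mulbd lc l0
  have m03 := mulbd l0 l3
  have mb1 := mulbd lb l1
  have m01 := mulbd l0 l1
  have ma3 := mulbd la l3
  have s33 : p3 * p3 ≤ b * c := Nat.mul_le_mul (by omega) (by omega)
  have s11 : p1 * p1 ≤ a * c := Nat.mul_le_mul (by omega) (by omega)
  have s00 : p0 * p0 ≤ a * b := Nat.mul_le_mul (by omega) (by omega)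
  have e96 : (2 : ℕ) ^ 96 + 2 ^ 96 ≤ 2 ^ 97 := by norm_num
  have e48 : (2 : ℕ) ^ 48 + 2 ^ 48 ≤ 2 ^ 97 := by norm_num
  have i33 : ((b * c - p3 * p3 : ℕ) : ℤ) = b * c - p3 * p3 := by
    rw [Nat.cast_sub s33]; push_cast; ring
  have i11 : ((a * c - p1 * p1 : ℕ) : ℤ) = a * c - p1 * p1 := by
    rw [Nat.cast_sub s11]; push_cast; ring
  have i00 : ((a * b - p0 * p0 : ℕ) : ℤ) = a * b - p0 * p0 := by
    rw [Nat.cast_sub s00]; push_cast; ring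
  have hadj : (ofP p0 p1 p2 p3 p4 p5).adj = ⟨((b * c - p3 * p3 : ℕ) : ℤ), ((a * c - p1 * p1 : ℕ) : ℤ),
      ((a * b - p0 * p0 : ℕ) : ℤ), ((p1 * p3 + c * p0 : ℕ) : ℤ), ((p0 * p3 + b * p1 : ℕ) : ℤ),
      ((p0 * p1 + a * p3 : ℕ) : ℤ)⟩ := by
    rw [i33, i11, i00]
    unfold S3.adj ofP
    simp only [S3.mk.injEq]
    rw [ha, hb, hc]
    push_cast
    refine ⟨?_, ?_, ?_, ?_, ?_, ?_⟩ <;> ring
  have htrm : trm (ofP p0 p1 p2 p3 p4 p5) = ⟨((b + c : ℕ) : ℤ), ((a + c : ℕ) : ℤ),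
      ((a + b : ℕ) : ℤ), (p0 : ℤ), (p1 : ℤ), (p3 : ℤ)⟩ := by
    unfold trm ofP
    simp only [S3.mk.injEq]
    rw [ha, hb, hc]
    push_cast
    refine ⟨?_, ?_, ?_, ?_, ?_, ?_⟩ <;> ring
  have hofP : ofP p0 p1 p2 p3 p4 p5 = ⟨(a : ℤ), (b : ℤ), (c : ℤ), -(p0 : ℤ), -(p1 : ℤ), -(p3 : ℤ)⟩ := by
    unfold ofP
    simp only [S3.mk.injEq]
    rw [ha, hb, hc]
    push_cast
    refine ⟨?_, ?_, ?_, ?_, ?_, ?_⟩ <;> first | trivial | ring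
  have bA : S3bd (ofP p0 p1 p2 p3 p4 p5) (2 ^ 97) := by
    rw [hofP]
    exact ⟨natbd (by omega), natbd (by omega), natbd (by omega), negbd (by omega), negbd (by omega),
      negbd (by omega)⟩
  have bAdj : S3bd (ofP p0 p1 p2 p3 p4 p5).adj (2 ^ 97) := by
    rw [hadj]
    exact ⟨natbd (by omega), natbd (by omega), natbd (by omega), natbd (by omega), natbd (by omega),
      natbd (by omega)⟩
  have bTrm : S3bd (trm (ofP p0 p1 p2 p3 p4 p5)) (2 ^ 97) := by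
    rw [htrm]
    exact ⟨natbd (by omega), natbd (by omega), natbd (by omega), natbd (by omega), natbd (by omega),
      natbd (by omega)⟩
  have rA : Rs (pkA a b c p0 p1 p3) (pS (ofP p0 p1 p2 p3 p4 p5)) := by
    rw [hofP]
    exact pkA_spec a b c p0 p1 p3
  have rAdj : Rs (pk (b * c - p3 * p3) (a * c - p1 * p1) (a * b - p0 * p0) (p1 * p3 + c * p0)
      (p0 * p3 + b * p1) (p0 * p1 + a * p3)) (pS (ofP p0 p1 p2 p3 p4 p5).adj) := by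
    rw [hadj]
    exact pk_spec _ _ _ _ _ _
  have rTrm : Rs (pk (b + c) (a + c) (a + b) p0 p1 p3) (pS (trm (ofP p0 p1 p2 p3 p4 p5))) := by
    rw [htrm]
    exact pk_spec _ _ _ _ _ _
  have heq := mkV_eq p0 p1 p2 p3 p4 p5 s
  rw [← ha, ← hb, ← hc] at heq
  rcases mkV2_cases p0 p1 p2 p3 p4 p5 s (a + (p3 + (p4 + p5))) a b c
      (b * c - p3 * p3) (a * c - p1 * p1) (a * b - p0 * p0) (p1 * p3 + c * p0)
      (p0 * p3 + b * p1) (p0 * p1 + a * p3)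
      (a * (b * c - p3 * p3) - (p0 * (p1 * p3 + c * p0) + p1 * (p0 * p3 + b * p1)))
      with ⟨h1, h⟩ | ⟨h1, h⟩ | h
  · rw [← heq] at h
    refine ⟨(ofP p0 p1 p2 p3 p4 p5).adj, zero3, ?_⟩
    refine ⟨?_, ?_, ?_, ?_, bAdj, ?_, adj_psd _ _ _ _ _ _, ?_, ?_, hd⟩
    · rw [hform, h]; exact rA
    · rw [h]; exact rAdj
    · rw [h]; exact pS_zero
    · rw [hform]; exact bA
    · unfold S3bd zero3
      norm_num
    · rw [zero3_toM]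
      exact Matrix.PosSemidef.zero
    · rw [hform, h, zero3_toM, add_zero, S3.toM_mul_adj]
      congr 1
      have e1 : ((a * (b * c - p3 * p3) - (p0 * (p1 * p3 + c * p0) + p1 * (p0 * p3 + b * p1)) : ℕ) : ℤ)
          = (ofP p0 p1 p2 p3 p4 p5).det := by
        rw [Nat.cast_sub (by omega)]
        push_cast
        rw [i33]
        unfold S3.det ofP
        simp only
        rw [ha, hb, hc]
        push_cast
        ring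
      exact_mod_cast e1.symm
  · rw [← heq] at h
    refine ⟨trm (ofP p0 p1 p2 p3 p4 p5), (ofP p0 p1 p2 p3 p4 p5).adj, ?_⟩
    refine ⟨?_, ?_, ?_, ?_, bTrm, bAdj, trm_psd _ _ _ _ _ _, adj_psd _ _ _ _ _ _, ?_, hd⟩
    · rw [hform, h]; exact rA
    · rw [h]; exact rTrm
    · rw [h]; exact rAdj
    · rw [hform]; exact bA
    · rw [hform, h, mul_trm]
      congr 1
      rw [hadj]
      unfold S3.tr
      push_cast
      ring
  · rw [← heq] at h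
    refine ⟨one3, trm (ofP p0 p1 p2 p3 p4 p5), ?_⟩
    refine ⟨?_, ?_, ?_, ?_, ?_, bTrm, ?_, trm_psd _ _ _ _ _ _, ?_, hd⟩
    · rw [hform, h]; exact rA
    · rw [h]; exact pS_one
    · rw [h]; exact rTrm
    · rw [hform]; exact bA
    · unfold S3bd one3
      norm_num
    · rw [one3_toM]
      exact Matrix.PosSemidef.one
    · rw [hform, h, one_trm]
      congr 1
      rw [hofP]
      unfold S3.tr
      push_cast
      ring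

theorem exists_corn (v : V) (hv : okV v) : ∃ B N : S3, CornOK v B N := by
  obtain ⟨hv, hl, hd⟩ := hv
  rw [hv] at hl hd ⊢
  exact corn_mkV _ _ _ _ _ _ _ hl hd

/-- the parameters are nonnegative, the form is positive semidefinite -/
theorem formV_psd (v : V) : (formV v).PosSemidef :=
  ofP_psd _ _ _ _ _ _ (Int.natCast_nonneg _) (Int.natCast_nonneg _) (Int.natCast_nonneg _)
    (Int.natCast_nonneg _) (Int.natCast_nonneg _) (Int.natCast_nonneg _)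

end Pool.Agent.Helper82.FL
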