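import Pool.Agent.Helper82.FL.RawM

/-! The raw functions of the leaf with several corners of the box: given scales `t l / K`, common to
all corners of the box; the group of all pairs of vertices. -/

set_option autoImplicit false

namespace Pool.Agent.Helper82.FL

/-- the data of a corner of the box: the header of the metric, the arguments of `fleaf`, the vertices -/
structure DC where
  h : Hd
  x0 : Nat
  x1 : Nat
  x2 : Nat
  y0 : Nat
  y1 : Nat
  y2 : Nat
  ka : Nat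
  z0 : Nat
  z1 : Nat
  z2 : Nat
  w0 : Nat
  w1 : Nat
  w2 : Nat
  mu : Nat
  D : Nat
  ps : List G3
  qs : List G3

/-- a corner of the tile with its scale `T / K`: `K ^ 2 d`, `T K d`, `T ^ 2`, `2 T ^ 2` -/
structure SC where
  v : V
  kd : Nat
  tk : Nat
  tt : Nat
  t2 : Nat

/-- `2 ^ 280` -/
def P280 : Nat := 1942668892225729070919461906823518906642406839052139521251812409738904285205208498176

/-- the next number of the token -/
noncomputable def nxT (m ts : Nat) : Nat :=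
  @Nat.rec (fun _ => Nat) ts (fun _ _ => Nat.shiftRight ts 16) m

/-- the corners with their scales -/
noncomputable def scs (m K : Nat) (cs : List V) : Nat → (List SC → Bool) → Bool :=
  @List.rec V (fun _ => Nat → (List SC → Bool) → Bool) (fun _ k => k [])
    (fun v _ ih ts k =>
      frc (Nat.mul (Nat.mod ts 65536) v.l) fun T => frc (Nat.mul K v.d) fun e =>
      frc (Nat.mul K e) fun kd => frc (Nat.mul T e) fun tk => frc (Nat.mul T T) fun tt =>
      frc (Nat.mul 2 tt) fun t2 => frc (nxT m ts) fun ts' =>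
      band (Nat.ble 1 T) (band (Nat.ble kd P280) (band (Nat.ble tk P280) (band (Nat.ble tt 340282366920938463463374607431768211456)
        (ih ts' fun t => k (List.cons (SC.mk v kd tk tt t2) t)))))) cs

/-- a test for all corners -/
noncomputable def allS (f : SC → Bool) (l : List SC) : Bool :=
  @List.rec SC (fun _ => Bool) true (fun a _ ih => band (f a) ih) l

/-- packing -/
noncomputable def pkS (f : SC → Nat) (l : List SC) : Nat :=
  @List.rec SC (fun _ => Nat) 0 (fun a _ ih => sh1 (f a) ih) l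

/-- the bounds -/
def chk3 (ka mu D : Nat) : Bool :=
  band (Nat.ble ka 340282366920938463463374607431768211456)
    (band (Nat.ble mu 340282366920938463463374607431768211456)
    (Nat.ble (Nat.add (Nat.mul 169 (Nat.mul D D)) 1) (Nat.mul 18464 (Nat.mul ka mu))))

/-- the plain test at a corner -/
def plT (U W0 W E q : Nat) (x : SC) : Bool :=
  band (Nat.ble (Nat.mul q (Nat.add (Nat.mul x.kd (dig U x.v.a)) (Nat.mul x.tt (dig W x.v.b))))
    (Nat.mul x.tk E)) (sng W0 x.v)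

noncomputable def plJ2 (cs : List SC) (h : Hd) (D W0 : Nat)
    (gx0 gx1 gx2 gy0 gy1 gy2 hx0 hx1 hx2 hy0 hy1 hy2 : Nat) : Bool :=
  frc (uu gx0 gx1 gx2 gy0 gy1 gy2) fun U =>
  frc (uu hx0 hx1 hx2 hy0 hy1 hy2) fun W =>
  frc (eNum h (uu gx0 gx1 gx2 hy0 hy1 hy2) D) fun E =>
  band (Nat.ble 1 E) (allS (plT U W0 W E h.q) cs)

/-- the plain test at one corner of the box -/
noncomputable def plJ1 (cs : List SC) (h : Hd) (x0 x1 x2 y0 y1 y2 z0 z1 z2 w0 w1 w2 D : Nat) : Bool :=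
  plJ2 cs h D (uu z0 z1 z2 w0 w1 w2)
    (r0 h.a h.d h.e x0 x1 x2) (r1 h.b h.f x1 x2) (Nat.mul h.c x2)
    (r0 h.a h.d h.e y0 y1 y2) (r1 h.b h.f y1 y2) (Nat.mul h.c y2)
    (r0 h.a h.d h.e z0 z1 z2) (r1 h.b h.f z1 z2) (Nat.mul h.c z2)
    (r0 h.a h.d h.e w0 w1 w2) (r1 h.b h.f w1 w2) (Nat.mul h.c w2)

noncomputable def plJ (cs : List SC) (c : DC) : Bool :=
  band (chk3 c.ka c.mu c.D)
    (plJ1 cs c.h c.x0 c.x1 c.x2 c.y0 c.y1 c.y2 c.z0 c.z1 c.z2 c.w0 c.w1 c.w2 c.D)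

/-- a test for all corners of the box -/
noncomputable def allJ (f : DC → Bool) (l : List DC) : Bool :=
  @List.rec DC (fun _ => Bool) true (fun a _ ih => band (f a) ih) l

/-- **the plain leaf at all corners of the box**; `sc` is the header with the scales -/
noncomputable def fleafJ (cs : List V) (sc : Hd) (js : List DC) : Bool :=
  scs sc.m sc.K cs sc.ts fun l => allJ (plJ l) js

/-- a vertex with its numbers -/
structure VJ where
  w0 : Nat
  w1 : Nat
  w2 : Nat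
  na : Nat
  nb : Nat

/-- the packed numbers of the record: `T K d`, `2 T K d`, `b (T K d + T ^ 2)`, `T ^ 2 θ`, `2 T ^ 2 θ`,
the mask, the power of the base, a large multiple of it, the outer shift -/
structure GK where
  Tp : Nat
  T2 : Nat
  Gp : Nat
  Th : Nat
  Th2 : Nat
  MK : Nat
  TB : Nat
  BG : Nat
  S : Nat

/-- the packed numbers of a corner of the box -/
structure JK where
  Z : Nat
  Q0 : Nat
  Q1 : Nat
  Q2 : Nat

/-- the numbers of a vertex, last step -/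
def vj2 (Z BG w0 w1 w2 wq nP : Nat) : VJ :=
  VJ.mk w0 w1 w2 (Nat.sub Z (Nat.add wq nP)) (Nat.sub (Nat.add BG wq) nP)

/-- the numbers of a vertex -/
def vj1 (Z BG Q0 Q1 Q2 Th w0 w1 w2 : Nat) : VJ :=
  vj2 Z BG w0 w1 w2 (Nat.add (Nat.mul w0 Q0) (Nat.add (Nat.mul w1 Q1) (Nat.mul w2 Q2)))
    (Nat.mul (Nat.add (Nat.mul w0 w0) (Nat.add (Nat.mul w1 w1) (Nat.mul w2 w2))) Th)

/-- the numbers of a vertex -/
def vj0 (p : GK) (o : JK) (h : Hd) (g : G3) : VJ :=
  vj1 o.Z p.BG o.Q0 o.Q1 o.Q2 p.Th (Nat.mod (Nat.add (r0 h.a h.d h.e g.g0 g.g1 g.g2) P75) B9)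
    (Nat.mod (Nat.add (r1 h.b h.f g.g1 g.g2) P75) B9) (Nat.mod (Nat.add (Nat.mul h.c g.g2) P75) B9)

/-- the list of the vertices -/
noncomputable def vjs (p : GK) (o : JK) (h : Hd) (l : List G3) : List VJ :=
  @List.rec G3 (fun _ => List VJ) [] (fun g _ ih => List.cons (vj0 p o h g) ih) l

/-- a test for all elements of a list -/
noncomputable def allVJ (f : VJ → Bool) (l : List VJ) : Bool :=
  @List.rec VJ (fun _ => Bool) true (fun a _ ih => band (f a) ih) l

/-- outer packing -/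
noncomputable def pkO (S : Nat) (f : VJ → Nat) (l : List VJ) : Nat :=
  @List.rec VJ (fun _ => Nat) 0 (fun a _ ih => Nat.add (f a) (Nat.shiftLeft ih S)) l

/-- the packed number of all pairs with a first vertex -/
def rowN (Th2 O NB W0 W1 W2 w0 w1 w2 na : Nat) : Nat :=
  Nat.add (Nat.add (Nat.mul na O) NB)
    (Nat.mul Th2 (Nat.add (Nat.mul w0 W0) (Nat.add (Nat.mul w1 W1) (Nat.mul w2 W2))))

/-- the test of a first vertex -/
def rowT (Th2 O NB W0 W1 W2 MM : Nat) (a : VJ) : Bool :=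
  Nat.beq (Nat.land (rowN Th2 O NB W0 W1 W2 a.w0 a.w1 a.w2 a.na) MM) MM

/-- ones -/
noncomputable def onG (S : Nat) (l : List G3) : Nat :=
  @List.rec G3 (fun _ => Nat) 0 (fun _ _ ih => Nat.add 1 (Nat.shiftLeft ih S)) l

/-- the test of all pairs -/
noncomputable def prsT (S Th2 O MM : Nat) (as bs : List VJ) : Bool :=
  frc (pkO S VJ.w0 bs) fun W0 => frc (pkO S VJ.w1 bs) fun W1 => frc (pkO S VJ.w2 bs) fun W2 =>
  frc (pkO S VJ.nb bs) fun NB => allVJ (rowT Th2 O NB W0 W1 W2 MM) as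

/-- the last step -/
noncomputable def grJ5 (p : GK) (o : JK) (h : Hd) (ps qs : List G3) : Bool :=
  frc (onG p.S qs) fun O => frc (Nat.mul p.MK O) fun MM =>
  prsT p.S p.Th2 O MM (vjs p o h ps) (vjs p o h qs)

/-- the negative part of the constant -/
def fNg (U W : Nat) (x : SC) : Nat := Nat.add (Nat.mul x.kd (dig U x.v.a)) (Nat.mul x.tt (dig W x.v.b))

/-- the linear part -/
def fLj (R : Nat) (x : SC) : Nat := Nat.mul x.t2 (sdig R x.v.b)

/-- a packed linear part -/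
noncomputable def fQj (cs : List SC) (p : GK) (C R : Nat) : Nat :=
  Nat.sub (Nat.add p.TB (Nat.add (Nat.mul p.T2 C) (pkS (fLj R) cs))) p.Gp

/-- the packed constant -/
noncomputable def fZj (cs : List SC) (p : GK) (U W E0 : Nat) : Nat :=
  Nat.sub (Nat.add (Nat.add p.BG (Nat.add p.TB p.MK)) (Nat.mul p.Tp E0)) (pkS (fNg U W) cs)

/-- the packed numbers of a corner of the box -/
noncomputable def grJ4 (cs : List SC) (p : GK) (h : Hd) (U W E0 R0 R1 R2 C0 C1 C2 : Nat)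
    (ps qs : List G3) : Bool :=
  frc (fZj cs p U W E0) fun Z => frc (fQj cs p C0 R0) fun Q0 => frc (fQj cs p C1 R1) fun Q1 =>
  frc (fQj cs p C2 R2) fun Q2 => grJ5 p (JK.mk Z Q0 Q1 Q2) h ps qs

noncomputable def grJ3 (cs : List SC) (p : GK) (h : Hd) (W0 Uy U8 U W E0 gx0 gx1 gx2 hx0 hx1 hx2 : Nat)
    (ps qs : List G3) : Bool :=
  frc (Nat.mod (Nat.mul hx0 Uy) B9) fun R0 =>
  frc (Nat.mod (Nat.mul hx1 Uy) B9) fun R1 =>
  frc (Nat.mod (Nat.mul hx2 Uy) B9) fun R2 =>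
  frc (sdig gx0 U8) fun C0 => frc (sdig gx1 U8) fun C1 => frc (sdig gx2 U8) fun C2 =>
  band (Nat.ble 1 E0) (band (Nat.ble E0 P200) (band (allS (fun x => sng W0 x.v) cs)
    (grJ4 cs p h U W E0 R0 R1 R2 C0 C1 C2 ps qs)))

noncomputable def grJ2 (cs : List SC) (p : GK) (h : Hd) (D W0 Uy U8 : Nat)
    (gx0 gx1 gx2 gy0 gy1 gy2 hx0 hx1 hx2 hy0 hy1 hy2 : Nat) (ps qs : List G3) : Bool :=
  frc (uu gx0 gx1 gx2 gy0 gy1 gy2) fun U =>
  frc (uu hx0 hx1 hx2 hy0 hy1 hy2) fun W =>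
  frc (Nat.div (eNum h (uu gx0 gx1 gx2 hy0 hy1 hy2) D) h.q) fun E0 =>
  grJ3 cs p h W0 Uy U8 U W E0 gx0 gx1 gx2 hx0 hx1 hx2 ps qs

/-- the test at one corner of the box -/
noncomputable def grJ1 (cs : List SC) (p : GK) (h : Hd) (Uy U8 : Nat)
    (x0 x1 x2 y0 y1 y2 z0 z1 z2 w0 w1 w2 D : Nat) (ps qs : List G3) : Bool :=
  grJ2 cs p h D (uu z0 z1 z2 w0 w1 w2) Uy U8
    (r0 h.a h.d h.e x0 x1 x2) (r1 h.b h.f x1 x2) (Nat.mul h.c x2)
    (r0 h.a h.d h.e y0 y1 y2) (r1 h.b h.f y1 y2) (Nat.mul h.c y2)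
    (r0 h.a h.d h.e z0 z1 z2) (r1 h.b h.f z1 z2) (Nat.mul h.c z2)
    (r0 h.a h.d h.e w0 w1 w2) (r1 h.b h.f w1 w2) (Nat.mul h.c w2) ps qs

noncomputable def grJ (cs : List SC) (p : GK) (Uy U8 : Nat) (c : DC) : Bool :=
  band (chk3 c.ka c.mu c.D)
    (grJ1 cs p c.h Uy U8 c.x0 c.x1 c.x2 c.y0 c.y1 c.y2 c.z0 c.z1 c.z2 c.w0 c.w1 c.w2 c.D c.ps c.qs)

/-- the power of the base and the outer shift -/
noncomputable def tbS (l : List SC) : Nat :=
  @List.rec SC (fun _ => Nat) 1 (fun _ _ ih => Nat.shiftLeft ih 640) l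

noncomputable def shS (l : List SC) : Nat :=
  @List.rec SC (fun _ => Nat) 640 (fun _ _ ih => Nat.add 640 ih) l

/-- `2 ^ 80` -/
def P80 : Nat := 1208925819614629174706176

/-- the common numbers of the record -/
noncomputable def gk1 (cs : List SC) (UU : Nat) (k : GK → Bool) : Bool :=
  frc (pkS SC.tk cs) fun Tp => frc (Nat.mul 2 Tp) fun T2 =>
  frc (Nat.mul (Nat.add Tp (pkS SC.tt cs)) B1) fun Gp =>
  frc (pkS (fun x => Nat.mul x.tt (dig UU x.v.b)) cs) fun Th => frc (Nat.mul 2 Th) fun Th2 =>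
  frc (pkS (fun _ => P639) cs) fun MK => frc (tbS cs) fun TB => frc (Nat.mul P80 TB) fun BG =>
  frc (shS cs) fun S => k (GK.mk Tp T2 Gp Th Th2 MK TB BG S)

/-- the outer product of `u` -/
def uuU (u0 u1 u2 : Nat) : Nat :=
  Nat.mod (Nat.mul (Nat.add u0 (Nat.add (Nat.mul u1 B1) (Nat.mul u2 B2)))
    (Nat.add u0 (Nat.add (Nat.mul u1 B3) (Nat.mul u2 B6)))) B9

/-- **the group at all corners of the box**: the dual `u`, all pairs of vertices -/
noncomputable def fmrgJ (cs : List V) (sc : Hd) (u0 u1 u2 : Nat) (js : List DC) : Bool :=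
  frc (Nat.mod (Nat.add u0 (Nat.add (Nat.mul u1 B3) (Nat.mul u2 B6))) B9) fun Uy =>
  frc (Nat.mod (Nat.add (Nat.mul u0 B8) (Nat.add (Nat.mul u1 B7) (Nat.mul u2 B6))) B9) fun U8 =>
  frc (uuU u0 u1 u2) fun UU =>
  scs sc.m sc.K cs sc.ts fun l => band (allS (fun x => sng UU x.v) l)
    (gk1 l UU fun p => allJ (grJ l p Uy U8) js)

end Pool.Agent.Helper82.FL
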