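import Mathlib
import Pool.Agent.Helper82.FL.Corn

/-!
# The header of a leaf, equality and midpoints of corners
-/

set_option autoImplicit false

namespace Pool.Agent.Helper82.FL

open Matrix Pool.Agent.Helper28.TT

/-- the header stands for a triangular factor -/
structure HdOK (h : Hd) (l : T3) (rho : ℤ) : Prop where
  res : TRes l h.a h.b h.c h.d h.e h.f
  a : 0 < l.a
  b : 0 < l.b
  c : 0 < l.c
  ba : |l.a| ≤ 2 ^ 20
  bb : |l.b| ≤ 2 ^ 20
  bc : |l.c| ≤ 2 ^ 20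
  bd : |l.d| ≤ 2 ^ 20
  be : |l.e| ≤ 2 ^ 20
  bf : |l.f| ≤ 2 ^ 20
  q : (h.q : ℤ) = l.det ^ 2
  rq : (h.rq : ℤ) = rho * l.det ^ 2
  rs : (h.rs : ℤ) = rho ^ 2 * l.S
  rho : 0 < rho
  K : 0 < h.K

theorem g20_lt (r i : ℕ) : g20 r i < 1048576 := Nat.mod_lt _ (by norm_num)

theorem B9_ge : 1048576 ≤ B9 := by decide +kernel

theorem B9_int : (B9 : ℤ) = (B1 : ℤ) ^ 9 := by
  rw [B9_eq]
  push_cast
  rfl

theorem Rs.sq {x : ℕ} {z : ℤ} (h : Rs x z) : Rs (Nat.pow x 2) (z ^ 2) := by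
  have h1 := h.mul h
  have e1 : Nat.pow x 2 = x * x := by
    show x ^ 2 = x * x
    ring
  rw [e1]
  exact h1.congr (by ring)

theorem Rs.val {x : ℕ} {z : ℤ} (h : Rs x z) (h0 : 0 ≤ z) (h1 : z < (B1 : ℤ) ^ 9) :
    ((Nat.mod x B9 : ℕ) : ℤ) = z := by
  have e : ((Nat.mod x B9 : ℕ) : ℤ) = (x : ℤ) % (B1 : ℤ) ^ 9 := by
    have : Nat.mod x B9 = x % B9 := rfl
    rw [this, ← B9_int]
    push_cast
    rfl
  rw [e]
  unfold Rs Int.ModEq at h
  rw [h]
  exact Int.emod_eq_of_lt h0 h1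

theorem off_spec (g : ℕ) : Rs (Nat.add g (Nat.sub B9 524288)) ((g : ℤ) - 524288) := by
  refine Rs.of_eq (q := 1) ?_
  have e : Nat.add g (Nat.sub B9 524288) = g + (B9 - 524288) := rfl
  have h := B9_ge
  rw [e, Nat.cast_add, Nat.cast_sub (by omega), B9_int]
  push_cast
  ring

theorem neg_spec (g : ℕ) (hg : g < 1048576) :
    Rs (Nat.sub (Nat.add B9 524288) g) (-((g : ℤ) - 524288)) := by
  refine Rs.of_eq (q := 1) ?_
  have e : Nat.sub (Nat.add B9 524288) g = (B9 + 524288) - g := rfl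
  have h := B9_ge
  rw [e, Nat.cast_sub (by omega), Nat.cast_add, B9_int]
  push_cast
  ring

theorem sqbd {x : ℤ} (h : |x| ≤ 2 ^ 41) : x ^ 2 ≤ 2 ^ 82 := by
  have := bd_mul h h
  rw [← sq, ← pow_add] at this
  exact (le_abs_self _).trans this

theorem S_bd (l : T3) (ba : |l.a| ≤ 2 ^ 20) (bb : |l.b| ≤ 2 ^ 20) (bc : |l.c| ≤ 2 ^ 20)
    (bd : |l.d| ≤ 2 ^ 20) (be : |l.e| ≤ 2 ^ 20) (bf : |l.f| ≤ 2 ^ 20) :
    0 ≤ l.S ∧ l.S < (B1 : ℤ) ^ 9 := by
  have M : ∀ {x y : ℤ}, |x| ≤ 2 ^ 20 → |y| ≤ 2 ^ 20 → |x * y| ≤ 2 ^ 40 := by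
    intro x y hx hy
    have := bd_mul hx hy
    rw [← pow_add] at this
    exact this
  have N : ∀ {x : ℤ}, |x| ≤ 2 ^ 40 → |x| ≤ 2 ^ 41 := fun h => h.trans (by norm_num)
  have h1 := sqbd (N (M bb bc))
  have h2 := sqbd (N (M bd bc))
  have h3 : (l.d * l.f - l.e * l.b) ^ 2 ≤ 2 ^ 82 := by
    apply sqbd
    have := bd_add (M bd bf) ((abs_neg (l.e * l.b)).symm ▸ (M be bb))
    rw [← sub_eq_add_neg] at this
    refine this.trans ?_
    norm_num
  have h4 := sqbd (N (M ba bc))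
  have h5 := sqbd (N (M ba bf))
  have h6 := sqbd (N (M ba bb))
  unfold T3.S
  constructor
  · positivity
  · have e : (6 : ℤ) * 2 ^ 82 < (B1 : ℤ) ^ 9 := by
      have h7 : (B1 : ℤ) ^ 1 ≤ (B1 : ℤ) ^ 9 := by
        apply pow_le_pow_right₀ _ (by norm_num)
        have := B1_pos
        linarith
      rw [pow_one] at h7
      refine lt_of_lt_of_le ?_ h7
      rw [B1_int]
      norm_num
    linarith

theorem sS_spec {l : T3} {a b c d e f ne : ℕ} (hl : TRes l a b c d e f) (hne : Rs ne (-l.e))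
    (h0 : 0 ≤ l.S ∧ l.S < (B1 : ℤ) ^ 9) : (sS a b c d ne f : ℤ) = l.S := by
  have h1 := ((((hl.b.mul hl.c).sq).add ((hl.d.mul hl.c).sq)).add
    (((((hl.d.mul hl.f).add (hne.mul hl.b)).sq).add ((hl.a.mul hl.c).sq)).add
      (((hl.a.mul hl.f).sq).add ((hl.a.mul hl.b).sq))))
  have h2 : Rs _ l.S := h1.congr (by unfold T3.S; ring)
  exact h2.val h0.1 h0.2

theorem mkHd_spec (r : ℕ) (h : Hd) (hh : mkHd r = some h) : ∃ l rho, HdOK h l rho := by
  obtain ⟨l, hl⟩ : ∃ l : T3, l = ⟨g20 r 2, g20 r 22, g20 r 42, (g20 r 62 : ℤ) - 524288,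
    (g20 r 82 : ℤ) - 524288, (g20 r 102 : ℤ) - 524288⟩ := ⟨_, rfl⟩
  have hres : TRes l (g20 r 2) (g20 r 22) (g20 r 42) (Nat.add (g20 r 62) (Nat.sub B9 524288))
      (Nat.add (g20 r 82) (Nat.sub B9 524288)) (Nat.add (g20 r 102) (Nat.sub B9 524288)) := by
    rw [hl]
    exact ⟨Rs.refl _, Rs.refl _, Rs.refl _, off_spec _, off_spec _, off_spec _⟩
  have hne : Rs (Nat.sub (Nat.add B9 524288) (g20 r 82)) (-l.e) := by
    rw [hl]
    exact neg_spec _ (g20_lt _ _)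
  have N : ∀ i, |((g20 r i : ℕ) : ℤ)| ≤ 2 ^ 20 := by
    intro i
    have := g20_lt r i
    rw [abs_le]
    constructor <;> omega
  have N' : ∀ i, |((g20 r i : ℕ) : ℤ) - 524288| ≤ 2 ^ 20 := by
    intro i
    have := g20_lt r i
    rw [abs_le]
    constructor <;> omega
  have ba : |l.a| ≤ 2 ^ 20 := by rw [hl]; exact N _
  have bb : |l.b| ≤ 2 ^ 20 := by rw [hl]; exact N _
  have bc : |l.c| ≤ 2 ^ 20 := by rw [hl]; exact N _
  have bd : |l.d| ≤ 2 ^ 20 := by rw [hl]; exact N' _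
  have be : |l.e| ≤ 2 ^ 20 := by rw [hl]; exact N' _
  have bf : |l.f| ≤ 2 ^ 20 := by rw [hl]; exact N' _
  have hS := sS_spec hres hne (S_bd l ba bb bc bd be bf)
  have la : l.a = (g20 r 2 : ℤ) := by rw [hl]
  have lb : l.b = (g20 r 22 : ℤ) := by rw [hl]
  have lc : l.c = (g20 r 42 : ℤ) := by rw [hl]
  have hq : ((Nat.pow (Nat.mul (g20 r 2) (Nat.mul (g20 r 22) (g20 r 42))) 2 : ℕ) : ℤ) = l.det ^ 2 := by
    have : Nat.pow (Nat.mul (g20 r 2) (Nat.mul (g20 r 22) (g20 r 42))) 2 =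
      (g20 r 2 * (g20 r 22 * g20 r 42)) ^ 2 := rfl
    rw [this]
    unfold T3.det
    rw [la, lb, lc]
    push_cast
    ring
  unfold mkHd hd2 hd3 at hh
  revert hh hq hres hS
  generalize Nat.pow (Nat.mul (g20 r 2) (Nat.mul (g20 r 22) (g20 r 42))) 2 = q
  generalize Nat.add (g20 r 62) (Nat.sub B9 524288) = d
  generalize Nat.add (g20 r 82) (Nat.sub B9 524288) = e
  generalize Nat.add (g20 r 102) (Nat.sub B9 524288) = f
  generalize sS (g20 r 2) (g20 r 22) (g20 r 42) d (Nat.sub (Nat.add B9 524288) (g20 r 82)) f = S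
  intro hh hres hS hq
  cases hb : Nat.ble 1 q with
  | false =>
    rw [hb] at hh
    exact absurd hh (by simp)
  | true =>
    rw [hb] at hh
    have hh' := Option.some.inj hh
    have hq1 : 1 ≤ q := Nat.le_of_ble_eq_true hb
    have hrho : (0 : ℤ) < ((Nat.shiftLeft 1 (Nat.mod (Nat.shiftRight r 122) 256) : ℕ) : ℤ) := by
      have : Nat.shiftLeft 1 (Nat.mod (Nat.shiftRight r 122) 256) =
        1 <<< ((r >>> 122) % 256) := rfl
      rw [this, Nat.one_shiftLeft]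
      positivity
    refine ⟨l, (Nat.shiftLeft 1 (Nat.mod (Nat.shiftRight r 122) 256) : ℕ), ?_⟩
    have hdet : l.det ≠ 0 := by
      intro h0
      rw [h0] at hq
      have : (q : ℤ) = 0 := by rw [hq]; norm_num
      omega
    have ha0 : l.a ≠ 0 := fun h0 => hdet (by unfold T3.det; rw [h0]; ring)
    have hb0 : l.b ≠ 0 := fun h0 => hdet (by unfold T3.det; rw [h0]; ring)
    have hc0 : l.c ≠ 0 := fun h0 => hdet (by unfold T3.det; rw [h0]; ring)
    have ha1 : 0 ≤ l.a := by rw [la]; positivity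
    have hb1 : 0 ≤ l.b := by rw [lb]; positivity
    have hc1 : 0 ≤ l.c := by rw [lc]; positivity
    rw [← hh']
    refine ⟨hres, lt_of_le_of_ne ha1 (Ne.symm ha0), lt_of_le_of_ne hb1 (Ne.symm hb0),
      lt_of_le_of_ne hc1 (Ne.symm hc0), ba, bb, bc, bd, be, bf, hq, ?_, ?_, hrho, ?_⟩
    · show ((Nat.mul (Nat.shiftLeft 1 (Nat.mod (Nat.shiftRight r 122) 256)) q : ℕ) : ℤ) = _
      rw [← hq]
      exact Nat.cast_mul _ _
    · show ((Nat.mul (Nat.mul (Nat.shiftLeft 1 (Nat.mod (Nat.shiftRight r 122) 256))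
        (Nat.shiftLeft 1 (Nat.mod (Nat.shiftRight r 122) 256))) S : ℕ) : ℤ) = _
      rw [← hS, sq]
      exact (Nat.cast_mul _ _).trans (by rw [← Nat.cast_mul]; rfl)
    · show 0 < Nat.shiftLeft 1 (Nat.mod (Nat.shiftRight r 130) 64)
      have : Nat.shiftLeft 1 (Nat.mod (Nat.shiftRight r 130) 64) =
        1 <<< ((r >>> 130) % 64) := rfl
      rw [this, Nat.one_shiftLeft]
      positivity

theorem and_split {a b : Bool} (h : and a b = true) : a = true ∧ b = true := by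
  cases a <;> cases b <;> simp_all

theorem eqV_eq (v w : V) (h : eqV v w = true) : v = w := by
  unfold eqV at h
  obtain ⟨h0, h⟩ := and_split h
  obtain ⟨h1, h⟩ := and_split h
  obtain ⟨h2, h⟩ := and_split h
  obtain ⟨h3, h⟩ := and_split h
  obtain ⟨h4, h⟩ := and_split h
  obtain ⟨h5, h⟩ := and_split h
  obtain ⟨h6, h⟩ := and_split h
  obtain ⟨h7, h⟩ := and_split h
  obtain ⟨h8, h⟩ := and_split h
  obtain ⟨h9, h⟩ := and_split h
  obtain ⟨h10, h11⟩ := and_split h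
  cases v
  cases w
  simp only at *
  rw [Nat.eq_of_beq_eq_true h0, Nat.eq_of_beq_eq_true h1, Nat.eq_of_beq_eq_true h2,
    Nat.eq_of_beq_eq_true h3, Nat.eq_of_beq_eq_true h4, Nat.eq_of_beq_eq_true h5,
    Nat.eq_of_beq_eq_true h6, Nat.eq_of_beq_eq_true h7, Nat.eq_of_beq_eq_true h8,
    Nat.eq_of_beq_eq_true h9, Nat.eq_of_beq_eq_true h10, Nat.eq_of_beq_eq_true h11]

theorem chkV_spec (v m : V) (h : chkV v = some m) :
    m = v ∧ v.l ≤ 140737488355328 ∧ 1 ≤ v.d := by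
  unfold chkV at h
  cases h1 : Nat.ble v.l 140737488355328 with
  | false => rw [h1] at h; exact absurd h (by simp)
  | true =>
    cases h2 : Nat.ble 1 v.d with
    | false => rw [h1, h2] at h; exact absurd h (by simp)
    | true =>
      rw [h1, h2] at h
      exact ⟨(Option.some.inj h).symm, Nat.le_of_ble_eq_true h1, Nat.le_of_ble_eq_true h2⟩

/-- a checked corner is admissible -/
theorem ok_of_chk (p0 p1 p2 p3 p4 p5 s : ℕ) (m : V) (h : chkV (mkV p0 p1 p2 p3 p4 p5 s) = some m) :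
    okV m ∧ formS m = ofP p0 p1 p2 p3 p4 p5 ∧ m.s = s := by
  obtain ⟨h1, h2, h3⟩ := chkV_spec _ _ h
  obtain ⟨f0, f1, f2, f3, f4, f5, fs, fl⟩ := mkV_fields p0 p1 p2 p3 p4 p5 s
  rw [h1]
  refine ⟨⟨?_, h2, h3⟩, ?_, fs⟩
  · rw [f0, f1, f2, f3, f4, f5, fs]
  · unfold formS
    rw [f0, f1, f2, f3, f4, f5]

theorem cmbV_spec (v w m : V) (x y s : ℕ) (h : cmbV v w x y s = some m) :
    okV m ∧ 0 < x ∧ 0 < y ∧ formV m = (x : ℝ) • formV v + (y : ℝ) • formV w := by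
  unfold cmbV at h
  cases h1 : Nat.ble 1 (Nat.mul x y) with
  | false => rw [h1] at h; exact absurd h (by simp)
  | true =>
    rw [h1] at h
    obtain ⟨h2, h3, _⟩ := ok_of_chk _ _ _ _ _ _ _ _ h
    have h4 : 1 ≤ x * y := Nat.le_of_ble_eq_true h1
    have hx : 0 < x := Nat.pos_of_ne_zero (fun h0 => by rw [h0] at h4; omega)
    have hy : 0 < y := Nat.pos_of_ne_zero (fun h0 => by rw [h0] at h4; omega)
    refine ⟨h2, hx, hy, ?_⟩
    unfold formV
    rw [h3]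
    unfold formS ofP S3.toM
    ext i j
    fin_cases i <;> fin_cases j <;> simp <;> ring

/-- the midpoint -/
theorem midV_spec (v w m : V) (h : midV v w = some m) : okV m ∧
    ∃ α β : ℝ, 0 < α ∧ 0 < β ∧ formV m = α • formV v + β • formV w := by
  unfold midV midG at h
  obtain ⟨h1, hx, hy, h2⟩ := cmbV_spec _ _ _ _ _ _ h
  exact ⟨h1, _, _, by exact_mod_cast hx, by exact_mod_cast hy, h2⟩

/-- the sum of the parameters from the form -/
theorem l_form (v : V) (hv : okV v) :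
    (v.l : ℝ) = formV v 0 0 + formV v 1 1 + formV v 2 2 + formV v 0 1 + formV v 0 2 + formV v 1 2 := by
  obtain ⟨f0, f1, f2, f3, f4, f5, fs, fl⟩ := mkV_fields v.p0 v.p1 v.p2 v.p3 v.p4 v.p5 v.s
  have h1 : v.l = (v.p0 + (v.p1 + v.p2)) + (v.p3 + (v.p4 + v.p5)) := by
    rw [← fl, ← hv.1]
  rw [h1]
  unfold formV formS ofP S3.toM
  push_cast
  simp
  ring

end Pool.Agent.Helper82.FL
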