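import Mathlib
import Pool.Agent.Helper28.TP.Eng
import Pool.Agent.Helper82.FL.Head

/-!
# Soundness of the fast leaf
-/

set_option autoImplicit false

namespace Pool.Agent.Helper82.FL

open Matrix Finset Pool.Agent.Helper28.TT

theorem M3bd.mono {m : M3} {X Y : ℤ} (h : M3bd m X) (hXY : X ≤ Y) : M3bd m Y := by
  obtain ⟨h1, h2, h3, h4, h5, h6, h7, h8, h9⟩ := h
  exact ⟨h1.trans hXY, h2.trans hXY, h3.trans hXY, h4.trans hXY, h5.trans hXY, h6.trans hXY,
    h7.trans hXY, h8.trans hXY, h9.trans hXY⟩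

theorem mul_bd {h : Hd} {l : T3} {rho : ℤ} (hl : HdOK h l rho) {m : M3} (hm : M3bd m (2 ^ 52)) :
    M3bd (l.mul m) (2 ^ 74) := by
  obtain ⟨h1, h2, h3, h4, h5, h6, h7, h8, h9⟩ := hm
  have N : ∀ {x y z x' y' z' : ℤ}, |x| ≤ 2 ^ 20 → |y| ≤ 2 ^ 20 → |z| ≤ 2 ^ 20 → |x'| ≤ 2 ^ 52 →
      |y'| ≤ 2 ^ 52 → |z'| ≤ 2 ^ 52 → |x * x' + y * y' + z * z'| ≤ 2 ^ 74 := by
    intro x y z x' y' z' hx hy hz hx' hy' hz'
    refine (bd_add (bd_add (bd_mul hx hx') (bd_mul hy hy')) (bd_mul hz hz')).trans ?_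
    norm_num
  have N2 : ∀ {x y x' y' : ℤ}, |x| ≤ 2 ^ 20 → |y| ≤ 2 ^ 20 → |x'| ≤ 2 ^ 52 →
      |y'| ≤ 2 ^ 52 → |x * x' + y * y'| ≤ 2 ^ 74 := by
    intro x y x' y' hx hy hx' hy'
    refine (bd_add (bd_mul hx hx') (bd_mul hy hy')).trans ?_
    norm_num
  have N1 : ∀ {x x' : ℤ}, |x| ≤ 2 ^ 20 → |x'| ≤ 2 ^ 52 → |x * x'| ≤ 2 ^ 74 := by
    intro x x' hx hx'
    refine (bd_mul hx hx').trans ?_
    norm_num
  exact ⟨N hl.ba hl.bd hl.be h1 h4 h7, N hl.ba hl.bd hl.be h2 h5 h8, N hl.ba hl.bd hl.be h3 h6 h9,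
    N2 hl.bb hl.bf h4 h7, N2 hl.bb hl.bf h5 h8, N2 hl.bb hl.bf h6 h9,
    N1 hl.bc h7, N1 hl.bc h8, N1 hl.bc h9⟩

theorem pair_nonneg (A : S3) (hA : A.toM.PosSemidef) (g : M3) : 0 ≤ S3.pair A (M3.tmul g g) := by
  have h1 : (0 : ℝ) ≤ (S3.pair A (M3.tmul g g) : ℤ) := by
    rw [pair_real, tmul_self]
    have h2 := trace_conj_nonneg (1 : Matrix (Fin 3) (Fin 3) ℝ) A.toM (g.toMᵀ)
      Matrix.PosSemidef.one hA
    rw [Matrix.one_mul, Matrix.transpose_transpose] at h2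
    have h3 : trace (A.toM * (g.toMᵀ * g.toM)) = trace (g.toM * A.toM * g.toMᵀ) := by
      calc trace (A.toM * (g.toMᵀ * g.toM)) = trace ((A.toM * g.toMᵀ) * g.toM) := by
            rw [Matrix.mul_assoc]
        _ = trace (g.toM * (A.toM * g.toMᵀ)) := trace_mul_comm _ _
        _ = _ := by rw [Matrix.mul_assoc]
    rw [h3]
    exact h2
  exact_mod_cast h1

open scoped MatrixOrder in
theorem exists_root (N : Matrix (Fin 3) (Fin 3) ℝ) (hN : N.PosSemidef) :
    ∃ S : Matrix (Fin 3) (Fin 3) ℝ, N = Sᵀ * S := by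
  obtain ⟨B, hB⟩ := CStarAlgebra.nonneg_iff_eq_star_mul_self.mp hN.nonneg
  exact ⟨B, by rw [hB, Matrix.star_eq_conjTranspose, Matrix.conjTranspose_eq_transpose_of_trivial]⟩

/-- a positive semidefinite matrix which is orthogonal to `Mᵀ M` kills `Mᵀ` -/
theorem kill (N : S3) (hN : N.toM.PosSemidef) (m : M3) (h : S3.pair N (M3.tmul m m) = 0) :
    N.toM * m.toMᵀ = 0 := by
  have h1 : trace (N.toM * (m.toMᵀ * m.toM)) = 0 := by
    rw [← tmul_self, ← pair_real, h]
    norm_num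
  obtain ⟨S, hS⟩ := exists_root _ hN
  have h2 : trace ((S * m.toMᵀ)ᵀ * (S * m.toMᵀ)) = 0 := by
    rw [← h1, hS, Matrix.transpose_mul, Matrix.transpose_transpose]
    calc trace (m.toM * Sᵀ * (S * m.toMᵀ)) = trace (m.toM * (Sᵀ * S * m.toMᵀ)) := by
          simp only [Matrix.mul_assoc]
      _ = trace ((Sᵀ * S * m.toMᵀ) * m.toM) := trace_mul_comm _ _
      _ = _ := by simp only [Matrix.mul_assoc]
  have h3 : S * m.toMᵀ = 0 := by
    have := Matrix.trace_conjTranspose_mul_self_eq_zero_iff (A := S * m.toMᵀ)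
    rw [Matrix.conjTranspose_eq_transpose_of_trivial] at this
    exact this.mp h2
  rw [hS, Matrix.mul_assoc, h3, Matrix.mul_zero]

theorem dig_zero (u : ℕ) : dig u 0 = 0 := by
  have h1 : dig u 0 = (u * 0 + BI8) % B9 / B8 := rfl
  have h2 : BI8 % B9 / B8 = 0 := by decide +kernel
  rw [h1, Nat.mul_zero, Nat.zero_add, h2]

/-- the number `E` -/
theorem eNum_spec {h : Hd} {l : T3} {rho : ℤ} (hl : HdOK h l rho) {C M : M3} {T D : ℕ}
    (hT : Rs T (pT (l.mul C) (l.mul M))) (hC : M3bd (l.mul C) (2 ^ 74)) (hM : M3bd (l.mul M) (2 ^ 74))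
    (h1 : 1 ≤ eNum h T D) : (eNum h T D : ℤ) = EE l rho D C M := by
  have h2 := tra_pair hT hC hM
  unfold eNum at h1 ⊢
  revert h1 h2
  generalize Nat.div (Nat.mod (Nat.add (Nat.mul T JJ) BI9) B9) B8 = t
  intro h1 h2
  have e : Nat.sub (Nat.add (Nat.mul h.rq D) (Nat.mul h.q B1))
    (Nat.add (Nat.mul (Nat.mul 2 h.q) t) h.rs) = (h.rq * D + h.q * B1) - (2 * h.q * t + h.rs) := rfl
  rw [e] at h1 ⊢
  rw [Nat.cast_sub (by omega)]
  push_cast
  rw [hl.q, hl.rq, hl.rs, h2, B1_int]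
  unfold EE
  ring

theorem allV_spec (f : V → Bool) (cs : List V) (h : allV f cs = true) :
    ∀ k (hk : k < cs.length), f cs[k] = true := by
  induction cs with
  | nil => intro k hk; exact absurd hk (by simp)
  | cons v l ih =>
    unfold allV at h
    cases h1 : f v with
    | false => rw [h1] at h; exact absurd h (by simp)
    | true =>
      rw [h1] at h
      intro k hk
      cases k with
      | zero => exact h1
      | succ k => exact ih h k (by simpa using hk)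

theorem allT_spec (f : V → ℕ → Bool) (cs : List V) (ts : ℕ) (h : allT f cs ts = true) :
    ∀ k (hk : k < cs.length), f cs[k] ((ts >>> (16 * k)) % 65536) = true := by
  induction cs generalizing ts with
  | nil => intro k hk; exact absurd hk (by simp)
  | cons v l ih =>
    unfold allT at h
    cases h1 : f v (Nat.mod ts 65536) with
    | false => rw [h1] at h; exact absurd h (by simp)
    | true =>
      rw [h1] at h
      intro k hk
      cases k with
      | zero => exact h1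
      | succ k =>
        have h5 := ih (Nat.shiftRight ts 16) h k (by simpa using hk)
        have e : (Nat.shiftRight ts 16) >>> (16 * k) = ts >>> (16 * (k + 1)) := by
          have : Nat.shiftRight ts 16 = ts >>> 16 := rfl
          rw [this, ← Nat.shiftRight_add]
          congr 1
          ring
        rw [e] at h5
        exact h5

section tests

variable (U W0 W : ℕ)

theorem band_split {a b : Bool} (h : band a b = true) : a = true ∧ b = true := by
  cases a <;> cases b <;> first | exact ⟨rfl, rfl⟩ | exact absurd h (by decide)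

theorem bor_split {a b : Bool} (h : bor a b = true) : a = true ∨ b = true := by
  cases a <;> cases b <;> first | exact Or.inl rfl | exact Or.inr rfl | exact absurd h (by decide)

theorem sng_spec (v : V) (h : sng W0 v = true) : dig W0 v.n = 0 := by
  rcases bor_split h with h | h
  · rw [Nat.eq_of_beq_eq_true h]
    exact dig_zero W0
  · exact Nat.eq_of_beq_eq_true h

theorem tstA_spec (E2 q4 : ℕ) (v : V) (h : tstA U W0 W E2 q4 v = true) :
    q4 * (dig U v.a * dig W v.b) ≤ E2 * v.d ∧ dig W0 v.n = 0 := by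
  obtain ⟨h1, h2⟩ := band_split h
  exact ⟨Nat.le_of_ble_eq_true h1, sng_spec W0 v h2⟩

theorem tstT_spec (E q K K2 : ℕ) (v : V) (t : ℕ) (h : tstT U W0 W E q K K2 v t = true) :
    1 ≤ t ∧ q * (K2 * (v.d * dig U v.a) + (t * t) * dig W v.b) ≤ ((t * K) * v.d) * E ∧
      dig W0 v.n = 0 := by
  obtain ⟨h1, h2⟩ := band_split h
  obtain ⟨h3, h4⟩ := band_split h2
  exact ⟨Nat.le_of_ble_eq_true h1, Nat.le_of_ble_eq_true h3, sng_spec W0 v h4⟩

end tests

/-- the form at a place of the list -/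
noncomputable def AtV (cs : List V) (k : ℕ) : Matrix (Fin 3) (Fin 3) ℝ :=
  match Pool.Agent.Helper28.TP.nth cs k with
  | some v => formV v
  | none => 0

/-- the sum of the parameters at a place of the list -/
noncomputable def lAt (cs : List V) (k : ℕ) : ℝ :=
  match Pool.Agent.Helper28.TP.nth cs k with
  | some v => (v.l : ℝ)
  | none => 0

/-- the scale of a corner -/
noncomputable def scl (h : Hd) (cs : List V) (k : ℕ) : ℝ :=
  if h.m = 1 then (((h.ts >>> (16 * k)) % 65536 : ℕ) : ℝ) / (h.K : ℝ) else lAt cs k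

/-- the number `σ` of a leaf -/
noncomputable def sig (h : Hd) (cs : List V) (lam : ℕ → ℝ) : ℝ :=
  ∑ k ∈ range cs.length, lam k * scl h cs k

theorem nth_get (cs : List V) (k : ℕ) (hk : k < cs.length) :
    Pool.Agent.Helper28.TP.nth cs k = some cs[k] := by
  induction cs generalizing k with
  | nil => exact absurd hk (by simp)
  | cons v l ih =>
    cases k with
    | zero => rfl
    | succ k => exact ih k (by simpa using hk)

theorem AtV_get (cs : List V) (k : Fin cs.length) : AtV cs k = (formS (cs[k])).toM := by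
  unfold AtV
  rw [nth_get cs k k.2]
  rfl

theorem lAt_get (cs : List V) (k : Fin cs.length) : lAt cs k = ((cs[k]).l : ℝ) := by
  unfold lAt
  rw [nth_get cs k k.2]
  rfl

/-- the data of a leaf at one corner of the box -/
structure Data (C M : M3) (κ μ : ℤ) (x0 x1 x2 y0 y1 y2 ka z0 z1 z2 w0 w1 w2 mu : ℕ) : Prop where
  rc : Rows C x0 x1 x2 y0 y1 y2
  rm : Rows M z0 z1 z2 w0 w1 w2
  bc : M3bd C (2 ^ 52)
  bm : M3bd M (2 ^ 52)
  ka : Rs ka κ
  mu : Rs mu μ
  bk : |κ| ≤ 2 ^ 60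
  bu : |μ| ≤ 2 ^ 60

theorem small_res {x : ℕ} {z : ℤ} (h : Rs x z) (hx : x ≤ 2 ^ 128) (hz : |z| ≤ 2 ^ 60) : (x : ℤ) = z := by
  unfold Rs at h
  obtain ⟨q, hq⟩ := (Int.modEq_iff_dvd.mp h)
  have hb : (2 : ℤ) ^ 256 ≤ (B1 : ℤ) ^ 9 := by
    have h7 : (B1 : ℤ) ^ 1 ≤ (B1 : ℤ) ^ 9 := by
      apply pow_le_pow_right₀ _ (by norm_num)
      have := B1_pos
      linarith
    rw [pow_one] at h7
    rw [← B1_int]
    exact h7
  have hx' : (x : ℤ) ≤ 2 ^ 128 := by exact_mod_cast hx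
  have hx0 : (0 : ℤ) ≤ x := Int.natCast_nonneg _
  have h1 := (abs_le.mp hz).1
  have h2 := (abs_le.mp hz).2
  have hq0 : q = 0 := by
    by_contra hne
    have h3 : 1 ≤ |q| := Int.one_le_abs hne
    have h4 : |z - x| = (B1 : ℤ) ^ 9 * |q| := by
      rw [hq, abs_mul, abs_of_nonneg (by positivity)]
    have h5 : (B1 : ℤ) ^ 9 * 1 ≤ (B1 : ℤ) ^ 9 * |q| :=
      mul_le_mul_of_nonneg_left h3 (by positivity)
    have h6 : |z - x| ≤ 2 ^ 60 + 2 ^ 128 := by
      rw [abs_le]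
      constructor <;> linarith
    have h7 : (2 : ℤ) ^ 60 + 2 ^ 128 < 2 ^ 256 := by norm_num
    linarith
  rw [hq0, mul_zero] at hq
  linarith

theorem core_test {q K K2 t d x y E : ℕ} (hK : 0 < K) (hK2 : K2 = K * K)
    (h : q * (K2 * (d * x) + (t * t) * y) ≤ ((t * K) * d) * E) {q' : ℝ} (hq : (q : ℝ) = q') :
    q' * (((d : ℤ) : ℝ) * ((x : ℤ) : ℝ) + ((t : ℝ) / K) ^ 2 * ((y : ℤ) : ℝ)) ≤
      (t : ℝ) / K * ((d : ℤ) : ℝ) * ((E : ℤ) : ℝ) := by
  rw [hK2] at h
  have h5 : (q : ℝ) * ((K : ℝ) * K * ((d : ℝ) * x) + (t : ℝ) * t * y) ≤ (t : ℝ) * K * d * E := by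
    exact_mod_cast h
  have hK' : (0 : ℝ) < K := by exact_mod_cast hK
  rw [← hq]
  rw [← sub_nonneg] at h5 ⊢
  have h6 : (t : ℝ) / K * ((d : ℤ) : ℝ) * ((E : ℤ) : ℝ) -
      (q : ℝ) * (((d : ℤ) : ℝ) * ((x : ℤ) : ℝ) + ((t : ℝ) / K) ^ 2 * ((y : ℤ) : ℝ)) =
      ((t : ℝ) * K * d * E - (q : ℝ) * ((K : ℝ) * K * ((d : ℝ) * x) + (t : ℝ) * t * y)) /
        (K : ℝ) ^ 2 := by
    simp only [Int.cast_natCast]
    field_simp
  rw [h6]
  positivity

/-- **Soundness of the fast leaf.** -/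
theorem fleaf_sound (F Z : Matrix (Fin 3) (Fin 3) ℝ) (hZ : (Fᵀ * F) * Z = 1) (cs : List V)
    (hok : ∀ v ∈ cs, okV v) (lam : ℕ → ℝ) (hlam : ∀ k, 0 ≤ lam k)
    (hQ : Fᵀ * F = ∑ k ∈ range cs.length, lam k • AtV cs k) (r : ℕ) (h : Hd) (hr : mkHd r = some h)
    (C M : M3) (κ μ : ℤ) (x0 x1 x2 y0 y1 y2 ka z0 z1 z2 w0 w1 w2 mu D : ℕ)
    (hd : Data C M κ μ x0 x1 x2 y0 y1 y2 ka z0 z1 z2 w0 w1 w2 mu)
    (hf : fleaf cs h x0 x1 x2 y0 y1 y2 ka z0 z1 z2 w0 w1 w2 mu D = true) :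
    (h.m = 0 → ∃ σ : ℝ, 0 < σ ∧ trace (Fᵀ * C.toM) + σ * trace ((F * Z)ᵀ * M.toM) <
      κ + σ * ((1154 : ℝ) / 169 * μ)) ∧
    (h.m ≠ 0 → 0 < sig h cs lam ∧ trace (Fᵀ * C.toM) + sig h cs lam * trace ((F * Z)ᵀ * M.toM) <
      κ + sig h cs lam * ((1154 : ℝ) / 169 * μ)) := by
  obtain ⟨l, rho, hl⟩ := mkHd_spec r h hr
  obtain ⟨h1, hf⟩ := band_split hf
  obtain ⟨h2, hf⟩ := band_split hf
  obtain ⟨h3, hf⟩ := band_split hf
  have e128 : (340282366920938463463374607431768211456 : ℕ) = 2 ^ 128 := by norm_num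
  have k1 : (ka : ℤ) = κ := small_res hd.ka (by rw [← e128]; exact Nat.le_of_ble_eq_true h1) hd.bk
  have k2 : (mu : ℤ) = μ := small_res hd.mu (by rw [← e128]; exact Nat.le_of_ble_eq_true h2) hd.bu
  have h3' : 169 * (D * D) + 1 ≤ 18464 * (ka * mu) := Nat.le_of_ble_eq_true h3
  have hκ0 : 0 ≤ κ := by rw [← k1]; exact Int.natCast_nonneg _
  have hμ0 : 0 ≤ μ := by rw [← k2]; exact Int.natCast_nonneg _
  have hD : (((D : ℕ) : ℤ) : ℝ) ^ 2 < 16 * ((κ : ℝ) * ((1154 : ℝ) / 169 * μ)) := by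
    have h4 : (169 * ((D : ℝ) * D) + 1) ≤ 18464 * ((ka : ℝ) * mu) := by exact_mod_cast h3'
    have k1' : (ka : ℝ) = κ := by exact_mod_cast k1
    have k2' : (mu : ℝ) = μ := by exact_mod_cast k2
    rw [k1', k2'] at h4
    push_cast
    linarith
  obtain ⟨G, hG⟩ : ∃ G, G = l.mul C := ⟨_, rfl⟩
  obtain ⟨H, hH⟩ : ∃ H, H = l.mul M := ⟨_, rfl⟩
  have rG := rows_mul hl.res hd.rc
  have rH := rows_mul hl.res hd.rm
  have bG := mul_bd hl hd.bc
  have bH := mul_bd hl hd.bm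
  have rU := uu_spec rG rG
  have rW := uu_spec rH rH
  have rW0 := uu_spec hd.rm hd.rm
  have rT := uu_spec rG rH
  unfold lf2 at hf
  revert hf rU rW rW0 rT
  generalize uu (r0 h.a h.d h.e x0 x1 x2) (r1 h.b h.f x1 x2) (Nat.mul h.c x2)
    (r0 h.a h.d h.e y0 y1 y2) (r1 h.b h.f y1 y2) (Nat.mul h.c y2) = U
  generalize uu (r0 h.a h.d h.e z0 z1 z2) (r1 h.b h.f z1 z2) (Nat.mul h.c z2)
    (r0 h.a h.d h.e w0 w1 w2) (r1 h.b h.f w1 w2) (Nat.mul h.c w2) = W
  generalize uu (r0 h.a h.d h.e x0 x1 x2) (r1 h.b h.f x1 x2) (Nat.mul h.c x2)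
    (r0 h.a h.d h.e w0 w1 w2) (r1 h.b h.f w1 w2) (Nat.mul h.c w2) = T
  generalize uu z0 z1 z2 w0 w1 w2 = W0
  intro hf rU rW rW0 rT
  have hEE0 := fun h1 => eNum_spec hl (D := D) rT bG bH h1
  revert hf hEE0
  generalize eNum h T D = E
  intro hf hEE0
  obtain ⟨hE, hf⟩ := band_split hf
  have hE1 : 1 ≤ E := Nat.le_of_ble_eq_true hE
  have hEE := hEE0 hE1
  -- the corners
  have hcorn : ∀ k : Fin cs.length, ∃ B N : S3, CornOK (cs[k]) B N :=
    fun k => exists_corn _ (hok _ (List.getElem_mem k.2))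
  choose B N hcr using hcorn
  have hQ' : Fᵀ * F = ∑ k : Fin cs.length, lam k • (formS (cs[k])).toM := by
    rw [hQ, Finset.sum_range]
    refine Finset.sum_congr rfl fun k _ => ?_
    rw [AtV_get]
  have hdv : ∀ k : Fin cs.length, 0 < (((cs[k]).d : ℕ) : ℤ) := fun k => by
    have := (hcr k).d
    omega
  have hpsd : ∀ k : Fin cs.length, (formS (cs[k])).toM.PosSemidef := fun k => formV_psd _
  have dU : ∀ k : Fin cs.length, (dig U (cs[k]).a : ℤ) = qa l (formS (cs[k])) C := fun k =>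
    dig_pair rU (hcr k).a bG ((hcr k).ba.mono (by norm_num)) (pair_nonneg _ (hpsd k) _)
  have dW : ∀ k : Fin cs.length, (dig W (cs[k]).b : ℤ) = qa l (B k) M := fun k =>
    dig_pair rW (hcr k).b bH ((hcr k).bb.mono (by norm_num)) (pair_nonneg _ (hcr k).psdB _)
  have hinv : ∀ k : Fin cs.length, dig W0 (cs[k]).n = 0 → (formS (cs[k])).toM * ((B k).toM * M.toMᵀ) =
      ((((cs[k]).d : ℕ) : ℤ) : ℝ) • M.toMᵀ := by
    intro k hk
    have h4 : (dig W0 (cs[k]).n : ℤ) = S3.pair (N k) (M3.tmul M M) :=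
      dig_pair rW0 (hcr k).n (hd.bm.mono (by norm_num)) ((hcr k).bn.mono (by norm_num)) (pair_nonneg _ (hcr k).psdN _)
    rw [hk] at h4
    have h5 := kill (N k) (hcr k).psdN M (by rw [← h4]; rfl)
    have h6 := (hcr k).id
    have h7 : (formS (cs[k])).toM * (B k).toM =
        ((((cs[k]).d : ℕ) : ℤ) : ℝ) • (1 : Matrix (Fin 3) (Fin 3) ℝ) - (N k).toM := by
      rw [← h6]
      abel
    rw [← Matrix.mul_assoc, h7, Matrix.sub_mul, h5, sub_zero, Matrix.smul_mul, Matrix.one_mul]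
  have hω : (0 : ℝ) < (1154 : ℝ) / 169 := by norm_num
  constructor
  · intro hm
    rw [hm] at hf
    have hc := fun k (hk : k < cs.length) =>
      tstA_spec U W0 W _ _ (cs[k]) (allV_spec _ cs hf k hk)
    refine tri_free F Z hZ (fun k : Fin cs.length => lam k) (fun k => hlam k)
      (fun k => formS (cs[k])) B (fun k => (((cs[k]).d : ℕ) : ℤ)) hdv hpsd C M
      (fun k => hinv k (hc k k.2).2) hQ' l hl.a hl.b hl.c rho D κ μ hl.rho _ hω hκ0 hμ0 hD
      (by rw [← hEE]; omega) (fun k => ?_)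
    have h4 := (hc k k.2).1
    rw [← hEE, ← dU, ← dW, ← hl.q]
    have e1 : Nat.mul 4 (Nat.mul h.q h.q) = 4 * (h.q * h.q) := rfl
    have e2 : Nat.mul (E) (E) = E * E := rfl
    rw [e1, e2] at h4
    have h5 : 4 * ((h.q : ℤ) * h.q) * ((dig U (cs[(k : ℕ)]).a : ℤ) * dig W (cs[(k : ℕ)]).b) ≤
      (E : ℤ) * E * (cs[(k : ℕ)]).d := by exact_mod_cast h4
    rw [sq, sq]
    exact h5
  · intro hm
    have hs : sig h cs lam = ∑ k : Fin cs.length, lam k * scl h cs k := by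
      unfold sig
      rw [Finset.sum_range]
    rw [hs]
    have hK : (0 : ℝ) < h.K := by exact_mod_cast hl.K
    have main : (∀ k : Fin cs.length, 0 < scl h cs k) ∧ (∀ k : Fin cs.length, dig W0 (cs[k]).n = 0) ∧
      (∀ k : Fin cs.length, (l.det : ℝ) ^ 2 * (((((cs[k]).d : ℕ) : ℤ) : ℝ) *
        ((dig U (cs[k]).a : ℤ) : ℝ) + (scl h cs k) ^ 2 * ((dig W (cs[k]).b : ℤ) : ℝ)) ≤
        scl h cs k * ((((cs[k]).d : ℕ) : ℤ) : ℝ) * ((E : ℤ) : ℝ)) := by
      have hq : ((h.q : ℕ) : ℝ) = (l.det : ℝ) ^ 2 := by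
        have := hl.q
        exact_mod_cast this
      by_cases h1m : h.m = 1
      · rw [h1m] at hf
        have hc := fun k (hk : k < cs.length) =>
          tstT_spec U W0 W _ _ _ _ (cs[k]) _ (allT_spec _ cs _ hf k hk)
        have es : ∀ k : Fin cs.length, scl h cs k =
            (((h.ts >>> (16 * (k : ℕ))) % 65536 : ℕ) : ℝ) / (h.K : ℝ) := fun k => by
          unfold scl
          rw [if_pos h1m]
        refine ⟨fun k => ?_, fun k => (hc k k.2).2.2, fun k => ?_⟩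
        · rw [es]
          have := (hc k k.2).1
          have h4 : (0 : ℝ) < (((h.ts >>> (16 * (k : ℕ))) % 65536 : ℕ) : ℝ) := by
            exact_mod_cast this
          positivity
        · rw [es]
          exact core_test hl.K rfl (hc k k.2).2.1 hq
      · have hf' : allV (tstC U W0 W (E) h.q) cs = true := by
          revert hf
          rcases hmm : h.m with _ | _ | n
          · exact absurd hmm hm
          · exact absurd hmm h1m
          · intro hf; exact hf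
        have hc := fun k (hk : k < cs.length) =>
          tstT_spec U W0 W _ _ _ _ (cs[k]) _ (allV_spec _ cs hf' k hk)
        have es : ∀ k : Fin cs.length, scl h cs k = ((cs[k]).l : ℝ) := fun k => by
          unfold scl
          rw [if_neg h1m, lAt_get]
        refine ⟨fun k => ?_, fun k => (hc k k.2).2.2, fun k => ?_⟩
        · rw [es]
          have := (hc k k.2).1
          exact_mod_cast this
        · rw [es]
          have h7 := core_test (K := 1) (by norm_num) (by norm_num) (hc k k.2).2.1 hq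
          rw [Nat.cast_one, div_one] at h7
          exact h7
    obtain ⟨m1, m2, m3⟩ := main
    have key := tri_test F Z hZ (fun k : Fin cs.length => lam k) (fun k => hlam k)
      (fun k => formS (cs[k])) B (fun k => (((cs[k]).d : ℕ) : ℤ)) hdv hpsd C M
      (fun k => hinv k (m2 k)) hQ' l hl.a hl.b hl.c rho D κ μ hl.rho _ hω hκ0 hμ0 hD
      (fun k => scl h cs k) m1 (fun k => by
        have h4 := m3 k
        rw [dU, dW, hEE] at h4
        exact h4)
    exact key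

/-- the number `σ` of the third mode -/
theorem sig_form (h : Hd) (hm : h.m ≠ 1) (cs : List V) (hok : ∀ v ∈ cs, okV v) (lam : ℕ → ℝ)
    (Q : Matrix (Fin 3) (Fin 3) ℝ) (hQ : Q = ∑ k ∈ range cs.length, lam k • AtV cs k) :
    sig h cs lam = Q 0 0 + Q 1 1 + Q 2 2 + Q 0 1 + Q 0 2 + Q 1 2 := by
  have e : ∀ i j, Q i j = ∑ k ∈ range cs.length, lam k * AtV cs k i j := by
    intro i j
    rw [hQ, Matrix.sum_apply]
    rfl
  simp only [e, ← Finset.sum_add_distrib]
  unfold sig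
  refine Finset.sum_congr rfl fun k hk => ?_
  have hk' := Finset.mem_range.mp hk
  have h1 : scl h cs k = ((cs[k]).l : ℝ) := by
    unfold scl lAt
    rw [if_neg hm, nth_get cs k hk']
  have h2 : AtV cs k = formV (cs[k]) := by
    unfold AtV
    rw [nth_get cs k hk']
  rw [h1, h2, l_form _ (hok _ (List.getElem_mem hk'))]
  ring

end Pool.Agent.Helper82.FL
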