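import Mathlib
import Pool.Agent.Helper82.FL.Sound

/-!
# The coefficient matrices of the children
-/

set_option autoImplicit false

namespace Pool.Agent.Helper82.FL

open Matrix Finset Pool.Agent.Helper28.TT

/-- `M + r uᵀ` -/
def mrgM (m : M3) (r0 r1 r2 u0 u1 u2 : ℤ) : M3 :=
  ⟨m.a0 + r0 * u0, m.a1 + r0 * u1, m.a2 + r0 * u2, m.b0 + r1 * u0, m.b1 + r1 * u1, m.b2 + r1 * u2,
    m.c0 + r2 * u0, m.c1 + r2 * u1, m.c2 + r2 * u2⟩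

def wA (l : T3) (x y z : ℤ) : ℤ := l.a * x + l.d * y + l.e * z
def wB (l : T3) (y z : ℤ) : ℤ := l.b * y + l.f * z
def wC (l : T3) (z : ℤ) : ℤ := l.c * z

theorem mul_mrg (l : T3) (m : M3) (r0 r1 r2 u0 u1 u2 : ℤ) :
    l.mul (mrgM m r0 r1 r2 u0 u1 u2) =
      mrgM (l.mul m) (wA l r0 r1 r2) (wB l r1 r2) (wC l r2) u0 u1 u2 := by
  unfold mrgM T3.mul wA wB wC
  simp only [M3.mk.injEq]
  refine ⟨?_, ?_, ?_, ?_, ?_, ?_, ?_, ?_, ?_⟩ <;> ring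

/-- the bilinear form -/
def nI (B : S3) (h0 h1 h2 u0 u1 u2 : ℤ) : ℤ :=
  h0 * (B.a * u0 + B.d * u1 + B.e * u2) + h1 * (B.d * u0 + B.b * u1 + B.f * u2) +
    h2 * (B.e * u0 + B.f * u1 + B.c * u2)

theorem pair_mrg (B : S3) (H : M3) (w0 w1 w2 u0 u1 u2 : ℤ) :
    S3.pair B (M3.tmul (mrgM H w0 w1 w2 u0 u1 u2) (mrgM H w0 w1 w2 u0 u1 u2)) =
      S3.pair B (M3.tmul H H) + 2 * (w0 * nI B H.a0 H.a1 H.a2 u0 u1 u2 +
        w1 * nI B H.b0 H.b1 H.b2 u0 u1 u2 + w2 * nI B H.c0 H.c1 H.c2 u0 u1 u2) +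
      (w0 ^ 2 + w1 ^ 2 + w2 ^ 2) * nI B u0 u1 u2 u0 u1 u2 := by
  unfold S3.pair M3.tmul mrgM nI
  ring

theorem cross_mrg (G H : M3) (w0 w1 w2 u0 u1 u2 : ℤ) :
    M3.pair G (mrgM H w0 w1 w2 u0 u1 u2) = M3.pair G H + (w0 * (G.a0 * u0 + G.a1 * u1 + G.a2 * u2) +
      w1 * (G.b0 * u0 + G.b1 * u1 + G.b2 * u2) + w2 * (G.c0 * u0 + G.c1 * u1 + G.c2 * u2)) := by
  unfold M3.pair mrgM
  ring

theorem EE_mrg (l : T3) (rho D : ℤ) (C M : M3) (r0 r1 r2 u0 u1 u2 : ℤ) :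
    EE l rho D C (mrgM M r0 r1 r2 u0 u1 u2) = EE l rho D C M - 2 * l.det ^ 2 *
      (wA l r0 r1 r2 * ((l.mul C).a0 * u0 + (l.mul C).a1 * u1 + (l.mul C).a2 * u2) +
      wB l r1 r2 * ((l.mul C).b0 * u0 + (l.mul C).b1 * u1 + (l.mul C).b2 * u2) +
      wC l r2 * ((l.mul C).c0 * u0 + (l.mul C).c1 * u1 + (l.mul C).c2 * u2)) := by
  unfold EE
  rw [mul_mrg, cross_mrg]
  ring

/-- the dual as a matrix -/
def uM (u0 u1 u2 : ℤ) : M3 := ⟨u0, u1, u2, 0, 0, 0, 0, 0, 0⟩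

theorem pair_uM (B : S3) (u0 u1 u2 : ℤ) :
    S3.pair B (M3.tmul (uM u0 u1 u2) (uM u0 u1 u2)) = nI B u0 u1 u2 u0 u1 u2 := by
  unfold S3.pair M3.tmul uM nI
  ring

theorem mrg_toM (m : M3) (r0 r1 r2 u0 u1 u2 : ℤ) :
    (mrgM m r0 r1 r2 u0 u1 u2).toM = m.toM +
      !![(r0 : ℝ), 0, 0; (r1 : ℝ), 0, 0; (r2 : ℝ), 0, 0] * (uM u0 u1 u2).toM := by
  unfold mrgM uM M3.toM
  ext i j
  fin_cases i <;> fin_cases j <;> simp [Matrix.mul_apply, Fin.sum_univ_three]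

theorem kill_mrg (N : S3) (m : M3) (r0 r1 r2 u0 u1 u2 : ℤ) (h1 : N.toM * m.toMᵀ = 0)
    (h2 : N.toM * (uM u0 u1 u2).toMᵀ = 0) : N.toM * (mrgM m r0 r1 r2 u0 u1 u2).toMᵀ = 0 := by
  rw [mrg_toM, Matrix.transpose_add, Matrix.mul_add, h1, Matrix.transpose_mul, ← Matrix.mul_assoc, h2]
  simp

/-- the bound of a corner for a child -/
theorem child_test {q K T d x y E0 e X : ℤ} (hK : 0 < K) (hq : 0 ≤ q) {E : ℤ} (hE : q * E0 ≤ E)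
    (hT : 0 ≤ T) (hd : 0 ≤ d)
    (h : K * (K * d) * x + T * T * y ≤ T * (K * d) * (E0 - 2 * e)) (hX : X = E - 2 * q * e) :
    (q : ℝ) * ((d : ℝ) * (x : ℝ) + ((T : ℝ) / K) ^ 2 * (y : ℝ)) ≤ (T : ℝ) / K * (d : ℝ) * (X : ℝ) := by
  have hK' : (0 : ℝ) < K := by exact_mod_cast hK
  have h1 : q * (K * (K * d) * x + T * T * y) ≤ T * (K * d) * X := by
    have h2 := mul_le_mul_of_nonneg_left h hq
    have h3 : 0 ≤ T * (K * d) := by positivity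
    have h4 := mul_le_mul_of_nonneg_left hE h3
    rw [hX]
    linarith
  have h5 : (q : ℝ) * ((K : ℝ) * (K * d) * x + (T : ℝ) * T * y) ≤ (T : ℝ) * (K * d) * X := by
    exact_mod_cast h1
  rw [← sub_nonneg] at h5 ⊢
  have h6 : (T : ℝ) / K * (d : ℝ) * (X : ℝ) - (q : ℝ) * ((d : ℝ) * (x : ℝ) + ((T : ℝ) / K) ^ 2 * (y : ℝ)) =
      ((T : ℝ) * (K * d) * X - (q : ℝ) * ((K : ℝ) * (K * d) * x + (T : ℝ) * T * y)) / (K : ℝ) ^ 2 := by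
    field_simp
  rw [h6]
  positivity

end Pool.Agent.Helper82.FL
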