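import Pool.Agent.Helper82.FL.Raw

/-! The raw functions of the fast leaf for any number of rows. -/

set_option autoImplicit false

namespace Pool.Agent.Helper82.FL

/-- `b ^ 9 - 2 ^ 19` -/
def OFF : Nat := 3742053650892133432367999773538322459225928823527575869347258443714776254479140165467924450143929014376701328043796892084250680644651644268919891406030558009514559848402392186697349032657288467726728117428485865736692545611669179323917560467904459270003565249200768855069969069462910188335948939853235385655600614050799627402904169955617680686939217306230732743306013312855692685442723231659949822010462888578091073832552856131420378840703853686445535243055462767679945780563431553986820134725467051353840270015201262955847832589866641019681571016376279703475133297517542073557917754709550486937454822846451632280550418910946262563991699255138480187856382366661603621981981643212128456084553728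

/-- scalar product of lists -/
noncomputable def dot (l : List Nat) : List Nat → Nat :=
  @List.rec Nat (fun _ => List Nat → Nat) (fun _ => 0)
    (fun a _ ih m => @List.rec Nat (fun _ => Nat) 0
      (fun b t _ => Nat.add (Nat.mul a b) (ih t)) m) l

/-- the tail -/
noncomputable def tl (l : List Nat) : List Nat :=
  @List.rec Nat (fun _ => List Nat) [] (fun _ t _ => t) l

/-- a triangular matrix times a vector; the rows have the lengths `m, ..., 1` -/
noncomputable def mulL (rows : List (List Nat)) : List Nat → List Nat :=
  @List.rec (List Nat) (fun _ => List Nat → List Nat) (fun _ => [])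
    (fun r _ ih xs => List.cons (dot r xs) (ih (tl xs))) rows

/-- outer products -/
noncomputable def uuL (xs ys : List Nat) : Nat := Nat.mod (dot xs ys) B9

/-- multiples of a list -/
noncomputable def scaL (a : Nat) (l : List Nat) : List Nat :=
  @List.rec Nat (fun _ => List Nat) [] (fun b _ ih => List.cons (Nat.mul a b) ih) l

/-- zeros -/
noncomputable def zerL (l : List Nat) : List Nat :=
  @List.rec Nat (fun _ => List Nat) [] (fun _ _ ih => List.cons 0 ih) l

/-- the negative residue -/
def negR (x : Nat) : Nat := Nat.sub B9 (Nat.mod x B9)

/-- the determinant of a triangular matrix -/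
noncomputable def detL (rows : List (List Nat)) : Nat :=
  @List.rec (List Nat) (fun _ => Nat) 1
    (fun r _ ih => Nat.mul (@List.rec Nat (fun _ => Nat) 0 (fun a _ _ => a) r) ih) rows

/-- the columns of the adjugate: the step for the other columns -/
noncomputable def stepC (a : Nat) (v : List Nat) (cols : List (List Nat)) : List (List Nat) :=
  @List.rec (List Nat) (fun _ => List (List Nat)) []
    (fun c _ ih => List.cons (List.cons (negR (dot v c)) (scaL a c)) ih) cols

/-- the columns of the adjugate of a triangular matrix -/
noncomputable def colsL (rows : List (List Nat)) : List (List Nat) :=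
  @List.rec (List Nat) (fun _ => List (List Nat)) []
    (fun r rs ih => @List.rec Nat (fun _ => List (List Nat)) []
      (fun a v _ => List.cons (List.cons (detL rs) (zerL v)) (stepC a v ih)) r) rows

/-- the sum of the squares -/
noncomputable def sqL (cols : List (List Nat)) : Nat :=
  @List.rec (List Nat) (fun _ => Nat) 0 (fun c _ ih => Nat.add (dot c c) ih) cols

/-- `n` entries beside the diagonal from a token -/
noncomputable def offs (n : Nat) : Nat → List Nat :=
  @Nat.rec (fun _ => Nat → List Nat) (fun _ => [])
    (fun _ ih r => List.cons (Nat.add (Nat.mod r 1048576) OFF) (ih (Nat.shiftRight r 20))) n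

/-- the rows of a triangular matrix from a token -/
noncomputable def rowsG (m : Nat) : Nat → List (List Nat) :=
  @Nat.rec (fun _ => Nat → List (List Nat)) (fun _ => [])
    (fun n ih r => List.cons (List.cons (Nat.mod r 1048576) (offs n (Nat.shiftRight r 20)))
      (ih (Nat.shiftRight r (Nat.mul 20 (Nat.succ n))))) m

/-- the header of a leaf: the triangular factor and the numbers -/
structure HdG where
  L : List (List Nat)
  h : Hd

/-- the last step -/
noncomputable def lf2G (cs : List V) (h : Hd) (D W0 : Nat) (gx gy hx hy : List Nat) : Bool :=
  lf3 cs h (uuL gx gy) W0 (uuL hx hy) (eNum h (uuL gx hy) D)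

/-- the test at one corner of the box: the rows of `C` in both strides and `κ`, the rows of `M` in
both strides and `μ`, the bound `D` -/
noncomputable def fleafG (cs : List V) (g : HdG) (xs ys : List Nat) (ka : Nat) (zs ws : List Nat)
    (mu D : Nat) : Bool :=
  band (Nat.ble ka 340282366920938463463374607431768211456)
    (band (Nat.ble mu 340282366920938463463374607431768211456)
    (band (Nat.ble (Nat.add (Nat.mul 169 (Nat.mul D D)) 1) (Nat.mul 18464 (Nat.mul ka mu)))
    (lf2G cs g.h D (uuL zs ws) (mulL g.L xs) (mulL g.L ys) (mulL g.L zs) (mulL g.L ws))))

/-- the header, last step: `r` the token, `s` the rest after the matrix -/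
def hd3G (r s : Nat) (L : List (List Nat)) (q rho S : Nat) : Option HdG :=
  match Nat.ble 1 q with
  | true => some (HdG.mk L (Hd.mk (Nat.mod r 4) 0 0 0 0 0 0 q (Nat.mul rho q)
      (Nat.mul (Nat.mul rho rho) S) (Nat.shiftLeft 1 (Nat.mod (Nat.shiftRight s 8) 64))
      (Nat.shiftRight s 14)))
  | false => none

noncomputable def hd2G (r s : Nat) (L : List (List Nat)) : Option HdG :=
  hd3G r s L (Nat.pow (detL L) 2) (Nat.shiftLeft 1 (Nat.mod s 256)) (Nat.mod (sqL (colsL L)) B9)

/-- the header of a token for `m` rows: mode 2 bits, then the rows of the triangular factor, 20 bits for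
each entry (the entries beside the diagonal with the offset `2 ^ 19`), 8 bits for the exponent of
`rho`, 6 bits for the exponent of `K`, then the scales -/
noncomputable def mkHdG (m r : Nat) : Option HdG :=
  hd2G r (Nat.shiftRight r (Nat.add 2 (Nat.mul 10 (Nat.mul m (Nat.succ m)))))
    (rowsG m (Nat.shiftRight r 2))

end Pool.Agent.Helper82.FL
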