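import Mathlib
import Pool.Agent.Helper82.FL.Head
import Pool.Agent.Helper82.FL.RawG

/-!
# Lists of residues and integer matrices with any number of rows
-/

set_option autoImplicit false

namespace Pool.Agent.Helper82.FL

open Finset Pool.Agent.Helper28.TT

/-- a list of residues stands for a vector -/
def VR : (m : ℕ) → List ℕ → (Fin m → ℤ) → Prop
  | 0, v, _ => v = []
  | m + 1, v, f => ∃ a t, v = a :: t ∧ Rs a (f 0) ∧ VR m t (fun i => f i.succ)

/-- a list of columns stands for a matrix -/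
def CR (m : ℕ) : (n : ℕ) → List (List ℕ) → (Fin m → Fin n → ℤ) → Prop
  | 0, cols, _ => cols = []
  | n + 1, cols, T => ∃ c cs, cols = c :: cs ∧ VR m c (fun i => T i 0) ∧
      CR m n cs (fun i j => T i j.succ)

/-- a list of rows stands for an upper triangular matrix -/
def LRel : (m : ℕ) → List (List ℕ) → (Fin m → Fin m → ℤ) → Prop
  | 0, rows, _ => rows = []
  | m + 1, rows, L => ∃ a v rs, rows = (a :: v) :: rs ∧ (a : ℤ) = L 0 0 ∧ a ≤ 2 ^ 20 ∧
      VR m v (fun j => L 0 j.succ) ∧ (∀ j : Fin m, |L 0 j.succ| ≤ 2 ^ 20) ∧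
      (∀ i : Fin m, L i.succ 0 = 0) ∧ LRel m rs (fun i j => L i.succ j.succ)

theorem Rs_zero : Rs 0 0 := Rs.refl 0

theorem dot_nil (m : List ℕ) : dot [] m = 0 := rfl

theorem dot_cons (a b : ℕ) (l m : List ℕ) : dot (a :: l) (b :: m) = a * b + dot l m := rfl

theorem dot_spec {m : ℕ} {v c : List ℕ} {f g : Fin m → ℤ} (hv : VR m v f) (hc : VR m c g) :
    Rs (dot v c) (∑ i, f i * g i) := by
  induction m generalizing v c with
  | zero =>
    have e1 : v = [] := hv
    rw [e1, dot_nil]
    exact Rs_zero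
  | succ m ih =>
    obtain ⟨a, t, rfl, ha, ht⟩ := hv
    obtain ⟨b, u, rfl, hb, hu⟩ := hc
    rw [dot_cons, Fin.sum_univ_succ]
    exact (ha.mul hb).add (ih ht hu)

theorem mulL_cons (r : List ℕ) (rs : List (List ℕ)) (x : ℕ) (xs : List ℕ) :
    mulL (r :: rs) (x :: xs) = dot r (x :: xs) :: mulL rs xs := rfl

theorem LRel.row {m : ℕ} {a : ℕ} {v : List ℕ} {L : Fin (m + 1) → Fin (m + 1) → ℤ}
    (ha : (a : ℤ) = L 0 0) (hv : VR m v (fun j => L 0 j.succ)) : VR (m + 1) (a :: v) (L 0) :=
  ⟨a, v, rfl, (Rs.refl a).congr ha, hv⟩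

theorem mulL_spec {m : ℕ} {rows : List (List ℕ)} {L : Fin m → Fin m → ℤ} (hL : LRel m rows L)
    {xs : List ℕ} {x : Fin m → ℤ} (hx : VR m xs x) :
    VR m (mulL rows xs) (fun i => ∑ k, L i k * x k) := by
  induction m generalizing rows xs with
  | zero =>
    have e1 : rows = [] := hL
    rw [e1]
    exact rfl
  | succ m ih =>
    obtain ⟨a, v, rs, rfl, ha, -, hv, -, h0, hr⟩ := hL
    obtain ⟨b, t, rfl, hb, ht⟩ := hx
    rw [mulL_cons]
    refine ⟨_, _, rfl, dot_spec (LRel.row ha hv) ⟨b, t, rfl, hb, ht⟩, ?_⟩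
    have h1 := ih hr ht
    have e : (fun i : Fin m => ∑ k, L i.succ k * x k) =
        (fun i : Fin m => ∑ k : Fin m, L i.succ k.succ * x k.succ) := by
      funext i
      rw [Fin.sum_univ_succ, h0 i, zero_mul, zero_add]
    rw [e]
    exact h1

theorem scaL_cons (a b : ℕ) (l : List ℕ) : scaL a (b :: l) = (a * b) :: scaL a l := rfl

theorem scaL_spec {m : ℕ} {a : ℕ} {a' : ℤ} (ha : Rs a a') {c : List ℕ} {f : Fin m → ℤ}
    (hc : VR m c f) : VR m (scaL a c) (fun i => a' * f i) := by
  induction m generalizing c with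
  | zero =>
    have e1 : c = [] := hc
    rw [e1]
    exact rfl
  | succ m ih =>
    obtain ⟨b, t, rfl, hb, ht⟩ := hc
    exact ⟨_, _, scaL_cons a b t, ha.mul hb, ih ht⟩

theorem zerL_cons (b : ℕ) (l : List ℕ) : zerL (b :: l) = 0 :: zerL l := rfl

theorem zerL_spec {m : ℕ} {c : List ℕ} {f : Fin m → ℤ} (hc : VR m c f) :
    VR m (zerL c) (fun _ => 0) := by
  induction m generalizing c with
  | zero =>
    have e1 : c = [] := hc
    rw [e1]
    exact rfl
  | succ m ih =>
    obtain ⟨b, t, rfl, hb, ht⟩ := hc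
    exact ⟨_, _, zerL_cons b t, Rs_zero, ih ht⟩

theorem negR_spec {x : ℕ} {z : ℤ} (h : Rs x z) : Rs (negR x) (-z) := by
  have hB : 0 < B9 := by have := B9_ge; omega
  have h1 : x % B9 < B9 := Nat.mod_lt _ hB
  have e : negR x = B9 - x % B9 := rfl
  have h2 := h.mod
  unfold Rs at h2 ⊢
  rw [e, Nat.cast_sub h1.le, B9_int]
  have h3 : ((B1 : ℤ) ^ 9 - ((x % B9 : ℕ) : ℤ)) ≡ 0 - z [ZMOD (B1 : ℤ) ^ 9] :=
    Int.ModEq.sub (by
      apply Int.modEq_of_dvd
      exact ⟨-1, by ring⟩) h2
  rw [zero_sub] at h3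
  exact h3

theorem stepC_cons (a : ℕ) (v c : List ℕ) (cs : List (List ℕ)) :
    stepC a v (c :: cs) = (negR (dot v c) :: scaL a c) :: stepC a v cs := rfl

theorem stepC_spec {m n : ℕ} {a : ℕ} {a' : ℤ} (ha : Rs a a') {v : List ℕ} {f : Fin m → ℤ}
    (hv : VR m v f) {cols : List (List ℕ)} {T : Fin m → Fin n → ℤ} (hT : CR m n cols T) :
    CR (m + 1) n (stepC a v cols)
      (fun i j => Fin.cases (motive := fun _ => ℤ) (-(∑ k, f k * T k j)) (fun i => a' * T i j) i) := by
  induction n generalizing cols with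
  | zero =>
    have e1 : cols = [] := hT
    rw [e1]
    exact rfl
  | succ n ih =>
    obtain ⟨c, cs, rfl, hc, hcs⟩ := hT
    refine ⟨_, _, stepC_cons a v c cs, ⟨_, _, rfl, ?_, ?_⟩, ?_⟩
    · exact negR_spec (dot_spec hv hc)
    · exact scaL_spec ha hc
    · exact ih hcs

theorem detL_cons (a : ℕ) (v : List ℕ) (rs : List (List ℕ)) :
    detL ((a :: v) :: rs) = a * detL rs := rfl

theorem colsL_cons (a : ℕ) (v : List ℕ) (rs : List (List ℕ)) :
    colsL ((a :: v) :: rs) = (detL rs :: zerL v) :: stepC a v (colsL rs) := rfl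

theorem sqL_cons (c : List ℕ) (cs : List (List ℕ)) : sqL (c :: cs) = dot c c + sqL cs := rfl

theorem sqL_spec {m n : ℕ} {cols : List (List ℕ)} {T : Fin m → Fin n → ℤ} (hT : CR m n cols T) :
    Rs (sqL cols) (∑ j, ∑ i, T i j * T i j) := by
  induction n generalizing cols with
  | zero =>
    have e1 : cols = [] := hT
    rw [e1]
    exact Rs_zero
  | succ n ih =>
    obtain ⟨c, cs, rfl, hc, hcs⟩ := hT
    rw [sqL_cons, Fin.sum_univ_succ]
    exact (dot_spec hc hc).add (ih hcs)

/-- the adjugate of a triangular matrix -/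
theorem adj_spec {m : ℕ} (hm : m ≤ 8) {rows : List (List ℕ)} {L : Fin m → Fin m → ℤ}
    (hL : LRel m rows L) : ∃ T : Fin m → Fin m → ℤ, CR m m (colsL rows) T ∧
      (∀ i j, ∑ k, L i k * T k j = if i = j then (detL rows : ℤ) else 0) ∧
      (∀ i j, |T i j| ≤ 2 ^ (30 * m)) ∧ (detL rows : ℤ) ≤ 2 ^ (30 * m) := by
  induction m generalizing rows with
  | zero =>
    have e1 : rows = [] := hL
    refine ⟨fun i => i.elim0, ?_, fun i => i.elim0, fun i => i.elim0, ?_⟩
    · rw [e1]; exact rfl
    · rw [e1]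
      have : detL [] = 1 := rfl
      rw [this]
      norm_num
  | succ m ih =>
    obtain ⟨a, v, rs, rfl, ha, hab, hv, hvb, h0, hr⟩ := hL
    obtain ⟨T, hT1, hT2, hT3, hT4⟩ := ih (by omega) hr
    have hP : (2 : ℤ) ^ (30 * (m + 1)) = 2 ^ (30 * m) * 2 ^ 30 := by
      rw [← pow_add]; congr 1
    have hpos : (0 : ℤ) < 2 ^ (30 * m) := by positivity
    have hab' : (a : ℤ) ≤ 2 ^ 20 := by exact_mod_cast hab
    have ha0 : (0 : ℤ) ≤ a := Int.natCast_nonneg _
    have hd0 : (0 : ℤ) ≤ (detL rs : ℤ) := Int.natCast_nonneg _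
    refine ⟨fun i j => Fin.cases (motive := fun _ => ℤ)
      (Fin.cases (motive := fun _ => ℤ) (detL rs : ℤ) (fun _ => 0) i)
      (fun j => Fin.cases (motive := fun _ => ℤ) (-(∑ k, L 0 k.succ * T k j))
        (fun i => (a : ℤ) * T i j) i) j, ?_, ?_, ?_, ?_⟩
    · rw [colsL_cons]
      refine ⟨_, _, rfl, ⟨_, _, rfl, Rs.refl _, zerL_spec hv⟩, ?_⟩
      exact stepC_spec (Rs.refl a) hv hT1
    · intro i j
      rw [detL_cons, Fin.sum_univ_succ]
      push_cast
      refine Fin.cases ?_ (fun i => ?_) i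
      · refine Fin.cases ?_ (fun j => ?_) j
        · simp only [Fin.cases_zero, Fin.cases_succ, mul_zero, Finset.sum_const_zero, add_zero,
            if_true]
          rw [← ha]
        · simp only [Fin.cases_zero, Fin.cases_succ]
          rw [if_neg (Fin.succ_ne_zero j).symm, ← ha]
          have e : ∑ k : Fin m, L 0 k.succ * ((a : ℤ) * T k j) =
              (a : ℤ) * ∑ k : Fin m, L 0 k.succ * T k j := by
            rw [Finset.mul_sum]
            exact Finset.sum_congr rfl fun k _ => by ring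
          rw [e]
          ring
      · refine Fin.cases ?_ (fun j => ?_) j
        · simp only [Fin.cases_zero, Fin.cases_succ, mul_zero, Finset.sum_const_zero, add_zero]
          rw [if_neg (Fin.succ_ne_zero i), h0 i, zero_mul]
        · simp only [Fin.cases_succ]
          rw [h0 i, zero_mul, zero_add]
          have e : ∑ k : Fin m, L i.succ k.succ * ((a : ℤ) * T k j) =
              (a : ℤ) * ∑ k : Fin m, L i.succ k.succ * T k j := by
            rw [Finset.mul_sum]
            exact Finset.sum_congr rfl fun k _ => by ring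
          rw [e, hT2 i j]
          by_cases h : i = j
          · rw [if_pos h, if_pos (by rw [h])]
          · rw [if_neg h, if_neg (fun h' => h (Fin.succ_injective _ h')), mul_zero]
    · intro i j
      refine Fin.cases ?_ (fun j => ?_) j
      · refine Fin.cases ?_ (fun i => ?_) i
        · simp only [Fin.cases_zero]
          rw [abs_of_nonneg hd0, hP]
          nlinarith
        · simp only [Fin.cases_zero, Fin.cases_succ, abs_zero]
          positivity
      · refine Fin.cases ?_ (fun i => ?_) i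
        · simp only [Fin.cases_zero, Fin.cases_succ, abs_neg]
          have h1 : |∑ k : Fin m, L 0 k.succ * T k j| ≤ ∑ k : Fin m, (2 : ℤ) ^ 20 * 2 ^ (30 * m) := by
            refine (Finset.abs_sum_le_sum_abs _ _).trans (Finset.sum_le_sum fun k _ => ?_)
            exact bd_mul (hvb k) (hT3 k j)
          rw [Finset.sum_const, Finset.card_univ, Fintype.card_fin, nsmul_eq_mul] at h1
          have hm' : (m : ℤ) ≤ 8 := by exact_mod_cast (by omega : m ≤ 8)
          rw [hP]
          have hm0 : (0 : ℤ) ≤ m := Int.natCast_nonneg _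
          nlinarith
        · simp only [Fin.cases_succ]
          have h1 := bd_mul (x := (a : ℤ)) (y := T i j) (le_of_eq_of_le (abs_of_nonneg ha0) hab') (hT3 i j)
          rw [hP]
          nlinarith
    · rw [detL_cons, hP]
      push_cast
      nlinarith [mul_le_mul hab' hT4 hd0 (by positivity : (0 : ℤ) ≤ 2 ^ 20)]

end Pool.Agent.Helper82.FL
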