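import Mathlib
import Pool.Agent.Helper82.FL.Lst

/-!
# Gram matrices as digits, any number of rows
-/

set_option autoImplicit false

namespace Pool.Agent.Helper82.FL

open Finset Pool.Agent.Helper28.TT

section

variable {u a : ℕ} {u0 u1 u2 u3 u4 u5 u6 u7 u8 a0 a1 a2 a3 a4 a5 a6 a7 a8 X Y : ℤ}

/-- the top digit of a product -/
theorem prod_topG (hXY : 8 * (X * Y) < 2 ^ 255) (hu : Rs u (p9 B1 u0 u1 u2 u3 u4 u5 u6 u7 u8))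
    (ha : Rs a (p9 B1 a0 a1 a2 a3 a4 a5 a6 a7 a8))
    (b0 : |u0| ≤ X) (b1 : |u1| ≤ X) (b2 : |u2| ≤ X) (b3 : |u3| ≤ X)
    (b4 : |u4| ≤ X) (b5 : |u5| ≤ X) (b6 : |u6| ≤ X) (b7 : |u7| ≤ X)
    (c0 : |a0| ≤ Y) (c1 : |a1| ≤ Y) (c2 : |a2| ≤ Y) (c3 : |a3| ≤ Y)
    (c4 : |a4| ≤ Y) (c5 : |a5| ≤ Y) (c6 : |a6| ≤ Y) (c7 : |a7| ≤ Y)
    (T : ℤ) (hT : T = u0 * a8 + u1 * a7 + u2 * a6 + u3 * a5 + u4 * a4 + u5 * a3 + u6 * a2 + u7 * a1 +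
      u8 * a0) (s : ℤ) (hs : 0 ≤ T + s ∧ T + s < (B1 : ℤ)) :
    ((u : ℤ) * a + (2 ^ 255 * (1 + (B1 : ℤ) + B1 ^ 2 + B1 ^ 3 + B1 ^ 4 + B1 ^ 5 + B1 ^ 6 + B1 ^ 7) +
      s * B1 ^ 8)) % (B1 : ℤ) ^ 9 / B1 ^ 8 = T + s := by
  have N : ∀ {x y : ℤ}, |x| ≤ X → |y| ≤ Y → |x * y| ≤ X * Y := fun hx hy => bd_mul hx hy
  have hX0 : 0 ≤ X * Y := (abs_nonneg _).trans (N b0 c0)
  obtain ⟨P, hP⟩ : ∃ P : ℤ, P = X * Y := ⟨_, rfl⟩
  rw [← hP] at hXY hX0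
  simp only [← hP] at N
  have h1 := (Int.ModEq.mul hu ha).trans (conv9 _ _ _ _ _ _ _ _ _ _ _ _ _ _ _ _ _ _ _)
  have h2 := h1.add_right (2 ^ 255 * (1 + (B1 : ℤ) + B1 ^ 2 + B1 ^ 3 + B1 ^ 4 + B1 ^ 5 + B1 ^ 6 +
    B1 ^ 7) + s * B1 ^ 8)
  refine top_digit B1_pos _ (h2.trans (Int.ModEq.symm ?_)) (sh (N b0 c0) (by linarith))
    (sh (bd_add (N b0 c1) (N b1 c0)) (by linarith))
    (sh (bd_add (bd_add (N b0 c2) (N b1 c1)) (N b2 c0)) (by linarith))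
    (sh (bd_add (bd_add (bd_add (N b0 c3) (N b1 c2)) (N b2 c1)) (N b3 c0)) (by linarith))
    (sh (bd_add (bd_add (bd_add (bd_add (N b0 c4) (N b1 c3)) (N b2 c2)) (N b3 c1)) (N b4 c0))
      (by linarith))
    (sh (bd_add (bd_add (bd_add (bd_add (bd_add (N b0 c5) (N b1 c4)) (N b2 c3)) (N b3 c2))
      (N b4 c1)) (N b5 c0)) (by linarith))
    (sh (bd_add (bd_add (bd_add (bd_add (bd_add (bd_add (N b0 c6) (N b1 c5)) (N b2 c4)) (N b3 c3))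
      (N b4 c2)) (N b5 c1)) (N b6 c0)) (by linarith))
    (sh (bd_add (bd_add (bd_add (bd_add (bd_add (bd_add (bd_add (N b0 c7) (N b1 c6)) (N b2 c5))
      (N b3 c4)) (N b4 c3)) (N b5 c2)) (N b6 c1)) (N b7 c0)) (by linarith)) hs
  rw [hT]
  apply Int.modEq_of_dvd
  refine ⟨0, ?_⟩
  unfold p9
  ring

end

/-- the rows of a matrix in both strides -/
structure RowsG (m : ℕ) (C : Fin m → Fin 3 → ℤ) (xs ys : List ℕ) : Prop where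
  x : VR m xs (fun i => C i 0 + C i 1 * B1 + C i 2 * B1 ^ 2)
  y : VR m ys (fun i => C i 0 + C i 1 * B1 ^ 3 + C i 2 * B1 ^ 6)

/-- the product with a square matrix -/
def mulI {m : ℕ} (L : Fin m → Fin m → ℤ) (C : Fin m → Fin 3 → ℤ) : Fin m → Fin 3 → ℤ :=
  fun i k => ∑ j, L i j * C j k

/-- digits of `Gᵀ H` -/
def pG {m : ℕ} (g h : Fin m → Fin 3 → ℤ) : ℤ :=
  p9 B1 (∑ i, g i 0 * h i 0) (∑ i, g i 1 * h i 0) (∑ i, g i 2 * h i 0)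
    (∑ i, g i 0 * h i 1) (∑ i, g i 1 * h i 1) (∑ i, g i 2 * h i 1)
    (∑ i, g i 0 * h i 2) (∑ i, g i 1 * h i 2) (∑ i, g i 2 * h i 2)

/-- the Gram matrix -/
def gramS {m : ℕ} (g : Fin m → Fin 3 → ℤ) : S3 :=
  ⟨∑ i, g i 0 * g i 0, ∑ i, g i 1 * g i 1, ∑ i, g i 2 * g i 2,
    ∑ i, g i 0 * g i 1, ∑ i, g i 0 * g i 2, ∑ i, g i 1 * g i 2⟩

/-- the scalar product -/
def prI {m : ℕ} (g h : Fin m → Fin 3 → ℤ) : ℤ :=
  ∑ i, g i 0 * h i 0 + ∑ i, g i 1 * h i 1 + ∑ i, g i 2 * h i 2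

theorem uuL_spec {m : ℕ} {g h : Fin m → Fin 3 → ℤ} {xs ys zs ws : List ℕ} (hg : RowsG m g xs ys)
    (hh : RowsG m h zs ws) : Rs (uuL xs ws) (pG g h) := by
  have h1 := (dot_spec hg.x hh.y).mod
  refine Rs.congr (x := uuL xs ws) h1 ?_
  unfold pG p9
  simp only [Finset.mul_sum, ← Finset.sum_add_distrib]
  refine Finset.sum_congr rfl fun i _ => ?_
  ring

theorem rowsG_mul {m : ℕ} {rows : List (List ℕ)} {L : Fin m → Fin m → ℤ} (hL : LRel m rows L)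
    {C : Fin m → Fin 3 → ℤ} {xs ys : List ℕ} (hC : RowsG m C xs ys) :
    RowsG m (mulI L C) (mulL rows xs) (mulL rows ys) where
  x := by
    have h1 := mulL_spec hL hC.x
    have e : (fun i => mulI L C i 0 + mulI L C i 1 * (B1 : ℤ) + mulI L C i 2 * (B1 : ℤ) ^ 2) =
        fun i => ∑ k, L i k * (C k 0 + C k 1 * (B1 : ℤ) + C k 2 * (B1 : ℤ) ^ 2) := by
      funext i
      unfold mulI
      simp only [Finset.sum_mul, ← Finset.sum_add_distrib]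
      exact Finset.sum_congr rfl fun k _ => by ring
    rw [e]
    exact h1
  y := by
    have h1 := mulL_spec hL hC.y
    have e : (fun i => mulI L C i 0 + mulI L C i 1 * (B1 : ℤ) ^ 3 + mulI L C i 2 * (B1 : ℤ) ^ 6) =
        fun i => ∑ k, L i k * (C k 0 + C k 1 * (B1 : ℤ) ^ 3 + C k 2 * (B1 : ℤ) ^ 6) := by
      funext i
      unfold mulI
      simp only [Finset.sum_mul, ← Finset.sum_add_distrib]
      exact Finset.sum_congr rfl fun k _ => by ring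
    rw [e]
    exact h1

theorem gram_bd {m : ℕ} (hm : m ≤ 8) {g h : Fin m → Fin 3 → ℤ} (hg : ∀ i k, |g i k| ≤ 2 ^ 75)
    (hh : ∀ i k, |h i k| ≤ 2 ^ 75) (k l : Fin 3) : |∑ i, g i k * h i l| ≤ 2 ^ 153 := by
  have h1 : |∑ i, g i k * h i l| ≤ ∑ i : Fin m, (2 : ℤ) ^ 75 * 2 ^ 75 := by
    refine (Finset.abs_sum_le_sum_abs _ _).trans (Finset.sum_le_sum fun i _ => ?_)
    exact bd_mul (hg i k) (hh i l)
  rw [Finset.sum_const, Finset.card_univ, Fintype.card_fin, nsmul_eq_mul] at h1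
  have hm' : (m : ℤ) ≤ 8 := by exact_mod_cast hm
  have e : (2 : ℤ) ^ 153 = 8 * (2 ^ 75 * 2 ^ 75) := by norm_num
  rw [e]
  nlinarith [show (0 : ℤ) < 2 ^ 75 * 2 ^ 75 by positivity]

theorem mulI_bd {m : ℕ} (hm : m ≤ 8) {L : Fin m → Fin m → ℤ} {C : Fin m → Fin 3 → ℤ}
    (hL : ∀ i j, |L i j| ≤ 2 ^ 20) (hC : ∀ i k, |C i k| ≤ 2 ^ 52) (i : Fin m) (k : Fin 3) :
    |mulI L C i k| ≤ 2 ^ 75 := by
  unfold mulI
  have h1 : |∑ j, L i j * C j k| ≤ ∑ j : Fin m, (2 : ℤ) ^ 20 * 2 ^ 52 := by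
    refine (Finset.abs_sum_le_sum_abs _ _).trans (Finset.sum_le_sum fun j _ => ?_)
    exact bd_mul (hL i j) (hC j k)
  rw [Finset.sum_const, Finset.card_univ, Fintype.card_fin, nsmul_eq_mul] at h1
  have hm' : (m : ℤ) ≤ 8 := by exact_mod_cast hm
  have e : (2 : ℤ) ^ 75 = 8 * (2 ^ 20 * 2 ^ 52) := by norm_num
  rw [e]
  nlinarith [show (0 : ℤ) < 2 ^ 20 * 2 ^ 52 by positivity]

theorem LRel.bd {m : ℕ} {rows : List (List ℕ)} {L : Fin m → Fin m → ℤ} (hL : LRel m rows L) :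
    ∀ i j, |L i j| ≤ 2 ^ 20 := by
  induction m generalizing rows with
  | zero => exact fun i => i.elim0
  | succ m ih =>
    obtain ⟨a, v, rs, rfl, ha, hab, hv, hvb, h0, hr⟩ := hL
    intro i j
    refine Fin.cases ?_ (fun i => ?_) i
    · refine Fin.cases ?_ (fun j => ?_) j
      · rw [← ha, abs_of_nonneg (Int.natCast_nonneg _)]
        exact_mod_cast hab
      · exact hvb j
    · refine Fin.cases ?_ (fun j => ?_) j
      · rw [h0 i, abs_zero]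
        positivity
      · exact ih hr i j

/-- the scalar product with a symmetric matrix -/
theorem dig_pairG {m : ℕ} (hm : m ≤ 8) {g : Fin m → Fin 3 → ℤ} {u a : ℕ} {A : S3}
    (hu : Rs u (pG g g)) (ha : Rs a (pS A)) (hg : ∀ i k, |g i k| ≤ 2 ^ 75)
    (hA : S3bd A (2 ^ 97)) (h0 : 0 ≤ S3.pair A (gramS g)) :
    (dig u a : ℤ) = S3.pair A (gramS g) := by
  obtain ⟨c1, c2, c3, c4, c5, c6⟩ := hA
  have G := gram_bd hm hg hg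
  have e250 : (2 : ℤ) ^ 97 * 2 ^ 153 = 2 ^ 250 := by norm_num
  have hlt : S3.pair A (gramS g) < (B1 : ℤ) := by
    have t1 := (bd_mul c1 (G 0 0))
    have t2 := (bd_mul c2 (G 1 1))
    have t3 := (bd_mul c3 (G 2 2))
    have t4 := (bd_mul c4 (G 0 1))
    have t5 := (bd_mul c5 (G 0 2))
    have t6 := (bd_mul c6 (G 1 2))
    rw [e250] at t1 t2 t3 t4 t5 t6
    unfold S3.pair gramS
    rw [B1_int]
    have e2 : (2 : ℤ) ^ 256 = 64 * 2 ^ 250 := by norm_num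
    rw [e2]
    have s1 := (abs_le.mp t1).2
    have s2 := (abs_le.mp t2).2
    have s3 := (abs_le.mp t3).2
    have s4 := (abs_le.mp t4).2
    have s5 := (abs_le.mp t5).2
    have s6 := (abs_le.mp t6).2
    have e3 : (0 : ℤ) < 2 ^ 250 := by norm_num
    linarith
  have cm : ∀ k l : Fin 3, ∑ i, g i k * g i l = ∑ i, g i l * g i k := fun k l =>
    Finset.sum_congr rfl fun i _ => by ring
  have key := prod_topG (a := a) (u := u) (X := 2 ^ 153) (Y := 2 ^ 97) (by norm_num) hu ha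
    (G 0 0) (G 1 0) (G 2 0) (G 0 1) (G 1 1) (G 2 1) (G 0 2) (G 1 2)
    c3 c6 c5 c6 c2 c4 c5 c4 (S3.pair A (gramS g)) (by
      unfold S3.pair gramS
      rw [cm 1 0, cm 2 0, cm 2 1]
      ring) 0
    (by rw [add_zero]; exact ⟨h0, hlt⟩)
  rw [add_zero, zero_mul, add_zero] at key
  have e : ((dig u a : ℕ) : ℤ) = ((u : ℤ) * a + 2 ^ 255 * (1 + (B1 : ℤ) + B1 ^ 2 + B1 ^ 3 + B1 ^ 4 +
      B1 ^ 5 + B1 ^ 6 + B1 ^ 7)) % (B1 : ℤ) ^ 9 / B1 ^ 8 := by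
    have : dig u a = (u * a + BI8) % B9 / B8 := rfl
    rw [this, BI8_eq, B9_eq, B8_eq]
    push_cast
    rfl
  rw [e, key]

/-- the scalar product of two matrices, shifted -/
theorem tra_pairG {m : ℕ} (hm : m ≤ 8) {g h : Fin m → Fin 3 → ℤ} {t : ℕ} (ht : Rs t (pG g h))
    (hg : ∀ i k, |g i k| ≤ 2 ^ 75) (hh : ∀ i k, |h i k| ≤ 2 ^ 75) :
    ((Nat.div (Nat.mod (Nat.add (Nat.mul t JJ) BI9) B9) B8 : ℕ) : ℤ) = prI g h + 2 ^ 255 := by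
  have G := gram_bd hm hg hh
  have hJ : Rs JJ (p9 B1 1 0 0 0 1 0 0 0 1) := by
    refine Rs.congr (Rs.refl JJ) ?_
    rw [JJ_eq]
    unfold p9
    push_cast
    ring
  have o1 : |(1 : ℤ)| ≤ 2 ^ 97 := by norm_num
  have o0 : |(0 : ℤ)| ≤ 2 ^ 97 := by norm_num
  have hT : |prI g h| ≤ 2 ^ 153 + 2 ^ 153 + 2 ^ 153 := bd_add (bd_add (G 0 0) (G 1 1)) (G 2 2)
  have key := prod_topG (a := JJ) (u := t) (X := 2 ^ 153) (Y := 2 ^ 97) (by norm_num) ht hJ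
    (G 0 0) (G 1 0) (G 2 0) (G 0 1) (G 1 1) (G 2 1) (G 0 2) (G 1 2)
    o1 o0 o0 o0 o1 o0 o0 o0 (prI g h) (by unfold prI; ring) (2 ^ 255)
    (sh hT (by norm_num))
  have e : ((Nat.div (Nat.mod (Nat.add (Nat.mul t JJ) BI9) B9) B8 : ℕ) : ℤ) =
      ((t : ℤ) * JJ + (2 ^ 255 * (1 + (B1 : ℤ) + B1 ^ 2 + B1 ^ 3 + B1 ^ 4 +
      B1 ^ 5 + B1 ^ 6 + B1 ^ 7) + 2 ^ 255 * B1 ^ 8)) % (B1 : ℤ) ^ 9 / B1 ^ 8 := by
    have : Nat.div (Nat.mod (Nat.add (Nat.mul t JJ) BI9) B9) B8 = (t * JJ + BI9) % B9 / B8 := rfl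
    rw [this, BI9_eq, B9_eq, B8_eq]
    push_cast
    congr 2
  rw [e, key]

end Pool.Agent.Helper82.FL
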