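import Pool.Agent.Helper82.FL.RawD

/-! The raw functions of the leaf for the completed basis `(V | N)`; the last row is left out. -/

set_option autoImplicit false

namespace Pool.Agent.Helper82.FL

/-- `b ^ 5` -/
def B5 : Nat := 20815864389328798163850480654728171077230524494533409610638224700807216119346720596024478883464648369684843227908562015582767132496646929816279813211354641525848259018778440691546366699323167100945918841095379622423387354295096957733925002768876520583464697770622321657076833170056511209332449663781837603694136444406281042053396870977465916057756101739472373801429441421111406337458176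

/-- `3 * 2 ^ 255` -/
def H3 : Nat := 173688133855974293135356477513031861779904976998460846059186376011869694459904

/-- the sum of a list -/
noncomputable def sumL (l : List Nat) : Nat :=
  @List.rec Nat (fun _ => Nat) 0 (fun a _ ih => Nat.add a ih) l

/-- the sum of the squares of the sums of the columns -/
noncomputable def sq1L (cols : List (List Nat)) : Nat :=
  @List.rec (List Nat) (fun _ => Nat) 0 (fun c _ ih => Nat.add (Nat.pow (sumL c) 2) ih) cols

/-- the number `E` -/
def eNumW (h : Hd) (T Tb D1 : Nat) : Nat :=
  Nat.sub (Nat.add (Nat.mul h.rq D1) (Nat.mul h.q H3))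
    (Nat.add (Nat.mul h.q (Nat.add (Nat.mul 2 (sdig T JJ)) (sdig Tb B5))) h.rs)

/-- the last step -/
noncomputable def lf2W (cs : List V) (h : Hd) (D1 W0 : Nat) (gx gy hx hy ex ey : List Nat) : Bool :=
  lf3 cs h (uuL gx gy) W0 (uuL hx hy) (eNumW h (uuL gx hy) (uuL ex ey) D1)

/-- the test: the rows of `C` in both strides and `κ`, the rows of `M` in both strides and `μ`, the
rows of `B` in stride one and reversed, the bound `D` and the corrected bound `D1` -/
noncomputable def fleafW (cs : List V) (g : HdG) (xs ys : List Nat) (ka : Nat) (zs ws : List Nat)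
    (mu : Nat) (bs bt : List Nat) (D D1 : Nat) : Bool :=
  band (Nat.ble ka 340282366920938463463374607431768211456)
    (band (Nat.ble mu 340282366920938463463374607431768211456)
    (band (Nat.ble (Nat.add (Nat.mul 169 (Nat.mul D D)) 1) (Nat.mul 18464 (Nat.mul ka mu)))
    (lf2W cs g.h D1 (uuL zs ws) (mulL g.L xs) (mulL g.L ys) (mulL g.L zs) (mulL g.L ws)
      (mulL g.L bs) (mulL g.L bt))))

noncomputable def hd2W (m r s : Nat) (L cols : List (List Nat)) : Option HdG :=
  hd3G r s L (Nat.mul (Nat.succ m) (Nat.pow (detL L) 2)) (Nat.shiftLeft 1 (Nat.mod s 256))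
    (Nat.mod (Nat.add (Nat.mul (Nat.succ m) (sqL cols)) (negR (sq1L cols))) B9)

noncomputable def hd1W (m r s : Nat) (L : List (List Nat)) : Option HdG := hd2W m r s L (colsL L)

/-- the header of a token for `m` rows; the token is the same as the token of `mkHdG` -/
noncomputable def mkHdW (m r : Nat) : Option HdG :=
  hd1W m r (Nat.shiftRight r (Nat.add 2 (Nat.mul 10 (Nat.mul m (Nat.succ m)))))
    (rowsG m (Nat.shiftRight r 2))

end Pool.Agent.Helper82.FL
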