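import Mathlib
import Pool.Agent.Helper82.FL.GenDig
import Pool.Agent.Helper82.FL.RawW

/-!
# The rows of the second part and their scalar products
-/

set_option autoImplicit false

namespace Pool.Agent.Helper82.FL

open Finset Pool.Agent.Helper28.TT

theorem B5_eq : B5 = B1 ^ 5 := by decide +kernel
theorem H3_eq : H3 = 3 * 2 ^ 255 := by decide +kernel

/-- a vector with at most four entries, padded -/
def pad {k : ℕ} (f : Fin k → ℤ) (j : ℕ) : ℤ := if h : j < k then f ⟨j, h⟩ else 0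

theorem padsum {k : ℕ} (hk : k ≤ 4) (f : Fin k → ℤ) (c : ℕ → ℤ) :
    ∑ j : Fin k, f j * c j = pad f 0 * c 0 + pad f 1 * c 1 + pad f 2 * c 2 + pad f 3 * c 3 := by
  have h : k = 0 ∨ k = 1 ∨ k = 2 ∨ k = 3 ∨ k = 4 := by omega
  rcases h with rfl | rfl | rfl | rfl | rfl <;> simp [pad, Fin.sum_univ_succ] <;> ring

theorem pad_bd {k : ℕ} {f : Fin k → ℤ} {A : ℤ} (hA : 0 ≤ A) (h : ∀ j, |f j| ≤ A) (j : ℕ) :
    |pad f j| ≤ A := by
  unfold pad
  split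
  · exact h _
  · rw [abs_zero]; exact hA

/-- the rows of the second part -/
structure RowsB (m k : ℕ) (B : Fin m → Fin k → ℤ) (bs bt : List ℕ) : Prop where
  x : VR m bs (fun i => ∑ j : Fin k, B i j * (B1 : ℤ) ^ (j : ℕ))
  y : VR m bt (fun i => ∑ j : Fin k, B i j * (B1 : ℤ) ^ (3 - (j : ℕ)))

/-- the product with a square matrix -/
def mulB {m k : ℕ} (L : Fin m → Fin m → ℤ) (B : Fin m → Fin k → ℤ) : Fin m → Fin k → ℤ :=
  fun i j => ∑ l, L i l * B l j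

theorem rowsB_mul {m k : ℕ} {rows : List (List ℕ)} {L : Fin m → Fin m → ℤ} (hL : LRel m rows L)
    {B : Fin m → Fin k → ℤ} {bs bt : List ℕ} (hB : RowsB m k B bs bt) :
    RowsB m k (mulB L B) (mulL rows bs) (mulL rows bt) where
  x := by
    have h1 := mulL_spec hL hB.x
    have e : (fun i => ∑ j : Fin k, mulB L B i j * (B1 : ℤ) ^ (j : ℕ)) =
        fun i => ∑ l, L i l * ∑ j : Fin k, B l j * (B1 : ℤ) ^ (j : ℕ) := by
      funext i
      unfold mulB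
      simp only [Finset.sum_mul, Finset.mul_sum]
      rw [Finset.sum_comm]
      exact Finset.sum_congr rfl fun l _ => Finset.sum_congr rfl fun j _ => by ring
    rw [e]
    exact h1
  y := by
    have h1 := mulL_spec hL hB.y
    have e : (fun i => ∑ j : Fin k, mulB L B i j * (B1 : ℤ) ^ (3 - (j : ℕ))) =
        fun i => ∑ l, L i l * ∑ j : Fin k, B l j * (B1 : ℤ) ^ (3 - (j : ℕ)) := by
      funext i
      unfold mulB
      simp only [Finset.sum_mul, Finset.mul_sum]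
      rw [Finset.sum_comm]
      exact Finset.sum_congr rfl fun l _ => Finset.sum_congr rfl fun j _ => by ring
    rw [e]
    exact h1

theorem mulB_bd {m k : ℕ} (hm : m ≤ 8) {L : Fin m → Fin m → ℤ} {B : Fin m → Fin k → ℤ}
    (hL : ∀ i j, |L i j| ≤ 2 ^ 20) (hB : ∀ i j, |B i j| ≤ 2 ^ 52) (i : Fin m) (j : Fin k) :
    |mulB L B i j| ≤ 2 ^ 75 := by
  unfold mulB
  have h1 : |∑ l, L i l * B l j| ≤ ∑ l : Fin m, (2 : ℤ) ^ 20 * 2 ^ 52 := by
    refine (Finset.abs_sum_le_sum_abs _ _).trans (Finset.sum_le_sum fun l _ => ?_)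
    exact bd_mul (hL i l) (hB l j)
  rw [Finset.sum_const, Finset.card_univ, Fintype.card_fin, nsmul_eq_mul] at h1
  have hm' : (m : ℤ) ≤ 8 := by exact_mod_cast hm
  have e : (2 : ℤ) ^ 75 = 8 * (2 ^ 20 * 2 ^ 52) := by norm_num
  rw [e]
  nlinarith [show (0 : ℤ) < 2 ^ 20 * 2 ^ 52 by positivity]

/-- the sum of the squares of all entries -/
def sqI {m k : ℕ} (B : Fin m → Fin k → ℤ) : ℤ := ∑ i, ∑ j, B i j * B i j

theorem sum8 {m : ℕ} (hm : m ≤ 8) {f : Fin m → ℤ} {A : ℤ} (hA : 0 ≤ A) (h : ∀ i, |f i| ≤ A) :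
    |∑ i, f i| ≤ 8 * A := by
  have h1 : |∑ i, f i| ≤ ∑ i : Fin m, A :=
    (Finset.abs_sum_le_sum_abs _ _).trans (Finset.sum_le_sum fun i _ => h i)
  rw [Finset.sum_const, Finset.card_univ, Fintype.card_fin, nsmul_eq_mul] at h1
  have hm' : (m : ℤ) ≤ 8 := by exact_mod_cast hm
  nlinarith

/-- the third digit of the product of the two strides -/
theorem sqB_digit {m k : ℕ} (hm : m ≤ 8) (hk : k ≤ 4) {B : Fin m → Fin k → ℤ} {bs bt : List ℕ}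
    (hB : RowsB m k B bs bt) (hb : ∀ i j, |B i j| ≤ 2 ^ 75) :
    (sdig (uuL bs bt) B5 : ℤ) = sqI B + 2 ^ 255 := by
  have h1 : Rs (uuL bs bt) _ := (dot_spec hB.x hB.y).mod
  obtain ⟨b, hbd⟩ : ∃ b : Fin m → ℕ → ℤ, b = fun i => pad (B i) := ⟨_, rfl⟩
  have hb' : ∀ i j, |b i j| ≤ 2 ^ 75 := fun i j => by
    rw [hbd]
    exact pad_bd (by positivity) (hb i) j
  have ex : ∀ i, ∑ j : Fin k, B i j * (B1 : ℤ) ^ (j : ℕ) =
      b i 0 + b i 1 * B1 + b i 2 * (B1 : ℤ) ^ 2 + b i 3 * (B1 : ℤ) ^ 3 := fun i => by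
    rw [padsum hk (B i) (fun j => (B1 : ℤ) ^ j), hbd]
    ring
  have ey : ∀ i, ∑ j : Fin k, B i j * (B1 : ℤ) ^ (3 - (j : ℕ)) =
      b i 0 * (B1 : ℤ) ^ 3 + b i 1 * (B1 : ℤ) ^ 2 + b i 2 * B1 + b i 3 := fun i => by
    rw [padsum hk (B i) (fun j => (B1 : ℤ) ^ (3 - j)), hbd]
    simp only [Nat.sub_zero, Nat.sub_self, pow_zero, mul_one,
      show 3 - 1 = 2 from rfl, show 3 - 2 = 1 from rfl, pow_one]
  have hu : Rs (uuL bs bt) (p9 B1
      (∑ i, b i 0 * b i 3)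
      (∑ i, (b i 0 * b i 2 + b i 1 * b i 3))
      (∑ i, (b i 0 * b i 1 + b i 1 * b i 2 + b i 2 * b i 3))
      (∑ i, (b i 0 * b i 0 + b i 1 * b i 1 + b i 2 * b i 2 + b i 3 * b i 3))
      (∑ i, (b i 1 * b i 0 + b i 2 * b i 1 + b i 3 * b i 2))
      (∑ i, (b i 2 * b i 0 + b i 3 * b i 1))
      (∑ i, b i 3 * b i 0) 0 0) := by
    refine h1.congr ?_
    unfold p9
    simp only [ex, ey, Finset.mul_sum, mul_zero, add_zero, ← Finset.sum_add_distrib]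
    refine Finset.sum_congr rfl fun i _ => ?_
    ring
  have ha : Rs B5 (p9 B1 0 0 0 0 0 1 0 0 0) := by
    refine Rs.congr (Rs.refl B5) ?_
    rw [B5_eq]
    unfold p9
    push_cast
    ring
  have P : ∀ i j l, |b i j * b i l| ≤ 2 ^ 150 := fun i j l => by
    refine (bd_mul (hb' i j) (hb' i l)).trans (by norm_num)
  have P0 : (0 : ℤ) ≤ 2 ^ 152 := by positivity
  have d0 : |∑ i, b i 0 * b i 3| ≤ 8 * 2 ^ 152 := sum8 hm P0 fun i => (P i 0 3).trans (by norm_num)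
  have d1 : |∑ i, (b i 0 * b i 2 + b i 1 * b i 3)| ≤ 8 * 2 ^ 152 :=
    sum8 hm P0 fun i => (bd_add (P i 0 2) (P i 1 3)).trans (by norm_num)
  have d2 : |∑ i, (b i 0 * b i 1 + b i 1 * b i 2 + b i 2 * b i 3)| ≤ 8 * 2 ^ 152 :=
    sum8 hm P0 fun i => (bd_add (bd_add (P i 0 1) (P i 1 2)) (P i 2 3)).trans (by norm_num)
  have d3 : |∑ i, (b i 0 * b i 0 + b i 1 * b i 1 + b i 2 * b i 2 + b i 3 * b i 3)| ≤ 8 * 2 ^ 152 :=
    sum8 hm P0 fun i => (bd_add (bd_add (bd_add (P i 0 0) (P i 1 1)) (P i 2 2)) (P i 3 3)).trans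
      (by norm_num)
  have d4 : |∑ i, (b i 1 * b i 0 + b i 2 * b i 1 + b i 3 * b i 2)| ≤ 8 * 2 ^ 152 :=
    sum8 hm P0 fun i => (bd_add (bd_add (P i 1 0) (P i 2 1)) (P i 3 2)).trans (by norm_num)
  have d5 : |∑ i, (b i 2 * b i 0 + b i 3 * b i 1)| ≤ 8 * 2 ^ 152 :=
    sum8 hm P0 fun i => (bd_add (P i 2 0) (P i 3 1)).trans (by norm_num)
  have d6 : |∑ i, b i 3 * b i 0| ≤ 8 * 2 ^ 152 := sum8 hm P0 fun i => (P i 3 0).trans (by norm_num)
  have z0 : |(0 : ℤ)| ≤ 8 * 2 ^ 152 := by rw [abs_zero]; positivity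
  have o1 : |(1 : ℤ)| ≤ 1 := by norm_num
  have o0 : |(0 : ℤ)| ≤ 1 := by norm_num
  have eS : sqI B = ∑ i, (b i 0 * b i 0 + b i 1 * b i 1 + b i 2 * b i 2 + b i 3 * b i 3) := by
    unfold sqI
    refine Finset.sum_congr rfl fun i _ => ?_
    have h2 := padsum hk (B i) (fun j => pad (B i) j)
    have h3 : ∀ j : Fin k, pad (B i) (j : ℕ) = B i j := fun j => by
      unfold pad
      rw [dif_pos j.2]
    simp only [h3] at h2
    rw [h2, hbd]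
  have d3' : |sqI B| ≤ 8 * 2 ^ 152 := by rw [eS]; exact d3
  have key := prod_topG (a := B5) (u := uuL bs bt) (X := 8 * 2 ^ 152) (Y := 1) (by norm_num) hu ha
    d0 d1 d2 d3 d4 d5 d6 z0 o0 o0 o0 o0 o0 o1 o0 o0 (sqI B) (by rw [eS]; ring) (2 ^ 255)
    (sh d3' (by norm_num))
  have e : ((sdig (uuL bs bt) B5 : ℕ) : ℤ) =
      (((uuL bs bt : ℕ) : ℤ) * B5 + (2 ^ 255 * (1 + (B1 : ℤ) + B1 ^ 2 + B1 ^ 3 + B1 ^ 4 +
      B1 ^ 5 + B1 ^ 6 + B1 ^ 7) + 2 ^ 255 * B1 ^ 8)) % (B1 : ℤ) ^ 9 / B1 ^ 8 := by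
    have : sdig (uuL bs bt) B5 = (uuL bs bt * B5 + BI9) % B9 / B8 := rfl
    rw [this, BI9_eq, B9_eq, B8_eq]
    push_cast
    congr 2
  rw [e, key]

end Pool.Agent.Helper82.FL
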