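import Pool.Agent.Helper82.FL.RawD

/-! The raw functions of the leaf with the metric `P = 2 ^ k (th + u uᵀ + v vᵀ)`. -/

set_option autoImplicit false

namespace Pool.Agent.Helper82.FL

/-- `b ^ 9 - 512` -/
def OFK : Nat := 3742053650892133432367999773538322459225928823527575869347258443714776254479140165467924450143929014376701328043796892084250680644651644268919891406030558009514559848402392186697349032657288467726728117428485865736692545611669179323917560467904459270003565249200768855069969069462910188335948939853235385655600614050799627402904169955617680686939217306230732743306013312855692685442723231659949822010462888578091073832552856131420378840703853686445535243055462767679945780563431553986820134725467051353840270015201262955847832589866641019681571016376279703475133297517542073557917754709550486937454822846451632280550418910946262563991699255138480187856382366661603621981981643212128456085077504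

/-- the value of the argument is computed first -/
noncomputable def frc {β : Type} (x : Nat) (k : Nat → β) : β :=
  @Nat.rec (fun _ => β) (k 0) (fun n _ => k n) (Nat.succ x)

/-- the entries of the list are computed first -/
noncomputable def flist {β : Type} (l : List Nat) : (List Nat → β) → β :=
  @List.rec Nat (fun _ => (List Nat → β) → β) (fun k => k [])
    (fun a _ ih k => frc a fun a' => ih fun t => k (List.cons a' t)) l

/-- the header: the vectors `u`, `v`, `a = th + u u`, `d = th + v v`, the residue of `- u v`,
`det = a d - (u v)²` -/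
structure HdK where
  u : List Nat
  v : List Nat
  a : Nat
  d : Nat
  nb : Nat
  det : Nat
  h : Hd

/-- `det y + n1 u + n2 v` -/
noncomputable def outK (det n1 n2 : Nat) (u : List Nat) : List Nat → List Nat → List Nat :=
  @List.rec Nat (fun _ => List Nat → List Nat → List Nat) (fun _ _ => [])
    (fun a _ ih v ys => @List.rec Nat (fun _ => List Nat) []
      (fun b vt _ => @List.rec Nat (fun _ => List Nat) []
        (fun y yt _ => List.cons (Nat.add (Nat.mul det y) (Nat.add (Nat.mul a n1) (Nat.mul b n2)))
          (ih vt yt)) ys) v) u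

/-- the product with `R0 = det - d u uᵀ + b (u vᵀ + v uᵀ) - a v vᵀ` -/
noncomputable def appK (g : HdK) (ys : List Nat) (s1 s2 : Nat) : List Nat :=
  frc (negR (Nat.add (Nat.mul g.d s1) (Nat.mul g.nb s2))) fun n1 =>
  frc (negR (Nat.add (Nat.mul g.a s2) (Nat.mul g.nb s1))) fun n2 =>
  outK g.det n1 n2 g.u g.v ys

noncomputable def RK (g : HdK) (ys : List Nat) : List Nat :=
  frc (dot g.u ys) fun s1 => frc (dot g.v ys) fun s2 => appK g ys s1 s2

/-- the last step -/
noncomputable def lf2K (cs : List V) (h : Hd) (D W0 : Nat) (xs zs ry rw : List Nat) : Bool :=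
  frc (uuL xs ry) fun U => frc (uuL zs rw) fun W => frc (eNum h (uuL xs rw) D) fun E =>
  lf3 cs h U W0 W E

/-- the test; the arguments are those of `fleafG` -/
noncomputable def fleafK (cs : List V) (g : HdK) (xs ys : List Nat) (ka : Nat) (zs ws : List Nat)
    (mu D : Nat) : Bool :=
  band (Nat.ble ka 340282366920938463463374607431768211456)
    (band (Nat.ble mu 340282366920938463463374607431768211456)
    (band (Nat.ble (Nat.add (Nat.mul 169 (Nat.mul D D)) 1) (Nat.mul 18464 (Nat.mul ka mu)))
    (lf2K cs g.h D (uuL zs ws) xs zs (RK g ys) (RK g ws))))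

/-- the last step -/
noncomputable def lf2KD (cs : List V) (h : Hd) (ka mu1 mu2 : Nat) (V1 V2 : Nat)
    (xs zs us ry rw rv : List Nat) : Bool :=
  frc (uuL xs ry) fun U => frc (uuL zs rw) fun W1 => frc (uuL us rv) fun W2 =>
  frc (Nat.add (uuL zs rv) (uuL us rw)) fun W3 =>
  frc (sdig (uuL xs rw) JJ) fun p1 => frc (sdig (uuL xs rv) JJ) fun p2 =>
  allT (tstD h.q h.rq h.rs h.K ka mu1 mu2 U W1 W2 W3 V1 V2 p1 p2) cs h.ts

/-- the test with mixed facts; the arguments are those of `fleafD` -/
noncomputable def fleafKD (cs : List V) (g : HdK) (xs ys : List Nat) (ka : Nat) (zs ws : List Nat)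
    (mu1 : Nat) (us vs : List Nat) (mu2 : Nat) : Bool :=
  band (Nat.ble ka 340282366920938463463374607431768211456)
    (band (Nat.ble mu1 340282366920938463463374607431768211456)
    (band (Nat.ble mu2 340282366920938463463374607431768211456)
    (lf2KD cs g.h ka mu1 mu2 (uuL zs ws) (uuL us vs) xs zs us (RK g ys) (RK g ws) (RK g vs))))

/-- a vector from a token -/
noncomputable def offK (n : Nat) : Nat → List Nat :=
  @Nat.rec (fun _ => Nat → List Nat) (fun _ => [])
    (fun _ ih r => List.cons (Nat.add (Nat.mod r 1024) OFK) (ih (Nat.shiftRight r 10))) n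

/-- the header, last step -/
noncomputable def hd4K (r s : Nat) (u v : List Nat) (th a d nb det rho su : Nat) : Option HdK :=
  match band (Nat.ble 1 det) (band (Nat.ble det 8796093022208) (Nat.ble 1 th)) with
  | true =>
    frc (Nat.mul rho (Nat.mul th det)) fun c =>
    frc (Nat.mul (Nat.mul c rho) (Nat.add su (Nat.mul 3 th))) fun rs =>
    frc (Nat.shiftLeft 1 (Nat.mod (Nat.shiftRight s 8) 64)) fun K =>
    some (HdK.mk u v a d nb det (Hd.mk (Nat.mod r 4) 0 0 0 0 0 0 1 c rs K (Nat.shiftRight s 14)))
  | false => none

noncomputable def hd3K (r s : Nat) (u v : List Nat) (th uu vv uv : Nat) : Option HdK :=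
  frc (Nat.add th uu) fun a => frc (Nat.add th vv) fun d => frc (negR uv) fun nb =>
  frc (Nat.sub (Nat.mul a d) (Nat.mod (Nat.mul uv uv) B9)) fun det =>
  frc (Nat.shiftLeft 1 (Nat.mod s 256)) fun rho =>
  hd4K r s u v th a d nb det rho (Nat.add uu vv)

noncomputable def hd2K (r s th : Nat) (u v : List Nat) : Option HdK :=
  frc (Nat.mod (dot u u) B9) fun uu => frc (Nat.mod (dot v v) B9) fun vv =>
  frc (Nat.mod (dot u v) B9) fun uv => hd3K r s u v th uu vv uv

/-- the header of a token for `m` rows: mode 2 bits, `th` 22 bits, `u` and `v` 10 bits for each entry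
with the offset `2 ^ 9`, 8 bits for the exponent of `rho`, 6 bits for the exponent of `K`, then the
scales -/
noncomputable def mkHdK (m r : Nat) : Option HdK :=
  frc (Nat.mod (Nat.shiftRight r 2) 4194304) fun th =>
  flist (offK m (Nat.shiftRight r 24)) fun u =>
  flist (offK m (Nat.shiftRight r (Nat.add 24 (Nat.mul 10 m)))) fun v =>
  frc (Nat.shiftRight r (Nat.add 24 (Nat.mul 20 m))) fun s =>
  hd2K r s th u v

end Pool.Agent.Helper82.FL
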