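import Mathlib
import Pool.Agent.Helper28.TT.Leaf2

/-!
# The leaf lemma for matrices with any number of rows

`R = (1 / ρ) Lᵀ L` with a matrix `L` with `L T = δ`, `P = R⁻¹`.
-/

set_option autoImplicit false

namespace Pool.Agent.Helper82.FL.G

open Matrix Pool.Agent.Helper28.TT

section

variable {n : Type*} [Fintype n] [DecidableEq n]

/-- the basic inequality with given scales `n v` -/
theorem cone_bound {ι : Type*} [Fintype ι] (F C M : Matrix n (Fin 3) ℝ)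
    (Z : Matrix (Fin 3) (Fin 3) ℝ) (P R : Matrix n n ℝ)
    (hZ : (Fᵀ * F) * Z = 1) (hPR : P * R = 1) (hP : Pᵀ = P) (hR : R.PosSemidef)
    (lam : ι → ℝ) (hlam : ∀ v, 0 ≤ lam v) (A : ι → Matrix (Fin 3) (Fin 3) ℝ)
    (X : ι → Matrix (Fin 3) n ℝ)
    (hF : Fᵀ * F = ∑ v, lam v • A v) (hA : ∀ v, (A v).PosSemidef) (hX : ∀ v, A v * X v = Mᵀ)
    (s : ι → ℝ) (hn : ∀ v, 0 < s v) (D κ μ : ℝ)
    (hK : ∀ v, trace P + trace (R * (C * Mᵀ + M * Cᵀ)) + (s v)⁻¹ * trace (R * (C * A v * Cᵀ)) +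
      s v * trace (R * (M * X v)) ≤ D)
    (hκ0 : 0 ≤ κ) (hμ0 : 0 ≤ μ) (hD : D ^ 2 < 16 * (κ * μ)) :
    0 < ∑ v, lam v * s v ∧
    trace (Fᵀ * C) + (∑ v, lam v * s v) * trace ((F * Z)ᵀ * M) < κ + (∑ v, lam v * s v) * μ := by
  obtain ⟨q, hq⟩ : ∃ q : ℝ, q = ∑ v, lam v * s v := ⟨_, rfl⟩
  rw [← hq]
  have hq0 : 0 ≤ q := by
    rw [hq]
    exact Finset.sum_nonneg fun v _ => mul_nonneg (hlam v) (hn v).le
  have hq1 : q ≠ 0 := by
    intro h0
    rw [hq, Finset.sum_eq_zero_iff_of_nonneg fun v _ => mul_nonneg (hlam v) (hn v).le] at h0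
    have h1 : Fᵀ * F = 0 := by
      rw [hF]
      refine Finset.sum_eq_zero fun v hv => ?_
      have h3 : lam v = 0 := by
        rcases mul_eq_zero.mp (h0 v hv) with h | h
        · exact h
        · exact absurd h (hn v).ne'
      rw [h3, zero_smul]
    rw [h1, Matrix.zero_mul] at hZ
    have h2 := congrFun (congrFun hZ 0) 0
    simp at h2
  have hqp : 0 < q := lt_of_le_of_ne hq0 (Ne.symm hq1)
  obtain ⟨w, hs⟩ : ∃ w : ℝ, w = Real.sqrt q := ⟨_, rfl⟩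
  have hs0 : 0 < w := by rw [hs]; exact Real.sqrt_pos.mpr hqp
  have hss : w * w = q := by rw [hs]; exact Real.mul_self_sqrt hq0
  have hF1 : (w⁻¹ • F)ᵀ * (w⁻¹ • F) = ∑ v, (lam v * s v / q) • ((s v)⁻¹ • A v) := by
    rw [Matrix.transpose_smul, Matrix.smul_mul, Matrix.mul_smul, smul_smul, hF, Finset.smul_sum]
    refine Finset.sum_congr rfl fun v _ => ?_
    rw [smul_smul, smul_smul]
    congr 1
    rw [← hss]
    have := (hn v).ne'
    have := hs0.ne'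
    field_simp
  have hZ1 : ((w⁻¹ • F)ᵀ * (w⁻¹ • F)) * (q • Z) = 1 := by
    simp only [Matrix.transpose_smul, Matrix.smul_mul, Matrix.mul_smul, smul_smul, hZ]
    rw [← hss]
    convert one_smul ℝ (1 : Matrix (Fin 3) (Fin 3) ℝ) using 2
    have := hs0.ne'
    field_simp
  have key := leaf_bound (w⁻¹ • F) C M (q • Z) P R hZ1 hPR hP hR
    (fun v => lam v * s v / q) (fun v => div_nonneg (mul_nonneg (hlam v) (hn v).le) hq0)
    (by rw [← Finset.sum_div, ← hq, div_self hq1])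
    (fun v => (s v)⁻¹ • A v) (fun v => (s v) • X v) hF1
    (fun v => (hA v).smul (inv_nonneg.2 (hn v).le))
    (fun v => by
      rw [Matrix.smul_mul, Matrix.mul_smul, smul_smul, inv_mul_cancel₀ (hn v).ne', one_smul, hX v])
    (D - trace P) (fun v => by
      have e1 : trace (R * (C * ((s v)⁻¹ • A v) * Cᵀ + C * Mᵀ + M * Cᵀ + M * ((s v) • X v))) =
          (s v)⁻¹ * trace (R * (C * A v * Cᵀ)) + trace (R * (C * Mᵀ + M * Cᵀ)) +
          (s v) * trace (R * (M * X v)) := by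
        simp only [Matrix.mul_smul, Matrix.smul_mul, Matrix.mul_add, trace_add, trace_smul,
          smul_eq_mul]
        ring
      rw [e1]
      have := hK v
      linarith)
  have e2 : trace ((w⁻¹ • F)ᵀ * C) = w⁻¹ * trace (Fᵀ * C) := by
    rw [Matrix.transpose_smul, Matrix.smul_mul, trace_smul, smul_eq_mul]
  have e3 : trace ((w⁻¹ • F * (q • Z))ᵀ * M) = w * trace ((F * Z)ᵀ * M) := by
    rw [Matrix.smul_mul, Matrix.mul_smul, smul_smul, Matrix.transpose_smul, Matrix.smul_mul,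
      trace_smul, smul_eq_mul, ← hss]
    congr 1
    have := hs0.ne'
    field_simp
  rw [e2, e3] at key
  have h9 : 0 ≤ w⁻¹ * κ + w * μ := by positivity
  have h7 : 4 * (κ * μ) ≤ (w⁻¹ * κ + w * μ) ^ 2 := by
    have h8 : (w⁻¹ * κ) * (w * μ) = κ * μ := by
      have := hs0.ne'
      field_simp
    nlinarith [sq_nonneg (w⁻¹ * κ - w * μ)]
  have h10 : D < 2 * (w⁻¹ * κ + w * μ) := by
    by_contra hcon
    push Not at hcon
    nlinarith
  have h11 : w⁻¹ * trace (Fᵀ * C) + w * trace ((F * Z)ᵀ * M) < w⁻¹ * κ + w * μ := by linarith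
  refine ⟨hqp, ?_⟩
  have h12 := mul_lt_mul_of_pos_left h11 hs0
  have h13 : w * (w⁻¹ * trace (Fᵀ * C) + w * trace ((F * Z)ᵀ * M)) =
      trace (Fᵀ * C) + q * trace ((F * Z)ᵀ * M) := by
    rw [← hss]
    have := hs0.ne'
    field_simp
  have h14 : w * (w⁻¹ * κ + w * μ) = κ + q * μ := by
    rw [← hss]
    have := hs0.ne'
    field_simp
  rw [h13, h14] at h12
  exact h12

/-- the metric -/
noncomputable def RR (L : Matrix n n ℝ) (rho : ℝ) : Matrix n n ℝ := rho⁻¹ • (Lᵀ * L)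

noncomputable def PP (T : Matrix n n ℝ) (δ rho : ℝ) : Matrix n n ℝ := (rho / δ ^ 2) • (T * Tᵀ)

/-- the value of the quadratic part -/
noncomputable def qa (L : Matrix n n ℝ) (A : Matrix (Fin 3) (Fin 3) ℝ) (C : Matrix n (Fin 3) ℝ) : ℝ :=
  trace (A * ((L * C)ᵀ * (L * C)))

/-- the number `E` -/
noncomputable def EE (L T : Matrix n n ℝ) (δ rho D : ℝ) (C M : Matrix n (Fin 3) ℝ) : ℝ :=
  rho * δ ^ 2 * D - rho ^ 2 * trace (T * Tᵀ) - 2 * δ ^ 2 * trace ((L * C) * (L * M)ᵀ)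

theorem PP_mul_RR (L T : Matrix n n ℝ) (δ rho : ℝ) (hδ : 0 < δ) (hr : 0 < rho)
    (hLT : L * T = δ • (1 : Matrix n n ℝ)) : PP T δ rho * RR L rho = 1 := by
  have hTL : T * L = δ • (1 : Matrix n n ℝ) := by
    have h1 : L * (δ⁻¹ • T) = 1 := by
      rw [Matrix.mul_smul, hLT, smul_smul, inv_mul_cancel₀ hδ.ne', one_smul]
    have h2 : (δ⁻¹ • T) * L = 1 := mul_eq_one_comm.mp h1
    have h3 := congrArg (fun X => δ • X) h2
    simp only [Matrix.smul_mul, smul_smul, mul_inv_cancel₀ hδ.ne', one_smul] at h3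
    exact h3
  unfold PP RR
  have h1 : T * Tᵀ * (Lᵀ * L) = (δ ^ 2) • (1 : Matrix n n ℝ) := by
    have h2 : Tᵀ * Lᵀ = δ • (1 : Matrix n n ℝ) := by
      rw [← Matrix.transpose_mul, hLT, Matrix.transpose_smul, Matrix.transpose_one]
    calc T * Tᵀ * (Lᵀ * L) = T * (Tᵀ * Lᵀ) * L := by simp only [Matrix.mul_assoc]
      _ = (δ ^ 2) • 1 := by
          rw [h2, Matrix.mul_smul, Matrix.mul_one, Matrix.smul_mul, hTL, smul_smul, sq]
  rw [Matrix.smul_mul, Matrix.mul_smul, h1, smul_smul, smul_smul]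
  have h3 : rho / δ ^ 2 * (rho⁻¹ * δ ^ 2) = 1 := by
    field_simp
  rw [show rho / δ ^ 2 * rho⁻¹ * δ ^ 2 = 1 from by rw [mul_assoc, h3], one_smul]

theorem RR_psd (L : Matrix n n ℝ) (rho : ℝ) (hr : 0 < rho) : (RR L rho).PosSemidef := by
  unfold RR
  have h1 : (Lᵀ * L).PosSemidef := by
    have := Matrix.posSemidef_conjTranspose_mul_self L
    simpa using this
  exact h1.smul (inv_nonneg.2 hr.le)

theorem PP_symm (T : Matrix n n ℝ) (δ rho : ℝ) : (PP T δ rho)ᵀ = PP T δ rho := by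
  unfold PP
  rw [Matrix.transpose_smul, Matrix.transpose_mul, Matrix.transpose_transpose]

theorem PP_trace (T : Matrix n n ℝ) (δ rho : ℝ) :
    trace (PP T δ rho) = rho * trace (T * Tᵀ) / δ ^ 2 := by
  unfold PP
  rw [trace_smul, smul_eq_mul]
  ring

theorem qa_real (L : Matrix n n ℝ) (rho : ℝ) (C : Matrix n (Fin 3) ℝ) (A : Matrix (Fin 3) (Fin 3) ℝ) :
    trace (RR L rho * (C * A * Cᵀ)) = rho⁻¹ * qa L A C := by
  unfold RR qa
  rw [Matrix.smul_mul, trace_smul, smul_eq_mul]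
  congr 1
  rw [Matrix.transpose_mul]
  calc trace (Lᵀ * L * (C * A * Cᵀ))
      = trace ((Lᵀ * L * C) * (A * Cᵀ)) := by simp only [Matrix.mul_assoc]
    _ = trace ((A * Cᵀ) * (Lᵀ * L * C)) := trace_mul_comm _ _
    _ = trace (A * (Cᵀ * Lᵀ * (L * C))) := by simp only [Matrix.mul_assoc]

theorem tr_cross (L : Matrix n n ℝ) (rho : ℝ) (C M : Matrix n (Fin 3) ℝ) :
    trace (RR L rho * (C * Mᵀ + M * Cᵀ)) = 2 * rho⁻¹ * trace ((L * C) * (L * M)ᵀ) := by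
  unfold RR
  rw [Matrix.smul_mul, trace_smul, smul_eq_mul, Matrix.transpose_mul, Matrix.mul_add, trace_add]
  have h1 : trace (Lᵀ * L * (C * Mᵀ)) = trace (L * C * (Mᵀ * Lᵀ)) := by
    calc trace (Lᵀ * L * (C * Mᵀ)) = trace (Lᵀ * (L * C * Mᵀ)) := by simp only [Matrix.mul_assoc]
      _ = trace ((L * C * Mᵀ) * Lᵀ) := trace_mul_comm _ _
      _ = _ := by simp only [Matrix.mul_assoc]
  have h2 : trace (Lᵀ * L * (M * Cᵀ)) = trace (L * C * (Mᵀ * Lᵀ)) := by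
    rw [← trace_transpose]
    have : (Lᵀ * L * (M * Cᵀ))ᵀ = C * Mᵀ * (Lᵀ * L) := by
      simp only [Matrix.transpose_mul, Matrix.transpose_transpose]
    rw [this, trace_mul_comm, h1]
  rw [h1, h2]
  ring

end

section

variable {n : Type*} [Fintype n] [DecidableEq n]
  {ι : Type*} [Fintype ι] (F : Matrix n (Fin 3) ℝ) (Z : Matrix (Fin 3) (Fin 3) ℝ)
  (hZ : (Fᵀ * F) * Z = 1)
  (lam : ι → ℝ) (hlam : ∀ v, 0 ≤ lam v) (A B : ι → Matrix (Fin 3) (Fin 3) ℝ) (d : ι → ℝ)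
  (hd : ∀ v, 0 < d v) (hpsd : ∀ v, (A v).PosSemidef) (C M : Matrix n (Fin 3) ℝ)
  (hinv : ∀ v, A v * (B v * Mᵀ) = (d v) • Mᵀ)
  (hF : Fᵀ * F = ∑ v, lam v • A v) (L T : Matrix n n ℝ) (δ : ℝ) (hδ : 0 < δ)
  (hLT : L * T = δ • (1 : Matrix n n ℝ))
  (rho D κ μ : ℝ) (hr : 0 < rho) (hκ0 : 0 ≤ κ) (hμ0 : 0 ≤ μ) (hD : D ^ 2 < 16 * (κ * μ))

include hZ hlam hd hpsd hinv hF hδ hLT hr hκ0 hμ0 hD

/-- **the test with given scales** -/
theorem tri_test (s : ι → ℝ) (hs : ∀ v, 0 < s v)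
    (hT : ∀ v, δ ^ 2 * (d v * qa L (A v) C + (s v) ^ 2 * qa L (B v) M) ≤
      s v * d v * EE L T δ rho D C M) :
    0 < ∑ v, lam v * s v ∧
    trace (Fᵀ * C) + (∑ v, lam v * s v) * trace ((F * Z)ᵀ * M) <
      κ + (∑ v, lam v * s v) * μ := by
  refine cone_bound F C M Z (PP T δ rho) (RR L rho) hZ (PP_mul_RR L T δ rho hδ hr hLT)
    (PP_symm T δ rho) (RR_psd L rho hr) lam hlam A
    (fun v => (d v)⁻¹ • (B v * Mᵀ)) hF hpsd (fun v => ?_) s hs D κ μ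
    (fun v => ?_) hκ0 hμ0 hD
  · rw [Matrix.mul_smul, hinv v, smul_smul, inv_mul_cancel₀ (hd v).ne', one_smul]
  · have e1 : trace (RR L rho * (M * ((d v)⁻¹ • (B v * Mᵀ)))) = (d v)⁻¹ * (rho⁻¹ * qa L (B v) M) := by
      rw [Matrix.mul_smul, Matrix.mul_smul, trace_smul, smul_eq_mul, ← qa_real, Matrix.mul_assoc]
    rw [PP_trace, tr_cross, qa_real, e1]
    have h1 := hT v
    have hsv := hs v
    have hdvv := hd v
    unfold EE at h1
    rw [← sub_nonneg] at h1 ⊢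
    have h2 : D - (rho * trace (T * Tᵀ) / δ ^ 2 +
        2 * rho⁻¹ * trace ((L * C) * (L * M)ᵀ) +
        (s v)⁻¹ * (rho⁻¹ * qa L (A v) C) +
        s v * ((d v)⁻¹ * (rho⁻¹ * qa L (B v) M))) =
        (s v * d v * (rho * δ ^ 2 * D - rho ^ 2 * trace (T * Tᵀ) -
          2 * δ ^ 2 * trace ((L * C) * (L * M)ᵀ)) -
        δ ^ 2 * (d v * qa L (A v) C + (s v) ^ 2 * qa L (B v) M)) /
        (rho * δ ^ 2 * s v * d v) := by
      field_simp
      ring
    rw [h2]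
    exact div_nonneg h1 (by positivity)

/-- **the test with free scales** -/
theorem tri_free (hBsymm : ∀ v, (A v)ᵀ = A v) (hE : 0 < EE L T δ rho D C M)
    (hT : ∀ v, 4 * (δ ^ 2) ^ 2 * (qa L (A v) C * qa L (B v) M) ≤ (EE L T δ rho D C M) ^ 2 * d v) :
    ∃ σ : ℝ, 0 < σ ∧
    trace (Fᵀ * C) + σ * trace ((F * Z)ᵀ * M) < κ + σ * μ := by
  have hX : ∀ v, A v * ((d v)⁻¹ • (B v * Mᵀ)) = Mᵀ := by
    intro v
    rw [Matrix.mul_smul, hinv v, smul_smul, inv_mul_cancel₀ (hd v).ne', one_smul]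
  have e1 : ∀ v, trace (RR L rho * (M * ((d v)⁻¹ • (B v * Mᵀ)))) =
      (d v)⁻¹ * (rho⁻¹ * qa L (B v) M) := by
    intro v
    rw [Matrix.mul_smul, Matrix.mul_smul, trace_smul, smul_eq_mul, ← qa_real, Matrix.mul_assoc]
  have hα : ∀ v, 0 ≤ rho⁻¹ * qa L (A v) C := by
    intro v
    rw [← qa_real]
    have := trace_conj_nonneg (RR L rho) (A v) (Cᵀ) (RR_psd L rho hr) (hpsd v)
    simpa using this
  have hβ : ∀ v, 0 ≤ (d v)⁻¹ * (rho⁻¹ * qa L (B v) M) := by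
    intro v
    rw [← e1 v]
    have := trace_conj_nonneg (RR L rho) (A v) ((d v)⁻¹ • (B v * Mᵀ)) (RR_psd L rho hr) (hpsd v)
    have e := hX v
    have e2 : ((d v)⁻¹ • (B v * Mᵀ))ᵀ * A v = M := by
      have := congrArg transpose e
      rw [Matrix.transpose_mul, hBsymm, Matrix.transpose_transpose] at this
      exact this
    rw [e2] at this
    exact this
  obtain ⟨τ, hTd⟩ : ∃ τ : ℝ, τ = trace (PP T δ rho) +
      trace (RR L rho * (C * Mᵀ + M * Cᵀ)) := ⟨_, rfl⟩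
  have hDT : D - τ = EE L T δ rho D C M / (rho * δ ^ 2) := by
    rw [hTd, PP_trace, tr_cross]
    unfold EE
    field_simp
    ring
  have hDT0 : 0 < D - τ := by
    rw [hDT]
    positivity
  have hs : ∀ v, ∃ a : ℝ, 0 < a ∧ a * (rho⁻¹ * qa L (A v) C) +
      ((d v)⁻¹ * (rho⁻¹ * qa L (B v) M)) / a ≤ D - τ := by
    intro v
    refine exists_scale _ _ _ (hα v) (hβ v) hDT0 ?_
    have h1 := hT v
    have hdvv := hd v
    rw [hDT, div_pow, le_div_iff₀ (by positivity)]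
    have h3 : 4 * (rho⁻¹ * qa L (A v) C * ((d v)⁻¹ * (rho⁻¹ * qa L (B v) M))) * (rho * δ ^ 2) ^ 2 =
        (4 * (δ ^ 2) ^ 2 * (qa L (A v) C * qa L (B v) M)) / d v := by
      field_simp
    rw [h3, div_le_iff₀ hdvv]
    exact h1
  choose a ha0 haT using hs
  have key := cone_bound F C M Z (PP T δ rho) (RR L rho) hZ (PP_mul_RR L T δ rho hδ hr hLT)
    (PP_symm T δ rho) (RR_psd L rho hr) lam hlam A
    (fun v => (d v)⁻¹ • (B v * Mᵀ)) hF hpsd hX (fun v => (a v)⁻¹)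
    (fun v => inv_pos.2 (ha0 v)) D κ μ
    (fun v => by
      rw [e1, qa_real, ← hTd, inv_inv]
      have := haT v
      rw [div_eq_inv_mul] at this
      linarith) hκ0 hμ0 hD
  exact ⟨_, key.1, key.2⟩

end

end Pool.Agent.Helper82.FL.G
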