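import Mathlib
import Pool.Agent.Helper82.FL.GenDig
import Pool.Agent.Helper82.FL.TriG

/-!
# The header for any number of rows
-/

set_option autoImplicit false

namespace Pool.Agent.Helper82.FL

open Matrix Finset Pool.Agent.Helper28.TT

theorem OFF_eq : OFF + 524288 = B9 := by decide +kernel

theorem offs_succ (n r : ℕ) :
    offs (n + 1) r = (r % 1048576 + OFF) :: offs n (Nat.shiftRight r 20) := rfl

theorem offs_spec (n r : ℕ) : ∃ f : Fin n → ℤ, VR n (offs n r) f ∧ ∀ j, |f j| ≤ 2 ^ 20 := by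
  induction n generalizing r with
  | zero => exact ⟨fun i => i.elim0, rfl, fun i => i.elim0⟩
  | succ n ih =>
    obtain ⟨f, hf, hb⟩ := ih (Nat.shiftRight r 20)
    refine ⟨fun j => Fin.cases (motive := fun _ => ℤ) (((r % 1048576 : ℕ) : ℤ) - 524288) f j,
      ⟨_, _, offs_succ n r, ?_, hf⟩, ?_⟩
    · refine Rs.of_eq (q := 1) ?_
      simp only [Fin.cases_zero]
      have h1 : (OFF : ℤ) = (B1 : ℤ) ^ 9 - 524288 := by
        have h : (OFF : ℤ) + 524288 = (B9 : ℤ) := by exact_mod_cast OFF_eq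
        rw [← B9_int]
        linarith
      rw [Nat.cast_add, h1]
      ring
    · intro j
      refine Fin.cases ?_ (fun j => ?_) j
      · simp only [Fin.cases_zero]
        have := Nat.mod_lt r (show 0 < 1048576 by norm_num)
        rw [abs_le]
        constructor <;> omega
      · exact hb j

theorem rowsG_succ (n r : ℕ) : rowsG (n + 1) r =
    ((r % 1048576) :: offs n (Nat.shiftRight r 20)) ::
      rowsG n (Nat.shiftRight r (Nat.mul 20 (Nat.succ n))) := rfl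

theorem rowsG_spec (m r : ℕ) : ∃ L : Fin m → Fin m → ℤ, LRel m (rowsG m r) L := by
  induction m generalizing r with
  | zero => exact ⟨fun i => i.elim0, rfl⟩
  | succ m ih =>
    obtain ⟨L, hL⟩ := ih (Nat.shiftRight r (Nat.mul 20 (Nat.succ m)))
    obtain ⟨f, hf, hb⟩ := offs_spec m (Nat.shiftRight r 20)
    refine ⟨fun i j => Fin.cases (motive := fun _ => ℤ)
      (Fin.cases (motive := fun _ => ℤ) ((r % 1048576 : ℕ) : ℤ) f j)
      (fun i => Fin.cases (motive := fun _ => ℤ) 0 (fun j => L i j) j) i, ?_⟩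
    refine ⟨_, _, _, rowsG_succ m r, rfl, ?_, hf, hb, fun i => rfl, hL⟩
    have := Nat.mod_lt r (show 0 < 1048576 by norm_num)
    have e : (2 : ℕ) ^ 20 = 1048576 := by norm_num
    rw [e]
    exact this.le

/-- the header stands for a triangular factor -/
structure HdGOK (m : ℕ) (g : HdG) (L T : Fin m → Fin m → ℤ) (δ rho : ℤ) : Prop where
  hL : LRel m g.L L
  hLT : ∀ i j, ∑ k, L i k * T k j = if i = j then δ else 0
  hδ : 0 < δ
  hq : (g.h.q : ℤ) = δ ^ 2
  hrq : (g.h.rq : ℤ) = rho * δ ^ 2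
  hrs : (g.h.rs : ℤ) = rho ^ 2 * ∑ i, ∑ j, T i j * T i j
  hrho : 0 < rho
  hK : 0 < g.h.K

theorem sum_bd {m : ℕ} (hm : m ≤ 8) {T : Fin m → Fin m → ℤ} (hT : ∀ i j, |T i j| ≤ 2 ^ (30 * m)) :
    0 ≤ ∑ j, ∑ i, T i j * T i j ∧ ∑ j, ∑ i, T i j * T i j < (B1 : ℤ) ^ 9 := by
  constructor
  · exact Finset.sum_nonneg fun j _ => Finset.sum_nonneg fun i _ => mul_self_nonneg _
  · have h240 : ∀ i j, |T i j| ≤ 2 ^ 240 := fun i j =>
      (hT i j).trans (pow_le_pow_right₀ (by norm_num) (by omega))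
    obtain ⟨P, hP⟩ : ∃ P : ℤ, P = 2 ^ 240 * 2 ^ 240 := ⟨_, rfl⟩
    have hP0 : 0 ≤ P := by rw [hP]; positivity
    have h1 : ∑ j, ∑ i, T i j * T i j ≤ ∑ j : Fin m, ∑ i : Fin m, P := by
      refine Finset.sum_le_sum fun j _ => Finset.sum_le_sum fun i _ => ?_
      rw [hP]
      exact (le_abs_self _).trans (bd_mul (h240 i j) (h240 i j))
    simp only [Finset.sum_const, Finset.card_univ, Fintype.card_fin, nsmul_eq_mul] at h1
    have hm' : (m : ℤ) ≤ 8 := by exact_mod_cast hm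
    have hm0 : (0 : ℤ) ≤ m := Int.natCast_nonneg _
    have h2 : (m : ℤ) * (m * P) ≤ 8 * (8 * P) :=
      mul_le_mul hm' (mul_le_mul_of_nonneg_right hm' hP0) (mul_nonneg hm0 hP0) (by norm_num)
    refine lt_of_le_of_lt (h1.trans h2) ?_
    have h3 : (B1 : ℤ) ^ 2 ≤ (B1 : ℤ) ^ 9 := by
      apply pow_le_pow_right₀ _ (by norm_num)
      have := B1_pos
      linarith
    refine lt_of_lt_of_le ?_ h3
    rw [B1_int, hP]
    norm_num

theorem mkHdG_spec (m : ℕ) (hm : m ≤ 8) (r : ℕ) (g : HdG) (hg : mkHdG m r = some g) :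
    ∃ L T δ rho, HdGOK m g L T δ rho := by
  unfold mkHdG hd2G at hg
  obtain ⟨L, hL⟩ := rowsG_spec m (Nat.shiftRight r 2)
  revert hg
  generalize hR : rowsG m (Nat.shiftRight r 2) = R at hL ⊢
  generalize Nat.shiftRight r (Nat.add 2 (Nat.mul 10 (Nat.mul m (Nat.succ m)))) = s
  obtain ⟨T, hT1, hT2, hT3, hT4⟩ := adj_spec hm hL
  obtain ⟨b0, b1⟩ := sum_bd hm hT3
  have hS := (sqL_spec hT1).val b0 b1
  revert hS
  generalize Nat.mod (sqL (colsL R)) B9 = S
  intro hS hg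
  have hq : ((Nat.pow (detL R) 2 : ℕ) : ℤ) = (detL R : ℤ) ^ 2 := by
    have : Nat.pow (detL R) 2 = (detL R) ^ 2 := rfl
    rw [this]
    push_cast
    rfl
  revert hq hg
  generalize Nat.pow (detL R) 2 = q
  intro hg hq
  unfold hd3G at hg
  cases hb : Nat.ble 1 q with
  | false =>
    rw [hb] at hg
    exact absurd hg (by simp)
  | true =>
    rw [hb] at hg
    have hg' := Option.some.inj hg
    have hq1 : 1 ≤ q := Nat.le_of_ble_eq_true hb
    have hrho : (0 : ℤ) < ((Nat.shiftLeft 1 (Nat.mod s 256) : ℕ) : ℤ) := by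
      have : Nat.shiftLeft 1 (Nat.mod s 256) = 1 <<< (s % 256) := rfl
      rw [this, Nat.one_shiftLeft]
      positivity
    refine ⟨L, T, (detL R : ℤ), (Nat.shiftLeft 1 (Nat.mod s 256) : ℕ), ?_⟩
    have hdet : (0 : ℤ) < (detL R : ℤ) := by
      rcases Nat.eq_zero_or_pos (detL R) with h0 | h0
      · rw [h0] at hq
        have : (q : ℤ) = 0 := by rw [hq]; norm_num
        omega
      · exact_mod_cast h0
    rw [← hg']
    refine ⟨hL, hT2, hdet, hq, ?_, ?_, hrho, ?_⟩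
    · show ((Nat.mul (Nat.shiftLeft 1 (Nat.mod s 256)) q : ℕ) : ℤ) = _
      rw [← hq]
      exact Nat.cast_mul _ _
    · show ((Nat.mul (Nat.mul (Nat.shiftLeft 1 (Nat.mod s 256))
        (Nat.shiftLeft 1 (Nat.mod s 256))) S : ℕ) : ℤ) = _
      rw [Finset.sum_comm, ← hS, sq]
      exact (Nat.cast_mul _ _).trans (by rw [← Nat.cast_mul]; rfl)
    · show 0 < Nat.shiftLeft 1 (Nat.mod (Nat.shiftRight s 8) 64)
      have : Nat.shiftLeft 1 (Nat.mod (Nat.shiftRight s 8) 64) = 1 <<< ((s >>> 8) % 64) := rfl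
      rw [this, Nat.one_shiftLeft]
      positivity

/-- an integer matrix as a real matrix -/
def toR {m : ℕ} (C : Fin m → Fin 3 → ℤ) : Matrix (Fin m) (Fin 3) ℝ := Matrix.of fun i k => (C i k : ℝ)

/-- an integer matrix as a real matrix -/
def toQ {m : ℕ} (L : Fin m → Fin m → ℤ) : Matrix (Fin m) (Fin m) ℝ := Matrix.of fun i k => (L i k : ℝ)

theorem toQ_mul {m : ℕ} (L : Fin m → Fin m → ℤ) (C : Fin m → Fin 3 → ℤ) :
    toQ L * toR C = toR (mulI L C) := by
  ext i k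
  simp only [toQ, toR, mulI, Matrix.mul_apply, Matrix.of_apply]
  push_cast
  rfl

theorem gram_real {m : ℕ} (g : Fin m → Fin 3 → ℤ) : (toR g)ᵀ * toR g = (gramS g).toM := by
  have cm : ∀ k l : Fin 3, ∑ i, (g i k : ℝ) * g i l = ∑ i, (g i l : ℝ) * g i k := fun k l =>
    Finset.sum_congr rfl fun i _ => by ring
  ext i j
  fin_cases i <;> fin_cases j <;>
    simp [toR, gramS, S3.toM, Matrix.mul_apply, cm 1 0, cm 2 0, cm 2 1]

theorem pr_real {m : ℕ} (g h : Fin m → Fin 3 → ℤ) : trace (toR g * (toR h)ᵀ) = (prI g h : ℝ) := by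
  simp only [toR, prI, Matrix.trace, Matrix.diag, Matrix.mul_apply, Matrix.of_apply,
    Matrix.transpose_apply, Fin.sum_univ_three]
  push_cast
  rw [Finset.sum_add_distrib, Finset.sum_add_distrib]

theorem LT_real {m : ℕ} {L T : Fin m → Fin m → ℤ} {δ : ℤ}
    (h : ∀ i j, ∑ k, L i k * T k j = if i = j then δ else 0) :
    toQ L * toQ T = (δ : ℝ) • (1 : Matrix (Fin m) (Fin m) ℝ) := by
  ext i j
  simp only [toQ, Matrix.mul_apply, Matrix.of_apply, Matrix.smul_apply, Matrix.one_apply, smul_eq_mul]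
  have h1 := h i j
  have h2 : ∑ k, (L i k : ℝ) * (T k j : ℝ) = ((if i = j then δ else 0 : ℤ) : ℝ) := by
    rw [← h1]
    push_cast
    rfl
  rw [h2]
  split <;> simp

theorem TT_real {m : ℕ} (T : Fin m → Fin m → ℤ) :
    trace (toQ T * (toQ T)ᵀ) = ((∑ i, ∑ j, T i j * T i j : ℤ) : ℝ) := by
  simp only [toQ, Matrix.trace, Matrix.diag, Matrix.mul_apply, Matrix.of_apply,
    Matrix.transpose_apply]
  push_cast
  rfl

end Pool.Agent.Helper82.FL
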