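import Mathlib
import Pool.Agent.Helper82.FL.Sound
import Pool.Agent.Helper82.FL.HeadG

/-!
# Soundness of the fast leaf, any number of rows
-/

set_option autoImplicit false

namespace Pool.Agent.Helper82.FL

open Matrix Finset Pool.Agent.Helper28.TT

theorem pair_nonnegG {m : ℕ} (A : S3) (hA : A.toM.PosSemidef) (g : Fin m → Fin 3 → ℤ) :
    0 ≤ S3.pair A (gramS g) := by
  have h1 : (0 : ℝ) ≤ (S3.pair A (gramS g) : ℤ) := by
    rw [pair_real, ← gram_real]
    have h2 := trace_conj_nonneg (1 : Matrix (Fin m) (Fin m) ℝ) A.toM ((toR g)ᵀ)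
      Matrix.PosSemidef.one hA
    rw [Matrix.one_mul, Matrix.transpose_transpose] at h2
    have h3 : trace (A.toM * ((toR g)ᵀ * toR g)) = trace (toR g * A.toM * (toR g)ᵀ) := by
      calc trace (A.toM * ((toR g)ᵀ * toR g)) = trace ((A.toM * (toR g)ᵀ) * toR g) := by
            rw [Matrix.mul_assoc]
        _ = trace (toR g * (A.toM * (toR g)ᵀ)) := trace_mul_comm _ _
        _ = _ := by rw [Matrix.mul_assoc]
    rw [h3]
    exact h2
  exact_mod_cast h1

/-- a positive semidefinite matrix which is orthogonal to `Mᵀ M` kills `Mᵀ` -/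
theorem killG {m : ℕ} (N : S3) (hN : N.toM.PosSemidef) (g : Fin m → Fin 3 → ℤ)
    (h : S3.pair N (gramS g) = 0) : N.toM * (toR g)ᵀ = 0 := by
  have h1 : trace (N.toM * ((toR g)ᵀ * toR g)) = 0 := by
    rw [gram_real, ← pair_real, h]
    norm_num
  obtain ⟨S, hS⟩ := exists_root _ hN
  have h2 : trace ((S * (toR g)ᵀ)ᵀ * (S * (toR g)ᵀ)) = 0 := by
    rw [← h1, hS, Matrix.transpose_mul, Matrix.transpose_transpose]
    calc trace (toR g * Sᵀ * (S * (toR g)ᵀ)) = trace (toR g * (Sᵀ * S * (toR g)ᵀ)) := by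
          simp only [Matrix.mul_assoc]
      _ = trace ((Sᵀ * S * (toR g)ᵀ) * toR g) := trace_mul_comm _ _
      _ = _ := by simp only [Matrix.mul_assoc]
  have h3 : S * (toR g)ᵀ = 0 := by
    have := Matrix.trace_conjTranspose_mul_self_eq_zero_iff (A := S * (toR g)ᵀ)
    rw [Matrix.conjTranspose_eq_transpose_of_trivial] at this
    exact this.mp h2
  rw [hS, Matrix.mul_assoc, h3, Matrix.mul_zero]

/-- the number `E` -/
theorem eNumG_spec {m : ℕ} (hm : m ≤ 8) {g : HdG} {L T : Fin m → Fin m → ℤ} {δ rho : ℤ}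
    (hg : HdGOK m g L T δ rho) {C M : Fin m → Fin 3 → ℤ} {t D : ℕ}
    (hT : Rs t (pG (mulI L C) (mulI L M))) (hC : ∀ i k, |mulI L C i k| ≤ 2 ^ 75)
    (hM : ∀ i k, |mulI L M i k| ≤ 2 ^ 75) (h1 : 1 ≤ eNum g.h t D) : (eNum g.h t D : ℤ) =
      rho * δ ^ 2 * D - rho ^ 2 * (∑ i, ∑ j, T i j * T i j) - 2 * δ ^ 2 * prI (mulI L C) (mulI L M) := by
  have h2 := tra_pairG hm hT hC hM
  unfold eNum at h1 ⊢
  revert h1 h2
  generalize Nat.div (Nat.mod (Nat.add (Nat.mul t JJ) BI9) B9) B8 = x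
  intro h1 h2
  have e : Nat.sub (Nat.add (Nat.mul g.h.rq D) (Nat.mul g.h.q B1))
    (Nat.add (Nat.mul (Nat.mul 2 g.h.q) x) g.h.rs) =
    (g.h.rq * D + g.h.q * B1) - (2 * g.h.q * x + g.h.rs) := rfl
  rw [e] at h1 ⊢
  rw [Nat.cast_sub (by omega)]
  push_cast
  rw [hg.hq, hg.hrq, hg.hrs, h2, B1_int]
  ring

/-- the data of a leaf at one corner of the box -/
structure DataG (m : ℕ) (C M : Fin m → Fin 3 → ℤ) (κ μ : ℤ) (xs ys : List ℕ) (ka : ℕ)
    (zs ws : List ℕ) (mu : ℕ) : Prop where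
  rc : RowsG m C xs ys
  rm : RowsG m M zs ws
  bc : ∀ i k, |C i k| ≤ 2 ^ 52
  bm : ∀ i k, |M i k| ≤ 2 ^ 52
  ka : Rs ka κ
  mu : Rs mu μ
  bk : |κ| ≤ 2 ^ 60
  bu : |μ| ≤ 2 ^ 60

/-- **Soundness of the fast leaf, `m` rows.** -/
theorem fleafG_sound (m : ℕ) (hm : m ≤ 8) (F : Matrix (Fin m) (Fin 3) ℝ)
    (Z : Matrix (Fin 3) (Fin 3) ℝ) (hZ : (Fᵀ * F) * Z = 1) (cs : List V)
    (hok : ∀ v ∈ cs, okV v) (lam : ℕ → ℝ) (hlam : ∀ k, 0 ≤ lam k)
    (hQ : Fᵀ * F = ∑ k ∈ range cs.length, lam k • AtV cs k) (r : ℕ) (g : HdG)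
    (hr : mkHdG m r = some g)
    (C M : Fin m → Fin 3 → ℤ) (κ μ : ℤ) (xs ys : List ℕ) (ka : ℕ) (zs ws : List ℕ) (mu D : ℕ)
    (hd : DataG m C M κ μ xs ys ka zs ws mu)
    (hf : fleafG cs g xs ys ka zs ws mu D = true) :
    (g.h.m = 0 → ∃ σ : ℝ, 0 < σ ∧ trace (Fᵀ * toR C) + σ * trace ((F * Z)ᵀ * toR M) <
      κ + σ * ((1154 : ℝ) / 169 * μ)) ∧
    (g.h.m ≠ 0 → 0 < sig g.h cs lam ∧
      trace (Fᵀ * toR C) + sig g.h cs lam * trace ((F * Z)ᵀ * toR M) <
      κ + sig g.h cs lam * ((1154 : ℝ) / 169 * μ)) := by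
  obtain ⟨L, T, δ, rho, hl⟩ := mkHdG_spec m hm r g hr
  unfold fleafG at hf
  obtain ⟨h1, hf⟩ := band_split hf
  obtain ⟨h2, hf⟩ := band_split hf
  obtain ⟨h3, hf⟩ := band_split hf
  have e128 : (340282366920938463463374607431768211456 : ℕ) = 2 ^ 128 := by norm_num
  have k1 : (ka : ℤ) = κ := small_res hd.ka (by rw [← e128]; exact Nat.le_of_ble_eq_true h1) hd.bk
  have k2 : (mu : ℤ) = μ := small_res hd.mu (by rw [← e128]; exact Nat.le_of_ble_eq_true h2) hd.bu
  have h3' : 169 * (D * D) + 1 ≤ 18464 * (ka * mu) := Nat.le_of_ble_eq_true h3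
  have hκ0 : (0 : ℝ) ≤ κ := by
    rw [← k1]
    exact_mod_cast Int.natCast_nonneg ka
  have hμ0 : (0 : ℝ) ≤ (1154 : ℝ) / 169 * μ := by
    rw [← k2]
    have : (0 : ℝ) ≤ ((mu : ℤ) : ℝ) := by exact_mod_cast Int.natCast_nonneg mu
    positivity
  have hD : (D : ℝ) ^ 2 < 16 * ((κ : ℝ) * ((1154 : ℝ) / 169 * μ)) := by
    have h4 : (169 * ((D : ℝ) * D) + 1) ≤ 18464 * ((ka : ℝ) * mu) := by exact_mod_cast h3'
    have k1' : (ka : ℝ) = κ := by exact_mod_cast k1
    have k2' : (mu : ℝ) = μ := by exact_mod_cast k2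
    rw [k1', k2'] at h4
    linarith
  have rG := rowsG_mul hl.hL hd.rc
  have rH := rowsG_mul hl.hL hd.rm
  have bG : ∀ i k, |mulI L C i k| ≤ 2 ^ 75 := mulI_bd hm (hl.hL.bd) hd.bc
  have bH : ∀ i k, |mulI L M i k| ≤ 2 ^ 75 := mulI_bd hm (hl.hL.bd) hd.bm
  have bM : ∀ i k, |M i k| ≤ 2 ^ 75 := fun i k => (hd.bm i k).trans (by norm_num)
  have rU := uuL_spec rG rG
  have rW := uuL_spec rH rH
  have rW0 := uuL_spec hd.rm hd.rm
  have rT := uuL_spec rG rH
  unfold lf2G at hf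
  revert hf rU rW rW0 rT
  generalize uuL (mulL g.L xs) (mulL g.L ys) = U
  generalize uuL (mulL g.L zs) (mulL g.L ws) = W
  generalize uuL (mulL g.L xs) (mulL g.L ws) = t
  generalize uuL zs ws = W0
  intro hf rU rW rW0 rT
  have hEE0 := fun h1 => eNumG_spec hm hl (D := D) rT bG bH h1
  revert hf hEE0
  generalize eNum g.h t D = E
  intro hf hEE0
  unfold lf3 at hf
  obtain ⟨hE, hf⟩ := band_split hf
  have hE1 : 1 ≤ E := Nat.le_of_ble_eq_true hE
  have hEE := hEE0 hE1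
  have hcorn : ∀ k : Fin cs.length, ∃ B N : S3, CornOK (cs[k]) B N :=
    fun k => exists_corn _ (hok _ (List.getElem_mem k.2))
  choose B N hcr using hcorn
  have hQ' : Fᵀ * F = ∑ k : Fin cs.length, lam k • (formS (cs[k])).toM := by
    rw [hQ, Finset.sum_range]
    refine Finset.sum_congr rfl fun k _ => ?_
    rw [AtV_get]
  have hdv : ∀ k : Fin cs.length, (0 : ℝ) < ((((cs[k]).d : ℕ) : ℤ) : ℝ) := fun k => by
    have := (hcr k).d
    have h5 : 0 < (cs[k]).d := by omega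
    exact_mod_cast h5
  have hpsd : ∀ k : Fin cs.length, (formS (cs[k])).toM.PosSemidef := fun k => formV_psd _
  have dU : ∀ k : Fin cs.length, (dig U (cs[k]).a : ℤ) = S3.pair (formS (cs[k])) (gramS (mulI L C)) :=
    fun k => dig_pairG hm rU (hcr k).a bG (hcr k).ba (pair_nonnegG _ (hpsd k) _)
  have dW : ∀ k : Fin cs.length, (dig W (cs[k]).b : ℤ) = S3.pair (B k) (gramS (mulI L M)) :=
    fun k => dig_pairG hm rW (hcr k).b bH (hcr k).bb (pair_nonnegG _ (hcr k).psdB _)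
  have qU : ∀ k : Fin cs.length, G.qa (toQ L) (formS (cs[k])).toM (toR C) =
      ((dig U (cs[k]).a : ℤ) : ℝ) := fun k => by
    unfold G.qa
    rw [toQ_mul, gram_real, dU, pair_real]
  have qW : ∀ k : Fin cs.length, G.qa (toQ L) (B k).toM (toR M) =
      ((dig W (cs[k]).b : ℤ) : ℝ) := fun k => by
    unfold G.qa
    rw [toQ_mul, gram_real, dW, pair_real]
  have hEER : G.EE (toQ L) (toQ T) δ rho D (toR C) (toR M) = ((E : ℤ) : ℝ) := by
    unfold G.EE
    rw [toQ_mul, toQ_mul, pr_real, TT_real, hEE]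
    push_cast
    ring
  have hinv : ∀ k : Fin cs.length, dig W0 (cs[k]).n = 0 →
      (formS (cs[k])).toM * ((B k).toM * (toR M)ᵀ) = ((((cs[k]).d : ℕ) : ℤ) : ℝ) • (toR M)ᵀ := by
    intro k hk
    have h4 : (dig W0 (cs[k]).n : ℤ) = S3.pair (N k) (gramS M) :=
      dig_pairG hm rW0 (hcr k).n bM (hcr k).bn (pair_nonnegG _ (hcr k).psdN _)
    rw [hk] at h4
    have h5 := killG (N k) (hcr k).psdN M (by rw [← h4]; rfl)
    have h6 := (hcr k).id
    have h7 : (formS (cs[k])).toM * (B k).toM =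
        ((((cs[k]).d : ℕ) : ℤ) : ℝ) • (1 : Matrix (Fin 3) (Fin 3) ℝ) - (N k).toM := by
      rw [← h6]
      abel
    rw [← Matrix.mul_assoc, h7, Matrix.sub_mul, h5, sub_zero, Matrix.smul_mul, Matrix.one_mul]
  have hδ : (0 : ℝ) < δ := by exact_mod_cast hl.hδ
  have hrho : (0 : ℝ) < rho := by exact_mod_cast hl.hrho
  have hq : ((g.h.q : ℕ) : ℝ) = (δ : ℝ) ^ 2 := by
    have := hl.hq
    exact_mod_cast this
  constructor
  · intro hm0
    rw [hm0] at hf
    have hc := fun k (hk : k < cs.length) =>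
      tstA_spec U W0 W _ _ (cs[k]) (allV_spec _ cs hf k hk)
    refine G.tri_free F Z hZ (fun k : Fin cs.length => lam k) (fun k => hlam k)
      (fun k => (formS (cs[k])).toM) (fun k => (B k).toM) (fun k => ((((cs[k]).d : ℕ) : ℤ) : ℝ)) hdv
      hpsd (toR C) (toR M)
      (fun k => hinv k (hc k k.2).2) hQ' (toQ L) (toQ T) δ hδ (LT_real hl.hLT) rho D κ _
      hrho hκ0 hμ0 hD (fun k => S3.toM_transpose _)
      (by rw [hEER]; exact_mod_cast hE1) (fun k => ?_)
    have h4 := (hc k k.2).1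
    rw [hEER, qU, qW, ← hq]
    have e1 : Nat.mul 4 (Nat.mul g.h.q g.h.q) = 4 * (g.h.q * g.h.q) := rfl
    have e2 : Nat.mul E E = E * E := rfl
    rw [e1, e2] at h4
    have h5 : 4 * ((g.h.q : ℝ) * g.h.q) * ((dig U (cs[(k : ℕ)]).a : ℝ) * dig W (cs[(k : ℕ)]).b) ≤
      (E : ℝ) * E * (cs[(k : ℕ)]).d := by exact_mod_cast h4
    rw [sq, sq]
    simp only [Int.cast_natCast]
    exact h5
  · intro hm0
    have hs : sig g.h cs lam = ∑ k : Fin cs.length, lam k * scl g.h cs k := by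
      unfold sig
      rw [Finset.sum_range]
    rw [hs]
    have main : (∀ k : Fin cs.length, 0 < scl g.h cs k) ∧
      (∀ k : Fin cs.length, dig W0 (cs[k]).n = 0) ∧
      (∀ k : Fin cs.length, (δ : ℝ) ^ 2 * (((((cs[k]).d : ℕ) : ℤ) : ℝ) *
        ((dig U (cs[k]).a : ℤ) : ℝ) + (scl g.h cs k) ^ 2 * ((dig W (cs[k]).b : ℤ) : ℝ)) ≤
        scl g.h cs k * ((((cs[k]).d : ℕ) : ℤ) : ℝ) * ((E : ℤ) : ℝ)) := by
      by_cases h1m : g.h.m = 1
      · rw [h1m] at hf
        have hc := fun k (hk : k < cs.length) =>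
          tstT_spec U W0 W _ _ _ _ (cs[k]) _ (allT_spec _ cs _ hf k hk)
        have es : ∀ k : Fin cs.length, scl g.h cs k =
            (((g.h.ts >>> (16 * (k : ℕ))) % 65536 : ℕ) : ℝ) / (g.h.K : ℝ) := fun k => by
          unfold scl
          rw [if_pos h1m]
        refine ⟨fun k => ?_, fun k => (hc k k.2).2.2, fun k => ?_⟩
        · rw [es]
          have := (hc k k.2).1
          have h4 : (0 : ℝ) < (((g.h.ts >>> (16 * (k : ℕ))) % 65536 : ℕ) : ℝ) := by
            exact_mod_cast this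
          have hK : (0 : ℝ) < g.h.K := by exact_mod_cast hl.hK
          positivity
        · rw [es]
          exact core_test hl.hK rfl (hc k k.2).2.1 hq
      · have hf' : allV (tstC U W0 W E g.h.q) cs = true := by
          revert hf
          rcases hmm : g.h.m with _ | _ | n
          · exact absurd hmm hm0
          · exact absurd hmm h1m
          · intro hf; exact hf
        have hc := fun k (hk : k < cs.length) =>
          tstT_spec U W0 W _ _ _ _ (cs[k]) _ (allV_spec _ cs hf' k hk)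
        have es : ∀ k : Fin cs.length, scl g.h cs k = ((cs[k]).l : ℝ) := fun k => by
          unfold scl
          rw [if_neg h1m, lAt_get]
        refine ⟨fun k => ?_, fun k => (hc k k.2).2.2, fun k => ?_⟩
        · rw [es]
          have := (hc k k.2).1
          exact_mod_cast this
        · rw [es]
          have h7 := core_test (K := 1) (by norm_num) (by norm_num) (hc k k.2).2.1 hq
          rw [Nat.cast_one, div_one] at h7
          exact h7
    obtain ⟨m1, m2, m3⟩ := main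
    exact G.tri_test F Z hZ (fun k : Fin cs.length => lam k) (fun k => hlam k)
      (fun k => (formS (cs[k])).toM) (fun k => (B k).toM) (fun k => ((((cs[k]).d : ℕ) : ℤ) : ℝ)) hdv
      hpsd (toR C) (toR M)
      (fun k => hinv k (m2 k)) hQ' (toQ L) (toQ T) δ hδ (LT_real hl.hLT) rho D κ _
      hrho hκ0 hμ0 hD (fun k => scl g.h cs k) m1 (fun k => by
        have h4 := m3 k
        rw [qU, qW, hEER]
        exact h4)

end Pool.Agent.Helper82.FL
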