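import Mathlib
import Pool.Agent.Helper82.FL.DigW
import Pool.Agent.Helper82.FL.RawK
import Pool.Agent.Helper82.FL.SoundG

/-!
# The digits for the leaf with the metric `P = 2 ^ k (th + u uᵀ + v vᵀ)`
-/

set_option autoImplicit false

namespace Pool.Agent.Helper82.FL

open Matrix Finset Pool.Agent.Helper28.TT

theorem frc_eq {β : Type} (x : ℕ) (k : ℕ → β) : frc x k = k x := rfl

theorem flist_eq {β : Type} (l : List ℕ) (k : List ℕ → β) : flist l k = k l := by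
  induction l generalizing k with
  | nil => rfl
  | cons a t ih =>
    have e : flist (a :: t) k = flist t (fun t' => k (a :: t')) := rfl
    rw [e, ih]

/-- the digits of a matrix -/
def pX (X : Fin 3 → Fin 3 → ℤ) : ℤ :=
  p9 B1 (X 0 0) (X 1 0) (X 2 0) (X 0 1) (X 1 1) (X 2 1) (X 0 2) (X 1 2) (X 2 2)

/-- a symmetric matrix -/
def symS (X : Fin 3 → Fin 3 → ℤ) : S3 := ⟨X 0 0, X 1 1, X 2 2, X 0 1, X 0 2, X 1 2⟩

theorem pX_add (X Y : Fin 3 → Fin 3 → ℤ) : pX X + pX Y = pX (fun k l => X k l + Y k l) := by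
  unfold pX p9
  ring

section

variable {X : Fin 3 → Fin 3 → ℤ} {u a : ℕ} {A : S3}

theorem pairX_bd (hX : ∀ k l, |X k l| ≤ 12 * 2 ^ 151) (hA : S3bd A (2 ^ 97)) :
    |S3.pair A (symS X)| ≤ 9 * (2 ^ 97 * (12 * 2 ^ 151)) := by
  obtain ⟨c1, c2, c3, c4, c5, c6⟩ := hA
  have t1 := bd_mul c1 (hX 0 0)
  have t2 := bd_mul c2 (hX 1 1)
  have t3 := bd_mul c3 (hX 2 2)
  have t4 := bd_mul c4 (hX 0 1)
  have t5 := bd_mul c5 (hX 0 2)
  have t6 := bd_mul c6 (hX 1 2)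
  unfold S3.pair symS
  simp only
  generalize (2 : ℤ) ^ 97 * (12 * 2 ^ 151) = P at t1 t2 t3 t4 t5 t6 ⊢
  rw [abs_le] at *
  constructor <;> linarith [t1.1, t1.2, t2.1, t2.2, t3.1, t3.2, t4.1, t4.2, t5.1, t5.2, t6.1, t6.2]

/-- the scalar product with a symmetric matrix -/
theorem digX (hu : Rs u (pX X)) (hs : ∀ k l, X k l = X l k) (ha : Rs a (pS A))
    (hX : ∀ k l, |X k l| ≤ 12 * 2 ^ 151) (hA : S3bd A (2 ^ 97)) (h0 : 0 ≤ S3.pair A (symS X)) :
    (dig u a : ℤ) = S3.pair A (symS X) := by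
  have hb := pairX_bd hX hA
  have hlt : S3.pair A (symS X) < (B1 : ℤ) := by
    have h1 := (abs_le.mp hb).2
    rw [B1_int]
    have e : (9 : ℤ) * (2 ^ 97 * (12 * 2 ^ 151)) < 2 ^ 256 := by norm_num
    exact lt_of_le_of_lt h1 e
  obtain ⟨c1, c2, c3, c4, c5, c6⟩ := hA
  have key := prod_topG (a := a) (u := u) (X := 12 * 2 ^ 151) (Y := 2 ^ 97) (by norm_num) hu ha
    (hX 0 0) (hX 1 0) (hX 2 0) (hX 0 1) (hX 1 1) (hX 2 1) (hX 0 2) (hX 1 2)
    c3 c6 c5 c6 c2 c4 c5 c4 (S3.pair A (symS X)) (by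
      unfold S3.pair symS
      rw [hs 1 0, hs 2 0, hs 2 1]
      ring) 0
    (by rw [add_zero]; exact ⟨h0, hlt⟩)
  rw [add_zero, zero_mul, add_zero] at key
  have e : ((dig u a : ℕ) : ℤ) = ((u : ℤ) * a + 2 ^ 255 * (1 + (B1 : ℤ) + B1 ^ 2 + B1 ^ 3 + B1 ^ 4 +
      B1 ^ 5 + B1 ^ 6 + B1 ^ 7)) % (B1 : ℤ) ^ 9 / B1 ^ 8 := by
    have : dig u a = (u * a + BI8) % B9 / B8 := rfl
    rw [this, BI8_eq, B9_eq, B8_eq]
    push_cast
    rfl
  rw [e, key]

/-- the scalar product with a symmetric matrix, shifted -/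
theorem sdigX (hu : Rs u (pX X)) (hs : ∀ k l, X k l = X l k) (ha : Rs a (pS A))
    (hX : ∀ k l, |X k l| ≤ 12 * 2 ^ 151) (hA : S3bd A (2 ^ 97)) :
    (sdig u a : ℤ) = S3.pair A (symS X) + 2 ^ 255 := by
  have hb := pairX_bd hX hA
  obtain ⟨c1, c2, c3, c4, c5, c6⟩ := hA
  have key := prod_topG (a := a) (u := u) (X := 12 * 2 ^ 151) (Y := 2 ^ 97) (by norm_num) hu ha
    (hX 0 0) (hX 1 0) (hX 2 0) (hX 0 1) (hX 1 1) (hX 2 1) (hX 0 2) (hX 1 2)
    c3 c6 c5 c6 c2 c4 c5 c4 (S3.pair A (symS X)) (by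
      unfold S3.pair symS
      rw [hs 1 0, hs 2 0, hs 2 1]
      ring) (2 ^ 255) (sh hb (by norm_num))
  have e : ((sdig u a : ℕ) : ℤ) = ((u : ℤ) * a + (2 ^ 255 * (1 + (B1 : ℤ) + B1 ^ 2 + B1 ^ 3 + B1 ^ 4 +
      B1 ^ 5 + B1 ^ 6 + B1 ^ 7) + 2 ^ 255 * B1 ^ 8)) % (B1 : ℤ) ^ 9 / B1 ^ 8 := by
    have : sdig u a = (u * a + BI9) % B9 / B8 := rfl
    rw [this, BI9_eq, B9_eq, B8_eq]
    push_cast
    congr 2
  rw [e, key]

/-- the trace, shifted -/
theorem traX (hu : Rs u (pX X)) (hX : ∀ k l, |X k l| ≤ 12 * 2 ^ 151) :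
    (sdig u JJ : ℤ) = (X 0 0 + X 1 1 + X 2 2) + 2 ^ 255 := by
  have hJ : Rs JJ (p9 B1 1 0 0 0 1 0 0 0 1) := by
    refine Rs.congr (Rs.refl JJ) ?_
    rw [JJ_eq]
    unfold p9
    push_cast
    ring
  have o1 : |(1 : ℤ)| ≤ 2 ^ 97 := by norm_num
  have o0 : |(0 : ℤ)| ≤ 2 ^ 97 := by norm_num
  have hT : |X 0 0 + X 1 1 + X 2 2| ≤ 12 * 2 ^ 151 + 12 * 2 ^ 151 + 12 * 2 ^ 151 :=
    bd_add (bd_add (hX 0 0) (hX 1 1)) (hX 2 2)
  have key := prod_topG (a := JJ) (u := u) (X := 12 * 2 ^ 151) (Y := 2 ^ 97) (by norm_num) hu hJ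
    (hX 0 0) (hX 1 0) (hX 2 0) (hX 0 1) (hX 1 1) (hX 2 1) (hX 0 2) (hX 1 2)
    o1 o0 o0 o0 o1 o0 o0 o0 (X 0 0 + X 1 1 + X 2 2) (by ring) (2 ^ 255)
    (sh hT (by norm_num))
  have e : ((sdig u JJ : ℕ) : ℤ) = ((u : ℤ) * JJ + (2 ^ 255 * (1 + (B1 : ℤ) + B1 ^ 2 + B1 ^ 3 +
      B1 ^ 4 + B1 ^ 5 + B1 ^ 6 + B1 ^ 7) + 2 ^ 255 * B1 ^ 8)) % (B1 : ℤ) ^ 9 / B1 ^ 8 := by
    have : sdig u JJ = (u * JJ + BI9) % B9 / B8 := rfl
    rw [this, BI9_eq, B9_eq, B8_eq]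
    push_cast
    congr 2
  rw [e, key]

end

/-- the matrix of the scalar products of columns -/
def GX {m : ℕ} (g h : Fin m → Fin 3 → ℤ) : Fin 3 → Fin 3 → ℤ := fun k l => ∑ i, g i k * h i l

theorem uuX_spec {m : ℕ} {g h : Fin m → Fin 3 → ℤ} {xs ws : List ℕ}
    (hx : VR m xs (fun i => g i 0 + g i 1 * B1 + g i 2 * B1 ^ 2))
    (hw : VR m ws (fun i => h i 0 + h i 1 * B1 ^ 3 + h i 2 * B1 ^ 6)) :
    Rs (uuL xs ws) (pX (GX g h)) := by
  have h1 := (dot_spec hx hw).mod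
  refine Rs.congr (x := uuL xs ws) h1 ?_
  unfold pX GX p9
  simp only [Finset.mul_sum, ← Finset.sum_add_distrib]
  refine Finset.sum_congr rfl fun i _ => ?_
  ring

theorem GX_bd {m : ℕ} (hm : m ≤ 8) {g h : Fin m → Fin 3 → ℤ} (hg : ∀ i k, |g i k| ≤ 2 ^ 52)
    (hh : ∀ i k, |h i k| ≤ 12 * 2 ^ 95) (k l : Fin 3) : |GX g h k l| ≤ 12 * 2 ^ 150 := by
  unfold GX
  refine (sum8 hm (by positivity) fun i => bd_mul (hg i k) (hh i l)).trans ?_
  norm_num

theorem GX_bd' {m : ℕ} (hm : m ≤ 8) {g h : Fin m → Fin 3 → ℤ} (hg : ∀ i k, |g i k| ≤ 2 ^ 52)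
    (hh : ∀ i k, |h i k| ≤ 12 * 2 ^ 95) (k l : Fin 3) : |GX g h k l| ≤ 12 * 2 ^ 151 :=
  (GX_bd hm hg hh k l).trans (by norm_num)

/-- the matrix `R0` -/
def R0 {m : ℕ} (u v : Fin m → ℤ) (a b d det : ℤ) : Fin m → Fin m → ℤ := fun i j =>
  (if i = j then det else 0) - (u i * (d * u j - b * v j) + v i * (a * v j - b * u j))

theorem R0_symm {m : ℕ} (u v : Fin m → ℤ) (a b d det : ℤ) (i j : Fin m) :
    R0 u v a b d det i j = R0 u v a b d det j i := by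
  unfold R0
  by_cases h : i = j
  · rw [h]
  · rw [if_neg h, if_neg (Ne.symm h)]
    ring

/-- the header stands for the metric -/
structure HdKOK (m : ℕ) (g : HdK) (u v : Fin m → ℤ) (th b det rho : ℤ) : Prop where
  hu : VR m g.u u
  hv : VR m g.v v
  bu : ∀ i, |u i| ≤ 2 ^ 9
  bv : ∀ i, |v i| ≤ 2 ^ 9
  hth : 0 < th
  hth' : th ≤ 2 ^ 22
  ha : (g.a : ℤ) = th + ∑ i, u i * u i
  hd : (g.d : ℤ) = th + ∑ i, v i * v i
  hb : b = ∑ i, u i * v i
  hnb : Rs g.nb (-b)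
  hdet : (g.det : ℤ) = det
  hdet' : det = (th + ∑ i, u i * u i) * (th + ∑ i, v i * v i) - b * b
  det0 : 0 < det
  det1 : det ≤ 2 ^ 43
  hq : g.h.q = 1
  hrho : 0 < rho
  hrq : (g.h.rq : ℤ) = rho * (th * det)
  hrs : (g.h.rs : ℤ) = rho * (th * det) * rho * (∑ i, u i * u i + ∑ i, v i * v i + 3 * th)
  hK : 0 < g.h.K

/-- the matrix `R0` of a header -/
def R0g {m : ℕ} (g : HdK) (u v : Fin m → ℤ) (b det : ℤ) : Fin m → Fin m → ℤ :=
  R0 u v g.a b g.d det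

theorem outK_spec {m : ℕ} {us vs ys : List ℕ} {u v y : Fin m → ℤ} {det n1 n2 : ℕ} {d' t1 t2 : ℤ}
    (hu : VR m us u) (hv : VR m vs v) (hy : VR m ys y) (hd : Rs det d') (h1 : Rs n1 t1)
    (h2 : Rs n2 t2) :
    VR m (outK det n1 n2 us vs ys) (fun i => d' * y i + (u i * t1 + v i * t2)) := by
  induction m generalizing us vs ys with
  | zero =>
    have e1 : us = [] := hu
    rw [e1]
    exact rfl
  | succ m ih =>
    obtain ⟨a, ut, rfl, ha, hut⟩ := hu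
    obtain ⟨b, vt, rfl, hb, hvt⟩ := hv
    obtain ⟨c, yt, rfl, hc, hyt⟩ := hy
    have e : outK det n1 n2 (a :: ut) (b :: vt) (c :: yt) =
        (det * c + (a * n1 + b * n2)) :: outK det n1 n2 ut vt yt := rfl
    exact ⟨_, _, e, (hd.mul hc).add ((ha.mul h1).add (hb.mul h2)), ih hut hvt hyt⟩

theorem RK_spec {m : ℕ} {g : HdK} {u v : Fin m → ℤ} {th b det rho : ℤ}
    (hg : HdKOK m g u v th b det rho) {ys : List ℕ} {y : Fin m → ℤ} (hy : VR m ys y) :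
    VR m (RK g ys) (fun i => ∑ j, R0g g u v b det i j * y j) := by
  have s1 := dot_spec hg.hu hy
  have s2 := dot_spec hg.hv hy
  have ha : Rs g.a (g.a : ℤ) := Rs.refl _
  have hd : Rs g.d (g.d : ℤ) := Rs.refl _
  have n1 := negR_spec ((hd.mul s1).add (hg.hnb.mul s2))
  have n2 := negR_spec ((ha.mul s2).add (hg.hnb.mul s1))
  have hdet : Rs g.det det := (Rs.refl _).congr hg.hdet
  have h := outK_spec hg.hu hg.hv hy hdet n1 n2
  have e : (fun i => ∑ j, R0g g u v b det i j * y j) = fun i =>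
      det * y i + (u i * -((g.d : ℤ) * (∑ i, u i * y i) + -b * ∑ i, v i * y i) +
        v i * -((g.a : ℤ) * (∑ i, v i * y i) + -b * ∑ i, u i * y i)) := by
    funext i
    unfold R0g R0
    have e1 : ∀ j, ((if i = j then det else 0) - (u i * ((g.d : ℤ) * u j - b * v j) +
        v i * ((g.a : ℤ) * v j - b * u j))) * y j = (if i = j then det * y j else 0) +
        (-(u i * g.d) + v i * b) * (u j * y j) + (u i * b - v i * g.a) * (v j * y j) := by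
      intro j
      split
      · ring
      · ring
    rw [Finset.sum_congr rfl fun j _ => e1 j, Finset.sum_add_distrib, Finset.sum_add_distrib,
      ← Finset.mul_sum, ← Finset.mul_sum, Finset.sum_ite_eq Finset.univ i]
    simp only [Finset.mem_univ, if_true]
    ring
  rw [e]
  exact h

theorem RK_rows {m : ℕ} {g : HdK} {u v : Fin m → ℤ} {th b det rho : ℤ}
    (hg : HdKOK m g u v th b det rho) {C : Fin m → Fin 3 → ℤ} {xs ys : List ℕ}
    (hC : RowsG m C xs ys) :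
    VR m (RK g ys) (fun i => mulI (R0g g u v b det) C i 0 + mulI (R0g g u v b det) C i 1 * B1 ^ 3 +
      mulI (R0g g u v b det) C i 2 * B1 ^ 6) := by
  have h1 := RK_spec hg hC.y
  have e : (fun i => mulI (R0g g u v b det) C i 0 + mulI (R0g g u v b det) C i 1 * (B1 : ℤ) ^ 3 +
      mulI (R0g g u v b det) C i 2 * (B1 : ℤ) ^ 6) =
      fun i => ∑ k, R0g g u v b det i k * (C k 0 + C k 1 * (B1 : ℤ) ^ 3 + C k 2 * (B1 : ℤ) ^ 6) := by
    funext i
    unfold mulI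
    simp only [Finset.sum_mul, ← Finset.sum_add_distrib]
    exact Finset.sum_congr rfl fun k _ => by ring
  rw [e]
  exact h1

section

variable {m : ℕ} {g : HdK} {u v : Fin m → ℤ} {th b det rho : ℤ} (hg : HdKOK m g u v th b det rho)

include hg

theorem R0_bd (hm : m ≤ 8) (i j : Fin m) : |R0g g u v b det i j| ≤ 12 * 2 ^ 40 := by
  have hs : ∀ (f h : Fin m → ℤ), (∀ i, |f i| ≤ 2 ^ 9) → (∀ i, |h i| ≤ 2 ^ 9) →
      |∑ i, f i * h i| ≤ 2 ^ 21 := by
    intro f h hf hh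
    refine (sum8 hm (by positivity) fun i => bd_mul (hf i) (hh i)).trans ?_
    norm_num
  have ha : |(g.a : ℤ)| ≤ 2 ^ 22 + 2 ^ 21 := by
    rw [hg.ha]
    exact bd_add (by rw [abs_of_pos hg.hth]; exact hg.hth') (hs u u hg.bu hg.bu)
  have hd : |(g.d : ℤ)| ≤ 2 ^ 22 + 2 ^ 21 := by
    rw [hg.hd]
    exact bd_add (by rw [abs_of_pos hg.hth]; exact hg.hth') (hs v v hg.bv hg.bv)
  have hb : |b| ≤ 2 ^ 21 := by
    rw [hg.hb]
    exact hs u v hg.bu hg.bv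
  have hsub : ∀ {x y A B : ℤ}, |x| ≤ A → |y| ≤ B → |x - y| ≤ A + B := fun hx hy =>
    (abs_sub _ _).trans (add_le_add hx hy)
  have hite : |(if i = j then det else 0)| ≤ 2 ^ 43 := by
    split
    · rw [abs_of_pos hg.det0]; exact hg.det1
    · rw [abs_zero]; positivity
  unfold R0g R0
  refine (hsub hite (bd_add (bd_mul (hg.bu i) (hsub (bd_mul hd (hg.bu j)) (bd_mul hb (hg.bv j))))
    (bd_mul (hg.bv i) (hsub (bd_mul ha (hg.bv j)) (bd_mul hb (hg.bu j)))))).trans ?_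
  norm_num

theorem mulR_bd (hm : m ≤ 8) {C : Fin m → Fin 3 → ℤ} (hC : ∀ i k, |C i k| ≤ 2 ^ 52) (i : Fin m)
    (k : Fin 3) : |mulI (R0g g u v b det) C i k| ≤ 12 * 2 ^ 95 := by
  unfold mulI
  refine (sum8 hm (by positivity) fun j => bd_mul (R0_bd hg hm i j) (hC j k)).trans ?_
  norm_num

omit hg in
/-- the scalar products with respect to `R0` are symmetric -/
theorem GX_symm (C M : Fin m → Fin 3 → ℤ) (k l : Fin 3) :
    GX C (mulI (R0g g u v b det) M) k l = GX M (mulI (R0g g u v b det) C) l k := by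
  unfold GX mulI
  simp only [Finset.mul_sum]
  rw [Finset.sum_comm]
  refine Finset.sum_congr rfl fun j _ => Finset.sum_congr rfl fun i _ => ?_
  have := R0_symm u v g.a b g.d det i j
  unfold R0g
  rw [this]
  ring

/-- `P0 R0 = th det` -/
theorem PR_int (i j : Fin m) : ∑ k, ((if i = k then th else 0) + u i * u k + v i * v k) *
    R0g g u v b det k j = if i = j then th * det else 0 := by
  obtain ⟨X, hX⟩ : ∃ X : ℤ, X = (g.d : ℤ) * u j - b * v j := ⟨_, rfl⟩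
  obtain ⟨Y, hY⟩ : ∃ Y : ℤ, Y = (g.a : ℤ) * v j - b * u j := ⟨_, rfl⟩
  have hR : ∀ k, R0g g u v b det k j = (if k = j then det else 0) - (u k * X + v k * Y) := by
    intro k
    unfold R0g R0
    rw [hX, hY]
  have e1 : ∀ k, ((if i = k then th else 0) + u i * u k + v i * v k) * R0g g u v b det k j =
      (if i = k then th * R0g g u v b det k j else 0) +
      (if k = j then (u i * u k + v i * v k) * det else 0) -
      ((u i * X) * (u k * u k) + (u i * Y + v i * X) * (u k * v k) + (v i * Y) * (v k * v k)) := by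
    intro k
    rw [hR k]
    split <;> split <;> ring
  rw [Finset.sum_congr rfl fun k _ => e1 k, Finset.sum_sub_distrib, Finset.sum_add_distrib,
    Finset.sum_ite_eq Finset.univ i, Finset.sum_ite_eq' Finset.univ j, Finset.sum_add_distrib,
    Finset.sum_add_distrib, ← Finset.mul_sum, ← Finset.mul_sum, ← Finset.mul_sum]
  simp only [Finset.mem_univ, if_true]
  have ha := hg.ha
  have hd := hg.hd
  have hb := hg.hb
  have hdet := hg.hdet'
  rw [← ha, ← hd] at hdet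
  have su : ∑ k, u k * u k = g.a - th := by rw [ha]; ring
  have sv : ∑ k, v k * v k = g.d - th := by rw [hd]; ring
  rw [su, sv, ← hb, hR i]
  by_cases h : i = j
  · rw [if_pos h, if_pos h, hdet, h, hX, hY]
    ring
  · rw [if_neg h, if_neg h, hdet, hX, hY]
    ring

end

end Pool.Agent.Helper82.FL
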