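import Mathlib
import Pool.Agent.Helper82.FL.RawJ
import Pool.Agent.Helper82.FL.Sound
import Pool.Agent.Helper82.FL.DigK

/-!
# Packing and masks
-/

set_option autoImplicit false
set_option exponentiation.threshold 700

namespace Pool.Agent.Helper82.FL

theorem P639_eq : P639 = 2 ^ 639 := by decide +kernel
theorem P280_eq : P280 = 2 ^ 280 := by decide +kernel
theorem P200_eq : P200 = 2 ^ 200 := by decide +kernel
theorem P80_eq : P80 = 2 ^ 80 := by decide +kernel
theorem P75_eq : P75 = 2 ^ 75 := by decide +kernel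
theorem B2_eq : B2 = B1 ^ 2 := by decide +kernel
theorem B3_eq : B3 = B1 ^ 3 := by decide +kernel
theorem B6_eq : B6 = B1 ^ 6 := by decide +kernel
theorem B7_eq : B7 = B1 ^ 7 := by decide +kernel

/-- packed integers -/
def PZ (f : SC → ℤ) : List SC → ℤ
  | [] => 0
  | a :: l => f a + 2 ^ 640 * PZ f l

theorem shl_eq (x S : ℕ) : Nat.shiftLeft x S = 2 ^ S * x := by
  have : Nat.shiftLeft x S = x <<< S := rfl
  rw [this, Nat.shiftLeft_eq, Nat.mul_comm]

theorem pkS_cons (f : SC → ℕ) (a : SC) (l : List SC) : pkS f (a :: l) = f a + 2 ^ 640 * pkS f l := by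
  have : pkS f (a :: l) = f a + Nat.shiftLeft (pkS f l) 640 := rfl
  rw [this, shl_eq]

theorem pkS_eq (f : SC → ℕ) (l : List SC) : ((pkS f l : ℕ) : ℤ) = PZ (fun x => (f x : ℤ)) l := by
  induction l with
  | nil => rfl
  | cons a l ih =>
    rw [pkS_cons]
    push_cast
    rw [ih]
    rfl

theorem PZ_add (f g : SC → ℤ) (l : List SC) : PZ f l + PZ g l = PZ (fun x => f x + g x) l := by
  induction l with
  | nil => rfl
  | cons a l ih =>
    unfold PZ
    rw [← ih]
    ring

theorem PZ_mul (c : ℤ) (f : SC → ℤ) (l : List SC) : c * PZ f l = PZ (fun x => c * f x) l := by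
  induction l with
  | nil => simp [PZ]
  | cons a l ih =>
    unfold PZ
    rw [← ih]
    ring

theorem PZ_sub (f g : SC → ℤ) (l : List SC) : PZ f l - PZ g l = PZ (fun x => f x - g x) l := by
  have := PZ_mul (-1) g l
  have h2 := PZ_add f (fun x => -1 * g x) l
  rw [← this] at h2
  have e : (fun x => f x - g x) = (fun x => f x + -1 * g x) := by
    funext x
    ring
  rw [e, ← h2]
  ring

theorem PZ_congr {f g : SC → ℤ} {l : List SC} (h : ∀ x ∈ l, f x = g x) : PZ f l = PZ g l := by
  induction l with
  | nil => rfl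
  | cons a l ih =>
    unfold PZ
    rw [h a (by simp), ih fun x hx => h x (by simp [hx])]

theorem step_abs {B T x y : ℤ} (hB : 0 < B) (h1 : |x| < B) (h2 : |y| < T) : |x + B * y| < B * T := by
  rw [abs_lt] at h1 h2 ⊢
  have h4 : y ≤ T - 1 := by omega
  have h5 : -(T - 1) ≤ y := by omega
  have h6 := mul_le_mul_of_nonneg_left h4 hB.le
  have h7 := mul_le_mul_of_nonneg_left h5 hB.le
  constructor <;> nlinarith

theorem step_nonneg {B x y : ℤ} (hB : 0 < B) (h1 : x < B) (h2 : 0 ≤ x + B * y) : 0 ≤ y := by
  by_contra hn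
  have h3 : y ≤ -1 := by omega
  have h4 := mul_le_mul_of_nonneg_left h3 hB.le
  linarith

theorem PZ_bd {f : SC → ℤ} {l : List SC} (h : ∀ x ∈ l, |f x| < 2 ^ 640) :
    |PZ f l| < 2 ^ (640 * l.length) := by
  induction l with
  | nil => simp [PZ]
  | cons a l ih =>
    unfold PZ
    have h1 := h a (by simp)
    have h2 := ih fun x hx => h x (by simp [hx])
    have e : (2 : ℤ) ^ (640 * (a :: l).length) = 2 ^ 640 * 2 ^ (640 * l.length) := by
      rw [List.length_cons, Nat.mul_add, mul_one, pow_add]
      ring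
    rw [e]
    exact step_abs (by positivity) h1 h2

theorem tbS_eq (l : List SC) : tbS l = 2 ^ (640 * l.length) := by
  induction l with
  | nil => rfl
  | cons a l ih =>
    have : tbS (a :: l) = Nat.shiftLeft (tbS l) 640 := rfl
    rw [this, shl_eq, ih, List.length_cons, Nat.mul_add, mul_one, pow_add]
    ring

theorem shS_eq (l : List SC) : shS l = 640 * (l.length + 1) := by
  induction l with
  | nil => rfl
  | cons a l ih =>
    have : shS (a :: l) = 640 + shS l := rfl
    rw [this, ih, List.length_cons]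
    ring

/-- the mask at two blocks -/
theorem land_split {S x y m w : ℕ} (hx : x < 2 ^ S) (hm : m < 2 ^ S)
    (h : Nat.land (x + 2 ^ S * y) (m + 2 ^ S * w) = m + 2 ^ S * w) :
    Nat.land x m = m ∧ Nat.land y w = w := by
  have h' : (2 ^ S * y + x) &&& (2 ^ S * w + m) = 2 ^ S * w + m := by
    rw [Nat.add_comm _ x, Nat.add_comm _ m]
    exact h
  have key : ∀ i, ((2 ^ S * y + x).testBit i && (2 ^ S * w + m).testBit i) =
      (2 ^ S * w + m).testBit i := by
    intro i
    rw [← Nat.testBit_and, h']
  constructor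
  · have : (x &&& m) = m := by
      apply Nat.eq_of_testBit_eq
      intro i
      rw [Nat.testBit_and]
      have := key i
      rw [Nat.testBit_two_pow_mul_add _ hx, Nat.testBit_two_pow_mul_add _ hm] at this
      by_cases hi : i < S
      · simpa [hi] using this
      · have : m.testBit i = false := Nat.testBit_eq_false_of_lt (lt_of_lt_of_le hm
          (Nat.pow_le_pow_right (by norm_num) (by omega)))
        rw [this, Bool.and_false]
    exact this
  · have : (y &&& w) = w := by
      apply Nat.eq_of_testBit_eq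
      intro i
      rw [Nat.testBit_and]
      have := key (i + S)
      rw [Nat.testBit_two_pow_mul_add _ hx, Nat.testBit_two_pow_mul_add _ hm] at this
      have hi : ¬ (i + S < S) := by omega
      simpa [hi] using this
    exact this

/-- the digits of a masked number -/
theorem mask_digits {f : SC → ℤ} {l : List SC} (h : ∀ x ∈ l, 0 ≤ f x ∧ f x < 2 ^ 640) {Y : ℕ} {c : ℤ}
    (hY : (Y : ℤ) = PZ f l + 2 ^ (640 * l.length) * c)
    (hm : Nat.land Y (pkS (fun _ => P639) l) = pkS (fun _ => P639) l) :
    ∀ x ∈ l, 2 ^ 639 ≤ f x := by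
  induction l generalizing Y with
  | nil => intro x hx; exact absurd hx (by simp)
  | cons a l ih =>
    have ha := h a (by simp)
    have e : (2 : ℤ) ^ (640 * (a :: l).length) = 2 ^ 640 * 2 ^ (640 * l.length) := by
      rw [List.length_cons, Nat.mul_add, mul_one, pow_add]
      ring
    rw [e] at hY
    unfold PZ at hY
    obtain ⟨x0, hx0⟩ := Int.eq_ofNat_of_zero_le ha.1
    have h1 : (Y : ℤ) = f a + 2 ^ 640 * (PZ f l + 2 ^ (640 * l.length) * c) := by
      rw [hY]
      ring
    have h2 : 0 ≤ PZ f l + 2 ^ (640 * l.length) * c := by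
      refine step_nonneg (B := 2 ^ 640) (by positivity) ha.2 ?_
      rw [← h1]
      exact Int.natCast_nonneg _
    obtain ⟨y, hy⟩ := Int.eq_ofNat_of_zero_le h2
    have h3 : Y = x0 + 2 ^ 640 * y := by
      have : (Y : ℤ) = (x0 : ℤ) + 2 ^ 640 * (y : ℤ) := by
        rw [h1, hx0, hy]
      exact_mod_cast this
    have hx : x0 < 2 ^ 640 := by
      have := ha.2
      rw [hx0] at this
      exact_mod_cast this
    have hp : P639 < 2 ^ 640 := by
      rw [P639_eq]
      exact Nat.pow_lt_pow_right (by norm_num) (by norm_num)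
    rw [pkS_cons, h3] at hm
    obtain ⟨m1, m2⟩ := land_split hx hp hm
    intro x hxl
    rcases List.mem_cons.mp hxl with rfl | hxl
    · have h4 : Nat.land x0 P639 ≤ x0 := Nat.and_le_left
      rw [m1, P639_eq] at h4
      rw [hx0]
      exact_mod_cast h4
    · exact ih (fun x hx => h x (by simp [hx])) (Y := y) (by rw [← hy]) m2 x hxl

/-- outer packing -/
def YO (S : ℕ) (y : G3 → ℕ) : List G3 → ℕ
  | [] => 0
  | g :: l => y g + 2 ^ S * YO S y l

theorem YO_add (S : ℕ) (y z : G3 → ℕ) (l : List G3) : YO S y l + YO S z l = YO S (fun g => y g + z g) l := by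
  induction l with
  | nil => rfl
  | cons a l ih =>
    unfold YO
    rw [← ih]
    ring

theorem YO_mul (S c : ℕ) (y : G3 → ℕ) (l : List G3) : c * YO S y l = YO S (fun g => c * y g) l := by
  induction l with
  | nil => rfl
  | cons a l ih =>
    unfold YO
    rw [← ih]
    ring

theorem onG_eq (S : ℕ) (l : List G3) : onG S l = YO S (fun _ => 1) l := by
  induction l with
  | nil => rfl
  | cons a l ih =>
    have : onG S (a :: l) = 1 + Nat.shiftLeft (onG S l) S := rfl
    rw [this, shl_eq, ih]
    rfl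

theorem pkO_eq (S : ℕ) (f : VJ → ℕ) (p : GK) (o : JK) (h : Hd) (l : List G3) :
    pkO S f (vjs p o h l) = YO S (fun g => f (vj0 p o h g)) l := by
  induction l with
  | nil => rfl
  | cons a l ih =>
    have : pkO S f (vjs p o h (a :: l)) = f (vj0 p o h a) + Nat.shiftLeft (pkO S f (vjs p o h l)) S := rfl
    rw [this, shl_eq, ih]
    rfl

theorem YO_mask {S m : ℕ} {y : G3 → ℕ} {l : List G3} (hy : ∀ g ∈ l, y g < 2 ^ S) (hm : m < 2 ^ S)
    (h : Nat.land (YO S y l) (YO S (fun _ => m) l) = YO S (fun _ => m) l) :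
    ∀ g ∈ l, Nat.land (y g) m = m := by
  induction l with
  | nil => intro g hg; exact absurd hg (by simp)
  | cons a l ih =>
    unfold YO at h
    obtain ⟨h1, h2⟩ := land_split (hy a (by simp)) hm h
    intro g hg
    rcases List.mem_cons.mp hg with rfl | hg
    · exact h1
    · exact ih (fun g hg => hy g (by simp [hg])) h2 g hg

end Pool.Agent.Helper82.FL
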