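import Mathlib
import Pool.Agent.Helper82.FL.JDig
import Pool.Agent.Helper82.FL.JAlg

/-!
# The digits
-/

set_option autoImplicit false
set_option exponentiation.threshold 700

namespace Pool.Agent.Helper82.FL

open Pool.Agent.Helper28.TT

theorem dig_lt (u a : ℕ) : dig u a < 2 ^ 256 := by
  have h1 : dig u a = (u * a + BI8) % B9 / B8 := rfl
  have h2 : B9 = B8 * B1 := by rw [B9_eq, B8_eq]; ring
  have h3 : 0 < B8 := by decide +kernel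
  have h4 : 0 < B9 := by decide +kernel
  rw [h1, ← B1_eq]
  apply Nat.div_lt_of_lt_mul
  rw [← h2]
  exact Nat.mod_lt _ h4

theorem sdig_lt (u a : ℕ) : sdig u a < 2 ^ 256 := by
  have h1 : sdig u a = (u * a + BI9) % B9 / B8 := rfl
  have h2 : B9 = B8 * B1 := by rw [B9_eq, B8_eq]; ring
  have h4 : 0 < B9 := by decide +kernel
  rw [h1, ← B1_eq]
  apply Nat.div_lt_of_lt_mul
  rw [← h2]
  exact Nat.mod_lt _ h4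

section

variable {u a : ℕ} {u0 u1 u2 u3 u4 u5 u6 u7 u8 a0 a1 a2 a3 a4 a5 a6 a7 a8 : ℤ}

theorem sdig_prod (hu : Rs u (p9 B1 u0 u1 u2 u3 u4 u5 u6 u7 u8))
    (ha : Rs a (p9 B1 a0 a1 a2 a3 a4 a5 a6 a7 a8))
    (b0 : |u0| ≤ 2 ^ 150) (b1 : |u1| ≤ 2 ^ 150) (b2 : |u2| ≤ 2 ^ 150) (b3 : |u3| ≤ 2 ^ 150)
    (b4 : |u4| ≤ 2 ^ 150) (b5 : |u5| ≤ 2 ^ 150) (b6 : |u6| ≤ 2 ^ 150) (b7 : |u7| ≤ 2 ^ 150)
    (c0 : |a0| ≤ 2 ^ 100) (c1 : |a1| ≤ 2 ^ 100) (c2 : |a2| ≤ 2 ^ 100) (c3 : |a3| ≤ 2 ^ 100)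
    (c4 : |a4| ≤ 2 ^ 100) (c5 : |a5| ≤ 2 ^ 100) (c6 : |a6| ≤ 2 ^ 100) (c7 : |a7| ≤ 2 ^ 100)
    (T : ℤ) (hT : T = u0 * a8 + u1 * a7 + u2 * a6 + u3 * a5 + u4 * a4 + u5 * a3 + u6 * a2 + u7 * a1 +
      u8 * a0) (hb : |T| ≤ 2 ^ 254) : (sdig u a : ℤ) = T + 2 ^ 255 := by
  have key := prod_top hu ha b0 b1 b2 b3 b4 b5 b6 b7 c0 c1 c2 c3 c4 c5 c6 c7 T hT (2 ^ 255)
    (sh hb (by norm_num))
  have e : ((sdig u a : ℕ) : ℤ) = ((u : ℤ) * a + (2 ^ 255 * (1 + (B1 : ℤ) + B1 ^ 2 + B1 ^ 3 + B1 ^ 4 +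
      B1 ^ 5 + B1 ^ 6 + B1 ^ 7) + 2 ^ 255 * B1 ^ 8)) % (B1 : ℤ) ^ 9 / B1 ^ 8 := by
    have : sdig u a = (u * a + BI9) % B9 / B8 := rfl
    rw [this, BI9_eq, B9_eq, B8_eq]
    push_cast
    congr 2
  rw [e, key]

end

theorem m20 {x y : ℤ} (hx : |x| ≤ 2 ^ 74) (hy : |y| ≤ 2 ^ 56) : |x * y| ≤ 2 ^ 130 := by
  have := bd_mul hx hy
  rw [← pow_add] at this
  exact this

/-- a row times the dual -/
theorem sdig_row {x U8 : ℕ} {g0 g1 g2 v0 v1 v2 : ℤ} (hx : Rs x (g0 + g1 * B1 + g2 * B1 ^ 2))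
    (hU : Rs U8 (v0 * B1 ^ 8 + (v1 * B1 ^ 7 + v2 * B1 ^ 6))) (hg0 : |g0| ≤ 2 ^ 74)
    (hg1 : |g1| ≤ 2 ^ 74) (hg2 : |g2| ≤ 2 ^ 74) (h0 : |v0| ≤ 2 ^ 56) (h1 : |v1| ≤ 2 ^ 56)
    (h2 : |v2| ≤ 2 ^ 56) : (sdig x U8 : ℤ) = (g0 * v0 + g1 * v1 + g2 * v2) + 2 ^ 255 := by
  have o1 : |(0 : ℤ)| ≤ 2 ^ 150 := by norm_num
  have o0 : |(0 : ℤ)| ≤ 2 ^ 100 := by norm_num
  have k : ∀ {y : ℤ}, |y| ≤ 2 ^ 74 → |y| ≤ 2 ^ 150 := fun h => h.trans (by norm_num)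
  have k' : ∀ {y : ℤ}, |y| ≤ 2 ^ 56 → |y| ≤ 2 ^ 100 := fun h => h.trans (by norm_num)
  refine sdig_prod (u0 := g0) (u1 := g1) (u2 := g2) (u3 := 0) (u4 := 0) (u5 := 0) (u6 := 0) (u7 := 0)
    (u8 := 0) (a0 := 0) (a1 := 0) (a2 := 0) (a3 := 0) (a4 := 0) (a5 := 0) (a6 := v2) (a7 := v1) (a8 := v0)
    (hx.congr (by unfold p9; ring)) (hU.congr (by unfold p9; ring)) (k hg0) (k hg1) (k hg2) o1 o1 o1 o1 o1
    o0 o0 o0 o0 o0 o0 (k' h2) (k' h1) _ (by ring) ?_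
  refine (bd_add (bd_add (m20 hg0 h0) (m20 hg1 h1)) (m20 hg2 h2)).trans ?_
  norm_num

/-- a row times a symmetric matrix times the dual -/
theorem sdig_lin {x Uy b : ℕ} {h0 h1 h2 v0 v1 v2 : ℤ} {B : S3} (hx : Rs x (h0 + h1 * B1 + h2 * B1 ^ 2))
    (hU : Rs Uy (v0 + (v1 * B1 ^ 3 + v2 * B1 ^ 6))) (hb : Rs b (pS B)) (hB : S3bd B (2 ^ 97))
    (b0 : |h0| ≤ 2 ^ 74) (b1 : |h1| ≤ 2 ^ 74) (b2 : |h2| ≤ 2 ^ 74) (e0 : |v0| ≤ 2 ^ 56)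
    (e1 : |v1| ≤ 2 ^ 56) (e2 : |v2| ≤ 2 ^ 56) :
    (sdig (Nat.mod (Nat.mul x Uy) B9) b : ℤ) = nI B h0 h1 h2 v0 v1 v2 + 2 ^ 255 := by
  obtain ⟨c1, c2, c3, c4, c5, c6⟩ := hB
  have k : ∀ {y : ℤ}, |y| ≤ 2 ^ 130 → |y| ≤ 2 ^ 150 := fun h => h.trans (by norm_num)
  have k' : ∀ {y : ℤ}, |y| ≤ 2 ^ 97 → |y| ≤ 2 ^ 100 := fun h => h.trans (by norm_num)
  have hR : Rs (Nat.mod (Nat.mul x Uy) B9) (p9 B1 (h0 * v0) (h1 * v0) (h2 * v0) (h0 * v1) (h1 * v1)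
      (h2 * v1) (h0 * v2) (h1 * v2) (h2 * v2)) := by
    refine Rs.congr ((hx.mul hU).mod) ?_
    unfold p9
    ring
  unfold pS at hb
  refine sdig_prod hR hb (k (m20 b0 e0)) (k (m20 b1 e0)) (k (m20 b2 e0)) (k (m20 b0 e1))
    (k (m20 b1 e1)) (k (m20 b2 e1)) (k (m20 b0 e2)) (k (m20 b1 e2)) (k' c3) (k' c6) (k' c5) (k' c6)
    (k' c2) (k' c4) (k' c5) (k' c4) _ (by unfold nI; ring) ?_
  have N : ∀ {p q r : ℤ}, |p| ≤ 2 ^ 130 → |q| ≤ 2 ^ 97 → |p * q| ≤ 2 ^ 227 := by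
    intro p q r hp hq
    have := bd_mul hp hq
    rw [← pow_add] at this
    exact this
  have t := bd_add (bd_add (bd_add (bd_add (bd_add (bd_add (bd_add (bd_add
    (N (r := 0) (m20 b0 e0) c1) (N (r := 0) (m20 b0 e1) c4)) (N (r := 0) (m20 b0 e2) c5))
    (N (r := 0) (m20 b1 e0) c4)) (N (r := 0) (m20 b1 e1) c2)) (N (r := 0) (m20 b1 e2) c6))
    (N (r := 0) (m20 b2 e0) c5)) (N (r := 0) (m20 b2 e1) c6)) (N (r := 0) (m20 b2 e2) c3)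
  refine le_trans (le_of_eq ?_) (t.trans (by norm_num))
  congr 1
  unfold nI
  ring

theorem uuU_spec {u0 u1 u2 : ℕ} {v0 v1 v2 : ℤ} (h0 : Rs u0 v0) (h1 : Rs u1 v1) (h2 : Rs u2 v2) :
    Rs (uuU u0 u1 u2) (pT (uM v0 v1 v2) (uM v0 v1 v2)) := by
  have e1 : Rs B1 (B1 : ℤ) := Rs.refl _
  have e2 : Rs B2 ((B1 : ℤ) ^ 2) := by
    have := Rs.refl B2
    rw [B2_eq] at this ⊢
    exact this.congr (by push_cast; rfl)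
  have e3 : Rs B3 ((B1 : ℤ) ^ 3) := by
    have := Rs.refl B3
    rw [B3_eq] at this ⊢
    exact this.congr (by push_cast; rfl)
  have e6 : Rs B6 ((B1 : ℤ) ^ 6) := by
    have := Rs.refl B6
    rw [B6_eq] at this ⊢
    exact this.congr (by push_cast; rfl)
  refine Rs.congr ((h0.add ((h1.mul e1).add (h2.mul e2))).mul
    (h0.add ((h1.mul e3).add (h2.mul e6)))).mod ?_
  unfold pT uM p9
  ring

theorem Uy_spec {u0 u1 u2 : ℕ} {v0 v1 v2 : ℤ} (h0 : Rs u0 v0) (h1 : Rs u1 v1) (h2 : Rs u2 v2) :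
    Rs (Nat.mod (Nat.add u0 (Nat.add (Nat.mul u1 B3) (Nat.mul u2 B6))) B9)
      (v0 + (v1 * B1 ^ 3 + v2 * B1 ^ 6)) := by
  have e3 : Rs B3 ((B1 : ℤ) ^ 3) := by
    have := Rs.refl B3
    rw [B3_eq] at this ⊢
    exact this.congr (by push_cast; rfl)
  have e6 : Rs B6 ((B1 : ℤ) ^ 6) := by
    have := Rs.refl B6
    rw [B6_eq] at this ⊢
    exact this.congr (by push_cast; rfl)
  exact (h0.add ((h1.mul e3).add (h2.mul e6))).mod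

theorem U8_spec {u0 u1 u2 : ℕ} {v0 v1 v2 : ℤ} (h0 : Rs u0 v0) (h1 : Rs u1 v1) (h2 : Rs u2 v2) :
    Rs (Nat.mod (Nat.add (Nat.mul u0 B8) (Nat.add (Nat.mul u1 B7) (Nat.mul u2 B6))) B9)
      (v0 * B1 ^ 8 + (v1 * B1 ^ 7 + v2 * B1 ^ 6)) := by
  have e8 : Rs B8 ((B1 : ℤ) ^ 8) := by
    have := Rs.refl B8
    rw [B8_eq] at this ⊢
    exact this.congr (by push_cast; rfl)
  have e7 : Rs B7 ((B1 : ℤ) ^ 7) := by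
    have := Rs.refl B7
    rw [B7_eq] at this ⊢
    exact this.congr (by push_cast; rfl)
  have e6 : Rs B6 ((B1 : ℤ) ^ 6) := by
    have := Rs.refl B6
    rw [B6_eq] at this ⊢
    exact this.congr (by push_cast; rfl)
  exact ((h0.mul e8).add ((h1.mul e7).add (h2.mul e6))).mod

theorem uM_bd {v0 v1 v2 : ℤ} (e0 : |v0| ≤ 2 ^ 56) (e1 : |v1| ≤ 2 ^ 56) (e2 : |v2| ≤ 2 ^ 56) :
    M3bd (uM v0 v1 v2) (2 ^ 74) := by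
  have k' : ∀ {y : ℤ}, |y| ≤ 2 ^ 56 → |y| ≤ 2 ^ 74 := fun h => h.trans (by norm_num)
  have o0 : |(0 : ℤ)| ≤ 2 ^ 74 := by norm_num
  exact ⟨k' e0, k' e1, k' e2, o0, o0, o0, o0, o0, o0⟩

/-- the numbers of a vertex -/
theorem w_spec {h : Hd} {l : T3} {rho : ℤ} (hl : HdOK h l rho) {g : G3} (h0 : g.g0 ≤ 2 ^ 52)
    (h1 : g.g1 ≤ 2 ^ 52) (h2 : g.g2 ≤ 2 ^ 52) :
    ((Nat.mod (Nat.add (r0 h.a h.d h.e g.g0 g.g1 g.g2) P75) B9 : ℕ) : ℤ) =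
      wA l g.g0 g.g1 g.g2 + 2 ^ 75 ∧
    ((Nat.mod (Nat.add (r1 h.b h.f g.g1 g.g2) P75) B9 : ℕ) : ℤ) = wB l g.g1 g.g2 + 2 ^ 75 ∧
    ((Nat.mod (Nat.add (Nat.mul h.c g.g2) P75) B9 : ℕ) : ℤ) = wC l g.g2 + 2 ^ 75 ∧
    |wA l g.g0 g.g1 g.g2| ≤ 2 ^ 74 ∧ |wB l g.g1 g.g2| ≤ 2 ^ 74 ∧ |wC l g.g2| ≤ 2 ^ 74 := by
  have c0 : |(g.g0 : ℤ)| ≤ 2 ^ 52 := by
    rw [abs_of_nonneg (Int.natCast_nonneg _)]
    exact_mod_cast h0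
  have c1 : |(g.g1 : ℤ)| ≤ 2 ^ 52 := by
    rw [abs_of_nonneg (Int.natCast_nonneg _)]
    exact_mod_cast h1
  have c2 : |(g.g2 : ℤ)| ≤ 2 ^ 52 := by
    rw [abs_of_nonneg (Int.natCast_nonneg _)]
    exact_mod_cast h2
  have a1 : |wA l g.g0 g.g1 g.g2| ≤ 2 ^ 74 := by
    unfold wA
    refine (bd_add (bd_add (bd_mul hl.ba c0) (bd_mul hl.bd c1)) (bd_mul hl.be c2)).trans ?_
    norm_num
  have a2 : |wB l g.g1 g.g2| ≤ 2 ^ 74 := by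
    unfold wB
    refine (bd_add (bd_mul hl.bb c1) (bd_mul hl.bf c2)).trans ?_
    norm_num
  have a3 : |wC l g.g2| ≤ 2 ^ 74 := by
    unfold wC
    refine (bd_mul hl.bc c2).trans ?_
    norm_num
  have e75 : Rs P75 (2 ^ 75) := by
    have := Rs.refl P75
    rw [P75_eq] at this ⊢
    exact this.congr (by norm_num)
  have big : (2 : ℤ) ^ 256 ≤ (B1 : ℤ) ^ 9 := by
    have h7 : (B1 : ℤ) ^ 1 ≤ (B1 : ℤ) ^ 9 := by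
      apply pow_le_pow_right₀ _ (by norm_num)
      have := B1_pos
      linarith
    rw [pow_one] at h7
    rw [← B1_int]
    exact h7
  have rng : ∀ {z : ℤ}, |z| ≤ 2 ^ 74 → 0 ≤ z + 2 ^ 75 ∧ z + 2 ^ 75 < (B1 : ℤ) ^ 9 := by
    intro z hz
    have z1 := (abs_le.mp hz).1
    have z2 := (abs_le.mp hz).2
    have e : (2 : ℤ) ^ 75 = 2 ^ 74 + 2 ^ 74 := by norm_num
    have e2 : (2 : ℤ) ^ 74 + 2 ^ 75 < 2 ^ 256 := by norm_num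
    constructor <;> linarith
  have s0 : Rs g.g0 (g.g0 : ℤ) := Rs.refl _
  have s1 : Rs g.g1 (g.g1 : ℤ) := Rs.refl _
  have s2 : Rs g.g2 (g.g2 : ℤ) := Rs.refl _
  refine ⟨?_, ?_, ?_, a1, a2, a3⟩
  · refine Rs.val (Rs.congr ((((hl.res.a.mul s0).add (hl.res.d.mul s1)).add (hl.res.e.mul s2)).add e75)
      (by unfold wA; ring)) (rng a1).1 (rng a1).2
  · refine Rs.val (Rs.congr (((hl.res.b.mul s1).add (hl.res.f.mul s2)).add e75)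
      (by unfold wB; ring)) (rng a2).1 (rng a2).2
  · refine Rs.val (Rs.congr ((hl.res.c.mul s2).add e75) rfl) (rng a3).1 (rng a3).2

end Pool.Agent.Helper82.FL
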