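import Mathlib
import Pool.Agent.Helper82.FL.JRes

/-!
# The packed numbers
-/

set_option autoImplicit false
set_option exponentiation.threshold 700

namespace Pool.Agent.Helper82.FL

open Pool.Agent.Helper28.TT

/-- bounded numbers -/
structure SB (x : SC) : Prop where
  t2 : x.t2 = 2 * x.tt
  kd : x.kd ≤ 2 ^ 280
  tk : x.tk ≤ 2 ^ 280
  tt : x.tt ≤ 2 ^ 128

/-- the common numbers -/
structure GKOK (l : List SC) (UU : ℕ) (p : GK) : Prop where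
  Tp : p.Tp = pkS SC.tk l
  T2 : p.T2 = 2 * p.Tp
  Gp : p.Gp = (p.Tp + pkS SC.tt l) * B1
  Th : p.Th = pkS (fun x => x.tt * dig UU x.v.b) l
  Th2 : p.Th2 = 2 * p.Th
  MK : p.MK = pkS (fun _ => P639) l
  TB : p.TB = 2 ^ (640 * l.length)
  BG : p.BG = 2 ^ 80 * p.TB
  S : p.S = 640 * (l.length + 1)

theorem nmul (a b : ℕ) : Nat.mul a b = a * b := rfl

theorem nadd (a b : ℕ) : Nat.add a b = a + b := rfl

/-- the record of the common numbers -/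
noncomputable def gkR (l : List SC) (UU : ℕ) : GK :=
  GK.mk (pkS SC.tk l) (Nat.mul 2 (pkS SC.tk l)) (Nat.mul (Nat.add (pkS SC.tk l) (pkS SC.tt l)) B1)
    (pkS (fun x => Nat.mul x.tt (dig UU x.v.b)) l)
    (Nat.mul 2 (pkS (fun x => Nat.mul x.tt (dig UU x.v.b)) l)) (pkS (fun _ => P639) l) (tbS l)
    (Nat.mul P80 (tbS l)) (shS l)

/-- not a definitional lemma for the simplifier -/
theorem frc_pe {β : Type} (x : ℕ) (k : ℕ → β) : frc x k = k x := by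
  cases x <;> rfl

theorem gk1_eq (l : List SC) (UU : ℕ) (k : GK → Bool) : gk1 l UU k = k (gkR l UU) := by
  unfold gk1 gkR
  rw [frc_pe, frc_pe, frc_pe, frc_pe, frc_pe, frc_pe, frc_pe, frc_pe, frc_pe]

theorem gkR_Tp (l : List SC) (UU : ℕ) : (gkR l UU).Tp = pkS SC.tk l := rfl
theorem gkR_T2 (l : List SC) (UU : ℕ) : (gkR l UU).T2 = Nat.mul 2 (pkS SC.tk l) := rfl
theorem gkR_Gp (l : List SC) (UU : ℕ) :
    (gkR l UU).Gp = Nat.mul (Nat.add (pkS SC.tk l) (pkS SC.tt l)) B1 := rfl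
theorem gkR_Th (l : List SC) (UU : ℕ) :
    (gkR l UU).Th = pkS (fun x => Nat.mul x.tt (dig UU x.v.b)) l := rfl
theorem gkR_Th2 (l : List SC) (UU : ℕ) :
    (gkR l UU).Th2 = Nat.mul 2 (pkS (fun x => Nat.mul x.tt (dig UU x.v.b)) l) := rfl
theorem gkR_MK (l : List SC) (UU : ℕ) : (gkR l UU).MK = pkS (fun _ => P639) l := rfl
theorem gkR_TB (l : List SC) (UU : ℕ) : (gkR l UU).TB = tbS l := rfl
theorem gkR_BG (l : List SC) (UU : ℕ) : (gkR l UU).BG = Nat.mul P80 (tbS l) := rfl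
theorem gkR_S (l : List SC) (UU : ℕ) : (gkR l UU).S = shS l := rfl

theorem gkR_ok (l : List SC) (UU : ℕ) : GKOK l UU (gkR l UU) where
  Tp := gkR_Tp l UU
  T2 := by rw [gkR_T2, gkR_Tp, nmul]
  Gp := by rw [gkR_Gp, gkR_Tp, nmul, nadd]
  Th := by
    rw [gkR_Th]
    congr 1
  Th2 := by rw [gkR_Th2, gkR_Th, nmul]
  MK := gkR_MK l UU
  TB := by rw [gkR_TB, tbS_eq]
  BG := by rw [gkR_BG, gkR_TB, nmul, P80_eq]
  S := by rw [gkR_S, shS_eq]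

theorem off_bd {c : ℕ} (h : c < 2 ^ 256) : |(c : ℤ) - 2 ^ 255| ≤ 2 ^ 255 := by
  have h1 : (c : ℤ) < 2 ^ 256 := by exact_mod_cast h
  have h2 : (0 : ℤ) ≤ c := Int.natCast_nonneg _
  have e : (2 : ℤ) ^ 256 = 2 ^ 255 + 2 ^ 255 := by norm_num
  rw [abs_le]
  constructor <;> linarith

theorem nat_bd {c N : ℕ} (h : c ≤ N) : |(c : ℤ)| ≤ N := by
  rw [abs_of_nonneg (Int.natCast_nonneg _)]
  exact_mod_cast h

theorem nat_bdp {c n : ℕ} (h : c ≤ 2 ^ n) : |(c : ℤ)| ≤ 2 ^ n := by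
  have := nat_bd h
  push_cast at this
  exact this

/-- the linear part -/
def Lf (C R : ℕ) (x : SC) : ℤ :=
  2 * (x.tk : ℤ) * ((C : ℤ) - 2 ^ 255) + 2 * (x.tt : ℤ) * ((sdig R x.v.b : ℤ) - 2 ^ 255)

theorem Lf_bd {C R : ℕ} (hC : C < 2 ^ 256) {x : SC} (hx : SB x) : |Lf C R x| ≤ 2 ^ 537 := by
  unfold Lf
  have h1 := nat_bdp hx.tk
  have h2 := nat_bdp hx.tt
  have h3 : |(2 : ℤ)| ≤ 2 := by norm_num
  refine (bd_add (bd_mul (bd_mul h3 h1) (off_bd hC)) (bd_mul (bd_mul h3 h2)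
    (off_bd (sdig_lt R x.v.b)))).trans ?_
  norm_num

variable {l : List SC} {UU : ℕ} {p : GK}

theorem TBpos (hp : GKOK l UU p) : (0 : ℤ) < p.TB := by
  rw [hp.TB]
  push_cast
  positivity

theorem TBint (hp : GKOK l UU p) : (p.TB : ℤ) = 2 ^ (640 * l.length) := by
  rw [hp.TB]
  push_cast
  rfl

theorem PZ_bdT (hp : GKOK l UU p) {f : SC → ℤ} (h : ∀ x ∈ l, |f x| < 2 ^ 640) : |PZ f l| < p.TB := by
  rw [TBint hp]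
  exact PZ_bd h

theorem Gp_int (hp : GKOK l UU p) :
    (p.Gp : ℤ) = PZ (fun x => ((x.tk : ℤ) + x.tt) * 2 ^ 256) l := by
  rw [hp.Gp, hp.Tp]
  push_cast
  rw [pkS_eq, pkS_eq, PZ_add, mul_comm, PZ_mul, B1_int]
  refine PZ_congr fun x _ => ?_
  ring

theorem fQj_spec (hp : GKOK l UU p) (hl : ∀ x ∈ l, SB x) (C R : ℕ) :
    (fQj l p C R : ℤ) = p.TB + PZ (Lf C R) l := by
  have h1 : p.Gp ≤ p.TB + (p.T2 * C + pkS (fLj R) l) := by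
    have h2 : |PZ (fun x => ((x.tk : ℤ) + x.tt) * 2 ^ 256) l| < p.TB := by
      refine PZ_bdT hp fun x hx => ?_
      have hx := hl x hx
      refine lt_of_le_of_lt (bd_mul (bd_add (nat_bdp hx.tk) (nat_bdp hx.tt))
        (le_of_eq (abs_of_pos (by norm_num)))) ?_
      norm_num
    rw [← Gp_int hp] at h2
    have h3 := (abs_lt.mp h2).2
    have h4 : p.Gp < p.TB := by exact_mod_cast h3
    omega
  have e : fQj l p C R = (p.TB + (p.T2 * C + pkS (fLj R) l)) - p.Gp := rfl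
  rw [e, Nat.cast_sub h1]
  push_cast
  rw [Gp_int hp, hp.T2, hp.Tp]
  push_cast
  rw [pkS_eq, pkS_eq]
  have e1 : 2 * PZ (fun x => (x.tk : ℤ)) l * (C : ℤ) = PZ (fun x => 2 * (C : ℤ) * x.tk) l := by
    rw [← PZ_mul]
    ring
  rw [e1, PZ_add, add_sub_assoc, PZ_sub]
  congr 1
  refine PZ_congr fun x hx => ?_
  have hx := hl x hx
  have e2 : ((fLj R x : ℕ) : ℤ) = (x.t2 : ℤ) * sdig R x.v.b := by
    unfold fLj
    push_cast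
    rfl
  rw [e2, hx.t2]
  unfold Lf
  push_cast
  ring

theorem fNg_bd {x : SC} (hx : SB x) (U W : ℕ) : |(fNg U W x : ℤ)| ≤ 2 ^ 537 := by
  have e2 : ((fNg U W x : ℕ) : ℤ) = (x.kd : ℤ) * dig U x.v.a + (x.tt : ℤ) * dig W x.v.b := by
    unfold fNg
    push_cast
    rfl
  rw [e2]
  refine (bd_add (bd_mul (nat_bdp hx.kd) (nat_bdp (dig_lt U x.v.a).le)) (bd_mul (nat_bdp hx.tt)
    (nat_bdp (dig_lt W x.v.b).le))).trans ?_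
  norm_num

theorem fZj_spec (hp : GKOK l UU p) (hl : ∀ x ∈ l, SB x) (U W E0 : ℕ) :
    (fZj l p U W E0 : ℤ) = p.BG + p.TB + PZ (fun x => (P639 : ℤ) + ((x.tk : ℤ) * E0 - fNg U W x)) l ∧
      p.BG ≤ fZj l p U W E0 := by
  have h2 : |PZ (fun x => (fNg U W x : ℤ)) l| < p.TB :=
    PZ_bdT hp fun x hx => lt_of_le_of_lt (fNg_bd (hl x hx) U W) (by norm_num)
  rw [← pkS_eq] at h2
  have h3 := (abs_lt.mp h2).2
  have h4 : pkS (fNg U W) l < p.TB := by exact_mod_cast h3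
  have e : fZj l p U W E0 = (p.BG + (p.TB + p.MK) + p.Tp * E0) - pkS (fNg U W) l := rfl
  constructor
  · rw [e, Nat.cast_sub (by omega)]
    push_cast
    rw [pkS_eq, hp.MK, hp.Tp, pkS_eq, pkS_eq]
    have e1 : PZ (fun x => (x.tk : ℤ)) l * (E0 : ℤ) = PZ (fun x => (E0 : ℤ) * x.tk) l := by
      rw [← PZ_mul]
      ring
    have e3 : (p.BG : ℤ) + (p.TB + PZ (fun _ => (P639 : ℤ)) l) + PZ (fun x => (x.tk : ℤ)) l * (E0 : ℤ) -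
        PZ (fun x => (fNg U W x : ℤ)) l = p.BG + p.TB + (PZ (fun _ => (P639 : ℤ)) l +
        (PZ (fun x => (x.tk : ℤ)) l * (E0 : ℤ) - PZ (fun x => (fNg U W x : ℤ)) l)) := by ring
    rw [e3, e1, PZ_sub, PZ_add]
    congr 1
    refine PZ_congr fun x _ => ?_
    ring
  · rw [e]
    omega

/-- the vertex: `w' ≤ 2 ^ 76` -/
theorem th_bd {x : SC} (hx : SB x) (UU : ℕ) {c : ℤ} (hc : |c| ≤ 2 ^ 160) :
    |c * ((x.tt : ℤ) * dig UU x.v.b)| ≤ 2 ^ 544 := by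
  refine (bd_mul hc (bd_mul (nat_bdp hx.tt) (nat_bdp (dig_lt UU x.v.b).le))).trans ?_
  norm_num

/-- the value at a corner -/
def XX (UU U W E0 C0 C1 C2 R0 R1 R2 : ℕ) (d0 d1 d2 : ℤ) (x : SC) : ℤ :=
  (x.tk : ℤ) * E0 - fNg U W x - (d0 * Lf C0 R0 x + d1 * Lf C1 R1 x + d2 * Lf C2 R2 x) -
    (d0 ^ 2 + d1 ^ 2 + d2 ^ 2) * ((x.tt : ℤ) * dig UU x.v.b)

theorem XX_bd {x : SC} (hx : SB x) {UU U W E0 C0 C1 C2 R0 R1 R2 : ℕ} {d0 d1 d2 : ℤ}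
    (hE : E0 ≤ 2 ^ 200) (h0 : C0 < 2 ^ 256) (h1 : C1 < 2 ^ 256) (h2 : C2 < 2 ^ 256)
    (b0 : |d0| ≤ 2 ^ 77) (b1 : |d1| ≤ 2 ^ 77) (b2 : |d2| ≤ 2 ^ 77) :
    |XX UU U W E0 C0 C1 C2 R0 R1 R2 d0 d1 d2 x| ≤ 2 ^ 620 := by
  unfold XX
  have n : ∀ {z N : ℤ}, |z| ≤ N → |-z| ≤ N := fun h => by rwa [abs_neg]
  have hsq : |d0 ^ 2 + d1 ^ 2 + d2 ^ 2| ≤ 2 ^ 160 := by
    rw [sq, sq, sq]
    refine (bd_add (bd_add (bd_mul b0 b0) (bd_mul b1 b1)) (bd_mul b2 b2)).trans ?_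
    norm_num
  rw [sub_eq_add_neg, sub_eq_add_neg, sub_eq_add_neg]
  refine (bd_add (bd_add (bd_add (bd_mul (nat_bdp hx.tk) (nat_bdp hE)) (n (fNg_bd hx U W)))
    (n (bd_add (bd_add (bd_mul b0 (Lf_bd h0 hx)) (bd_mul b1 (Lf_bd h1 hx))) (bd_mul b2 (Lf_bd h2 hx)))))
    (n (th_bd hx UU hsq))).trans ?_
  norm_num

section pair

variable (hp : GKOK l UU p) (hl : ∀ x ∈ l, SB x) (U W E0 C0 C1 C2 R0 R1 R2 : ℕ)

/-- the product with the packed linear parts -/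
noncomputable def wqN (l : List SC) (p : GK) (C0 C1 C2 R0 R1 R2 w0 w1 w2 : ℕ) : ℕ :=
  w0 * fQj l p C0 R0 + (w1 * fQj l p C1 R1 + w2 * fQj l p C2 R2)

def nPN (p : GK) (w0 w1 w2 : ℕ) : ℕ := (w0 * w0 + (w1 * w1 + w2 * w2)) * p.Th

include hp hl

theorem wqN_int (w0 w1 w2 : ℕ) : (wqN l p C0 C1 C2 R0 R1 R2 w0 w1 w2 : ℤ) =
    (w0 + w1 + w2) * p.TB + PZ (fun x => w0 * Lf C0 R0 x + w1 * Lf C1 R1 x + w2 * Lf C2 R2 x) l := by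
  unfold wqN
  push_cast
  rw [fQj_spec hp hl, fQj_spec hp hl, fQj_spec hp hl]
  rw [← PZ_add, ← PZ_add, ← PZ_mul, ← PZ_mul, ← PZ_mul]
  ring

omit hl in
theorem Th_int : (p.Th : ℤ) = PZ (fun x => (x.tt : ℤ) * dig UU x.v.b) l := by
  rw [hp.Th, pkS_eq]
  refine PZ_congr fun x _ => ?_
  push_cast
  rfl

omit hl in
theorem nPN_int (w0 w1 w2 : ℕ) : (nPN p w0 w1 w2 : ℤ) =
    PZ (fun x => ((w0 : ℤ) ^ 2 + (w1 : ℤ) ^ 2 + (w2 : ℤ) ^ 2) * ((x.tt : ℤ) * dig UU x.v.b)) l := by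
  unfold nPN
  push_cast
  rw [Th_int hp, ← PZ_mul]
  ring

theorem wq_le (h0 : C0 < 2 ^ 256) (h1 : C1 < 2 ^ 256) (h2 : C2 < 2 ^ 256) {w0 w1 w2 : ℕ}
    (b0 : w0 ≤ 2 ^ 76) (b1 : w1 ≤ 2 ^ 76) (b2 : w2 ≤ 2 ^ 76) :
    wqN l p C0 C1 C2 R0 R1 R2 w0 w1 w2 ≤ 2 ^ 79 * p.TB := by
  have h3 : |PZ (fun x => w0 * Lf C0 R0 x + w1 * Lf C1 R1 x + w2 * Lf C2 R2 x) l| < p.TB := by
    refine PZ_bdT hp fun x hx => ?_
    have hx := hl x hx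
    refine lt_of_le_of_lt (bd_add (bd_add (bd_mul (nat_bdp b0) (Lf_bd h0 hx))
      (bd_mul (nat_bdp b1) (Lf_bd h1 hx))) (bd_mul (nat_bdp b2) (Lf_bd h2 hx))) ?_
    norm_num
  have h4 := wqN_int hp hl C0 C1 C2 R0 R1 R2 w0 w1 w2
  have h5 := (abs_lt.mp h3).2
  have h6 : ((w0 : ℤ) + w1 + w2) * p.TB ≤ (3 * 2 ^ 76) * p.TB := by
    refine mul_le_mul_of_nonneg_right ?_ (TBpos hp).le
    have c0 : (w0 : ℤ) ≤ 2 ^ 76 := by exact_mod_cast b0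
    have c1 : (w1 : ℤ) ≤ 2 ^ 76 := by exact_mod_cast b1
    have c2 : (w2 : ℤ) ≤ 2 ^ 76 := by exact_mod_cast b2
    linarith
  have h7 : (wqN l p C0 C1 C2 R0 R1 R2 w0 w1 w2 : ℤ) ≤ 2 ^ 79 * p.TB := by
    rw [h4]
    have := TBpos hp
    nlinarith
  exact_mod_cast h7

theorem nP_lt {w0 w1 w2 : ℕ} (b0 : w0 ≤ 2 ^ 76) (b1 : w1 ≤ 2 ^ 76) (b2 : w2 ≤ 2 ^ 76) :
    nPN p w0 w1 w2 < p.TB := by
  have h3 : |PZ (fun x => ((w0 : ℤ) ^ 2 + (w1 : ℤ) ^ 2 + (w2 : ℤ) ^ 2) * ((x.tt : ℤ) * dig UU x.v.b)) l| <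
      p.TB := by
    refine PZ_bdT hp fun x hx => ?_
    refine lt_of_le_of_lt (th_bd (hl x hx) UU ?_) (by norm_num)
    rw [sq, sq, sq]
    refine (bd_add (bd_add (bd_mul (nat_bdp b0) (nat_bdp b0)) (bd_mul (nat_bdp b1) (nat_bdp b1)))
      (bd_mul (nat_bdp b2) (nat_bdp b2))).trans ?_
    norm_num
  rw [← nPN_int hp] at h3
  have := (abs_lt.mp h3).2
  exact_mod_cast this

/-- the packed number of a pair -/
theorem y_int (hE : E0 ≤ 2 ^ 200) (h0 : C0 < 2 ^ 256) (h1 : C1 < 2 ^ 256) (h2 : C2 < 2 ^ 256)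
    {a0 a1 a2 b0 b1 b2 : ℕ} (ba0 : a0 ≤ 2 ^ 76) (ba1 : a1 ≤ 2 ^ 76) (ba2 : a2 ≤ 2 ^ 76)
    (bb0 : b0 ≤ 2 ^ 76) (bb1 : b1 ≤ 2 ^ 76) (bb2 : b2 ≤ 2 ^ 76) {Y : ℕ}
    (hY : Y = (fZj l p U W E0 - (wqN l p C0 C1 C2 R0 R1 R2 a0 a1 a2 + nPN p a0 a1 a2)) +
      ((p.BG + wqN l p C0 C1 C2 R0 R1 R2 b0 b1 b2) - nPN p b0 b1 b2) +
      p.Th2 * (a0 * b0 + (a1 * b1 + a2 * b2))) :
    (Y : ℤ) = PZ (fun x => (P639 : ℤ) + XX UU U W E0 C0 C1 C2 R0 R1 R2 ((a0 : ℤ) - b0) ((a1 : ℤ) - b1)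
      ((a2 : ℤ) - b2) x) l + p.TB * (2 * 2 ^ 80 + 1 + ((b0 : ℤ) + b1 + b2) - ((a0 : ℤ) + a1 + a2)) := by
  obtain ⟨z1, z2⟩ := fZj_spec hp hl U W E0
  have q1 := wq_le hp hl C0 C1 C2 R0 R1 R2 h0 h1 h2 ba0 ba1 ba2
  have n1 := nP_lt hp hl ba0 ba1 ba2
  have n2 := nP_lt hp hl bb0 bb1 bb2
  have hT : 0 < p.TB := by exact_mod_cast TBpos hp
  have hBG := hp.BG
  have e79 : (2 : ℕ) ^ 80 = 2 ^ 79 + 2 ^ 79 := by norm_num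
  have hle : p.TB ≤ 2 ^ 79 * p.TB := Nat.le_mul_of_pos_left _ (by norm_num)
  rw [hY, Nat.cast_add, Nat.cast_add, Nat.cast_sub, Nat.cast_sub]
  · push_cast
    have hTh : (p.Th2 : ℤ) = 2 * p.Th := by
      rw [hp.Th2]
      push_cast
      rfl
    have hBG' : (p.BG : ℤ) = 2 ^ 80 * p.TB := by
      rw [hBG]
      push_cast
      rfl
    rw [z1, wqN_int hp hl, wqN_int hp hl, nPN_int hp, nPN_int hp, hTh, hBG', Th_int hp]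
    have e1 : ∀ c : ℤ, 2 * PZ (fun x => (x.tt : ℤ) * dig UU x.v.b) l * c =
        PZ (fun x => (2 * c) * ((x.tt : ℤ) * dig UU x.v.b)) l := by
      intro c
      rw [← PZ_mul]
      ring
    rw [e1]
    have e2 : PZ (fun x => (P639 : ℤ) + XX UU U W E0 C0 C1 C2 R0 R1 R2 ((a0 : ℤ) - b0) ((a1 : ℤ) - b1)
        ((a2 : ℤ) - b2) x) l = PZ (fun x => (P639 : ℤ) + ((x.tk : ℤ) * E0 - fNg U W x)) l -
        PZ (fun x => a0 * Lf C0 R0 x + a1 * Lf C1 R1 x + a2 * Lf C2 R2 x) l +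
        PZ (fun x => b0 * Lf C0 R0 x + b1 * Lf C1 R1 x + b2 * Lf C2 R2 x) l -
        PZ (fun x => ((a0 : ℤ) ^ 2 + (a1 : ℤ) ^ 2 + (a2 : ℤ) ^ 2) * ((x.tt : ℤ) * dig UU x.v.b)) l -
        PZ (fun x => ((b0 : ℤ) ^ 2 + (b1 : ℤ) ^ 2 + (b2 : ℤ) ^ 2) * ((x.tt : ℤ) * dig UU x.v.b)) l +
        PZ (fun x => (2 * ((a0 : ℤ) * b0 + (a1 * b1 + a2 * b2))) * ((x.tt : ℤ) * dig UU x.v.b)) l := by
      rw [PZ_sub, PZ_add, PZ_sub, PZ_sub, PZ_add]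
      refine PZ_congr fun x _ => ?_
      unfold XX
      ring
    rw [e2]
    ring
  · rw [hBG, e79, Nat.add_mul]
    omega
  · rw [hBG, e79, Nat.add_mul] at z2
    omega

/-- the conclusion of a masked pair -/
theorem pair_test (hE : E0 ≤ 2 ^ 200) (h0 : C0 < 2 ^ 256) (h1 : C1 < 2 ^ 256) (h2 : C2 < 2 ^ 256)
    {a0 a1 a2 b0 b1 b2 : ℕ} (ba0 : a0 ≤ 2 ^ 76) (ba1 : a1 ≤ 2 ^ 76) (ba2 : a2 ≤ 2 ^ 76)
    (bb0 : b0 ≤ 2 ^ 76) (bb1 : b1 ≤ 2 ^ 76) (bb2 : b2 ≤ 2 ^ 76) {Y : ℕ}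
    (hY : Y = (fZj l p U W E0 - (wqN l p C0 C1 C2 R0 R1 R2 a0 a1 a2 + nPN p a0 a1 a2)) +
      ((p.BG + wqN l p C0 C1 C2 R0 R1 R2 b0 b1 b2) - nPN p b0 b1 b2) +
      p.Th2 * (a0 * b0 + (a1 * b1 + a2 * b2))) :
    Y < 2 ^ p.S ∧ (Nat.land Y p.MK = p.MK → ∀ x ∈ l, 0 ≤ XX UU U W E0 C0 C1 C2 R0 R1 R2
      ((a0 : ℤ) - b0) ((a1 : ℤ) - b1) ((a2 : ℤ) - b2) x) := by
  have key := y_int hp hl U W E0 C0 C1 C2 R0 R1 R2 hE h0 h1 h2 ba0 ba1 ba2 bb0 bb1 bb2 hY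
  have dd : ∀ {a b : ℕ}, a ≤ 2 ^ 76 → b ≤ 2 ^ 76 → |(a : ℤ) - b| ≤ 2 ^ 77 := by
    intro a b ha hb
    have c0 : (a : ℤ) ≤ 2 ^ 76 := by exact_mod_cast ha
    have c1 : (b : ℤ) ≤ 2 ^ 76 := by exact_mod_cast hb
    have c2 : (0 : ℤ) ≤ a := Int.natCast_nonneg _
    have c3 : (0 : ℤ) ≤ b := Int.natCast_nonneg _
    have e : (2 : ℤ) ^ 76 ≤ 2 ^ 77 := by norm_num
    rw [abs_le]
    constructor <;> linarith
  have hX : ∀ x ∈ l, |XX UU U W E0 C0 C1 C2 R0 R1 R2 ((a0 : ℤ) - b0) ((a1 : ℤ) - b1)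
      ((a2 : ℤ) - b2) x| ≤ 2 ^ 620 := fun x hx =>
    XX_bd (hl x hx) hE h0 h1 h2 (dd ba0 bb0) (dd ba1 bb1) (dd ba2 bb2)
  have e639 : (P639 : ℤ) = 2 ^ 639 := by
    rw [P639_eq]
    norm_num
  have hD : ∀ x ∈ l, 0 ≤ (P639 : ℤ) + XX UU U W E0 C0 C1 C2 R0 R1 R2 ((a0 : ℤ) - b0) ((a1 : ℤ) - b1)
      ((a2 : ℤ) - b2) x ∧ (P639 : ℤ) + XX UU U W E0 C0 C1 C2 R0 R1 R2 ((a0 : ℤ) - b0) ((a1 : ℤ) - b1)
      ((a2 : ℤ) - b2) x < 2 ^ 640 := by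
    intro x hx
    have h3 := hX x hx
    have h4 := (abs_le.mp h3).1
    have h5 := (abs_le.mp h3).2
    rw [e639]
    have e1 : (2 : ℤ) ^ 620 ≤ 2 ^ 639 := by norm_num
    have e2 : (2 : ℤ) ^ 620 < 2 ^ 639 := by norm_num
    have e3 : (2 : ℤ) ^ 640 = 2 ^ 639 + 2 ^ 639 := by norm_num
    constructor <;> linarith
  constructor
  · have h3 : |PZ (fun x => (P639 : ℤ) + XX UU U W E0 C0 C1 C2 R0 R1 R2 ((a0 : ℤ) - b0) ((a1 : ℤ) - b1)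
        ((a2 : ℤ) - b2) x) l| < p.TB := by
      refine PZ_bdT hp fun x hx => ?_
      rw [abs_of_nonneg (hD x hx).1]
      exact (hD x hx).2
    have h4 := (abs_lt.mp h3).2
    have c0 : (b0 : ℤ) ≤ 2 ^ 76 := by exact_mod_cast bb0
    have c1 : (b1 : ℤ) ≤ 2 ^ 76 := by exact_mod_cast bb1
    have c2 : (b2 : ℤ) ≤ 2 ^ 76 := by exact_mod_cast bb2
    have h5 : (p.TB : ℤ) * (2 * 2 ^ 80 + 1 + ((b0 : ℤ) + b1 + b2) - ((a0 : ℤ) + a1 + a2)) ≤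
        p.TB * (2 ^ 82) := by
      refine mul_le_mul_of_nonneg_left ?_ (TBpos hp).le
      have d0 : (0 : ℤ) ≤ a0 := Int.natCast_nonneg _
      have d1 : (0 : ℤ) ≤ a1 := Int.natCast_nonneg _
      have d2 : (0 : ℤ) ≤ a2 := Int.natCast_nonneg _
      have e : (2 : ℤ) * 2 ^ 80 + 1 + 3 * 2 ^ 76 ≤ 2 ^ 82 := by norm_num
      linarith
    have h6 : (Y : ℤ) < 2 ^ 83 * p.TB := by
      rw [key]
      have := TBpos hp
      nlinarith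
    have h7 : Y < 2 ^ 83 * p.TB := by exact_mod_cast h6
    refine lt_of_lt_of_le h7 ?_
    rw [hp.S, hp.TB, Nat.mul_add, mul_one, pow_add, Nat.mul_comm]
    exact Nat.mul_le_mul_left _ (Nat.pow_le_pow_right (by norm_num) (by norm_num))
  · intro hm x hx
    rw [hp.MK] at hm
    rw [TBint hp] at key
    have := mask_digits hD key hm x hx
    linarith

end pair

end Pool.Agent.Helper82.FL
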