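import Mathlib
import Pool.Agent.Helper82.FL.JCore

/-!
# Soundness of the leaf with several corners of the box
-/

set_option autoImplicit false
set_option exponentiation.threshold 700

namespace Pool.Agent.Helper82.FL

open Matrix Finset Pool.Agent.Helper28.TT

/-- the number of the token at a corner -/
def tJ (m ts i : ℕ) : ℕ := if m = 0 then ts % 65536 else (ts >>> (16 * i)) % 65536

/-- the scale of a corner -/
noncomputable def sclJ (h : Hd) (cs : List V) (k : ℕ) : ℝ :=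
  (tJ h.m h.ts k : ℝ) * lAt cs k / (h.K : ℝ)

/-- the number `σ` -/
noncomputable def sigJ (h : Hd) (cs : List V) (lam : ℕ → ℝ) : ℝ :=
  ∑ k ∈ range cs.length, lam k * sclJ h cs k

/-- a corner with its scale -/
structure SOK (K T : ℕ) (v : V) (x : SC) : Prop where
  hv : x.v = v
  hT : 1 ≤ T
  kd : x.kd = K * (K * v.d)
  tk : x.tk = T * (K * v.d)
  tt : x.tt = T * T
  sb : SB x

theorem tJ_zero (m ts : ℕ) : tJ m ts 0 = ts % 65536 := by
  unfold tJ
  split_ifs <;> simp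

theorem tJ_succ (m ts i : ℕ) : tJ m (nxT m ts) i = tJ m ts (i + 1) := by
  unfold tJ
  cases m with
  | zero => rfl
  | succ n =>
    rw [if_neg (Nat.succ_ne_zero n), if_neg (Nat.succ_ne_zero n)]
    have e : nxT (n + 1) ts = ts >>> 16 := rfl
    rw [e, ← Nat.shiftRight_add]
    congr 2
    ring

theorem scs_cons (m K : ℕ) (v : V) (cs : List V) (ts : ℕ) (k : List SC → Bool) :
    scs m K (v :: cs) ts k =
      (frc (Nat.mul (Nat.mod ts 65536) v.l) fun T => frc (Nat.mul K v.d) fun e =>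
      frc (Nat.mul K e) fun kd => frc (Nat.mul T e) fun tk => frc (Nat.mul T T) fun tt =>
      frc (Nat.mul 2 tt) fun t2 => frc (nxT m ts) fun ts' =>
      band (Nat.ble 1 T) (band (Nat.ble kd P280) (band (Nat.ble tk P280)
        (band (Nat.ble tt 340282366920938463463374607431768211456)
        (scs m K cs ts' fun t => k (List.cons (SC.mk v kd tk tt t2) t)))))) := rfl

theorem scs_spec (m K : ℕ) (cs : List V) (ts : ℕ) (k : List SC → Bool) (h : scs m K cs ts k = true) :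
    ∃ l : List SC, k l = true ∧ l.length = cs.length ∧ ∀ i (hi : i < cs.length) (hi' : i < l.length),
      SOK K (tJ m ts i * (cs[i]).l) (cs[i]) (l[i]) := by
  induction cs generalizing ts k with
  | nil => exact ⟨[], h, rfl, fun i hi => absurd hi (by simp)⟩
  | cons v cs ih =>
    rw [scs_cons, frc_pe, frc_pe, frc_pe, frc_pe, frc_pe, frc_pe, frc_pe] at h
    obtain ⟨h1, h⟩ := band_split h
    obtain ⟨h2, h⟩ := band_split h
    obtain ⟨h3, h⟩ := band_split h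
    obtain ⟨h4, h⟩ := band_split h
    obtain ⟨l, h5, h6, h7⟩ := ih _ _ h
    have h1 := Nat.le_of_ble_eq_true h1
    have h2 := Nat.le_of_ble_eq_true h2
    have h3 := Nat.le_of_ble_eq_true h3
    have h4 := Nat.le_of_ble_eq_true h4
    simp only [nmul] at h1 h2 h3 h4 h5
    rw [P280_eq] at h2 h3
    have e128 : (340282366920938463463374607431768211456 : ℕ) = 2 ^ 128 := by norm_num
    rw [e128] at h4
    refine ⟨_, h5, by simp [h6], fun i hi hi' => ?_⟩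
    cases i with
    | zero =>
      rw [tJ_zero]
      exact ⟨rfl, h1, rfl, rfl, rfl, ⟨rfl, h2, h3, h4⟩⟩
    | succ i =>
      rw [← tJ_succ]
      exact h7 i (by simpa using hi) (by simpa using hi')

theorem allS_spec (f : SC → Bool) (l : List SC) (h : allS f l = true) : ∀ x ∈ l, f x = true := by
  induction l with
  | nil => intro x hx; exact absurd hx (by simp)
  | cons a l ih =>
    have h : band (f a) (allS f l) = true := h
    obtain ⟨h1, h2⟩ := band_split h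
    intro x hx
    rcases List.mem_cons.mp hx with rfl | hx
    · exact h1
    · exact ih h2 x hx

theorem allJ_spec (f : DC → Bool) (l : List DC) (h : allJ f l = true) : ∀ x ∈ l, f x = true := by
  induction l with
  | nil => intro x hx; exact absurd hx (by simp)
  | cons a l ih =>
    have h : band (f a) (allJ f l) = true := h
    obtain ⟨h1, h2⟩ := band_split h
    intro x hx
    rcases List.mem_cons.mp hx with rfl | hx
    · exact h1
    · exact ih h2 x hx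

theorem allVJ_spec (f : VJ → Bool) (p : GK) (o : JK) (h : Hd) (l : List G3)
    (hf : allVJ f (vjs p o h l) = true) : ∀ g ∈ l, f (vj0 p o h g) = true := by
  induction l with
  | nil => intro x hx; exact absurd hx (by simp)
  | cons a l ih =>
    have hf : band (f (vj0 p o h a)) (allVJ f (vjs p o h l)) = true := hf
    obtain ⟨h1, h2⟩ := band_split hf
    intro x hx
    rcases List.mem_cons.mp hx with rfl | hx
    · exact h1
    · exact ih h2 x hx

/-- the packed number of a pair -/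
def yP (Th2 : ℕ) (a b : VJ) : ℕ := a.na + b.nb + Th2 * (a.w0 * b.w0 + (a.w1 * b.w1 + a.w2 * b.w2))

theorem rowN_eq (Th2 O NB W0 W1 W2 w0 w1 w2 na : ℕ) : rowN Th2 O NB W0 W1 W2 w0 w1 w2 na =
    na * O + NB + Th2 * (w0 * W0 + (w1 * W1 + w2 * W2)) := rfl

theorem grJ5_spec (p : GK) (o : JK) (h : Hd) (ps qs : List G3) (hf : grJ5 p o h ps qs = true)
    (hMK : p.MK < 2 ^ p.S)
    (hY : ∀ a ∈ ps, ∀ b ∈ qs, yP p.Th2 (vj0 p o h a) (vj0 p o h b) < 2 ^ p.S) :
    ∀ a ∈ ps, ∀ b ∈ qs, Nat.land (yP p.Th2 (vj0 p o h a) (vj0 p o h b)) p.MK = p.MK := by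
  unfold grJ5 prsT at hf
  rw [frc_pe, frc_pe, frc_pe, frc_pe, frc_pe, frc_pe] at hf
  intro a ha
  have h1 := allVJ_spec _ p o h ps hf a ha
  unfold rowT at h1
  have h2 := Nat.eq_of_beq_eq_true h1
  rw [rowN_eq, onG_eq, pkO_eq, pkO_eq, pkO_eq, pkO_eq, nmul] at h2
  have e1 : (vj0 p o h a).na * YO p.S (fun _ => 1) qs + YO p.S (fun g => (vj0 p o h g).nb) qs +
      p.Th2 * ((vj0 p o h a).w0 * YO p.S (fun g => (vj0 p o h g).w0) qs +
        ((vj0 p o h a).w1 * YO p.S (fun g => (vj0 p o h g).w1) qs +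
        (vj0 p o h a).w2 * YO p.S (fun g => (vj0 p o h g).w2) qs)) =
      YO p.S (fun g => yP p.Th2 (vj0 p o h a) (vj0 p o h g)) qs := by
    rw [YO_mul, YO_mul, YO_mul, YO_mul, YO_add, YO_add, YO_add, YO_mul, YO_add]
    refine congrArg (fun f => YO p.S f qs) (funext fun g => ?_)
    unfold yP
    ring
  have e2 : p.MK * YO p.S (fun _ => 1) qs = YO p.S (fun _ => p.MK) qs := by
    rw [YO_mul]
    exact congrArg (fun f => YO p.S f qs) (funext fun g => by ring)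
  rw [e1, e2] at h2
  exact YO_mask (hY a ha) hMK h2

theorem vj1_na (Z BG Q0 Q1 Q2 Th w0 w1 w2 : ℕ) : (vj1 Z BG Q0 Q1 Q2 Th w0 w1 w2).na =
    Z - ((w0 * Q0 + (w1 * Q1 + w2 * Q2)) + (w0 * w0 + (w1 * w1 + w2 * w2)) * Th) := rfl

theorem vj1_nb (Z BG Q0 Q1 Q2 Th w0 w1 w2 : ℕ) : (vj1 Z BG Q0 Q1 Q2 Th w0 w1 w2).nb =
    (BG + (w0 * Q0 + (w1 * Q1 + w2 * Q2))) - (w0 * w0 + (w1 * w1 + w2 * w2)) * Th := rfl

theorem vj1_w0 (Z BG Q0 Q1 Q2 Th w0 w1 w2 : ℕ) : (vj1 Z BG Q0 Q1 Q2 Th w0 w1 w2).w0 = w0 := rfl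
theorem vj1_w1 (Z BG Q0 Q1 Q2 Th w0 w1 w2 : ℕ) : (vj1 Z BG Q0 Q1 Q2 Th w0 w1 w2).w1 = w1 := rfl
theorem vj1_w2 (Z BG Q0 Q1 Q2 Th w0 w1 w2 : ℕ) : (vj1 Z BG Q0 Q1 Q2 Th w0 w1 w2).w2 = w2 := rfl

theorem core_J {q K T d x y X : ℤ} (hK : 0 < K) (h : q * (K * (K * d) * x + T * T * y) ≤ T * (K * d) * X) :
    (q : ℝ) * ((d : ℝ) * (x : ℝ) + ((T : ℝ) / K) ^ 2 * (y : ℝ)) ≤ (T : ℝ) / K * (d : ℝ) * (X : ℝ) := by
  have hK' : (0 : ℝ) < K := by exact_mod_cast hK
  have h5 : (q : ℝ) * ((K : ℝ) * (K * d) * x + (T : ℝ) * T * y) ≤ (T : ℝ) * (K * d) * X := by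
    exact_mod_cast h
  rw [← sub_nonneg] at h5 ⊢
  have h6 : (T : ℝ) / K * (d : ℝ) * (X : ℝ) - (q : ℝ) * ((d : ℝ) * (x : ℝ) + ((T : ℝ) / K) ^ 2 * (y : ℝ)) =
      ((T : ℝ) * (K * d) * X - (q : ℝ) * ((K : ℝ) * (K * d) * x + (T : ℝ) * T * y)) / (K : ℝ) ^ 2 := by
    field_simp
  rw [h6]
  positivity

/-- the bounds -/
theorem chk_spec {C M : M3} {κ μ : ℤ} {x0 x1 x2 y0 y1 y2 ka z0 z1 z2 w0 w1 w2 mu D : ℕ}
    (hd : Data C M κ μ x0 x1 x2 y0 y1 y2 ka z0 z1 z2 w0 w1 w2 mu) (hf : chk3 ka mu D = true) :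
    0 ≤ κ ∧ 0 ≤ μ ∧ (((D : ℕ) : ℤ) : ℝ) ^ 2 < 16 * ((κ : ℝ) * ((1154 : ℝ) / 169 * μ)) := by
  obtain ⟨h1, hf⟩ := band_split hf
  obtain ⟨h2, h3⟩ := band_split hf
  have e128 : (340282366920938463463374607431768211456 : ℕ) = 2 ^ 128 := by norm_num
  have k1 : (ka : ℤ) = κ := small_res hd.ka (by rw [← e128]; exact Nat.le_of_ble_eq_true h1) hd.bk
  have k2 : (mu : ℤ) = μ := small_res hd.mu (by rw [← e128]; exact Nat.le_of_ble_eq_true h2) hd.bu
  have h3' : 169 * (D * D) + 1 ≤ 18464 * (ka * mu) := Nat.le_of_ble_eq_true h3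
  refine ⟨by rw [← k1]; exact Int.natCast_nonneg _, by rw [← k2]; exact Int.natCast_nonneg _, ?_⟩
  have h4 : (169 * ((D : ℝ) * D) + 1) ≤ 18464 * ((ka : ℝ) * mu) := by exact_mod_cast h3'
  have k1' : (ka : ℝ) = κ := by exact_mod_cast k1
  have k2' : (mu : ℝ) = μ := by exact_mod_cast k2
  rw [k1', k2'] at h4
  push_cast
  linarith

section main

variable (F Z : Matrix (Fin 3) (Fin 3) ℝ) (hZ : (Fᵀ * F) * Z = 1) (cs : List V)
    (hok : ∀ v ∈ cs, okV v) (lam : ℕ → ℝ) (hlam : ∀ k, 0 ≤ lam k)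
    (hQ : Fᵀ * F = ∑ k ∈ range cs.length, lam k • AtV cs k) (sc : Hd) (hK : 0 < sc.K)
    (l : List SC) (hlen : l.length = cs.length)
    (hl : ∀ i (hi : i < cs.length) (hi' : i < l.length),
      SOK sc.K (tJ sc.m sc.ts i * (cs[i]).l) (cs[i]) (l[i]))

include hZ hok hlam hQ hK hlen hl

/-- the last step for one coefficient matrix -/
theorem fin_test {h : Hd} {t : T3} {rho : ℤ} (ht : HdOK h t rho) (C M : M3) (D κ μ : ℤ)
    (hκ0 : 0 ≤ κ) (hμ0 : 0 ≤ μ) (hD : (D : ℝ) ^ 2 < 16 * ((κ : ℝ) * ((1154 : ℝ) / 169 * μ)))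
    (hN : ∀ k (hk : k < cs.length), ∀ B N : S3, CornOK (cs[k]) B N → N.toM * M.toMᵀ = 0)
    (hT : ∀ k (hk : k < cs.length), ∀ B N : S3, CornOK (cs[k]) B N →
      ((t.det ^ 2 : ℤ) : ℝ) * (((((cs[k]).d : ℕ) : ℤ) : ℝ) * ((qa t (formS (cs[k])) C : ℤ) : ℝ) +
        ((((tJ sc.m sc.ts k * (cs[k]).l : ℕ) : ℤ) : ℝ) / (((sc.K : ℕ) : ℤ) : ℝ)) ^ 2 *
          ((qa t B M : ℤ) : ℝ)) ≤
        (((tJ sc.m sc.ts k * (cs[k]).l : ℕ) : ℤ) : ℝ) / (((sc.K : ℕ) : ℤ) : ℝ) *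
          ((((cs[k]).d : ℕ) : ℤ) : ℝ) * ((EE t rho D C M : ℤ) : ℝ)) :
    0 < sigJ sc cs lam ∧ trace (Fᵀ * C.toM) + sigJ sc cs lam * trace ((F * Z)ᵀ * M.toM) <
      κ + sigJ sc cs lam * ((1154 : ℝ) / 169 * μ) := by
  have hcorn : ∀ k : Fin cs.length, ∃ B N : S3, CornOK (cs[k]) B N :=
    fun k => exists_corn _ (hok _ (List.getElem_mem k.2))
  choose B N hcr using hcorn
  have hQ' : Fᵀ * F = ∑ k : Fin cs.length, lam k • (formS (cs[k])).toM := by
    rw [hQ, Finset.sum_range]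
    refine Finset.sum_congr rfl fun k _ => ?_
    rw [AtV_get]
  have hdv : ∀ k : Fin cs.length, 0 < (((cs[k]).d : ℕ) : ℤ) := fun k => by
    have := (hcr k).d
    omega
  have hpsd : ∀ k : Fin cs.length, (formS (cs[k])).toM.PosSemidef := fun k => formV_psd _
  have hinv : ∀ k : Fin cs.length, (formS (cs[k])).toM * ((B k).toM * M.toMᵀ) =
      ((((cs[k]).d : ℕ) : ℤ) : ℝ) • M.toMᵀ := by
    intro k
    have h5 := hN k k.2 (B k) (N k) (hcr k)
    have h6 := (hcr k).id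
    have h7 : (formS (cs[k])).toM * (B k).toM =
        ((((cs[k]).d : ℕ) : ℤ) : ℝ) • (1 : Matrix (Fin 3) (Fin 3) ℝ) - (N k).toM := by
      rw [← h6]
      abel
    rw [← Matrix.mul_assoc, h7, Matrix.sub_mul, h5, sub_zero, Matrix.smul_mul, Matrix.one_mul]
  have hω : (0 : ℝ) < (1154 : ℝ) / 169 := by norm_num
  have hK' : (0 : ℝ) < (sc.K : ℝ) := by exact_mod_cast hK
  have hs : sigJ sc cs lam = ∑ k : Fin cs.length, lam k * sclJ sc cs k := by
    unfold sigJ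
    rw [Finset.sum_range]
  have es : ∀ k : Fin cs.length, sclJ sc cs k =
      (((tJ sc.m sc.ts k * (cs[(k : ℕ)]).l : ℕ) : ℤ) : ℝ) / (((sc.K : ℕ) : ℤ) : ℝ) := by
    intro k
    unfold sclJ
    rw [lAt_get]
    push_cast
    rfl
  rw [hs]
  refine tri_test F Z hZ (fun k : Fin cs.length => lam k) (fun k => hlam k)
      (fun k => formS (cs[k])) B (fun k => (((cs[k]).d : ℕ) : ℤ)) hdv hpsd C M
      hinv hQ' t ht.a ht.b ht.c rho D κ μ ht.rho _ hω hκ0 hμ0 hD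
      (fun k => sclJ sc cs k) (fun k => ?_) (fun k => ?_)
  · rw [es]
    have h1 := (hl k k.2 (by rw [hlen]; exact k.2)).hT
    have h2 : (0 : ℝ) < ((((tJ sc.m sc.ts k * (cs[(k : ℕ)]).l : ℕ) : ℤ)) : ℝ) := by
      exact_mod_cast h1
    have h3 : (0 : ℝ) < (((sc.K : ℕ) : ℤ) : ℝ) := by exact_mod_cast hK
    positivity
  · have h1 := hT k k.2 (B k) (N k) (hcr k)
    rw [es]
    have e : ((t.det ^ 2 : ℤ) : ℝ) = (t.det : ℝ) ^ 2 := by push_cast; rfl
    rw [e] at h1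
    exact h1

/-- the plain test -/
theorem plJ_sound (c : DC) (r : ℕ) (hr : mkHd r = some c.h) (C M : M3) (κ μ : ℤ)
    (hd : Data C M κ μ c.x0 c.x1 c.x2 c.y0 c.y1 c.y2 c.ka c.z0 c.z1 c.z2 c.w0 c.w1 c.w2 c.mu)
    (hf : plJ l c = true) :
    0 < sigJ sc cs lam ∧ trace (Fᵀ * C.toM) + sigJ sc cs lam * trace ((F * Z)ᵀ * M.toM) <
      κ + sigJ sc cs lam * ((1154 : ℝ) / 169 * μ) := by
  obtain ⟨t, rho, ht⟩ := mkHd_spec r c.h hr
  obtain ⟨h1, hf⟩ := band_split hf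
  obtain ⟨hκ0, hμ0, hD⟩ := chk_spec hd h1
  have rG := rows_mul ht.res hd.rc
  have rH := rows_mul ht.res hd.rm
  have bG := mul_bd ht hd.bc
  have bH := mul_bd ht hd.bm
  have rU := uu_spec rG rG
  have rW := uu_spec rH rH
  have rW0 := uu_spec hd.rm hd.rm
  have rT := uu_spec rG rH
  have hEE0 := fun h1 => eNum_spec ht (D := c.D) rT bG bH h1
  unfold plJ1 plJ2 at hf
  rw [frc_pe, frc_pe, frc_pe] at hf
  obtain ⟨hE, hf⟩ := band_split hf
  have hEE := hEE0 (Nat.le_of_ble_eq_true hE)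
  have hx := allS_spec _ l hf
  clear hf hE hEE0
  refine fin_test F Z hZ cs hok lam hlam hQ sc hK l hlen hl ht C M c.D κ μ hκ0 hμ0 hD ?_ ?_
  · intro k hk B N hcr
    have hk' : k < l.length := by rw [hlen]; exact hk
    obtain ⟨-, h2⟩ := band_split (hx _ (List.getElem_mem hk'))
    have h3 := sng_spec _ _ h2
    rw [(hl k hk hk').hv] at h3
    have h4 := dig_pair rW0 hcr.n (hd.bm.mono (by norm_num)) (hcr.bn.mono (by norm_num))
      (pair_nonneg _ hcr.psdN _)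
    rw [h3] at h4
    exact kill N hcr.psdN M (by rw [← h4]; rfl)
  · intro k hk B N hcr
    have hk' : k < l.length := by rw [hlen]; exact hk
    obtain ⟨h1, -⟩ := band_split (hx _ (List.getElem_mem hk'))
    have h2 := Nat.le_of_ble_eq_true h1
    have s := hl k hk hk'
    have dU := dig_pair rU hcr.a bG (hcr.ba.mono (by norm_num)) (pair_nonneg _ (formV_psd _) _)
    have dW := dig_pair rW hcr.b bH (hcr.bb.mono (by norm_num)) (pair_nonneg _ hcr.psdB _)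
    rw [s.hv, s.kd, s.tk, s.tt] at h2
    simp only [nmul, nadd] at h2
    refine core_J (by exact_mod_cast hK) ?_
    rw [← ht.q, ← hEE]
    unfold qa
    rw [← dU, ← dW]
    exact_mod_cast h2

end main

end Pool.Agent.Helper82.FL
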