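import Mathlib
import Pool.Agent.Helper82.FL.SoundJ

/-!
# Soundness of the group with several corners of the box
-/

set_option autoImplicit false
set_option exponentiation.threshold 700

namespace Pool.Agent.Helper82.FL

open Matrix Finset Pool.Agent.Helper28.TT

/-- the coefficient matrix of a child -/
def chM (M : M3) (a b : G3) (v0 v1 v2 : ℤ) : M3 :=
  mrgM M ((a.g0 : ℤ) - b.g0) ((a.g1 : ℤ) - b.g1) ((a.g2 : ℤ) - b.g2) v0 v1 v2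

/-- small vertices -/
def smG (g : G3) : Prop := g.g0 ≤ 2 ^ 52 ∧ g.g1 ≤ 2 ^ 52 ∧ g.g2 ≤ 2 ^ 52

theorem w76 {w : ℕ} {z : ℤ} (h : (w : ℤ) = z + 2 ^ 75) (hz : |z| ≤ 2 ^ 74) : w ≤ 2 ^ 76 := by
  have h1 := (abs_le.mp hz).2
  have h2 : (w : ℤ) ≤ 2 ^ 76 := by
    rw [h]
    have e : (2 : ℤ) ^ 74 + 2 ^ 75 ≤ 2 ^ 76 := by norm_num
    linarith
  exact_mod_cast h2

theorem MK_lt {l : List SC} {UU : ℕ} {p : GK} (hp : GKOK l UU p) : p.MK < 2 ^ p.S := by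
  have h1 : |PZ (fun _ => ((P639 : ℕ) : ℤ)) l| < p.TB := by
    refine PZ_bdT hp fun x _ => ?_
    rw [P639_eq]
    norm_num
  rw [← pkS_eq (fun _ => P639), ← hp.MK] at h1
  have h2 := (abs_lt.mp h1).2
  have h3 : p.MK < p.TB := by exact_mod_cast h2
  refine lt_of_lt_of_le h3 ?_
  rw [hp.S, hp.TB]
  exact Nat.pow_le_pow_right (by norm_num) (by omega)

theorem div_le {E q E0 : ℕ} (h : Nat.div E q = E0) : q * E0 ≤ E := by
  rw [← h]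
  exact Nat.mul_div_le E q

section main

variable (F Z : Matrix (Fin 3) (Fin 3) ℝ) (hZ : (Fᵀ * F) * Z = 1) (cs : List V)
    (hok : ∀ v ∈ cs, okV v) (lam : ℕ → ℝ) (hlam : ∀ k, 0 ≤ lam k)
    (hQ : Fᵀ * F = ∑ k ∈ range cs.length, lam k • AtV cs k) (sc : Hd) (hK : 0 < sc.K)
    (l : List SC) (hlen : l.length = cs.length)
    (hl : ∀ i (hi : i < cs.length) (hi' : i < l.length),
      SOK sc.K (tJ sc.m sc.ts i * (cs[i]).l) (cs[i]) (l[i]))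

include hZ hok hlam hQ hK hlen hl

theorem grJ_sound {UU Uy U8 : ℕ} {p : GK} (hp : GKOK l UU p) {v0 v1 v2 : ℤ}
    (rUU : Rs UU (pT (uM v0 v1 v2) (uM v0 v1 v2))) (rUy : Rs Uy (v0 + (v1 * B1 ^ 3 + v2 * B1 ^ 6)))
    (rU8 : Rs U8 (v0 * B1 ^ 8 + (v1 * B1 ^ 7 + v2 * B1 ^ 6))) (hv0 : |v0| ≤ 2 ^ 56)
    (hv1 : |v1| ≤ 2 ^ 56) (hv2 : |v2| ≤ 2 ^ 56) (hsu : allS (fun x => sng UU x.v) l = true)
    (c : DC) (r : ℕ) (hr : mkHd r = some c.h) (C M : M3) (κ μ : ℤ)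
    (hd : Data C M κ μ c.x0 c.x1 c.x2 c.y0 c.y1 c.y2 c.ka c.z0 c.z1 c.z2 c.w0 c.w1 c.w2 c.mu)
    (hf : grJ l p Uy U8 c = true) (a b : G3) (ha : a ∈ c.ps) (hb : b ∈ c.qs)
    (hps : ∀ g ∈ c.ps, smG g) (hqs : ∀ g ∈ c.qs, smG g) :
    0 < sigJ sc cs lam ∧ trace (Fᵀ * C.toM) +
      sigJ sc cs lam * trace ((F * Z)ᵀ * (chM M a b v0 v1 v2).toM) <
      κ + sigJ sc cs lam * ((1154 : ℝ) / 169 * μ) := by
  obtain ⟨t, rho, ht⟩ := mkHd_spec r c.h hr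
  obtain ⟨h1, hf⟩ := band_split hf
  obtain ⟨hκ0, hμ0, hD⟩ := chk_spec hd h1
  have rG := rows_mul ht.res hd.rc
  have rH := rows_mul ht.res hd.rm
  have bG := mul_bd ht hd.bc
  have bH := mul_bd ht hd.bm
  have rU := uu_spec rG rG
  have rW := uu_spec rH rH
  have rW0 := uu_spec hd.rm hd.rm
  have rT := uu_spec rG rH
  have hEE0 := fun h1 => eNum_spec ht (D := c.D) rT bG bH h1
  obtain ⟨gb1, gb2, gb3, gb4, gb5, gb6, gb7, gb8, gb9⟩ := bG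
  have c0 := sdig_row rG.x0 rU8 gb1 gb2 gb3 hv0 hv1 hv2
  have c1 := sdig_row rG.x1 rU8 gb4 gb5 gb6 hv0 hv1 hv2
  have c2 := sdig_row rG.x2 rU8 gb7 gb8 gb9 hv0 hv1 hv2
  have bG : M3bd (t.mul C) (2 ^ 74) := ⟨gb1, gb2, gb3, gb4, gb5, gb6, gb7, gb8, gb9⟩
  obtain ⟨hb1, hb2, hb3, hb4, hb5, hb6, hb7, hb8, hb9⟩ := bH
  have n0 := fun (B : S3) (y : ℕ) (hy : Rs y (pS B)) (hB : S3bd B (2 ^ 97)) =>
    sdig_lin rH.x0 rUy hy hB hb1 hb2 hb3 hv0 hv1 hv2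
  have n1 := fun (B : S3) (y : ℕ) (hy : Rs y (pS B)) (hB : S3bd B (2 ^ 97)) =>
    sdig_lin rH.x1 rUy hy hB hb4 hb5 hb6 hv0 hv1 hv2
  have n2 := fun (B : S3) (y : ℕ) (hy : Rs y (pS B)) (hB : S3bd B (2 ^ 97)) =>
    sdig_lin rH.x2 rUy hy hB hb7 hb8 hb9 hv0 hv1 hv2
  have bH : M3bd (t.mul M) (2 ^ 74) := ⟨hb1, hb2, hb3, hb4, hb5, hb6, hb7, hb8, hb9⟩
  unfold grJ1 grJ2 at hf
  rw [frc_pe, frc_pe, frc_pe] at hf
  unfold grJ3 at hf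
  rw [frc_pe, frc_pe, frc_pe, frc_pe, frc_pe, frc_pe] at hf
  obtain ⟨hE1, hf⟩ := band_split hf
  obtain ⟨hE2, hf⟩ := band_split hf
  obtain ⟨hsw, hf⟩ := band_split hf
  unfold grJ4 at hf
  rw [frc_pe, frc_pe, frc_pe, frc_pe] at hf
  revert hf hE1 hE2 hEE0 c0 c1 c2 n0 n1 n2 rU rW rW0 hsw
  generalize uu (r0 c.h.a c.h.d c.h.e c.x0 c.x1 c.x2) (r1 c.h.b c.h.f c.x1 c.x2) (Nat.mul c.h.c c.x2)
    (r0 c.h.a c.h.d c.h.e c.y0 c.y1 c.y2) (r1 c.h.b c.h.f c.y1 c.y2) (Nat.mul c.h.c c.y2) = U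
  generalize uu (r0 c.h.a c.h.d c.h.e c.z0 c.z1 c.z2) (r1 c.h.b c.h.f c.z1 c.z2) (Nat.mul c.h.c c.z2)
    (r0 c.h.a c.h.d c.h.e c.w0 c.w1 c.w2) (r1 c.h.b c.h.f c.w1 c.w2) (Nat.mul c.h.c c.w2) = W
  generalize uu (r0 c.h.a c.h.d c.h.e c.x0 c.x1 c.x2) (r1 c.h.b c.h.f c.x1 c.x2) (Nat.mul c.h.c c.x2)
    (r0 c.h.a c.h.d c.h.e c.w0 c.w1 c.w2) (r1 c.h.b c.h.f c.w1 c.w2) (Nat.mul c.h.c c.w2) = TT
  generalize uu c.z0 c.z1 c.z2 c.w0 c.w1 c.w2 = W0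
  generalize eNum c.h TT c.D = E
  generalize hC0 : sdig (r0 c.h.a c.h.d c.h.e c.x0 c.x1 c.x2) U8 = C0
  generalize hC1 : sdig (r1 c.h.b c.h.f c.x1 c.x2) U8 = C1
  generalize hC2 : sdig (Nat.mul c.h.c c.x2) U8 = C2
  generalize Nat.mod (Nat.mul (r0 c.h.a c.h.d c.h.e c.z0 c.z1 c.z2) Uy) B9 = R0
  generalize Nat.mod (Nat.mul (r1 c.h.b c.h.f c.z1 c.z2) Uy) B9 = R1
  generalize Nat.mod (Nat.mul (Nat.mul c.h.c c.z2) Uy) B9 = R2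
  generalize hE0 : Nat.div E c.h.q = E0
  intro rU rW rW0 hEE0 c0 c1 c2 n0 n1 n2 hE1 hE2 hsw hf
  have hE1 := Nat.le_of_ble_eq_true hE1
  have hE2 := Nat.le_of_ble_eq_true hE2
  rw [P200_eq] at hE2
  have hqE := div_le hE0
  have hE3 : 1 ≤ E := by
    by_contra hn
    have : E = 0 := by omega
    rw [this] at hE0
    have : Nat.div 0 c.h.q = 0 := Nat.zero_div _
    omega
  have hEE := hEE0 hE3
  have bC0 : C0 < 2 ^ 256 := by rw [← hC0]; exact sdig_lt _ _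
  have bC1 : C1 < 2 ^ 256 := by rw [← hC1]; exact sdig_lt _ _
  have bC2 : C2 < 2 ^ 256 := by rw [← hC2]; exact sdig_lt _ _
  have hsb : ∀ x ∈ l, SB x := by
    intro x hx
    obtain ⟨i, hi, rfl⟩ := List.getElem_of_mem hx
    exact (hl i (by rw [← hlen]; exact hi) hi).sb
  -- the packed numbers
  have hpair : ∀ a b : G3, smG a → smG b → ∀ Y : ℕ,
      Y = yP p.Th2 (vj0 p (JK.mk (fZj l p U W E0) (fQj l p C0 R0) (fQj l p C1 R1) (fQj l p C2 R2)) c.h a)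
        (vj0 p (JK.mk (fZj l p U W E0) (fQj l p C0 R0) (fQj l p C1 R1) (fQj l p C2 R2)) c.h b) →
      Y < 2 ^ p.S ∧ (Nat.land Y p.MK = p.MK → ∀ x ∈ l, 0 ≤ XX UU U W E0 C0 C1 C2 R0 R1 R2
        (wA t a.g0 a.g1 a.g2 - wA t b.g0 b.g1 b.g2) (wB t a.g1 a.g2 - wB t b.g1 b.g2)
        (wC t a.g2 - wC t b.g2) x) := by
    intro a b ha hb Y hY
    obtain ⟨ea0, ea1, ea2, ba0, ba1, ba2⟩ := w_spec ht ha.1 ha.2.1 ha.2.2
    obtain ⟨eb0, eb1, eb2, bb0, bb1, bb2⟩ := w_spec ht hb.1 hb.2.1 hb.2.2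
    unfold yP vj0 at hY
    rw [vj1_na, vj1_nb, vj1_w0, vj1_w0, vj1_w1, vj1_w1, vj1_w2, vj1_w2] at hY
    have key := pair_test hp hsb U W E0 C0 C1 C2 R0 R1 R2 hE2 bC0 bC1 bC2 (w76 ea0 ba0) (w76 ea1 ba1)
      (w76 ea2 ba2) (w76 eb0 bb0) (w76 eb1 bb1) (w76 eb2 bb2) (Y := Y) hY
    rw [ea0, ea1, ea2, eb0, eb1, eb2] at key
    have f : ∀ x y : ℤ, x + 2 ^ 75 - (y + 2 ^ 75) = x - y := fun x y => by ring
    rw [f, f, f] at key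
    exact key
  have hland := grJ5_spec p _ c.h c.ps c.qs hf (MK_lt hp)
    (fun a ha b hb => (hpair a b (hps a ha) (hqs b hb) _ rfl).1) a ha b hb
  have hXX := (hpair a b (hps a ha) (hqs b hb) _ rfl).2 hland
  clear hland hpair hf
  have hsu := allS_spec _ l hsu
  have hsw := allS_spec _ l hsw
  refine fin_test F Z hZ cs hok lam hlam hQ sc hK l hlen hl ht C (chM M a b v0 v1 v2) c.D κ μ hκ0 hμ0 hD
    ?_ ?_
  · intro k hk B N hcr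
    have hk' : k < l.length := by rw [hlen]; exact hk
    have s := hl k hk hk'
    have h3 := sng_spec _ _ (hsw _ (List.getElem_mem hk'))
    rw [s.hv] at h3
    have h4 := dig_pair rW0 hcr.n (hd.bm.mono (by norm_num)) (hcr.bn.mono (by norm_num))
      (pair_nonneg _ hcr.psdN _)
    rw [h3] at h4
    have h5 := kill N hcr.psdN M (by rw [← h4]; rfl)
    have h6 := sng_spec _ _ (hsu _ (List.getElem_mem hk'))
    rw [s.hv] at h6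
    have h7 := dig_pair rUU hcr.n (uM_bd hv0 hv1 hv2) (hcr.bn.mono (by norm_num))
      (pair_nonneg _ hcr.psdN _)
    rw [h6] at h7
    have h8 := kill N hcr.psdN (uM v0 v1 v2) (by rw [← h7]; rfl)
    exact kill_mrg N M _ _ _ _ _ _ h5 h8
  · intro k hk B N hcr
    have hk' : k < l.length := by rw [hlen]; exact hk
    have s := hl k hk hk'
    have hX := hXX _ (List.getElem_mem hk')
    have dU := dig_pair rU hcr.a bG (hcr.ba.mono (by norm_num)) (pair_nonneg _ (formV_psd _) _)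
    have dW := dig_pair rW hcr.b bH (hcr.bb.mono (by norm_num)) (pair_nonneg _ hcr.psdB _)
    have dT := dig_pair rUU hcr.b (uM_bd hv0 hv1 hv2) (hcr.bb.mono (by norm_num))
      (pair_nonneg _ hcr.psdB _)
    have m0 := n0 B _ hcr.b hcr.bb
    have m1 := n1 B _ hcr.b hcr.bb
    have m2 := n2 B _ hcr.b hcr.bb
    rw [pair_uM] at dT
    unfold XX Lf at hX
    have eN : ((fNg U W (l[k]) : ℕ) : ℤ) = ((l[k]).kd : ℤ) * dig U (l[k]).v.a +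
        ((l[k]).tt : ℤ) * dig W (l[k]).v.b := by
      unfold fNg
      push_cast
      rfl
    rw [eN, s.hv, s.kd, s.tk, s.tt, c0, c1, c2, m0, m1, m2, dT, dU, dW] at hX
    push_cast at hX
    have eq1 : qa t B (chM M a b v0 v1 v2) = S3.pair B (M3.tmul (t.mul M) (t.mul M)) +
        2 * ((wA t a.g0 a.g1 a.g2 - wA t b.g0 b.g1 b.g2) *
            nI B (t.mul M).a0 (t.mul M).a1 (t.mul M).a2 v0 v1 v2 +
          (wB t a.g1 a.g2 - wB t b.g1 b.g2) * nI B (t.mul M).b0 (t.mul M).b1 (t.mul M).b2 v0 v1 v2 +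
          (wC t a.g2 - wC t b.g2) * nI B (t.mul M).c0 (t.mul M).c1 (t.mul M).c2 v0 v1 v2) +
        ((wA t a.g0 a.g1 a.g2 - wA t b.g0 b.g1 b.g2) ^ 2 + (wB t a.g1 a.g2 - wB t b.g1 b.g2) ^ 2 +
          (wC t a.g2 - wC t b.g2) ^ 2) * nI B v0 v1 v2 v0 v1 v2 := by
      unfold qa chM
      rw [mul_mrg, pair_mrg]
      unfold wA wB wC
      ring
    have eq2 : EE t rho c.D C (chM M a b v0 v1 v2) = EE t rho c.D C M - 2 * t.det ^ 2 *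
        ((wA t a.g0 a.g1 a.g2 - wA t b.g0 b.g1 b.g2) *
            ((t.mul C).a0 * v0 + (t.mul C).a1 * v1 + (t.mul C).a2 * v2) +
          (wB t a.g1 a.g2 - wB t b.g1 b.g2) *
            ((t.mul C).b0 * v0 + (t.mul C).b1 * v1 + (t.mul C).b2 * v2) +
          (wC t a.g2 - wC t b.g2) *
            ((t.mul C).c0 * v0 + (t.mul C).c1 * v1 + (t.mul C).c2 * v2)) := by
      unfold chM
      rw [EE_mrg]
      unfold wA wB wC
      ring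
    refine child_test (E0 := (E0 : ℤ)) (E := EE t rho c.D C M) (by exact_mod_cast hK) (sq_nonneg _) ?_
      (Int.natCast_nonneg _) (Int.natCast_nonneg _) ?_ eq2
    · rw [← ht.q, ← hEE]
      exact_mod_cast hqE
    · rw [eq1]
      unfold qa
      push_cast
      linarith

end main

/-- **the plain leaf at all corners of the box** -/
theorem fleafJ_sound (F Z : Matrix (Fin 3) (Fin 3) ℝ) (hZ : (Fᵀ * F) * Z = 1) (cs : List V)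
    (hok : ∀ v ∈ cs, okV v) (lam : ℕ → ℝ) (hlam : ∀ k, 0 ≤ lam k)
    (hQ : Fᵀ * F = ∑ k ∈ range cs.length, lam k • AtV cs k) (sc : Hd) (r0 : ℕ)
    (hr0 : mkHd r0 = some sc) (js : List DC) (hf : fleafJ cs sc js = true)
    (c : DC) (hc : c ∈ js) (r : ℕ) (hr : mkHd r = some c.h) (C M : M3) (κ μ : ℤ)
    (hd : Data C M κ μ c.x0 c.x1 c.x2 c.y0 c.y1 c.y2 c.ka c.z0 c.z1 c.z2 c.w0 c.w1 c.w2 c.mu) :
    0 < sigJ sc cs lam ∧ trace (Fᵀ * C.toM) + sigJ sc cs lam * trace ((F * Z)ᵀ * M.toM) <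
      κ + sigJ sc cs lam * ((1154 : ℝ) / 169 * μ) := by
  obtain ⟨t, rho, ht⟩ := mkHd_spec r0 sc hr0
  obtain ⟨l, h1, h2, h3⟩ := scs_spec _ _ _ _ _ hf
  exact plJ_sound F Z hZ cs hok lam hlam hQ sc ht.K l h2 h3 c r hr C M κ μ hd (allJ_spec _ js h1 c hc)

/-- **the group at all corners of the box** -/
theorem fmrgJ_sound (F Z : Matrix (Fin 3) (Fin 3) ℝ) (hZ : (Fᵀ * F) * Z = 1) (cs : List V)
    (hok : ∀ v ∈ cs, okV v) (lam : ℕ → ℝ) (hlam : ∀ k, 0 ≤ lam k)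
    (hQ : Fᵀ * F = ∑ k ∈ range cs.length, lam k • AtV cs k) (sc : Hd) (r0 : ℕ)
    (hr0 : mkHd r0 = some sc) (u0 u1 u2 : ℕ) (v0 v1 v2 : ℤ) (hu0 : Rs u0 v0) (hu1 : Rs u1 v1)
    (hu2 : Rs u2 v2) (hv0 : |v0| ≤ 2 ^ 56) (hv1 : |v1| ≤ 2 ^ 56) (hv2 : |v2| ≤ 2 ^ 56)
    (js : List DC) (hf : fmrgJ cs sc u0 u1 u2 js = true)
    (c : DC) (hc : c ∈ js) (r : ℕ) (hr : mkHd r = some c.h) (C M : M3) (κ μ : ℤ)
    (hd : Data C M κ μ c.x0 c.x1 c.x2 c.y0 c.y1 c.y2 c.ka c.z0 c.z1 c.z2 c.w0 c.w1 c.w2 c.mu)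
    (hps : ∀ g ∈ c.ps, smG g) (hqs : ∀ g ∈ c.qs, smG g) (a b : G3) (ha : a ∈ c.ps) (hb : b ∈ c.qs) :
    0 < sigJ sc cs lam ∧ trace (Fᵀ * C.toM) +
      sigJ sc cs lam * trace ((F * Z)ᵀ * (chM M a b v0 v1 v2).toM) <
      κ + sigJ sc cs lam * ((1154 : ℝ) / 169 * μ) := by
  obtain ⟨t, rho, ht⟩ := mkHd_spec r0 sc hr0
  unfold fmrgJ at hf
  rw [frc_pe, frc_pe, frc_pe] at hf
  obtain ⟨l, h1, h2, h3⟩ := scs_spec _ _ _ _ _ hf
  obtain ⟨h4, h5⟩ := band_split h1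
  rw [gk1_eq] at h5
  exact grJ_sound F Z hZ cs hok lam hlam hQ sc ht.K l h2 h3 (gkR_ok l _) (uuU_spec hu0 hu1 hu2)
    (Uy_spec hu0 hu1 hu2) (U8_spec hu0 hu1 hu2) hv0 hv1 hv2 h4 c r hr C M κ μ hd
    (allJ_spec _ js h5 c hc) a b ha hb hps hqs

end Pool.Agent.Helper82.FL
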