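import Pool.Agent.Helper82.FL.RawJ

/-! The raw functions of the leaf, lazy: the same values as `fleafJ` and `fmrgJ`, without forcing. -/

set_option autoImplicit false

namespace Pool.Agent.Helper82.FL

/-- the tests of a corner -/
noncomputable def scL3 (v : V) (T kd tk tt : Nat) (r : (List SC → Bool) → Bool)
    (k : List SC → Bool) : Bool :=
  @Bool.rec (fun _ => Bool) false
    (@Bool.rec (fun _ => Bool) false
      (@Bool.rec (fun _ => Bool) false
        (@Bool.rec (fun _ => Bool) false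
          (r fun t => k (List.cons (SC.mk v kd tk tt (Nat.mul 2 tt)) t))
          (Nat.ble tt 340282366920938463463374607431768211456))
        (Nat.ble tk P280))
      (Nat.ble kd P280))
    (Nat.ble 1 T)

noncomputable def scL2 (v : V) (K T e : Nat) (r : (List SC → Bool) → Bool)
    (k : List SC → Bool) : Bool :=
  scL3 v T (Nat.mul K e) (Nat.mul T e) (Nat.mul T T) r k

/-- the corners with their scales -/
noncomputable def scL (m K : Nat) (cs : List V) : Nat → (List SC → Bool) → Bool :=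
  @List.rec V (fun _ => Nat → (List SC → Bool) → Bool) (fun _ k => k [])
    (fun v _ ih ts k =>
      scL2 v K (Nat.mul (Nat.mod ts 65536) v.l) (Nat.mul K v.d) (ih (nxT m ts)) k) cs

/-- `a`, and `b` or `c`, and `ih` -/
noncomputable def cnd (ih a b c : Bool) : Bool :=
  @Bool.rec (fun _ => Bool) false
    (@Bool.rec (fun _ => Bool) (@Bool.rec (fun _ => Bool) false ih c) ih b) a

/-- the plain test at a corner of the tile -/
noncomputable def plS (U W0 W E q : Nat) (x : SC) (ih : Bool) : Bool :=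
  cnd ih (Nat.ble (Nat.mul q (Nat.add (Nat.mul x.kd (dig U x.v.a)) (Nat.mul x.tt (dig W x.v.b))))
      (Nat.mul x.tk E)) (Nat.beq x.v.n 0) (Nat.beq (dig W0 x.v.n) 0)

/-- the plain tests at all corners of the tile -/
noncomputable def plL4 (U W0 W E q : Nat) (l : List SC) : Bool :=
  @List.rec SC (fun _ => Bool) true (fun x _ ih => plS U W0 W E q x ih) l

noncomputable def plL3 (U W0 W E q : Nat) (l : List SC) : Bool :=
  @Bool.rec (fun _ => Bool) false (plL4 U W0 W E q l) (Nat.ble 1 E)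

noncomputable def plL2 (cs : List SC) (h : Hd) (D W0 : Nat)
    (gx0 gx1 gx2 gy0 gy1 gy2 hx0 hx1 hx2 hy0 hy1 hy2 : Nat) : Bool :=
  plL3 (uu gx0 gx1 gx2 gy0 gy1 gy2) W0 (uu hx0 hx1 hx2 hy0 hy1 hy2)
    (eNum h (uu gx0 gx1 gx2 hy0 hy1 hy2) D) h.q cs

/-- the plain test at one corner of the box -/
noncomputable def plL1 (cs : List SC) (h : Hd) (x0 x1 x2 y0 y1 y2 z0 z1 z2 w0 w1 w2 D : Nat) : Bool :=
  plL2 cs h D (uu z0 z1 z2 w0 w1 w2)
    (r0 h.a h.d h.e x0 x1 x2) (r1 h.b h.f x1 x2) (Nat.mul h.c x2)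
    (r0 h.a h.d h.e y0 y1 y2) (r1 h.b h.f y1 y2) (Nat.mul h.c y2)
    (r0 h.a h.d h.e z0 z1 z2) (r1 h.b h.f z1 z2) (Nat.mul h.c z2)
    (r0 h.a h.d h.e w0 w1 w2) (r1 h.b h.f w1 w2) (Nat.mul h.c w2)

/-- the bounds -/
noncomputable def chkL (ka mu D : Nat) (r : Bool) : Bool :=
  @Bool.rec (fun _ => Bool) false
    (@Bool.rec (fun _ => Bool) false
      (@Bool.rec (fun _ => Bool) false r
        (Nat.ble (Nat.add (Nat.mul 169 (Nat.mul D D)) 1) (Nat.mul 18464 (Nat.mul ka mu))))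
      (Nat.ble mu 340282366920938463463374607431768211456))
    (Nat.ble ka 340282366920938463463374607431768211456)

noncomputable def plL0 (cs : List SC) (c : DC) (ih : Bool) : Bool :=
  chkL c.ka c.mu c.D (@Bool.rec (fun _ => Bool) false ih
    (plL1 cs c.h c.x0 c.x1 c.x2 c.y0 c.y1 c.y2 c.z0 c.z1 c.z2 c.w0 c.w1 c.w2 c.D))

noncomputable def plL (cs : List SC) (js : List DC) : Bool :=
  @List.rec DC (fun _ => Bool) true (fun c _ ih => plL0 cs c ih) js

/-- **the plain leaf at all corners of the box**, lazy -/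
noncomputable def fleafL (cs : List V) (sc : Hd) (js : List DC) : Bool :=
  scL sc.m sc.K cs sc.ts fun l => plL l js

/-! ### the group -/

/-- the test of a first vertex -/
noncomputable def rowS (Th2 O NB W0 W1 W2 MM : Nat) (a : VJ) (ih : Bool) : Bool :=
  @Bool.rec (fun _ => Bool) false ih
    (Nat.beq (Nat.land (rowN Th2 O NB W0 W1 W2 a.w0 a.w1 a.w2 a.na) MM) MM)

/-- the test of all first vertices -/
noncomputable def rowL (Th2 O NB W0 W1 W2 MM : Nat) (l : List VJ) : Bool :=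
  @List.rec VJ (fun _ => Bool) true (fun a _ ih => rowS Th2 O NB W0 W1 W2 MM a ih) l

/-- the last step -/
noncomputable def grL5 (S Th2 O MK : Nat) (as bs : List VJ) : Bool :=
  rowL Th2 O (pkO S VJ.nb bs) (pkO S VJ.w0 bs) (pkO S VJ.w1 bs) (pkO S VJ.w2 bs) (Nat.mul MK O) as

noncomputable def grL4b (p : GK) (h : Hd) (o : JK) (ps qs : List G3) : Bool :=
  grL5 p.S p.Th2 (onG p.S qs) p.MK (vjs p o h ps) (vjs p o h qs)

noncomputable def grL4 (cs : List SC) (p : GK) (h : Hd) (U W E0 R0 R1 R2 C0 C1 C2 : Nat)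
    (ps qs : List G3) : Bool :=
  grL4b p h (JK.mk (fZj cs p U W E0) (fQj cs p C0 R0) (fQj cs p C1 R1) (fQj cs p C2 R2)) ps qs

/-- the test of a singular corner -/
noncomputable def snS (W0 : Nat) (x : SC) (ih : Bool) : Bool :=
  @Bool.rec (fun _ => Bool)
    (@Bool.rec (fun _ => Bool) false ih (Nat.beq (dig W0 x.v.n) 0))
    ih (Nat.beq x.v.n 0)

/-- the tests of the singular corners -/
noncomputable def snL (W0 : Nat) (r : Bool) (l : List SC) : Bool :=
  @List.rec SC (fun _ => Bool) r (fun x _ ih => snS W0 x ih) l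

noncomputable def grL3 (cs : List SC) (p : GK) (h : Hd) (W0 Uy U8 U W E0 gx0 gx1 gx2 hx0 hx1 hx2 : Nat)
    (ps qs : List G3) : Bool :=
  @Bool.rec (fun _ => Bool) false
    (@Bool.rec (fun _ => Bool) false
      (snL W0 (grL4 cs p h U W E0 (Nat.mod (Nat.mul hx0 Uy) B9) (Nat.mod (Nat.mul hx1 Uy) B9)
        (Nat.mod (Nat.mul hx2 Uy) B9) (sdig gx0 U8) (sdig gx1 U8) (sdig gx2 U8) ps qs) cs)
      (Nat.ble E0 P200))
    (Nat.ble 1 E0)

noncomputable def grL2 (cs : List SC) (p : GK) (h : Hd) (D W0 Uy U8 : Nat)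
    (gx0 gx1 gx2 gy0 gy1 gy2 hx0 hx1 hx2 hy0 hy1 hy2 : Nat) (ps qs : List G3) : Bool :=
  grL3 cs p h W0 Uy U8 (uu gx0 gx1 gx2 gy0 gy1 gy2) (uu hx0 hx1 hx2 hy0 hy1 hy2)
    (Nat.div (eNum h (uu gx0 gx1 gx2 hy0 hy1 hy2) D) h.q) gx0 gx1 gx2 hx0 hx1 hx2 ps qs

/-- the test at one corner of the box -/
noncomputable def grL1 (cs : List SC) (p : GK) (h : Hd) (Uy U8 : Nat)
    (x0 x1 x2 y0 y1 y2 z0 z1 z2 w0 w1 w2 D : Nat) (ps qs : List G3) : Bool :=
  grL2 cs p h D (uu z0 z1 z2 w0 w1 w2) Uy U8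
    (r0 h.a h.d h.e x0 x1 x2) (r1 h.b h.f x1 x2) (Nat.mul h.c x2)
    (r0 h.a h.d h.e y0 y1 y2) (r1 h.b h.f y1 y2) (Nat.mul h.c y2)
    (r0 h.a h.d h.e z0 z1 z2) (r1 h.b h.f z1 z2) (Nat.mul h.c z2)
    (r0 h.a h.d h.e w0 w1 w2) (r1 h.b h.f w1 w2) (Nat.mul h.c w2) ps qs

noncomputable def grL0 (cs : List SC) (p : GK) (Uy U8 : Nat) (c : DC) (ih : Bool) : Bool :=
  chkL c.ka c.mu c.D (@Bool.rec (fun _ => Bool) false ih
    (grL1 cs p c.h Uy U8 c.x0 c.x1 c.x2 c.y0 c.y1 c.y2 c.z0 c.z1 c.z2 c.w0 c.w1 c.w2 c.D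
      c.ps c.qs))

noncomputable def grL (cs : List SC) (p : GK) (Uy U8 : Nat) (js : List DC) : Bool :=
  @List.rec DC (fun _ => Bool) true (fun c _ ih => grL0 cs p Uy U8 c ih) js

/-- the common numbers of the record -/
noncomputable def gkL2 (S Tp Th MK TB G : Nat) : GK :=
  GK.mk Tp (Nat.mul 2 Tp) (Nat.mul (Nat.add Tp G) B1) Th (Nat.mul 2 Th) MK TB (Nat.mul P80 TB) S

noncomputable def gkL (cs : List SC) (UU : Nat) : GK :=
  gkL2 (shS cs) (pkS SC.tk cs) (pkS (fun x => Nat.mul x.tt (dig UU x.v.b)) cs)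
    (pkS (fun _ => P639) cs) (tbS cs) (pkS SC.tt cs)

noncomputable def fmrgL2 (cs : List V) (sc : Hd) (Uy U8 UU : Nat) (js : List DC) : Bool :=
  scL sc.m sc.K cs sc.ts fun l => snL UU (grL l (gkL l UU) Uy U8 js) l

/-- **the group at all corners of the box**, lazy -/
noncomputable def fmrgL (cs : List V) (sc : Hd) (u0 u1 u2 : Nat) (js : List DC) : Bool :=
  fmrgL2 cs sc (Nat.mod (Nat.add u0 (Nat.add (Nat.mul u1 B3) (Nat.mul u2 B6))) B9)
    (Nat.mod (Nat.add (Nat.mul u0 B8) (Nat.add (Nat.mul u1 B7) (Nat.mul u2 B6))) B9)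
    (uuU u0 u1 u2) js

end Pool.Agent.Helper82.FL
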