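import Mathlib
import Pool.Agent.Helper82.FL.RawL
import Pool.Agent.Helper82.FL.JCore

/-!
# The lazy functions have the same values
-/

set_option autoImplicit false

namespace Pool.Agent.Helper82.FL

theorem brec_eq (a b : Bool) : @Bool.rec (fun _ => Bool) false b a = band a b := by
  cases a <;> rfl

theorem bor_rec (a b c : Bool) :
    @Bool.rec (fun _ => Bool) (@Bool.rec (fun _ => Bool) false c b) c a = band (bor a b) c := by
  cases a <;> cases b <;> cases c <;> rfl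

theorem band_assoc (a b c : Bool) : band (band a b) c = band a (band b c) := by
  cases a <;> cases b <;> cases c <;> rfl

theorem scL3_eq (v : V) (T kd tk tt : ℕ) (r : (List SC → Bool) → Bool) (k : List SC → Bool) :
    scL3 v T kd tk tt r k = band (Nat.ble 1 T) (band (Nat.ble kd P280) (band (Nat.ble tk P280)
      (band (Nat.ble tt 340282366920938463463374607431768211456)
        (r fun t => k (List.cons (SC.mk v kd tk tt (Nat.mul 2 tt)) t))))) := by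
  unfold scL3
  rw [brec_eq, brec_eq, brec_eq, brec_eq]

theorem scL_cons (m K : ℕ) (v : V) (cs : List V) (ts : ℕ) (k : List SC → Bool) :
    scL m K (v :: cs) ts k
      = scL2 v K (Nat.mul (Nat.mod ts 65536) v.l) (Nat.mul K v.d) (scL m K cs (nxT m ts)) k := rfl

theorem scs_cons' (m K : ℕ) (v : V) (cs : List V) (ts : ℕ) (k : List SC → Bool) :
    scs m K (v :: cs) ts k = (
      frc (Nat.mul (Nat.mod ts 65536) v.l) fun T => frc (Nat.mul K v.d) fun e =>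
      frc (Nat.mul K e) fun kd => frc (Nat.mul T e) fun tk => frc (Nat.mul T T) fun tt =>
      frc (Nat.mul 2 tt) fun t2 => frc (nxT m ts) fun ts' =>
      band (Nat.ble 1 T) (band (Nat.ble kd P280) (band (Nat.ble tk P280)
        (band (Nat.ble tt 340282366920938463463374607431768211456)
        (scs m K cs ts' fun t => k (List.cons (SC.mk v kd tk tt t2) t)))))) := rfl

theorem scL_eq (m K : ℕ) (cs : List V) : ∀ (ts : ℕ) (k : List SC → Bool),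
    scL m K cs ts k = scs m K cs ts k := by
  induction cs with
  | nil => intro ts k; rfl
  | cons v cs ih =>
    intro ts k
    rw [scs_cons', frc_pe, frc_pe, frc_pe, frc_pe, frc_pe, frc_pe, frc_pe, scL_cons]
    unfold scL2
    rw [scL3_eq, ih]

theorem cnd_eq (a b c ih : Bool) : cnd ih a b c = band (band a (bor b c)) ih := by
  cases a <;> cases b <;> cases c <;> cases ih <;> rfl

theorem plS_eq (U W0 W E q : ℕ) (x : SC) (ih : Bool) :
    plS U W0 W E q x ih = band (plT U W0 W E q x) ih := by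
  unfold plS
  rw [cnd_eq]
  unfold plT
  unfold sng
  rfl

theorem plL4_cons (U W0 W E q : ℕ) (x : SC) (l : List SC) :
    plL4 U W0 W E q (x :: l) = plS U W0 W E q x (plL4 U W0 W E q l) := rfl

theorem allS_cons' (f : SC → Bool) (x : SC) (l : List SC) :
    allS f (x :: l) = band (f x) (allS f l) := rfl

theorem plL4_eq (U W0 W E q : ℕ) (l : List SC) : plL4 U W0 W E q l = allS (plT U W0 W E q) l := by
  induction l with
  | nil => rfl
  | cons x l ih => rw [plL4_cons, allS_cons', plS_eq, ih]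

theorem plL3_eq (U W0 W E q : ℕ) (l : List SC) :
    plL3 U W0 W E q l = band (Nat.ble 1 E) (allS (plT U W0 W E q) l) := by
  unfold plL3
  rw [brec_eq, plL4_eq]

theorem plJ2_eq (cs : List SC) (h : Hd) (D W0 gx0 gx1 gx2 gy0 gy1 gy2 hx0 hx1 hx2 hy0 hy1 hy2 : ℕ) :
    plJ2 cs h D W0 gx0 gx1 gx2 gy0 gy1 gy2 hx0 hx1 hx2 hy0 hy1 hy2
     = band (Nat.ble 1 (eNum h (uu gx0 gx1 gx2 hy0 hy1 hy2) D))
        (allS (plT (uu gx0 gx1 gx2 gy0 gy1 gy2) W0 (uu hx0 hx1 hx2 hy0 hy1 hy2)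
          (eNum h (uu gx0 gx1 gx2 hy0 hy1 hy2) D) h.q) cs) := by
  unfold plJ2
  rw [frc_pe, frc_pe, frc_pe]

theorem plL2_eq (cs : List SC) (h : Hd) (D W0 gx0 gx1 gx2 gy0 gy1 gy2 hx0 hx1 hx2 hy0 hy1 hy2 : ℕ) :
    plL2 cs h D W0 gx0 gx1 gx2 gy0 gy1 gy2 hx0 hx1 hx2 hy0 hy1 hy2
      = plJ2 cs h D W0 gx0 gx1 gx2 gy0 gy1 gy2 hx0 hx1 hx2 hy0 hy1 hy2 := by
  rw [plJ2_eq]
  unfold plL2
  rw [plL3_eq]

theorem chkL_eq (ka mu D : ℕ) (r : Bool) : chkL ka mu D r = band (chk3 ka mu D) r := by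
  unfold chkL
  rw [brec_eq, brec_eq, brec_eq]
  unfold chk3
  rw [band_assoc, band_assoc]

theorem plL1_eq (cs : List SC) (h : Hd) (x0 x1 x2 y0 y1 y2 z0 z1 z2 w0 w1 w2 D : ℕ) :
    plL1 cs h x0 x1 x2 y0 y1 y2 z0 z1 z2 w0 w1 w2 D
      = plJ1 cs h x0 x1 x2 y0 y1 y2 z0 z1 z2 w0 w1 w2 D := by
  unfold plL1
  rw [plL2_eq]
  unfold plJ1
  rfl

theorem plL0_eq (cs : List SC) (c : DC) (ih : Bool) : plL0 cs c ih = band (plJ cs c) ih := by
  unfold plL0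
  rw [chkL_eq, brec_eq, plL1_eq]
  unfold plJ
  rw [band_assoc]

theorem plL_cons (l : List SC) (c : DC) (js : List DC) : plL l (c :: js) = plL0 l c (plL l js) := rfl

theorem allJ_cons' (f : DC → Bool) (c : DC) (js : List DC) :
    allJ f (c :: js) = band (f c) (allJ f js) := rfl

theorem plL_eq (l : List SC) (js : List DC) : plL l js = allJ (plJ l) js := by
  induction js with
  | nil => rfl
  | cons c js ih => rw [plL_cons, allJ_cons', plL0_eq, ih]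

/-- **the lazy plain leaf is the plain leaf** -/
theorem fleafL_eq (cs : List V) (sc : Hd) (js : List DC) : fleafL cs sc js = fleafJ cs sc js := by
  unfold fleafL
  rw [scL_eq]
  unfold fleafJ
  congr 1
  funext l
  exact plL_eq l js

/-! ### the group -/

theorem rowS_eq (Th2 O NB W0 W1 W2 MM : ℕ) (a : VJ) (ih : Bool) :
    rowS Th2 O NB W0 W1 W2 MM a ih = band (rowT Th2 O NB W0 W1 W2 MM a) ih := by
  unfold rowS
  rw [brec_eq]
  unfold rowT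
  rfl

theorem rowL_cons (Th2 O NB W0 W1 W2 MM : ℕ) (a : VJ) (l : List VJ) :
    rowL Th2 O NB W0 W1 W2 MM (a :: l)
      = rowS Th2 O NB W0 W1 W2 MM a (rowL Th2 O NB W0 W1 W2 MM l) := rfl

theorem allVJ_cons' (f : VJ → Bool) (a : VJ) (l : List VJ) :
    allVJ f (a :: l) = band (f a) (allVJ f l) := rfl

theorem rowL_eq (Th2 O NB W0 W1 W2 MM : ℕ) (l : List VJ) :
    rowL Th2 O NB W0 W1 W2 MM l = allVJ (rowT Th2 O NB W0 W1 W2 MM) l := by
  induction l with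
  | nil => rfl
  | cons a l ih => rw [rowL_cons, allVJ_cons', rowS_eq, ih]

theorem prsT_eq (S Th2 O MM : ℕ) (as bs : List VJ) :
    prsT S Th2 O MM as bs = allVJ (rowT Th2 O (pkO S VJ.nb bs) (pkO S VJ.w0 bs) (pkO S VJ.w1 bs)
      (pkO S VJ.w2 bs) MM) as := by
  unfold prsT
  rw [frc_pe, frc_pe, frc_pe, frc_pe]

theorem grJ5_eq (p : GK) (o : JK) (h : Hd) (ps qs : List G3) :
    grJ5 p o h ps qs = prsT p.S p.Th2 (onG p.S qs) (Nat.mul p.MK (onG p.S qs)) (vjs p o h ps)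
      (vjs p o h qs) := by
  unfold grJ5
  rw [frc_pe, frc_pe]

theorem grL4b_eq (p : GK) (h : Hd) (o : JK) (ps qs : List G3) :
    grL4b p h o ps qs = grJ5 p o h ps qs := by
  rw [grJ5_eq, prsT_eq]
  unfold grL4b
  unfold grL5
  rw [rowL_eq]

theorem grJ4_eq (cs : List SC) (p : GK) (h : Hd) (U W E0 R0 R1 R2 C0 C1 C2 : ℕ) (ps qs : List G3) :
    grJ4 cs p h U W E0 R0 R1 R2 C0 C1 C2 ps qs
      = grJ5 p (JK.mk (fZj cs p U W E0) (fQj cs p C0 R0) (fQj cs p C1 R1) (fQj cs p C2 R2)) h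
        ps qs := by
  unfold grJ4
  rw [frc_pe, frc_pe, frc_pe, frc_pe]

theorem grL4_eq (cs : List SC) (p : GK) (h : Hd) (U W E0 R0 R1 R2 C0 C1 C2 : ℕ) (ps qs : List G3) :
    grL4 cs p h U W E0 R0 R1 R2 C0 C1 C2 ps qs = grJ4 cs p h U W E0 R0 R1 R2 C0 C1 C2 ps qs := by
  rw [grJ4_eq]
  unfold grL4
  rw [grL4b_eq]

theorem snS_eq (W0 : ℕ) (x : SC) (r : Bool) : snS W0 x r = band (sng W0 x.v) r := by
  unfold snS
  rw [bor_rec]
  unfold sng
  rfl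

theorem snL_cons (W0 : ℕ) (r : Bool) (x : SC) (l : List SC) :
    snL W0 r (x :: l) = snS W0 x (snL W0 r l) := rfl

theorem snL_eq (W0 : ℕ) (r : Bool) (l : List SC) :
    snL W0 r l = band (allS (fun x => sng W0 x.v) l) r := by
  induction l with
  | nil => rfl
  | cons x l ih => rw [snL_cons, allS_cons', snS_eq, ih, band_assoc]

theorem grJ3_eq (cs : List SC) (p : GK) (h : Hd)
    (W0 Uy U8 U W E0 gx0 gx1 gx2 hx0 hx1 hx2 : ℕ) (ps qs : List G3) :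
    grJ3 cs p h W0 Uy U8 U W E0 gx0 gx1 gx2 hx0 hx1 hx2 ps qs
      = band (Nat.ble 1 E0) (band (Nat.ble E0 P200) (band (allS (fun x => sng W0 x.v) cs)
        (grJ4 cs p h U W E0 (Nat.mod (Nat.mul hx0 Uy) B9) (Nat.mod (Nat.mul hx1 Uy) B9)
          (Nat.mod (Nat.mul hx2 Uy) B9) (sdig gx0 U8) (sdig gx1 U8) (sdig gx2 U8) ps qs))) := by
  unfold grJ3
  rw [frc_pe, frc_pe, frc_pe, frc_pe, frc_pe, frc_pe]

theorem grL3_eq (cs : List SC) (p : GK) (h : Hd)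
    (W0 Uy U8 U W E0 gx0 gx1 gx2 hx0 hx1 hx2 : ℕ) (ps qs : List G3) :
    grL3 cs p h W0 Uy U8 U W E0 gx0 gx1 gx2 hx0 hx1 hx2 ps qs
      = grJ3 cs p h W0 Uy U8 U W E0 gx0 gx1 gx2 hx0 hx1 hx2 ps qs := by
  rw [grJ3_eq]
  unfold grL3
  rw [brec_eq, brec_eq, snL_eq, grL4_eq]

theorem grJ2_eq (cs : List SC) (p : GK) (h : Hd)
    (D W0 Uy U8 gx0 gx1 gx2 gy0 gy1 gy2 hx0 hx1 hx2 hy0 hy1 hy2 : ℕ) (ps qs : List G3) :
    grJ2 cs p h D W0 Uy U8 gx0 gx1 gx2 gy0 gy1 gy2 hx0 hx1 hx2 hy0 hy1 hy2 ps qs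
      = grJ3 cs p h W0 Uy U8 (uu gx0 gx1 gx2 gy0 gy1 gy2) (uu hx0 hx1 hx2 hy0 hy1 hy2)
        (Nat.div (eNum h (uu gx0 gx1 gx2 hy0 hy1 hy2) D) h.q) gx0 gx1 gx2 hx0 hx1 hx2 ps qs := by
  unfold grJ2
  rw [frc_pe, frc_pe, frc_pe]

theorem grL2_eq (cs : List SC) (p : GK) (h : Hd)
    (D W0 Uy U8 gx0 gx1 gx2 gy0 gy1 gy2 hx0 hx1 hx2 hy0 hy1 hy2 : ℕ) (ps qs : List G3) :
    grL2 cs p h D W0 Uy U8 gx0 gx1 gx2 gy0 gy1 gy2 hx0 hx1 hx2 hy0 hy1 hy2 ps qs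
      = grJ2 cs p h D W0 Uy U8 gx0 gx1 gx2 gy0 gy1 gy2 hx0 hx1 hx2 hy0 hy1 hy2 ps qs := by
  rw [grJ2_eq]
  unfold grL2
  rw [grL3_eq]

theorem grL1_eq (cs : List SC) (p : GK) (h : Hd) (Uy U8 : ℕ)
    (x0 x1 x2 y0 y1 y2 z0 z1 z2 w0 w1 w2 D : ℕ) (ps qs : List G3) :
    grL1 cs p h Uy U8 x0 x1 x2 y0 y1 y2 z0 z1 z2 w0 w1 w2 D ps qs
      = grJ1 cs p h Uy U8 x0 x1 x2 y0 y1 y2 z0 z1 z2 w0 w1 w2 D ps qs := by
  unfold grL1
  rw [grL2_eq]
  unfold grJ1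
  rfl

theorem grL0_eq (cs : List SC) (p : GK) (Uy U8 : ℕ) (c : DC) (ih : Bool) :
    grL0 cs p Uy U8 c ih = band (grJ cs p Uy U8 c) ih := by
  unfold grL0
  rw [chkL_eq, brec_eq, grL1_eq]
  unfold grJ
  rw [band_assoc]

theorem grL_cons (l : List SC) (p : GK) (Uy U8 : ℕ) (c : DC) (js : List DC) :
    grL l p Uy U8 (c :: js) = grL0 l p Uy U8 c (grL l p Uy U8 js) := rfl

theorem grL_eq (l : List SC) (p : GK) (Uy U8 : ℕ) (js : List DC) :
    grL l p Uy U8 js = allJ (grJ l p Uy U8) js := by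
  induction js with
  | nil => rfl
  | cons c js ih => rw [grL_cons, allJ_cons', grL0_eq, ih]

theorem gkL_eq (l : List SC) (UU : ℕ) : gkL l UU = gkR l UU := by
  unfold gkL
  unfold gkL2
  unfold gkR
  rfl

theorem fmrgJ_eq (cs : List V) (sc : Hd) (u0 u1 u2 : ℕ) (js : List DC) :
    fmrgJ cs sc u0 u1 u2 js = (scs sc.m sc.K cs sc.ts fun l =>
      band (allS (fun x => sng (uuU u0 u1 u2) x.v) l) (gk1 l (uuU u0 u1 u2) fun p =>
        allJ (grJ l p (Nat.mod (Nat.add u0 (Nat.add (Nat.mul u1 B3) (Nat.mul u2 B6))) B9)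
        (Nat.mod (Nat.add (Nat.mul u0 B8) (Nat.add (Nat.mul u1 B7) (Nat.mul u2 B6))) B9)) js)) := by
  unfold fmrgJ
  rw [frc_pe, frc_pe, frc_pe]

/-- **the lazy group is the group** -/
theorem fmrgL_eq (cs : List V) (sc : Hd) (u0 u1 u2 : ℕ) (js : List DC) :
    fmrgL cs sc u0 u1 u2 js = fmrgJ cs sc u0 u1 u2 js := by
  rw [fmrgJ_eq]
  unfold fmrgL
  unfold fmrgL2
  rw [scL_eq]
  congr 1
  funext l
  rw [snL_eq, gk1_eq, gkL_eq, grL_eq]

end Pool.Agent.Helper82.FL
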