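import Mathlib
import Pool.Agent.Helper82.FL.TriG

/-!
# The leaf lemma for the completed basis

The rows of `(F | N)` are the vectors of a basis with one vector left out: `Fᵀ H F = Q`,
`Nᵀ H N = 1`, `Fᵀ H N = 0`.
-/

set_option autoImplicit false

namespace Pool.Agent.Helper82.FL.G

open Matrix Pool.Agent.Helper28.TT

section

variable {n : Type*} [Fintype n] [DecidableEq n]

/-- duality with a weight on the other side -/
theorem trace_leW (Y P R H Hi : Matrix n n ℝ) (hPR : P * R = 1) (hRP : R * P = 1) (hP : Pᵀ = P)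
    (hR : R.PosSemidef) (hH : H.PosSemidef) (hHi : H * Hi = 1) (hHis : Hiᵀ = Hi) :
    2 * trace Y ≤ trace (P * Hi) + trace (R * (Y * H * Yᵀ)) := by
  have hHi' : Hi * H = 1 := mul_eq_one_comm.mp hHi
  have h0 := trace_conj_nonneg R H (Y - P * Hi)ᵀ hR hH
  rw [Matrix.transpose_transpose] at h0
  have h1 : (Y - P * Hi) * H * (Y - P * Hi)ᵀ = Y * H * Yᵀ - Y * P - P * Yᵀ + P * Hi * P := by
    rw [Matrix.transpose_sub, Matrix.transpose_mul, hP, hHis, Matrix.sub_mul, Matrix.mul_sub,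
      Matrix.sub_mul, Matrix.sub_mul]
    have e1 : Y * H * (Hi * P) = Y * P := by
      calc Y * H * (Hi * P) = Y * (H * Hi) * P := by simp only [Matrix.mul_assoc]
        _ = _ := by rw [hHi, Matrix.mul_one]
    have e2 : P * Hi * H * Yᵀ = P * Yᵀ := by
      calc P * Hi * H * Yᵀ = P * (Hi * H) * Yᵀ := by simp only [Matrix.mul_assoc]
        _ = _ := by rw [hHi', Matrix.mul_one]
    have e3 : P * Hi * H * (Hi * P) = P * Hi * P := by
      calc P * Hi * H * (Hi * P) = P * Hi * (H * Hi) * P := by simp only [Matrix.mul_assoc]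
        _ = _ := by rw [hHi, Matrix.mul_one]
    rw [e1, e2, e3]
    abel
  rw [h1, Matrix.mul_add, Matrix.mul_sub, Matrix.mul_sub, trace_add, trace_sub, trace_sub] at h0
  have e1 : trace (R * (Y * P)) = trace Y := by
    rw [trace_mul_comm, Matrix.mul_assoc, hPR, Matrix.mul_one]
  have e2 : trace (R * (P * Yᵀ)) = trace Y := by
    rw [← Matrix.mul_assoc, hRP, Matrix.one_mul, trace_transpose]
  have e3 : trace (R * (P * Hi * P)) = trace (P * Hi) := by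
    rw [← Matrix.mul_assoc, ← Matrix.mul_assoc, hRP, Matrix.one_mul, trace_mul_comm]
  rw [e1, e2, e3] at h0
  linarith

/-- the quadratic part -/
theorem quad_le {ι : Type*} [Fintype ι] (C M : Matrix n (Fin 3) ℝ)
    (Q Z : Matrix (Fin 3) (Fin 3) ℝ) (R : Matrix n n ℝ) (hZ : Q * Z = 1) (hZs : Zᵀ = Z)
    (hR : R.PosSemidef) (lam : ι → ℝ) (hlam : ∀ v, 0 ≤ lam v)
    (hsum : ∑ v, lam v = 1) (A : ι → Matrix (Fin 3) (Fin 3) ℝ) (X : ι → Matrix (Fin 3) n ℝ)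
    (hF : Q = ∑ v, lam v • A v)
    (hA : ∀ v, (A v).PosSemidef) (hX : ∀ v, A v * X v = Mᵀ) (K : ℝ)
    (hK : ∀ v, trace (R * (C * A v * Cᵀ + C * Mᵀ + M * Cᵀ + M * X v)) ≤ K) :
    trace (R * (C * Q * Cᵀ + C * Mᵀ + M * Cᵀ + M * Z * Mᵀ)) ≤ K := by
  have hZA : Z * Q = 1 := mul_eq_one_comm.mp hZ
  have h4 : ∀ v, 0 ≤ trace (R * (M * X v)) - 2 * trace (R * (M * Z * Mᵀ)) +
      trace (R * (M * Z * A v * Z * Mᵀ)) := by
    intro v
    have h5 := trace_conj_nonneg R (A v) (X v - Z * Mᵀ) hR (hA v)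
    have hAs : (A v)ᵀ = A v := by
      have := (hA v).isHermitian
      simpa [Matrix.IsHermitian] using this
    have hXt : (X v)ᵀ * A v = M := by
      have := congrArg transpose (hX v)
      simpa [Matrix.transpose_mul, hAs] using this
    have h6 : (X v - Z * Mᵀ)ᵀ * A v * (X v - Z * Mᵀ) =
        M * X v - M * Z * Mᵀ - M * Z * Mᵀ + M * Z * A v * Z * Mᵀ := by
      rw [Matrix.transpose_sub, Matrix.transpose_mul, hZs, Matrix.transpose_transpose,
        Matrix.sub_mul, hXt, Matrix.sub_mul, Matrix.mul_sub, Matrix.mul_sub]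
      have e1 : M * Z * A v * X v = M * Z * Mᵀ := by rw [Matrix.mul_assoc, hX v]
      rw [e1]
      simp only [Matrix.mul_assoc]
      abel
    rw [h6] at h5
    simp only [Matrix.mul_add, Matrix.mul_sub, trace_add, trace_sub] at h5
    linarith
  have h7 : ∑ v, lam v * trace (R * (M * Z * A v * Z * Mᵀ)) = trace (R * (M * Z * Mᵀ)) := by
    have e1 : ∑ v, lam v * trace (R * (M * Z * A v * Z * Mᵀ)) =
        trace (R * (M * Z * (∑ v, lam v • A v) * Z * Mᵀ)) := by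
      rw [Matrix.mul_sum, Matrix.sum_mul, Matrix.sum_mul, Matrix.mul_sum, trace_sum]
      refine Finset.sum_congr rfl fun v _ => ?_
      rw [Matrix.mul_smul, Matrix.smul_mul, Matrix.smul_mul, Matrix.mul_smul, trace_smul,
        smul_eq_mul]
    rw [e1, ← hF]
    congr 2
    rw [Matrix.mul_assoc M, hZA, Matrix.mul_one]
  have h8 : ∑ v, lam v * trace (R * (C * A v * Cᵀ)) = trace (R * (C * Q * Cᵀ)) := by
    rw [hF, Matrix.mul_sum, Matrix.sum_mul, Matrix.mul_sum, trace_sum]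
    refine Finset.sum_congr rfl fun v _ => ?_
    rw [Matrix.mul_smul, Matrix.smul_mul, Matrix.mul_smul, trace_smul, smul_eq_mul]
  have h10 : ∑ v, lam v * trace (R * (C * A v * Cᵀ + C * Mᵀ + M * Cᵀ + M * X v)) ≤ K := by
    calc ∑ v, lam v * trace (R * (C * A v * Cᵀ + C * Mᵀ + M * Cᵀ + M * X v))
        ≤ ∑ v, lam v * K := Finset.sum_le_sum fun v _ =>
          mul_le_mul_of_nonneg_left (hK v) (hlam v)
      _ = K := by rw [← Finset.sum_mul, hsum, one_mul]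
  have h11 : ∑ v, lam v * (trace (R * (M * X v)) - 2 * trace (R * (M * Z * Mᵀ)) +
      trace (R * (M * Z * A v * Z * Mᵀ))) ≥ 0 :=
    Finset.sum_nonneg fun v _ => mul_nonneg (hlam v) (h4 v)
  have h12 : ∑ v, lam v * (trace (R * (M * X v)) - 2 * trace (R * (M * Z * Mᵀ)) +
      trace (R * (M * Z * A v * Z * Mᵀ))) =
      ∑ v, lam v * trace (R * (M * X v)) - trace (R * (M * Z * Mᵀ)) := by
    have e : ∀ v, lam v * (trace (R * (M * X v)) - 2 * trace (R * (M * Z * Mᵀ)) +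
        trace (R * (M * Z * A v * Z * Mᵀ))) = lam v * trace (R * (M * X v)) -
        lam v * (2 * trace (R * (M * Z * Mᵀ))) +
        lam v * trace (R * (M * Z * A v * Z * Mᵀ)) := fun v => by ring
    rw [Finset.sum_congr rfl fun v _ => e v, Finset.sum_add_distrib, Finset.sum_sub_distrib, h7,
      ← Finset.sum_mul, hsum]
    ring
  have h13 : ∑ v, lam v * trace (R * (C * A v * Cᵀ + C * Mᵀ + M * Cᵀ + M * X v)) =
      trace (R * (C * Q * Cᵀ)) + trace (R * (C * Mᵀ)) + trace (R * (M * Cᵀ)) +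
      ∑ v, lam v * trace (R * (M * X v)) := by
    have e : ∀ v, lam v * trace (R * (C * A v * Cᵀ + C * Mᵀ + M * Cᵀ + M * X v)) =
        lam v * trace (R * (C * A v * Cᵀ)) + lam v * (trace (R * (C * Mᵀ)) +
        trace (R * (M * Cᵀ))) + lam v * trace (R * (M * X v)) := by
      intro v
      simp only [Matrix.mul_add, trace_add]
      ring
    rw [Finset.sum_congr rfl fun v _ => e v, Finset.sum_add_distrib, Finset.sum_add_distrib, h8,
      ← Finset.sum_mul, hsum]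
    ring
  simp only [Matrix.mul_add, trace_add]
  rw [h13] at h10
  rw [h12] at h11
  linarith

variable {p : Type*} [Fintype p] [DecidableEq p]

/-- **soundness of a leaf** for the completed basis -/
theorem leaf_boundW {ι : Type*} [Fintype ι] (F C M : Matrix n (Fin 3) ℝ) (N B : Matrix n p ℝ)
    (H Hi : Matrix n n ℝ) (hH : H.PosSemidef) (hHi : H * Hi = 1) (hHis : Hiᵀ = Hi)
    (Z : Matrix (Fin 3) (Fin 3) ℝ) (P R : Matrix n n ℝ) (hZ : (Fᵀ * H * F) * Z = 1)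
    (hN : Nᵀ * H * N = 1) (hFN : Fᵀ * H * N = 0)
    (hPR : P * R = 1) (hP : Pᵀ = P) (hR : R.PosSemidef) (lam : ι → ℝ) (hlam : ∀ v, 0 ≤ lam v)
    (hsum : ∑ v, lam v = 1) (A : ι → Matrix (Fin 3) (Fin 3) ℝ) (X : ι → Matrix (Fin 3) n ℝ)
    (hF : Fᵀ * H * F = ∑ v, lam v • A v)
    (hA : ∀ v, (A v).PosSemidef) (hX : ∀ v, A v * X v = Mᵀ) (K : ℝ)
    (hK : ∀ v, trace (R * (C * A v * Cᵀ + C * Mᵀ + M * Cᵀ + M * X v)) ≤ K) :
    2 * (trace (Fᵀ * C) + trace ((F * Z)ᵀ * M) + trace (Nᵀ * B)) ≤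
      trace (P * Hi) + trace (R * (B * Bᵀ)) + K := by
  have hRP : R * P = 1 := mul_eq_one_comm.mp hPR
  have hHs : Hᵀ = H := by
    have := hH.isHermitian
    simpa [Matrix.IsHermitian] using this
  obtain ⟨Q, hQ⟩ : ∃ Q, Q = Fᵀ * H * F := ⟨_, rfl⟩
  have hQs : Qᵀ = Q := by
    rw [hQ, Matrix.transpose_mul, Matrix.transpose_mul, Matrix.transpose_transpose, hHs,
      Matrix.mul_assoc]
  have hNF : Nᵀ * H * F = 0 := by
    have h1 := congrArg transpose hFN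
    rw [Matrix.transpose_mul, Matrix.transpose_mul, Matrix.transpose_transpose, hHs,
      Matrix.transpose_zero, ← Matrix.mul_assoc] at h1
    exact h1
  rw [← hQ] at hZ hF
  have hZA : Z * Q = 1 := mul_eq_one_comm.mp hZ
  have hZs : Zᵀ = Z := by
    have h1 : Zᵀ * Q = 1 := by
      have := congrArg transpose hZ
      rw [Matrix.transpose_mul, hQs, Matrix.transpose_one] at this
      exact this
    calc Zᵀ = Zᵀ * (Q * Z) := by rw [hZ, Matrix.mul_one]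
      _ = (Zᵀ * Q) * Z := by simp only [Matrix.mul_assoc]
      _ = Z := by rw [h1, Matrix.one_mul]
  obtain ⟨Y, hY⟩ : ∃ Y : Matrix n n ℝ, Y = (C + M * Z) * Fᵀ + B * Nᵀ := ⟨_, rfl⟩
  have h1 : trace (Fᵀ * C) + trace ((F * Z)ᵀ * M) + trace (Nᵀ * B) = trace Y := by
    rw [hY, trace_add, Matrix.add_mul, trace_add, trace_mul_comm, Matrix.transpose_mul, hZs]
    congr 1
    · congr 1
      rw [Matrix.mul_assoc, trace_mul_comm Z, trace_mul_comm (M * Z) Fᵀ, Matrix.mul_assoc]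
    · exact trace_mul_comm _ _
  have h2 := trace_leW Y P R H Hi hPR hRP hP hR hH hHi hHis
  have h3 : Y * H * Yᵀ = (C * Q * Cᵀ + C * Mᵀ + M * Cᵀ + M * Z * Mᵀ) + B * Bᵀ := by
    have e1 : Yᵀ = F * (Cᵀ + Z * Mᵀ) + N * Bᵀ := by
      rw [hY, Matrix.transpose_add, Matrix.transpose_mul, Matrix.transpose_mul,
        Matrix.transpose_transpose, Matrix.transpose_transpose, Matrix.transpose_add,
        Matrix.transpose_mul, hZs]
    rw [e1, hY]
    have e2 : ((C + M * Z) * Fᵀ + B * Nᵀ) * H * (F * (Cᵀ + Z * Mᵀ) + N * Bᵀ) =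
        (C + M * Z) * (Fᵀ * H * F) * (Cᵀ + Z * Mᵀ) + (C + M * Z) * (Fᵀ * H * N) * Bᵀ +
        (B * (Nᵀ * H * F) * (Cᵀ + Z * Mᵀ) + B * (Nᵀ * H * N) * Bᵀ) := by
      simp only [Matrix.add_mul, Matrix.mul_add, Matrix.mul_assoc]
      abel
    rw [e2, hFN, hNF, hN, ← hQ, Matrix.mul_zero, Matrix.mul_zero, Matrix.zero_mul, Matrix.zero_mul,
      Matrix.mul_one, add_zero, zero_add]
    congr 1
    rw [Matrix.add_mul C, Matrix.mul_add, Matrix.add_mul, Matrix.add_mul]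
    have e3 : M * Z * Q = M := by rw [Matrix.mul_assoc, hZA, Matrix.mul_one]
    have e4 : C * Q * (Z * Mᵀ) = C * Mᵀ := by
      rw [Matrix.mul_assoc, ← Matrix.mul_assoc Q, hZ, Matrix.one_mul]
    rw [e3, e4, ← Matrix.mul_assoc M Z]
    abel
  have h4 := quad_le C M Q Z R hZ hZs hR lam hlam hsum A X hF hA hX K hK
  rw [h3, Matrix.mul_add, trace_add] at h2
  rw [h1]
  linarith

/-- the basic inequality with given scales -/
theorem cone_boundW {ι : Type*} [Fintype ι] (F C M : Matrix n (Fin 3) ℝ) (N B : Matrix n p ℝ)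
    (H Hi : Matrix n n ℝ) (hH : H.PosSemidef) (hHi : H * Hi = 1) (hHis : Hiᵀ = Hi)
    (Z : Matrix (Fin 3) (Fin 3) ℝ) (P R : Matrix n n ℝ) (hZ : (Fᵀ * H * F) * Z = 1)
    (hN : Nᵀ * H * N = 1) (hFN : Fᵀ * H * N = 0)
    (hPR : P * R = 1) (hP : Pᵀ = P) (hR : R.PosSemidef)
    (lam : ι → ℝ) (hlam : ∀ v, 0 ≤ lam v) (A : ι → Matrix (Fin 3) (Fin 3) ℝ)
    (X : ι → Matrix (Fin 3) n ℝ)
    (hF : Fᵀ * H * F = ∑ v, lam v • A v) (hA : ∀ v, (A v).PosSemidef)
    (hX : ∀ v, A v * X v = Mᵀ)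
    (s : ι → ℝ) (hn : ∀ v, 0 < s v) (D D1 x κ μ : ℝ)
    (hK : ∀ v, trace (P * Hi) + trace (R * (B * Bᵀ)) + trace (R * (C * Mᵀ + M * Cᵀ)) +
      (s v)⁻¹ * trace (R * (C * A v * Cᵀ)) + s v * trace (R * (M * X v)) ≤ D1)
    (hx : D1 ≤ D + 2 * x)
    (hκ0 : 0 ≤ κ) (hμ0 : 0 ≤ μ) (hD : D ^ 2 < 16 * (κ * μ)) :
    0 < ∑ v, lam v * s v ∧
    trace (Fᵀ * C) + (∑ v, lam v * s v) * trace ((F * Z)ᵀ * M) +
      Real.sqrt (∑ v, lam v * s v) * trace (Nᵀ * B) <
      κ + (∑ v, lam v * s v) * μ + Real.sqrt (∑ v, lam v * s v) * x := by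
  obtain ⟨q, hq⟩ : ∃ q : ℝ, q = ∑ v, lam v * s v := ⟨_, rfl⟩
  rw [← hq]
  have hq0 : 0 ≤ q := by
    rw [hq]
    exact Finset.sum_nonneg fun v _ => mul_nonneg (hlam v) (hn v).le
  have hq1 : q ≠ 0 := by
    intro h0
    rw [hq, Finset.sum_eq_zero_iff_of_nonneg fun v _ => mul_nonneg (hlam v) (hn v).le] at h0
    have h1 : Fᵀ * H * F = 0 := by
      rw [hF]
      refine Finset.sum_eq_zero fun v hv => ?_
      have h3 : lam v = 0 := by
        rcases mul_eq_zero.mp (h0 v hv) with h | h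
        · exact h
        · exact absurd h (hn v).ne'
      rw [h3, zero_smul]
    rw [h1, Matrix.zero_mul] at hZ
    have h2 := congrFun (congrFun hZ 0) 0
    simp at h2
  have hqp : 0 < q := lt_of_le_of_ne hq0 (Ne.symm hq1)
  obtain ⟨w, hs⟩ : ∃ w : ℝ, w = Real.sqrt q := ⟨_, rfl⟩
  rw [← hs]
  have hs0 : 0 < w := by rw [hs]; exact Real.sqrt_pos.mpr hqp
  have hss : w * w = q := by rw [hs]; exact Real.mul_self_sqrt hq0
  have hF1 : (w⁻¹ • F)ᵀ * H * (w⁻¹ • F) = ∑ v, (lam v * s v / q) • ((s v)⁻¹ • A v) := by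
    rw [Matrix.transpose_smul, Matrix.smul_mul, Matrix.smul_mul, Matrix.mul_smul, smul_smul, hF,
      Finset.smul_sum]
    refine Finset.sum_congr rfl fun v _ => ?_
    rw [smul_smul, smul_smul]
    congr 1
    rw [← hss]
    have := (hn v).ne'
    have := hs0.ne'
    field_simp
  have hZ1 : ((w⁻¹ • F)ᵀ * H * (w⁻¹ • F)) * (q • Z) = 1 := by
    simp only [Matrix.transpose_smul, Matrix.smul_mul, Matrix.mul_smul, smul_smul, hZ]
    rw [← hss]
    convert one_smul ℝ (1 : Matrix (Fin 3) (Fin 3) ℝ) using 2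
    have := hs0.ne'
    field_simp
  have hFN1 : (w⁻¹ • F)ᵀ * H * N = 0 := by
    rw [Matrix.transpose_smul, Matrix.smul_mul, Matrix.smul_mul, hFN, smul_zero]
  have key := leaf_boundW (w⁻¹ • F) C M N B H Hi hH hHi hHis (q • Z) P R hZ1 hN hFN1 hPR hP hR
    (fun v => lam v * s v / q) (fun v => div_nonneg (mul_nonneg (hlam v) (hn v).le) hq0)
    (by rw [← Finset.sum_div, ← hq, div_self hq1])
    (fun v => (s v)⁻¹ • A v) (fun v => (s v) • X v) hF1
    (fun v => (hA v).smul (inv_nonneg.2 (hn v).le))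
    (fun v => by
      rw [Matrix.smul_mul, Matrix.mul_smul, smul_smul, inv_mul_cancel₀ (hn v).ne', one_smul, hX v])
    (D1 - trace (P * Hi) - trace (R * (B * Bᵀ))) (fun v => by
      have e1 : trace (R * (C * ((s v)⁻¹ • A v) * Cᵀ + C * Mᵀ + M * Cᵀ + M * ((s v) • X v))) =
          (s v)⁻¹ * trace (R * (C * A v * Cᵀ)) + trace (R * (C * Mᵀ + M * Cᵀ)) +
          (s v) * trace (R * (M * X v)) := by
        simp only [Matrix.mul_smul, Matrix.smul_mul, Matrix.mul_add, trace_add, trace_smul,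
          smul_eq_mul]
        ring
      rw [e1]
      have := hK v
      linarith)
  have e2 : trace ((w⁻¹ • F)ᵀ * C) = w⁻¹ * trace (Fᵀ * C) := by
    rw [Matrix.transpose_smul, Matrix.smul_mul, trace_smul, smul_eq_mul]
  have e3 : trace ((w⁻¹ • F * (q • Z))ᵀ * M) = w * trace ((F * Z)ᵀ * M) := by
    rw [Matrix.smul_mul, Matrix.mul_smul, smul_smul, Matrix.transpose_smul, Matrix.smul_mul,
      trace_smul, smul_eq_mul, ← hss]
    congr 1
    have := hs0.ne'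
    field_simp
  rw [e2, e3] at key
  have h9 : 0 ≤ w⁻¹ * κ + w * μ := by positivity
  have h7 : 4 * (κ * μ) ≤ (w⁻¹ * κ + w * μ) ^ 2 := by
    have h8 : (w⁻¹ * κ) * (w * μ) = κ * μ := by
      have := hs0.ne'
      field_simp
    nlinarith [sq_nonneg (w⁻¹ * κ - w * μ)]
  have h10 : D < 2 * (w⁻¹ * κ + w * μ) := by
    by_contra hcon
    push Not at hcon
    nlinarith
  have h11 : w⁻¹ * trace (Fᵀ * C) + w * trace ((F * Z)ᵀ * M) + trace (Nᵀ * B) <
      w⁻¹ * κ + w * μ + x := by linarith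
  refine ⟨hqp, ?_⟩
  have h12 := mul_lt_mul_of_pos_left h11 hs0
  have h13 : w * (w⁻¹ * trace (Fᵀ * C) + w * trace ((F * Z)ᵀ * M) + trace (Nᵀ * B)) =
      trace (Fᵀ * C) + q * trace ((F * Z)ᵀ * M) + w * trace (Nᵀ * B) := by
    rw [← hss]
    have := hs0.ne'
    field_simp
  have h14 : w * (w⁻¹ * κ + w * μ + x) = κ + q * μ + w * x := by
    rw [← hss]
    have := hs0.ne'
    field_simp
  rw [h13, h14] at h12
  exact h12

/-- the number `E` -/
noncomputable def EW (L T Hi : Matrix n n ℝ) (δ rho D : ℝ) (C M : Matrix n (Fin 3) ℝ)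
    (B : Matrix n p ℝ) : ℝ :=
  rho * δ ^ 2 * D - rho ^ 2 * trace (T * Tᵀ * Hi) - 2 * δ ^ 2 * trace ((L * C) * (L * M)ᵀ) -
    δ ^ 2 * trace ((L * B) * (L * B)ᵀ)

theorem PP_traceW (T Hi : Matrix n n ℝ) (δ rho : ℝ) :
    trace (PP T δ rho * Hi) = rho * trace (T * Tᵀ * Hi) / δ ^ 2 := by
  unfold PP
  rw [Matrix.smul_mul, trace_smul, smul_eq_mul]
  ring

theorem trBB (L : Matrix n n ℝ) (rho : ℝ) (B : Matrix n p ℝ) :
    trace (RR L rho * (B * Bᵀ)) = rho⁻¹ * trace ((L * B) * (L * B)ᵀ) := by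
  unfold RR
  rw [Matrix.smul_mul, trace_smul, smul_eq_mul, Matrix.transpose_mul]
  congr 1
  calc trace (Lᵀ * L * (B * Bᵀ)) = trace (Lᵀ * (L * B * Bᵀ)) := by simp only [Matrix.mul_assoc]
    _ = trace ((L * B * Bᵀ) * Lᵀ) := trace_mul_comm _ _
    _ = _ := by simp only [Matrix.mul_assoc]

end

section

variable {n : Type*} [Fintype n] [DecidableEq n] {p : Type*} [Fintype p] [DecidableEq p]
  {ι : Type*} [Fintype ι] (F : Matrix n (Fin 3) ℝ) (N : Matrix n p ℝ)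
  (H Hi : Matrix n n ℝ) (hH : H.PosSemidef) (hHi : H * Hi = 1) (hHis : Hiᵀ = Hi)
  (Z : Matrix (Fin 3) (Fin 3) ℝ)
  (hZ : (Fᵀ * H * F) * Z = 1) (hN : Nᵀ * H * N = 1) (hFN : Fᵀ * H * N = 0)
  (lam : ι → ℝ) (hlam : ∀ v, 0 ≤ lam v) (A B : ι → Matrix (Fin 3) (Fin 3) ℝ) (d : ι → ℝ)
  (hd : ∀ v, 0 < d v) (hpsd : ∀ v, (A v).PosSemidef) (C M : Matrix n (Fin 3) ℝ)
  (E : Matrix n p ℝ)
  (hinv : ∀ v, A v * (B v * Mᵀ) = (d v) • Mᵀ)
  (hF : Fᵀ * H * F = ∑ v, lam v • A v) (L T : Matrix n n ℝ) (δ : ℝ) (hδ : 0 < δ)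
  (hLT : L * T = δ • (1 : Matrix n n ℝ))
  (rho D D1 x κ μ : ℝ) (hr : 0 < rho) (hκ0 : 0 ≤ κ) (hμ0 : 0 ≤ μ) (hD : D ^ 2 < 16 * (κ * μ))
  (hx : D1 ≤ D + 2 * x)

include hH hHi hHis hZ hN hFN hlam hd hpsd hinv hF hδ hLT hr hκ0 hμ0 hD hx

/-- **the test with given scales** -/
theorem tri_testW (s : ι → ℝ) (hs : ∀ v, 0 < s v)
    (hT : ∀ v, δ ^ 2 * (d v * qa L (A v) C + (s v) ^ 2 * qa L (B v) M) ≤
      s v * d v * EW L T Hi δ rho D1 C M E) :
    0 < ∑ v, lam v * s v ∧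
    trace (Fᵀ * C) + (∑ v, lam v * s v) * trace ((F * Z)ᵀ * M) +
      Real.sqrt (∑ v, lam v * s v) * trace (Nᵀ * E) <
      κ + (∑ v, lam v * s v) * μ + Real.sqrt (∑ v, lam v * s v) * x := by
  refine cone_boundW F C M N E H Hi hH hHi hHis Z (PP T δ rho) (RR L rho) hZ hN hFN
    (PP_mul_RR L T δ rho hδ hr hLT)
    (PP_symm T δ rho) (RR_psd L rho hr) lam hlam A
    (fun v => (d v)⁻¹ • (B v * Mᵀ)) hF hpsd (fun v => ?_) s hs D D1 x κ μ
    (fun v => ?_) hx hκ0 hμ0 hD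
  · rw [Matrix.mul_smul, hinv v, smul_smul, inv_mul_cancel₀ (hd v).ne', one_smul]
  · have e1 : trace (RR L rho * (M * ((d v)⁻¹ • (B v * Mᵀ)))) = (d v)⁻¹ * (rho⁻¹ * qa L (B v) M) := by
      rw [Matrix.mul_smul, Matrix.mul_smul, trace_smul, smul_eq_mul, ← qa_real, Matrix.mul_assoc]
    rw [PP_traceW, trBB, tr_cross, qa_real, e1]
    have h1 := hT v
    have hsv := hs v
    have hdvv := hd v
    unfold EW at h1
    rw [← sub_nonneg] at h1 ⊢
    have h2 : D1 - (rho * trace (T * Tᵀ * Hi) / δ ^ 2 + rho⁻¹ * trace ((L * E) * (L * E)ᵀ) +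
        2 * rho⁻¹ * trace ((L * C) * (L * M)ᵀ) +
        (s v)⁻¹ * (rho⁻¹ * qa L (A v) C) +
        s v * ((d v)⁻¹ * (rho⁻¹ * qa L (B v) M))) =
        (s v * d v * (rho * δ ^ 2 * D1 - rho ^ 2 * trace (T * Tᵀ * Hi) -
          2 * δ ^ 2 * trace ((L * C) * (L * M)ᵀ) - δ ^ 2 * trace ((L * E) * (L * E)ᵀ)) -
        δ ^ 2 * (d v * qa L (A v) C + (s v) ^ 2 * qa L (B v) M)) /
        (rho * δ ^ 2 * s v * d v) := by
      field_simp
      ring
    rw [h2]
    exact div_nonneg h1 (by positivity)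

/-- **the test with free scales** -/
theorem tri_freeW (hBsymm : ∀ v, (A v)ᵀ = A v) (hE : 0 < EW L T Hi δ rho D1 C M E)
    (hT : ∀ v, 4 * (δ ^ 2) ^ 2 * (qa L (A v) C * qa L (B v) M) ≤
      (EW L T Hi δ rho D1 C M E) ^ 2 * d v) :
    ∃ σ : ℝ, 0 < σ ∧
    trace (Fᵀ * C) + σ * trace ((F * Z)ᵀ * M) + Real.sqrt σ * trace (Nᵀ * E) <
      κ + σ * μ + Real.sqrt σ * x := by
  have hX : ∀ v, A v * ((d v)⁻¹ • (B v * Mᵀ)) = Mᵀ := by
    intro v
    rw [Matrix.mul_smul, hinv v, smul_smul, inv_mul_cancel₀ (hd v).ne', one_smul]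
  have e1 : ∀ v, trace (RR L rho * (M * ((d v)⁻¹ • (B v * Mᵀ)))) =
      (d v)⁻¹ * (rho⁻¹ * qa L (B v) M) := by
    intro v
    rw [Matrix.mul_smul, Matrix.mul_smul, trace_smul, smul_eq_mul, ← qa_real, Matrix.mul_assoc]
  have hα : ∀ v, 0 ≤ rho⁻¹ * qa L (A v) C := by
    intro v
    rw [← qa_real]
    have := trace_conj_nonneg (RR L rho) (A v) (Cᵀ) (RR_psd L rho hr) (hpsd v)
    simpa using this
  have hβ : ∀ v, 0 ≤ (d v)⁻¹ * (rho⁻¹ * qa L (B v) M) := by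
    intro v
    rw [← e1 v]
    have := trace_conj_nonneg (RR L rho) (A v) ((d v)⁻¹ • (B v * Mᵀ)) (RR_psd L rho hr) (hpsd v)
    have e := hX v
    have e2 : ((d v)⁻¹ • (B v * Mᵀ))ᵀ * A v = M := by
      have := congrArg transpose e
      rw [Matrix.transpose_mul, hBsymm, Matrix.transpose_transpose] at this
      exact this
    rw [e2] at this
    exact this
  obtain ⟨τ, hTd⟩ : ∃ τ : ℝ, τ = trace (PP T δ rho * Hi) + trace (RR L rho * (E * Eᵀ)) +
      trace (RR L rho * (C * Mᵀ + M * Cᵀ)) := ⟨_, rfl⟩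
  have hDT : D1 - τ = EW L T Hi δ rho D1 C M E / (rho * δ ^ 2) := by
    rw [hTd, PP_traceW, trBB, tr_cross]
    unfold EW
    field_simp
    ring
  have hDT0 : 0 < D1 - τ := by
    rw [hDT]
    positivity
  have hs : ∀ v, ∃ a : ℝ, 0 < a ∧ a * (rho⁻¹ * qa L (A v) C) +
      ((d v)⁻¹ * (rho⁻¹ * qa L (B v) M)) / a ≤ D1 - τ := by
    intro v
    refine exists_scale _ _ _ (hα v) (hβ v) hDT0 ?_
    have h1 := hT v
    have hdvv := hd v
    rw [hDT, div_pow, le_div_iff₀ (by positivity)]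
    have h3 : 4 * (rho⁻¹ * qa L (A v) C * ((d v)⁻¹ * (rho⁻¹ * qa L (B v) M))) * (rho * δ ^ 2) ^ 2 =
        (4 * (δ ^ 2) ^ 2 * (qa L (A v) C * qa L (B v) M)) / d v := by
      field_simp
    rw [h3, div_le_iff₀ hdvv]
    exact h1
  choose a ha0 haT using hs
  have key := cone_boundW F C M N E H Hi hH hHi hHis Z (PP T δ rho) (RR L rho) hZ hN hFN
    (PP_mul_RR L T δ rho hδ hr hLT)
    (PP_symm T δ rho) (RR_psd L rho hr) lam hlam A
    (fun v => (d v)⁻¹ • (B v * Mᵀ)) hF hpsd hX (fun v => (a v)⁻¹)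
    (fun v => inv_pos.2 (ha0 v)) D D1 x κ μ
    (fun v => by
      rw [e1, qa_real, ← hTd, inv_inv]
      have := haT v
      rw [div_eq_inv_mul] at this
      linarith) hx hκ0 hμ0 hD
  exact ⟨_, key.1, key.2⟩

end

end Pool.Agent.Helper82.FL.G
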