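import Mathlib
import Pool.Agent.Helper82.FL.HeadG
import Pool.Agent.Helper82.FL.DigW
import Pool.Agent.Helper82.FL.TriW

/-!
# The header for the completed basis
-/

set_option autoImplicit false

namespace Pool.Agent.Helper82.FL

open Matrix Finset Pool.Agent.Helper28.TT

/-- the sum of the squares of the sums of the columns -/
def colI {m n : ℕ} (T : Fin m → Fin n → ℤ) : ℤ := ∑ j, (∑ i, T i j) ^ 2

/-- the header stands for a triangular factor -/
structure HdWOK (m : ℕ) (g : HdG) (L T : Fin m → Fin m → ℤ) (δ rho : ℤ) : Prop where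
  hL : LRel m g.L L
  hLT : ∀ i j, ∑ k, L i k * T k j = if i = j then δ else 0
  hδ : 0 < δ
  hq : (g.h.q : ℤ) = (m + 1) * δ ^ 2
  hrq : (g.h.rq : ℤ) = rho * ((m + 1) * δ ^ 2)
  hrs : (g.h.rs : ℤ) = rho ^ 2 * ((m + 1) * (∑ i, ∑ j, T i j * T i j) - colI T)
  hrho : 0 < rho
  hK : 0 < g.h.K

theorem sumL_spec {m : ℕ} {v : List ℕ} {f : Fin m → ℤ} (hv : VR m v f) : Rs (sumL v) (∑ i, f i) := by
  induction m generalizing v with
  | zero =>
    have e1 : v = [] := hv
    rw [e1]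
    exact Rs_zero
  | succ m ih =>
    obtain ⟨a, t, rfl, ha, ht⟩ := hv
    have e : sumL (a :: t) = a + sumL t := rfl
    rw [e, Fin.sum_univ_succ]
    exact ha.add (ih ht)

theorem sq1L_spec {m n : ℕ} {cols : List (List ℕ)} {T : Fin m → Fin n → ℤ} (hT : CR m n cols T) :
    Rs (sq1L cols) (colI T) := by
  induction n generalizing cols with
  | zero =>
    have e1 : cols = [] := hT
    rw [e1]
    exact Rs_zero
  | succ n ih =>
    obtain ⟨c, cs, rfl, hc, hcs⟩ := hT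
    have e : sq1L (c :: cs) = (sumL c) ^ 2 + sq1L cs := rfl
    unfold colI
    rw [e, Fin.sum_univ_succ]
    exact (sumL_spec hc).sq.add (ih hcs)

theorem colI_nonneg {m n : ℕ} (T : Fin m → Fin n → ℤ) : 0 ≤ colI T :=
  Finset.sum_nonneg fun _ _ => sq_nonneg _

theorem colI_le {m n : ℕ} (T : Fin m → Fin n → ℤ) : colI T ≤ m * ∑ j, ∑ i, T i j * T i j := by
  unfold colI
  rw [Finset.mul_sum]
  refine Finset.sum_le_sum fun j _ => ?_
  have h := sq_sum_le_card_mul_sum_sq (s := (Finset.univ : Finset (Fin m))) (f := fun i => T i j)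
  rw [Finset.card_univ, Fintype.card_fin] at h
  refine h.trans (le_of_eq ?_)
  congr 1
  exact Finset.sum_congr rfl fun i _ => by ring

theorem mkHdW_spec (m : ℕ) (hm : m ≤ 8) (r : ℕ) (g : HdG) (hg : mkHdW m r = some g) :
    ∃ L T δ rho, HdWOK m g L T δ rho := by
  unfold mkHdW hd1W hd2W at hg
  obtain ⟨L, hL⟩ := rowsG_spec m (Nat.shiftRight r 2)
  revert hg
  generalize hR : rowsG m (Nat.shiftRight r 2) = R at hL ⊢
  generalize Nat.shiftRight r (Nat.add 2 (Nat.mul 10 (Nat.mul m (Nat.succ m)))) = s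
  obtain ⟨T, hT1, hT2, hT3, hT4⟩ := adj_spec hm hL
  obtain ⟨b0, b1⟩ := sum_bd hm hT3
  have h240 : ∀ i j, |T i j| ≤ 2 ^ 240 := fun i j =>
    (hT3 i j).trans (pow_le_pow_right₀ (by norm_num) (by omega))
  have hSS : Rs (Nat.add (Nat.mul (Nat.succ m) (sqL (colsL R))) (negR (sq1L (colsL R))))
      ((m + 1) * (∑ j, ∑ i, T i j * T i j) - colI T) := by
    have e1 : Rs (Nat.succ m) ((m : ℤ) + 1) := by
      have := Rs.refl (Nat.succ m)
      refine this.congr ?_
      push_cast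
      rfl
    have h1 := (e1.mul (sqL_spec hT1)).add (negR_spec (sq1L_spec hT1))
    rw [← sub_eq_add_neg] at h1
    exact h1
  have hm0 : (0 : ℤ) ≤ m := Int.natCast_nonneg _
  have hm8 : (m : ℤ) ≤ 8 := by exact_mod_cast hm
  have c0 : 0 ≤ (m + 1 : ℤ) * (∑ j, ∑ i, T i j * T i j) - colI T := by
    have := colI_le T
    linarith
  have c1 : (m + 1 : ℤ) * (∑ j, ∑ i, T i j * T i j) - colI T < (B1 : ℤ) ^ 9 := by
    have h1 := colI_nonneg T
    have h2 : ∑ j, ∑ i, T i j * T i j ≤ 8 * (8 * (2 ^ 240 * 2 ^ 240)) := by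
      have h3 : ∀ j : Fin m, |∑ i, T i j * T i j| ≤ 8 * (2 ^ 240 * 2 ^ 240) := fun j =>
        sum8 hm (by positivity) fun i => bd_mul (h240 i j) (h240 i j)
      exact (le_abs_self _).trans (sum8 hm (by positivity) h3)
    have h3 : (m + 1 : ℤ) * (∑ j, ∑ i, T i j * T i j) ≤ 9 * (8 * (8 * (2 ^ 240 * 2 ^ 240))) :=
      mul_le_mul (by linarith) h2 b0 (by norm_num)
    have h4 : (B1 : ℤ) ^ 2 ≤ (B1 : ℤ) ^ 9 := by
      apply pow_le_pow_right₀ _ (by norm_num)
      have := B1_pos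
      linarith
    refine lt_of_le_of_lt (by linarith : _ ≤ (9 : ℤ) * (8 * (8 * (2 ^ 240 * 2 ^ 240))))
      (lt_of_lt_of_le ?_ h4)
    rw [B1_int]
    norm_num
  have hS := hSS.val c0 c1
  revert hS
  generalize Nat.mod (Nat.add (Nat.mul (Nat.succ m) (sqL (colsL R))) (negR (sq1L (colsL R)))) B9 = S
  intro hS hg
  have hq : ((Nat.mul (Nat.succ m) (Nat.pow (detL R) 2) : ℕ) : ℤ) = (m + 1) * (detL R : ℤ) ^ 2 := by
    have : Nat.mul (Nat.succ m) (Nat.pow (detL R) 2) = (m + 1) * (detL R) ^ 2 := rfl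
    rw [this]
    push_cast
    rfl
  revert hq hg
  generalize Nat.mul (Nat.succ m) (Nat.pow (detL R) 2) = q
  intro hg hq
  unfold hd3G at hg
  cases hb : Nat.ble 1 q with
  | false =>
    rw [hb] at hg
    exact absurd hg (by simp)
  | true =>
    rw [hb] at hg
    have hg' := Option.some.inj hg
    have hq1 : 1 ≤ q := Nat.le_of_ble_eq_true hb
    have hrho : (0 : ℤ) < ((Nat.shiftLeft 1 (Nat.mod s 256) : ℕ) : ℤ) := by
      have : Nat.shiftLeft 1 (Nat.mod s 256) = 1 <<< (s % 256) := rfl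
      rw [this, Nat.one_shiftLeft]
      positivity
    refine ⟨L, T, (detL R : ℤ), (Nat.shiftLeft 1 (Nat.mod s 256) : ℕ), ?_⟩
    have hdet : (0 : ℤ) < (detL R : ℤ) := by
      rcases Nat.eq_zero_or_pos (detL R) with h0 | h0
      · rw [h0] at hq
        have : (q : ℤ) = 0 := by rw [hq]; norm_num
        omega
      · exact_mod_cast h0
    rw [← hg']
    refine ⟨hL, hT2, hdet, hq, ?_, ?_, hrho, ?_⟩
    · show ((Nat.mul (Nat.shiftLeft 1 (Nat.mod s 256)) q : ℕ) : ℤ) = _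
      rw [← hq]
      exact Nat.cast_mul _ _
    · show ((Nat.mul (Nat.mul (Nat.shiftLeft 1 (Nat.mod s 256))
        (Nat.shiftLeft 1 (Nat.mod s 256))) S : ℕ) : ℤ) = _
      rw [Finset.sum_comm, ← hS, sq]
      exact (Nat.cast_mul _ _).trans (by rw [← Nat.cast_mul]; rfl)
    · show 0 < Nat.shiftLeft 1 (Nat.mod (Nat.shiftRight s 8) 64)
      have : Nat.shiftLeft 1 (Nat.mod (Nat.shiftRight s 8) 64) = 1 <<< ((s >>> 8) % 64) := rfl
      rw [this, Nat.one_shiftLeft]
      positivity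

/-- the matrix `1 + J` -/
def HH (m : ℕ) : Matrix (Fin m) (Fin m) ℝ := 1 + Matrix.of fun _ _ => 1

/-- its inverse -/
noncomputable def HI (m : ℕ) : Matrix (Fin m) (Fin m) ℝ :=
  1 - ((m : ℝ) + 1)⁻¹ • Matrix.of fun _ _ => 1

theorem HH_psd (m : ℕ) : (HH m).PosSemidef := by
  unfold HH
  refine Matrix.PosSemidef.one.add ?_
  have h1 := Matrix.posSemidef_vecMulVec_self_star (R := ℝ) (fun _ : Fin m => (1 : ℝ))
  have e : Matrix.vecMulVec (fun _ : Fin m => (1 : ℝ)) (star fun _ : Fin m => (1 : ℝ)) =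
      Matrix.of fun _ _ => 1 := by
    ext i j
    simp [Matrix.vecMulVec_apply]
  rw [e] at h1
  exact h1

theorem HI_symm (m : ℕ) : (HI m)ᵀ = HI m := by
  unfold HI
  ext i j
  simp [Matrix.one_apply, eq_comm]

theorem HH_mul_HI (m : ℕ) : HH m * HI m = 1 := by
  unfold HH HI
  have hJJ : (Matrix.of fun _ _ => (1 : ℝ) : Matrix (Fin m) (Fin m) ℝ) *
      (Matrix.of fun _ _ => 1) = (m : ℝ) • Matrix.of fun _ _ => 1 := by
    ext i j
    simp [Matrix.mul_apply]
  rw [Matrix.add_mul, Matrix.one_mul, Matrix.mul_sub, Matrix.mul_one, Matrix.mul_smul, hJJ, smul_smul]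
  have h : ((m : ℝ) + 1) ≠ 0 := by positivity
  ext i j
  simp only [Matrix.add_apply, Matrix.sub_apply, Matrix.smul_apply, Matrix.of_apply, smul_eq_mul,
    mul_one]
  field_simp
  ring

end Pool.Agent.Helper82.FL
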