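import Pool.Agent.Helper82.FL.RawG

/-! The raw functions of the leaf with mixed facts: the second part of the coefficient matrix is
multiplied by the sum of the parameters. -/

set_option autoImplicit false

namespace Pool.Agent.Helper82.FL

/-- `2 ^ 255` -/
def H1 : Nat := 57896044618658097711785492504343953926634992332820282019728792003956564819968

/-- the top digit, shifted by `2 ^ 255` -/
def sdig (u a : Nat) : Nat := Nat.div (Nat.mod (Nat.add (Nat.mul u a) BI9) B9) B8

/-- the positive part of the number; `kd = K d`, `kl = K l` -/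
def posD (q rs K kd kl t al p1 p2 b1 b2 b3 : Nat) : Nat :=
  Nat.add (Nat.add (Nat.mul rs (Nat.mul t kd)) (Nat.mul q (Nat.mul (Nat.mul K kd) al)))
    (Nat.add (Nat.mul (Nat.mul 2 (Nat.mul q kd)) (Nat.add (Nat.mul t p1) (Nat.mul kl p2)))
      (Nat.mul q (Nat.add (Nat.mul (Nat.mul t t) b1) (Nat.add (Nat.mul (Nat.mul kl kl) b2)
        (Nat.mul (Nat.mul t kl) b3)))))

/-- the negative part of the number -/
def negD (q kd kl t : Nat) : Nat :=
  Nat.mul H1 (Nat.add (Nat.mul (Nat.mul 2 (Nat.mul q kd)) (Nat.add t kl))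
    (Nat.mul q (Nat.mul t kl)))

/-- the comparison -/
def cmpD (rq kd kl t ka mu1 mu2 N : Nat) : Bool :=
  Nat.ble (Nat.add (Nat.mul 169 (Nat.mul N N)) 1)
    (Nat.mul (Nat.mul (Nat.mul 18464 ka) (Nat.add (Nat.mul t mu1) (Nat.mul kl mu2)))
      (Nat.mul t (Nat.mul (Nat.mul rq kd) (Nat.mul rq kd))))

/-- the test at a corner -/
def tst2D (q rq rs K ka mu1 mu2 kd kl t al p1 p2 b1 b2 b3 : Nat) : Bool :=
  cmpD rq kd kl t ka mu1 mu2 (Nat.sub (posD q rs K kd kl t al p1 p2 b1 b2 b3) (negD q kd kl t))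

/-- the test at a corner -/
def tstD (q rq rs K ka mu1 mu2 U W1 W2 W3 V1 V2 p1 p2 : Nat) (v : V) (t : Nat) : Bool :=
  band (Nat.ble 1 t) (band (tst2D q rq rs K ka mu1 mu2 (Nat.mul K v.d) (Nat.mul K v.l) t
    (dig U v.a) p1 p2 (dig W1 v.b) (dig W2 v.b) (sdig W3 v.b)) (band (sng V1 v) (sng V2 v)))

/-- the last step -/
noncomputable def lf2D (cs : List V) (h : Hd) (ka mu1 mu2 V1 V2 : Nat) (gx gy hx hy kx ky : List Nat) :
    Bool :=
  allT (tstD h.q h.rq h.rs h.K ka mu1 mu2 (uuL gx gy) (uuL hx hy) (uuL kx ky)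
    (Nat.add (uuL hx ky) (uuL kx hy)) V1 V2 (sdig (uuL gx hy) JJ) (sdig (uuL gx ky) JJ)) cs h.ts

/-- the test at one corner of the box: `C`, `κ`, the pure part `M₁`, `μ₁` and the mixed part `M₂`,
`μ₂` -/
noncomputable def fleafD (cs : List V) (g : HdG) (xs ys : List Nat) (ka : Nat) (zs ws : List Nat)
    (mu1 : Nat) (us vs : List Nat) (mu2 : Nat) : Bool :=
  band (Nat.ble ka 340282366920938463463374607431768211456)
    (band (Nat.ble mu1 340282366920938463463374607431768211456)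
    (band (Nat.ble mu2 340282366920938463463374607431768211456)
    (lf2D cs g.h ka mu1 mu2 (uuL zs ws) (uuL us vs) (mulL g.L xs) (mulL g.L ys) (mulL g.L zs)
      (mulL g.L ws) (mulL g.L us) (mulL g.L vs))))

end Pool.Agent.Helper82.FL
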