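import Pool.Agent.Helper82.FL.RawK

/-! The raw functions of the shared record of a width node: all ordered pairs of vertices at once.

All corners are packed in one number with digits of 640 bits. -/

set_option autoImplicit false

namespace Pool.Agent.Helper82.FL

/-- `b ^ 2`, `b ^ 3`, `b ^ 6`, `b ^ 7` -/
def B2 : Nat := 13407807929942597099574024998205846127479365820592393377723561443721764030073546976801874298166903427690031858186486050853753882811946569946433649006084096
def B3 : Nat := 1552518092300708935148979488462502555256886017116696611139052038026050952686376886330878408828646477950487730697131073206171580044114814391444287275041181139204454976020849905550265285631598444825262999193716468750892846853816057856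
def B6 : Nat := 2410312426921032588580116606028314112912093247945688951359675039065257391591803200669085024107346049663448766280888004787862416978794958324969612987890774651455213339381625224770782077917681499676845543137387820057597345857904599109461387122099507964997815641342300677629473355281617428411794163967785870370368969109221591943054232011562758450080579587850900993714892283476646631181515063804873375182260506246992837898705971012525843324401232986857004760339316736
def B7 : Nat := 279095111627852376407822673918065072905887935345660252615989519488029661278604994789701101367875859521849524793382568057369148405837577299984720398976429790087982805274893437406788716103454867635208144157749912668657006085226160261808841484862703257771979713923863820038729637520989894984676774385364934677289947762340313157123529922421738738162392233756507666339799675257002539356619747080176786496732679854783185583233878234270370065954615221443190595445898747930123678952192875629172092437548194134594886873249778512829119416327938768896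

/-- `2 ^ 75` -/
def P75 : Nat := 37778931862957161709568

/-- `2 ^ 180` -/
def P180 : Nat := 1532495540865888858358347027150309183618739122183602176

/-- `2 ^ 200` -/
def P200 : Nat := 1606938044258990275541962092341162602522202993782792835301376

/-- `2 ^ 639` -/
def P639 : Nat := 2281220308811097609320585802850145662446614253624279965289596258949637583604338693252956405658685699889321154786797203655344352360687718999126330659861107094125997337180132475041437096123301888

/-- `b ^ 9 - 2 ^ 256` -/
def N256 : Nat := 3742053650892133432367999773538322459225928823527575869347258443714776254479140165467924450143929014376701328043796892084250680644651644268919891406030558009514559848402392186697349032657288467726728117428485865736692545611669179323917560467904459270003565249200768855069969069462910188335948939853235385655600614050799627402904169955617680686939217306230732743306013312855692685442723231659949822010462888578091073832552856131420378840703853686445535243055462767679945780563431553986820134725467051353840270015201262955847832589866641019681571016376279703475133297517542073557917754709550486937454822846451632280550303118857025247796275684153471499948529096676937981417942185628120542955438080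

/-- a vertex -/
structure G3 where
  g0 : Nat
  g1 : Nat
  g2 : Nat

/-- a vertex with all its numbers -/
structure Vx where
  wx : Nat
  wy : Nat
  e : Nat
  na : Nat
  nb : Nat

/-- the packed numbers of the corners -/
structure PK where
  D : Nat
  P0 : Nat
  Q0 : Nat
  Q1 : Nat
  Q2 : Nat
  P2 : Nat
  C : Nat
  MK : Nat
  TB : Nat

/-- one more digit -/
def sh1 (x y : Nat) : Nat := Nat.add x (Nat.shiftLeft y 640)

/-- packing -/
noncomputable def pkf (f : V → Nat) (cs : List V) : Nat :=
  @List.rec V (fun _ => Nat) 0 (fun v _ ih => sh1 (f v) ih) cs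

/-- the power of the base -/
noncomputable def tbf (cs : List V) : Nat :=
  @List.rec V (fun _ => Nat) 1 (fun _ _ ih => Nat.shiftLeft ih 640) cs

/-- the numbers of a corner -/
def fC (U : Nat) (v : V) : Nat := Nat.mul 4 (dig U v.a)
def fP0 (U W : Nat) (v : V) : Nat := Nat.succ (Nat.mul (fC U v) (dig W v.b))
def fQ (U R : Nat) (v : V) : Nat := Nat.mul (Nat.mul 2 (fC U v)) (sdig R v.b)
def fP2 (U UU : Nat) (v : V) : Nat := Nat.mul (fC U v) (dig UU v.b)
def fC2 (U : Nat) (v : V) : Nat := Nat.mul (fC U v) B1

/-- the middle digit of the product: a scalar product -/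
def mid2 (x y : Nat) : Nat := Nat.mod (Nat.shiftRight (Nat.mul x y) 512) B1

/-- the numbers of a vertex, second step -/
noncomputable def vx3 (p : PK) (wx wy e wq nP sC : Nat) (k : Vx → Bool) : Bool :=
  frc (Nat.sub (Nat.add (Nat.add p.TB p.MK) sC) (Nat.add p.P0 (Nat.add wq nP))) fun na =>
  frc (Nat.sub (Nat.add p.TB wq) (Nat.add sC nP)) fun nb =>
  k (Vx.mk wx wy e na nb)

/-- the numbers of a vertex, second step -/
noncomputable def vx2 (p : PK) (w0 w1 w2 e wq : Nat) (k : Vx → Bool) : Bool :=
  frc (Nat.add w0 (Nat.add (Nat.mul w1 B1) (Nat.mul w2 B2))) fun wx =>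
  frc (Nat.add w2 (Nat.add (Nat.mul w1 B1) (Nat.mul w0 B2))) fun wy =>
  frc (Nat.mul (mid2 wx wy) p.P2) fun nP =>
  frc (Nat.mul (Nat.add w0 (Nat.add w1 w2)) p.C) fun sC =>
  vx3 p wx wy e wq nP sC k

/-- the numbers of a vertex -/
noncomputable def vx1 (p : PK) (h : Hd) (C0 C1 C2 : Nat) (g : G3) (k : Vx → Bool) : Bool :=
  frc (Nat.mod (Nat.add (r0 h.a h.d h.e g.g0 g.g1 g.g2) P75) B9) fun w0 =>
  frc (Nat.mod (Nat.add (r1 h.b h.f g.g1 g.g2) P75) B9) fun w1 =>
  frc (Nat.add (Nat.mul h.c g.g2) P75) fun w2 =>
  frc (Nat.mod (Nat.add P180 (Nat.add (Nat.mul w0 C0) (Nat.add (Nat.mul w1 C1) (Nat.mul w2 C2)))) B9)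
    fun e =>
  frc (Nat.add (Nat.mul w0 p.Q0) (Nat.add (Nat.mul w1 p.Q1) (Nat.mul w2 p.Q2))) fun wq =>
  vx2 p w0 w1 w2 e wq k

/-- the list of the vertices -/
noncomputable def vxs (p : PK) (h : Hd) (C0 C1 C2 : Nat) (l : List G3) (k : List Vx → Bool) : Bool :=
  @List.rec G3 (fun _ => (List Vx → Bool) → Bool) (fun k => k [])
    (fun g _ ih k => vx1 p h C0 C1 C2 g fun x => ih fun t => k (List.cons x t)) l k

/-- a test for all elements of a list -/
noncomputable def allX (f : Vx → Bool) (l : List Vx) : Bool :=
  @List.rec Vx (fun _ => Bool) true (fun a _ ih => band (f a) ih) l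

/-- the packed number of a pair -/
def pairN (D P22 E wx wy na nb : Nat) : Nat :=
  Nat.add (Nat.add (Nat.mul (Nat.mul E E) D) (Nat.mul (mid2 wx wy) P22)) (Nat.add na nb)

/-- the test of a pair -/
noncomputable def pairT (D MK P22 E0 : Nat) (a b : Vx) : Bool :=
  frc (Nat.sub (Nat.add E0 b.e) a.e) fun E =>
  Nat.beq (Nat.land (pairN D P22 E a.wx b.wy a.na b.nb) MK) MK

/-- the test of all pairs -/
noncomputable def pairsT (D MK P22 E0 : Nat) (as bs : List Vx) : Bool :=
  allX (fun a => allX (pairT D MK P22 E0 a) bs) as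

/-- the singular corners -/
noncomputable def sngs (W0 UU : Nat) (cs : List V) : Bool :=
  @List.rec V (fun _ => Bool) true (fun v _ ih => band (band (sng W0 v) (sng UU v)) ih) cs

/-- the last step -/
noncomputable def mrg5 (h : Hd) (C0 C1 C2 E0 : Nat) (ps qs : List G3) (p : PK) : Bool :=
  frc (Nat.mul 2 p.P2) fun P22 =>
  vxs p h C0 C1 C2 ps fun as => vxs p h C0 C1 C2 qs fun bs => pairsT p.D p.MK P22 E0 as bs

/-- the packed numbers -/
noncomputable def mrg4 (cs : List V) (h : Hd) (U W UU R0 R1 R2 C0 C1 C2 E0 : Nat) (ps qs : List G3) :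
    Bool :=
  frc (pkf V.d cs) fun D => frc (pkf (fP0 U W) cs) fun P0 =>
  frc (pkf (fQ U R0) cs) fun Q0 => frc (pkf (fQ U R1) cs) fun Q1 =>
  frc (pkf (fQ U R2) cs) fun Q2 => frc (pkf (fP2 U UU) cs) fun P2 =>
  frc (pkf (fC2 U) cs) fun C => frc (pkf (fun _ => P639) cs) fun MK => frc (tbf cs) fun TB =>
  mrg5 h C0 C1 C2 E0 ps qs (PK.mk D P0 Q0 Q1 Q2 P2 C MK TB)

/-- the residue of twice a shifted digit -/
def shC (x : Nat) : Nat := Nat.mod (Nat.add (Nat.mul 2 x) N256) B9

noncomputable def mrg3 (cs : List V) (h : Hd) (W0 Uy U8 UU U W E0 gx0 gx1 gx2 hx0 hx1 hx2 : Nat)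
    (ps qs : List G3) : Bool :=
  frc (Nat.mod (Nat.mul hx0 Uy) B9) fun R0 =>
  frc (Nat.mod (Nat.mul hx1 Uy) B9) fun R1 =>
  frc (Nat.mod (Nat.mul hx2 Uy) B9) fun R2 =>
  frc (shC (sdig gx0 U8)) fun C0 =>
  frc (shC (sdig gx1 U8)) fun C1 =>
  frc (shC (sdig gx2 U8)) fun C2 =>
  band (Nat.ble 1 E0) (band (Nat.ble E0 P200) (band (sngs W0 UU cs)
    (mrg4 cs h U W UU R0 R1 R2 C0 C1 C2 E0 ps qs)))

noncomputable def mrg2 (cs : List V) (h : Hd) (D W0 Ux Uy U8 : Nat)
    (gx0 gx1 gx2 gy0 gy1 gy2 hx0 hx1 hx2 hy0 hy1 hy2 : Nat) (ps qs : List G3) : Bool :=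
  frc (Nat.mod (Nat.mul Ux Uy) B9) fun UU =>
  frc (uu gx0 gx1 gx2 gy0 gy1 gy2) fun U =>
  frc (uu hx0 hx1 hx2 hy0 hy1 hy2) fun W =>
  frc (Nat.div (eNum h (uu gx0 gx1 gx2 hy0 hy1 hy2) D) h.q) fun E0 =>
  mrg3 cs h W0 Uy U8 UU U W E0 gx0 gx1 gx2 hx0 hx1 hx2 ps qs

/-- **the shared record**: the arguments of `fleaf`, the dual `u`, the vertices -/
noncomputable def fmrg (cs : List V) (h : Hd) (x0 x1 x2 y0 y1 y2 ka z0 z1 z2 w0 w1 w2 mu D : Nat)
    (u0 u1 u2 : Nat) (ps qs : List G3) : Bool :=
  band (Nat.ble ka 340282366920938463463374607431768211456)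
    (band (Nat.ble mu 340282366920938463463374607431768211456)
    (band (Nat.ble (Nat.add (Nat.mul 169 (Nat.mul D D)) 1) (Nat.mul 18464 (Nat.mul ka mu)))
    (frc (Nat.mod (Nat.add u0 (Nat.add (Nat.mul u1 B1) (Nat.mul u2 B2))) B9) fun Ux =>
     frc (Nat.mod (Nat.add u0 (Nat.add (Nat.mul u1 B3) (Nat.mul u2 B6))) B9) fun Uy =>
     frc (Nat.mod (Nat.add (Nat.mul u0 B8) (Nat.add (Nat.mul u1 B7) (Nat.mul u2 B6))) B9) fun U8 =>
     mrg2 cs h D (uu z0 z1 z2 w0 w1 w2) Ux Uy U8
          (r0 h.a h.d h.e x0 x1 x2) (r1 h.b h.f x1 x2) (Nat.mul h.c x2)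
          (r0 h.a h.d h.e y0 y1 y2) (r1 h.b h.f y1 y2) (Nat.mul h.c y2)
          (r0 h.a h.d h.e z0 z1 z2) (r1 h.b h.f z1 z2) (Nat.mul h.c z2)
          (r0 h.a h.d h.e w0 w1 w2) (r1 h.b h.f w1 w2) (Nat.mul h.c w2) ps qs)))

end Pool.Agent.Helper82.FL
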