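import Mathlib
import Pool.Agent.Helper82.FL.TriG

/-!
# The leaf lemma with a second coefficient matrix which depends on the corner
-/

set_option autoImplicit false

namespace Pool.Agent.Helper82.FL.G

open Matrix Pool.Agent.Helper28.TT

section

variable {n : Type*} [Fintype n] [DecidableEq n] {ι : Type*} [Fintype ι]

theorem sum_tr (R : Matrix n n ℝ) (lam : ι → ℝ) (X : ι → Matrix n n ℝ) :
    ∑ v, lam v * trace (R * X v) = trace (R * ∑ v, lam v • X v) := by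
  rw [Matrix.mul_sum, trace_sum]
  refine Finset.sum_congr rfl fun v _ => ?_
  rw [Matrix.mul_smul, trace_smul, smul_eq_mul]

/-- the bound with matrices `M v` at the corners -/
theorem leaf_boundD (F C : Matrix n (Fin 3) ℝ) (M : ι → Matrix n (Fin 3) ℝ)
    (Z : Matrix (Fin 3) (Fin 3) ℝ) (P R : Matrix n n ℝ) (hZ : (Fᵀ * F) * Z = 1)
    (hPR : P * R = 1) (hP : Pᵀ = P) (hR : R.PosSemidef) (lam : ι → ℝ) (hlam : ∀ v, 0 ≤ lam v)
    (A : ι → Matrix (Fin 3) (Fin 3) ℝ) (X : ι → Matrix (Fin 3) n ℝ)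
    (hF : Fᵀ * F = ∑ v, lam v • A v)
    (hA : ∀ v, (A v).PosSemidef) (hX : ∀ v, A v * X v = (M v)ᵀ) (K : ι → ℝ)
    (hK : ∀ v, trace (R * (C * A v * Cᵀ + C * (M v)ᵀ + M v * Cᵀ + M v * X v)) ≤ K v)
    (Mb : Matrix n (Fin 3) ℝ) (hMb : Mb = ∑ v, lam v • M v) :
    2 * (trace (Fᵀ * C) + trace ((F * Z)ᵀ * Mb)) ≤ trace P + ∑ v, lam v * K v := by
  have hRP : R * P = 1 := mul_eq_one_comm.mp hPR
  have hZA : Z * (Fᵀ * F) = 1 := mul_eq_one_comm.mp hZ
  have hZs : Zᵀ = Z := by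
    have h1 : Zᵀ * (Fᵀ * F) = 1 := by
      have := congrArg transpose hZ
      simpa [Matrix.transpose_mul, Matrix.mul_assoc] using this
    calc Zᵀ = Zᵀ * ((Fᵀ * F) * Z) := by rw [hZ, Matrix.mul_one]
      _ = (Zᵀ * (Fᵀ * F)) * Z := by simp only [Matrix.mul_assoc]
      _ = Z := by rw [h1, Matrix.one_mul]
  obtain ⟨Y, hY⟩ : ∃ Y : Matrix n n ℝ, Y = (C + Mb * Z) * Fᵀ := ⟨_, rfl⟩
  have h1 : trace (Fᵀ * C) + trace ((F * Z)ᵀ * Mb) = trace Y := by
    rw [hY, Matrix.add_mul, trace_add, trace_mul_comm, Matrix.transpose_mul, hZs]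
    congr 1
    rw [Matrix.mul_assoc, trace_mul_comm Z, trace_mul_comm (Mb * Z) Fᵀ, Matrix.mul_assoc]
  have h2 := trace_le Y P R hPR hRP hP hR
  have h3 : Y * Yᵀ = C * (Fᵀ * F) * Cᵀ + C * Mbᵀ + Mb * Cᵀ + Mb * Z * Mbᵀ := by
    have e1 : Yᵀ = F * (Cᵀ + Z * Mbᵀ) := by
      rw [hY, Matrix.transpose_mul, Matrix.transpose_transpose, Matrix.transpose_add,
        Matrix.transpose_mul, hZs]
    rw [e1, hY]
    have e2 : (C + Mb * Z) * Fᵀ * (F * (Cᵀ + Z * Mbᵀ)) =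
        (C + Mb * Z) * ((Fᵀ * F) * (Cᵀ + Z * Mbᵀ)) := by
      simp only [Matrix.mul_assoc]
    rw [e2, Matrix.mul_add (Fᵀ * F), ← Matrix.mul_assoc (Fᵀ * F) Z, hZ, Matrix.one_mul,
      Matrix.add_mul, Matrix.mul_add, Matrix.mul_add]
    have e3 : Mb * Z * (Fᵀ * F * Cᵀ) = Mb * Cᵀ := by
      rw [Matrix.mul_assoc, ← Matrix.mul_assoc Z, hZA, Matrix.one_mul]
    rw [e3, ← Matrix.mul_assoc C (Fᵀ * F)]
    abel
  obtain ⟨T, hT⟩ : ∃ T : Matrix (Fin 3) n ℝ, T = Z * Mbᵀ := ⟨_, rfl⟩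
  have hTt : Tᵀ = Mb * Z := by
    rw [hT, Matrix.transpose_mul, hZs, Matrix.transpose_transpose]
  -- convexity
  have h4 : ∀ v, 0 ≤ trace (R * (M v * X v)) - trace (R * (M v * T)) -
      trace (R * (Tᵀ * (M v)ᵀ)) + trace (R * (Tᵀ * A v * T)) := by
    intro v
    have h5 := trace_conj_nonneg R (A v) (X v - T) hR (hA v)
    have hAs : (A v)ᵀ = A v := by
      have := (hA v).isHermitian
      simpa [Matrix.IsHermitian] using this
    have hXt : (X v)ᵀ * A v = M v := by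
      have := congrArg transpose (hX v)
      simpa [Matrix.transpose_mul, hAs] using this
    have h6 : (X v - T)ᵀ * A v * (X v - T) =
        M v * X v - M v * T - Tᵀ * (M v)ᵀ + Tᵀ * A v * T := by
      rw [Matrix.transpose_sub, Matrix.sub_mul, hXt, Matrix.sub_mul, Matrix.mul_sub,
        Matrix.mul_sub]
      have e1 : Tᵀ * A v * X v = Tᵀ * (M v)ᵀ := by rw [Matrix.mul_assoc, hX v]
      rw [e1]
      abel
    rw [h6] at h5
    simp only [Matrix.mul_add, Matrix.mul_sub, trace_add, trace_sub] at h5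
    linarith
  have a1 : ∑ v, lam v • (M v * T) = Mb * Z * Mbᵀ := by
    rw [hMb, Matrix.sum_mul, Matrix.sum_mul]
    refine Finset.sum_congr rfl fun v _ => ?_
    rw [Matrix.smul_mul, Matrix.smul_mul, Matrix.mul_assoc, ← hMb, hT]
  have a2 : ∑ v, lam v • (Tᵀ * (M v)ᵀ) = Mb * Z * Mbᵀ := by
    have e : Mbᵀ = ∑ v, lam v • (M v)ᵀ := by
      rw [hMb, Matrix.transpose_sum]
      exact Finset.sum_congr rfl fun v _ => Matrix.transpose_smul _ _
    rw [e, Matrix.mul_sum, hTt]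
    refine Finset.sum_congr rfl fun v _ => ?_
    rw [Matrix.mul_smul]
  have a3 : ∑ v, lam v • (Tᵀ * A v * T) = Mb * Z * Mbᵀ := by
    have e : ∑ v, lam v • (Tᵀ * A v * T) = Tᵀ * (∑ v, lam v • A v) * T := by
      rw [Matrix.mul_sum, Matrix.sum_mul]
      refine Finset.sum_congr rfl fun v _ => ?_
      rw [Matrix.mul_smul, Matrix.smul_mul]
    rw [e, ← hF, hTt, hT]
    calc Mb * Z * (Fᵀ * F) * (Z * Mbᵀ) = Mb * (Z * (Fᵀ * F)) * (Z * Mbᵀ) := by
          simp only [Matrix.mul_assoc]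
      _ = _ := by rw [hZA, Matrix.mul_one, Matrix.mul_assoc]
  have a4 : ∑ v, lam v • (C * A v * Cᵀ) = C * (Fᵀ * F) * Cᵀ := by
    rw [hF, Matrix.mul_sum, Matrix.sum_mul]
    refine Finset.sum_congr rfl fun v _ => ?_
    rw [Matrix.mul_smul, Matrix.smul_mul]
  have a5 : ∑ v, lam v • (C * (M v)ᵀ) = C * Mbᵀ := by
    rw [hMb, Matrix.transpose_sum, Matrix.mul_sum]
    refine Finset.sum_congr rfl fun v _ => ?_
    rw [Matrix.transpose_smul, Matrix.mul_smul]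
  have a6 : ∑ v, lam v • (M v * Cᵀ) = Mb * Cᵀ := by
    rw [hMb, Matrix.sum_mul]
    refine Finset.sum_congr rfl fun v _ => ?_
    rw [Matrix.smul_mul]
  have s0 : 0 ≤ ∑ v, lam v * (trace (R * (M v * X v)) - trace (R * (M v * T)) -
      trace (R * (Tᵀ * (M v)ᵀ)) + trace (R * (Tᵀ * A v * T))) :=
    Finset.sum_nonneg fun v _ => mul_nonneg (hlam v) (h4 v)
  have s1 : ∑ v, lam v * (trace (R * (M v * X v)) - trace (R * (M v * T)) -
      trace (R * (Tᵀ * (M v)ᵀ)) + trace (R * (Tᵀ * A v * T))) =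
      ∑ v, lam v * trace (R * (M v * X v)) - ∑ v, lam v * trace (R * (M v * T)) -
      ∑ v, lam v * trace (R * (Tᵀ * (M v)ᵀ)) + ∑ v, lam v * trace (R * (Tᵀ * A v * T)) := by
    rw [← Finset.sum_sub_distrib, ← Finset.sum_sub_distrib, ← Finset.sum_add_distrib]
    exact Finset.sum_congr rfl fun v _ => by ring
  rw [s1, sum_tr R lam (fun v => M v * T), sum_tr R lam (fun v => Tᵀ * (M v)ᵀ),
    sum_tr R lam (fun v => Tᵀ * A v * T), a1, a2, a3] at s0
  have s2 : ∑ v, lam v * trace (R * (C * A v * Cᵀ + C * (M v)ᵀ + M v * Cᵀ + M v * X v)) ≤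
      ∑ v, lam v * K v := Finset.sum_le_sum fun v _ => mul_le_mul_of_nonneg_left (hK v) (hlam v)
  have s3 : ∑ v, lam v * trace (R * (C * A v * Cᵀ + C * (M v)ᵀ + M v * Cᵀ + M v * X v)) =
      ∑ v, lam v * trace (R * (C * A v * Cᵀ)) + ∑ v, lam v * trace (R * (C * (M v)ᵀ)) +
      ∑ v, lam v * trace (R * (M v * Cᵀ)) + ∑ v, lam v * trace (R * (M v * X v)) := by
    rw [← Finset.sum_add_distrib, ← Finset.sum_add_distrib, ← Finset.sum_add_distrib]
    refine Finset.sum_congr rfl fun v _ => ?_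
    simp only [Matrix.mul_add, trace_add]
    ring
  rw [s3, sum_tr R lam (fun v => C * A v * Cᵀ), sum_tr R lam (fun v => C * (M v)ᵀ),
    sum_tr R lam (fun v => M v * Cᵀ), a4, a5, a6] at s2
  rw [h3] at h2
  simp only [Matrix.mul_add, trace_add] at h2
  rw [h1]
  linarith

/-- the basic inequality with mixed facts: scales `s v`, second weights `l v` -/
theorem cone_boundD (F C M1 M2 : Matrix n (Fin 3) ℝ)
    (Z : Matrix (Fin 3) (Fin 3) ℝ) (P R : Matrix n n ℝ)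
    (hZ : (Fᵀ * F) * Z = 1) (hPR : P * R = 1) (hP : Pᵀ = P) (hR : R.PosSemidef)
    (lam : ι → ℝ) (hlam : ∀ v, 0 ≤ lam v) (A : ι → Matrix (Fin 3) (Fin 3) ℝ)
    (X : ι → Matrix (Fin 3) n ℝ)
    (hF : Fᵀ * F = ∑ v, lam v • A v) (hA : ∀ v, (A v).PosSemidef)
    (s l : ι → ℝ) (hn : ∀ v, 0 < s v) (D : ι → ℝ) (κ μ1 μ2 : ℝ)
    (hX : ∀ v, A v * X v = (M1 + (l v / s v) • M2)ᵀ)
    (hK : ∀ v, trace P + trace (R * (C * (M1 + (l v / s v) • M2)ᵀ + (M1 + (l v / s v) • M2) * Cᵀ)) +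
      (s v)⁻¹ * trace (R * (C * A v * Cᵀ)) +
      s v * trace (R * ((M1 + (l v / s v) • M2) * X v)) ≤ D v)
    (hκ0 : 0 ≤ κ) (hμ0 : ∀ v, 0 ≤ μ1 + l v / s v * μ2)
    (hD : ∀ v, (D v) ^ 2 < 16 * (κ * (μ1 + l v / s v * μ2))) :
    0 < ∑ v, lam v * s v ∧
    trace (Fᵀ * C) + (∑ v, lam v * s v) * trace ((F * Z)ᵀ * M1) +
      (∑ v, lam v * l v) * trace ((F * Z)ᵀ * M2) <
      κ + (∑ v, lam v * s v) * μ1 + (∑ v, lam v * l v) * μ2 := by
  obtain ⟨q, hq⟩ : ∃ q : ℝ, q = ∑ v, lam v * s v := ⟨_, rfl⟩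
  obtain ⟨p, hp⟩ : ∃ p : ℝ, p = ∑ v, lam v * l v := ⟨_, rfl⟩
  rw [← hq, ← hp]
  have hq0 : 0 ≤ q := by
    rw [hq]
    exact Finset.sum_nonneg fun v _ => mul_nonneg (hlam v) (hn v).le
  have hq1 : q ≠ 0 := by
    intro h0
    rw [hq, Finset.sum_eq_zero_iff_of_nonneg fun v _ => mul_nonneg (hlam v) (hn v).le] at h0
    have h1 : Fᵀ * F = 0 := by
      rw [hF]
      refine Finset.sum_eq_zero fun v hv => ?_
      have h3 : lam v = 0 := by
        rcases mul_eq_zero.mp (h0 v hv) with h | h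
        · exact h
        · exact absurd h (hn v).ne'
      rw [h3, zero_smul]
    rw [h1, Matrix.zero_mul] at hZ
    have h2 := congrFun (congrFun hZ 0) 0
    simp at h2
  have hqp : 0 < q := lt_of_le_of_ne hq0 (Ne.symm hq1)
  obtain ⟨w, hs⟩ : ∃ w : ℝ, w = Real.sqrt q := ⟨_, rfl⟩
  have hs0 : 0 < w := by rw [hs]; exact Real.sqrt_pos.mpr hqp
  have hss : w * w = q := by rw [hs]; exact Real.mul_self_sqrt hq0
  have hsum1 : ∑ v, lam v * s v / q = 1 := by rw [← Finset.sum_div, ← hq, div_self hq1]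
  have hw0 : ∀ v, 0 ≤ lam v * s v / q := fun v => div_nonneg (mul_nonneg (hlam v) (hn v).le) hq0
  have hF1 : (w⁻¹ • F)ᵀ * (w⁻¹ • F) = ∑ v, (lam v * s v / q) • ((s v)⁻¹ • A v) := by
    rw [Matrix.transpose_smul, Matrix.smul_mul, Matrix.mul_smul, smul_smul, hF, Finset.smul_sum]
    refine Finset.sum_congr rfl fun v _ => ?_
    rw [smul_smul, smul_smul]
    congr 1
    rw [← hss]
    have := (hn v).ne'
    have := hs0.ne'
    field_simp
  have hZ1 : ((w⁻¹ • F)ᵀ * (w⁻¹ • F)) * (q • Z) = 1 := by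
    simp only [Matrix.transpose_smul, Matrix.smul_mul, Matrix.mul_smul, smul_smul, hZ]
    rw [← hss]
    convert one_smul ℝ (1 : Matrix (Fin 3) (Fin 3) ℝ) using 2
    have := hs0.ne'
    field_simp
  have hMb : M1 + (p / q) • M2 = ∑ v, (lam v * s v / q) • (M1 + (l v / s v) • M2) := by
    simp only [smul_add, Finset.sum_add_distrib, smul_smul]
    rw [← Finset.sum_smul, ← Finset.sum_smul, hsum1, one_smul]
    congr 2
    rw [hp, Finset.sum_div]
    refine Finset.sum_congr rfl fun v _ => ?_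
    have := (hn v).ne'
    field_simp
  have key := leaf_boundD (w⁻¹ • F) C (fun v => M1 + (l v / s v) • M2) (q • Z) P R hZ1 hPR hP hR
    (fun v => lam v * s v / q) hw0
    (fun v => (s v)⁻¹ • A v) (fun v => (s v) • X v) hF1
    (fun v => (hA v).smul (inv_nonneg.2 (hn v).le))
    (fun v => by
      rw [Matrix.smul_mul, Matrix.mul_smul, smul_smul, inv_mul_cancel₀ (hn v).ne', one_smul, hX v])
    (fun v => D v - trace P) (fun v => by
      have e1 : trace (R * (C * ((s v)⁻¹ • A v) * Cᵀ + C * (M1 + (l v / s v) • M2)ᵀ +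
          (M1 + (l v / s v) • M2) * Cᵀ + (M1 + (l v / s v) • M2) * ((s v) • X v))) =
          (s v)⁻¹ * trace (R * (C * A v * Cᵀ)) +
          trace (R * (C * (M1 + (l v / s v) • M2)ᵀ + (M1 + (l v / s v) • M2) * Cᵀ)) +
          (s v) * trace (R * ((M1 + (l v / s v) • M2) * X v)) := by
        simp only [Matrix.mul_smul, Matrix.smul_mul, Matrix.mul_add R, trace_add, trace_smul,
          smul_eq_mul]
        ring
      rw [e1]
      have := hK v
      linarith) (M1 + (p / q) • M2) hMb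
  have e2 : trace ((w⁻¹ • F)ᵀ * C) = w⁻¹ * trace (Fᵀ * C) := by
    rw [Matrix.transpose_smul, Matrix.smul_mul, trace_smul, smul_eq_mul]
  have e3 : trace ((w⁻¹ • F * (q • Z))ᵀ * (M1 + (p / q) • M2)) =
      w * trace ((F * Z)ᵀ * M1) + w * (p / q) * trace ((F * Z)ᵀ * M2) := by
    rw [Matrix.smul_mul, Matrix.mul_smul, smul_smul, Matrix.transpose_smul, Matrix.smul_mul,
      trace_smul, smul_eq_mul, Matrix.mul_add, trace_add, Matrix.mul_smul, trace_smul, smul_eq_mul]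
    have e : w⁻¹ * q = w := by
      rw [← hss]
      have := hs0.ne'
      field_simp
    rw [e]
    ring
  have e4 : trace P + ∑ v, lam v * s v / q * (D v - trace P) = ∑ v, lam v * s v / q * D v := by
    have e : ∀ v, lam v * s v / q * (D v - trace P) =
        lam v * s v / q * D v - lam v * s v / q * trace P := fun v => by ring
    rw [Finset.sum_congr rfl fun v _ => e v, Finset.sum_sub_distrib, ← Finset.sum_mul, hsum1]
    ring
  rw [e2, e3, e4] at key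
  have h7 : ∀ v, D v < 2 * (w⁻¹ * κ + w * (μ1 + l v / s v * μ2)) := by
    intro v
    obtain ⟨m, hm⟩ : ∃ m : ℝ, m = μ1 + l v / s v * μ2 := ⟨_, rfl⟩
    have hm0 : 0 ≤ m := by rw [hm]; exact hμ0 v
    have hDv := hD v
    rw [← hm] at hDv ⊢
    have h9 : 0 ≤ w⁻¹ * κ + w * m := by positivity
    have h8 : 4 * (κ * m) ≤ (w⁻¹ * κ + w * m) ^ 2 := by
      have h8 : (w⁻¹ * κ) * (w * m) = κ * m := by
        have := hs0.ne'
        field_simp
      nlinarith [sq_nonneg (w⁻¹ * κ - w * m)]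
    by_contra hcon
    push Not at hcon
    nlinarith
  have h8 : ∑ v, lam v * s v / q * D v <
      ∑ v, lam v * s v / q * (2 * (w⁻¹ * κ + w * (μ1 + l v / s v * μ2))) := by
    obtain ⟨v0, -, hv0⟩ : ∃ v ∈ Finset.univ, lam v * s v / q ≠ 0 := by
      by_contra hcon
      push Not at hcon
      rw [Finset.sum_eq_zero hcon] at hsum1
      exact zero_ne_one hsum1
    refine Finset.sum_lt_sum (fun v _ => mul_le_mul_of_nonneg_left (h7 v).le (hw0 v))
      ⟨v0, Finset.mem_univ _, ?_⟩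
    exact mul_lt_mul_of_pos_left (h7 v0) (lt_of_le_of_ne (hw0 v0) (Ne.symm hv0))
  have h9 : ∑ v, lam v * s v / q * (2 * (w⁻¹ * κ + w * (μ1 + l v / s v * μ2))) =
      2 * (w⁻¹ * κ + w * μ1 + w * (p / q) * μ2) := by
    have e : ∀ v, lam v * s v / q * (2 * (w⁻¹ * κ + w * (μ1 + l v / s v * μ2))) =
        lam v * s v / q * (2 * (w⁻¹ * κ + w * μ1)) + (lam v * l v) * (2 * w * μ2 / q) := by
      intro v
      have := (hn v).ne'
      field_simp
      ring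
    rw [Finset.sum_congr rfl fun v _ => e v, Finset.sum_add_distrib, ← Finset.sum_mul,
      ← Finset.sum_mul, hsum1, ← hp]
    ring
  rw [h9] at h8
  have h11 : w⁻¹ * trace (Fᵀ * C) + (w * trace ((F * Z)ᵀ * M1) +
      w * (p / q) * trace ((F * Z)ᵀ * M2)) < w⁻¹ * κ + w * μ1 + w * (p / q) * μ2 := by linarith
  refine ⟨hqp, ?_⟩
  have h12 := mul_lt_mul_of_pos_left h11 hs0
  have h13 : w * (w⁻¹ * trace (Fᵀ * C) + (w * trace ((F * Z)ᵀ * M1) +
      w * (p / q) * trace ((F * Z)ᵀ * M2))) =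
      trace (Fᵀ * C) + q * trace ((F * Z)ᵀ * M1) + p * trace ((F * Z)ᵀ * M2) := by
    rw [← hss]
    have := hs0.ne'
    field_simp
    ring
  have h14 : w * (w⁻¹ * κ + w * μ1 + w * (p / q) * μ2) = κ + q * μ1 + p * μ2 := by
    rw [← hss]
    have := hs0.ne'
    field_simp
  rw [h13, h14] at h12
  exact h12

/-- **the test with mixed facts** -/
theorem tri_D (F : Matrix n (Fin 3) ℝ) (Z : Matrix (Fin 3) (Fin 3) ℝ)
    (hZ : (Fᵀ * F) * Z = 1)
    (lam : ι → ℝ) (hlam : ∀ v, 0 ≤ lam v) (A B : ι → Matrix (Fin 3) (Fin 3) ℝ) (d : ι → ℝ)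
    (hd : ∀ v, 0 < d v) (hpsd : ∀ v, (A v).PosSemidef) (C M1 M2 : Matrix n (Fin 3) ℝ)
    (hinv1 : ∀ v, A v * (B v * M1ᵀ) = (d v) • M1ᵀ) (hinv2 : ∀ v, A v * (B v * M2ᵀ) = (d v) • M2ᵀ)
    (hF : Fᵀ * F = ∑ v, lam v • A v) (L T : Matrix n n ℝ) (δ : ℝ) (hδ : 0 < δ)
    (hLT : L * T = δ • (1 : Matrix n n ℝ))
    (rho κ μ1 μ2 : ℝ) (hr : 0 < rho) (hκ0 : 0 ≤ κ) (t l N : ι → ℝ) (K : ℝ) (hK : 0 < K)
    (ht : ∀ v, 0 < t v)
    (hN : ∀ v, rho ^ 2 * trace (T * Tᵀ) * t v * K * d v +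
      2 * δ ^ 2 * K * d v * trace ((L * C) * (L * (t v • M1 + (K * l v) • M2))ᵀ) +
      δ ^ 2 * (K ^ 2 * d v * qa L (A v) C + qa L (B v) (t v • M1 + (K * l v) • M2)) ≤ N v)
    (hD : ∀ v, (N v) ^ 2 < 16 * κ * (t v * μ1 + K * l v * μ2) * t v * (rho * δ ^ 2 * K * d v) ^ 2) :
    0 < ∑ v, lam v * (t v / K) ∧
    trace (Fᵀ * C) + (∑ v, lam v * (t v / K)) * trace ((F * Z)ᵀ * M1) +
      (∑ v, lam v * l v) * trace ((F * Z)ᵀ * M2) <
      κ + (∑ v, lam v * (t v / K)) * μ1 + (∑ v, lam v * l v) * μ2 := by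
  have eM : ∀ v, M1 + (l v / (t v / K)) • M2 = (t v)⁻¹ • (t v • M1 + (K * l v) • M2) := by
    intro v
    have := (ht v).ne'
    rw [smul_add, smul_smul, smul_smul, inv_mul_cancel₀ this, one_smul]
    congr 2
    field_simp
  have hμ : ∀ v, 0 < t v * μ1 + K * l v * μ2 := by
    intro v
    have h1 := lt_of_le_of_lt (sq_nonneg (N v)) (hD v)
    have h2 : 0 < κ * (t v * μ1 + K * l v * μ2) * (16 * t v * (rho * δ ^ 2 * K * d v) ^ 2) := by
      have e : κ * (t v * μ1 + K * l v * μ2) * (16 * t v * (rho * δ ^ 2 * K * d v) ^ 2) =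
        16 * κ * (t v * μ1 + K * l v * μ2) * t v * (rho * δ ^ 2 * K * d v) ^ 2 := by ring
      rw [e]
      exact h1
    have hpos : 0 < 16 * t v * (rho * δ ^ 2 * K * d v) ^ 2 := by
      have := ht v
      have := hd v
      positivity
    have h3 : 0 < κ * (t v * μ1 + K * l v * μ2) := pos_of_mul_pos_left h2 hpos.le
    rcases eq_or_lt_of_le hκ0 with h0 | h0
    · rw [← h0, zero_mul] at h3
      exact absurd h3 (lt_irrefl _)
    · exact (mul_pos_iff_of_pos_left h0).mp h3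
  have eμ : ∀ v, μ1 + l v / (t v / K) * μ2 = (t v)⁻¹ * (t v * μ1 + K * l v * μ2) := by
    intro v
    have := (ht v).ne'
    field_simp
  have hinv : ∀ v, A v * (B v * (t v • M1 + (K * l v) • M2)ᵀ) =
      (d v) • (t v • M1 + (K * l v) • M2)ᵀ := by
    intro v
    rw [Matrix.transpose_add, Matrix.transpose_smul, Matrix.transpose_smul, Matrix.mul_add,
      Matrix.mul_add, Matrix.mul_smul, Matrix.mul_smul, Matrix.mul_smul, Matrix.mul_smul, hinv1,
      hinv2, smul_add, smul_comm (d v), smul_comm (d v)]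
  refine cone_boundD F C M1 M2 Z (PP T δ rho) (RR L rho) hZ (PP_mul_RR L T δ rho hδ hr hLT)
    (PP_symm T δ rho) (RR_psd L rho hr) lam hlam A
    (fun v => ((t v)⁻¹ * (d v)⁻¹) • (B v * (t v • M1 + (K * l v) • M2)ᵀ)) hF hpsd
    (fun v => t v / K) l (fun v => div_pos (ht v) hK)
    (fun v => N v / (rho * δ ^ 2 * t v * K * d v)) κ μ1 μ2 (fun v => ?_) (fun v => ?_) hκ0
    (fun v => ?_) (fun v => ?_)
  · rw [eM, Matrix.mul_smul, hinv v, smul_smul, Matrix.transpose_smul]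
    congr 1
    have := (hd v).ne'
    field_simp
  · have htv := ht v
    have hdv := hd v
    have h1 := hN v
    rw [eM]
    obtain ⟨Mh, hMh⟩ : ∃ Mh, Mh = t v • M1 + (K * l v) • M2 := ⟨_, rfl⟩
    rw [← hMh] at h1 ⊢
    have e0 : C * ((t v)⁻¹ • Mh)ᵀ + (t v)⁻¹ • Mh * Cᵀ = (t v)⁻¹ • (C * Mhᵀ + Mh * Cᵀ) := by
      rw [Matrix.transpose_smul, Matrix.mul_smul, Matrix.smul_mul, smul_add]
    have e1 : trace (RR L rho * ((t v)⁻¹ • Mh * (((t v)⁻¹ * (d v)⁻¹) • (B v * Mhᵀ)))) =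
        (t v)⁻¹ * ((t v)⁻¹ * (d v)⁻¹) * (rho⁻¹ * qa L (B v) Mh) := by
      simp only [Matrix.smul_mul, Matrix.mul_smul, smul_smul, trace_smul, smul_eq_mul]
      rw [← qa_real, Matrix.mul_assoc]
      ring
    rw [e0, e1, Matrix.mul_smul, trace_smul, smul_eq_mul, PP_trace, tr_cross, qa_real,
      le_div_iff₀ (by positivity)]
    refine le_of_eq_of_le ?_ h1
    field_simp
    ring
  · rw [eμ]
    have := hμ v
    have := ht v
    positivity
  · have htv := ht v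
    have hdv := hd v
    rw [eμ, div_pow, div_lt_iff₀ (by positivity)]
    refine lt_of_lt_of_eq (hD v) ?_
    field_simp

end

end Pool.Agent.Helper82.FL.G
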