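import Mathlib
import Pool.Agent.Helper82.FL.SoundG
import Pool.Agent.Helper82.FL.TriD
import Pool.Agent.Helper82.FL.RawD

/-!
# Soundness of the leaf with mixed facts
-/

set_option autoImplicit false

namespace Pool.Agent.Helper82.FL

open Matrix Finset Pool.Agent.Helper28.TT

theorem H1_eq : H1 = 2 ^ 255 := by decide +kernel

/-- the symmetric product of two matrices -/
def crossS {m : ℕ} (g h : Fin m → Fin 3 → ℤ) : S3 :=
  ⟨∑ i, (g i 0 * h i 0 + h i 0 * g i 0), ∑ i, (g i 1 * h i 1 + h i 1 * g i 1),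
    ∑ i, (g i 2 * h i 2 + h i 2 * g i 2),
    ∑ i, (g i 0 * h i 1 + h i 0 * g i 1), ∑ i, (g i 0 * h i 2 + h i 0 * g i 2),
    ∑ i, (g i 1 * h i 2 + h i 1 * g i 2)⟩

/-- a combination of two matrices -/
def cmb {m : ℕ} (a b : ℤ) (g h : Fin m → Fin 3 → ℤ) : Fin m → Fin 3 → ℤ :=
  fun i k => a * g i k + b * h i k

theorem quad_sum {m : ℕ} (a b : ℤ) (g h g' h' : Fin m → ℤ) :
    ∑ i, (a * g i + b * h i) * (a * g' i + b * h' i) =
      a * a * ∑ i, g i * g' i + a * b * ∑ i, (g i * h' i + h i * g' i) + b * b * ∑ i, h i * h' i := by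
  rw [Finset.mul_sum, Finset.mul_sum, Finset.mul_sum, ← Finset.sum_add_distrib,
    ← Finset.sum_add_distrib]
  exact Finset.sum_congr rfl fun i _ => by ring

theorem pair_cmb {m : ℕ} (A : S3) (a b : ℤ) (g h : Fin m → Fin 3 → ℤ) :
    S3.pair A (gramS (cmb a b g h)) = a * a * S3.pair A (gramS g) + a * b * S3.pair A (crossS g h) +
      b * b * S3.pair A (gramS h) := by
  unfold S3.pair gramS crossS cmb
  simp only
  rw [quad_sum a b (fun i => g i 0) (fun i => h i 0) (fun i => g i 0) (fun i => h i 0),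
    quad_sum a b (fun i => g i 1) (fun i => h i 1) (fun i => g i 1) (fun i => h i 1),
    quad_sum a b (fun i => g i 2) (fun i => h i 2) (fun i => g i 2) (fun i => h i 2),
    quad_sum a b (fun i => g i 0) (fun i => h i 0) (fun i => g i 1) (fun i => h i 1),
    quad_sum a b (fun i => g i 0) (fun i => h i 0) (fun i => g i 2) (fun i => h i 2),
    quad_sum a b (fun i => g i 1) (fun i => h i 1) (fun i => g i 2) (fun i => h i 2)]
  ring

theorem mulI_cmb {m : ℕ} (L : Fin m → Fin m → ℤ) (a b : ℤ) (g h : Fin m → Fin 3 → ℤ) :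
    mulI L (cmb a b g h) = cmb a b (mulI L g) (mulI L h) := by
  funext i k
  unfold mulI cmb
  rw [Finset.mul_sum, Finset.mul_sum, ← Finset.sum_add_distrib]
  exact Finset.sum_congr rfl fun j _ => by ring

theorem prI_cmb {m : ℕ} (a b : ℤ) (f g h : Fin m → Fin 3 → ℤ) :
    prI f (cmb a b g h) = a * prI f g + b * prI f h := by
  unfold prI cmb
  simp only [mul_add, Finset.mul_sum, Finset.sum_add_distrib]
  have e : ∀ k : Fin 3, ∑ i, f i k * (a * g i k) = ∑ i, a * (f i k * g i k) := fun k =>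
    Finset.sum_congr rfl fun i _ => by ring
  have e' : ∀ k : Fin 3, ∑ i, f i k * (b * h i k) = ∑ i, b * (f i k * h i k) := fun k =>
    Finset.sum_congr rfl fun i _ => by ring
  rw [e, e, e, e', e', e']
  ring

theorem toR_cmb {m : ℕ} (a b : ℤ) (g h : Fin m → Fin 3 → ℤ) :
    toR (cmb a b g h) = (a : ℝ) • toR g + (b : ℝ) • toR h := by
  ext i k
  simp [toR, cmb]

/-- the scalar product with the symmetric product of two matrices -/
theorem sdig_cross {m : ℕ} (hm : m ≤ 8) {g h : Fin m → Fin 3 → ℤ} {u a : ℕ} {A : S3}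
    (hu : Rs u (pG g h + pG h g)) (ha : Rs a (pS A)) (hg : ∀ i k, |g i k| ≤ 2 ^ 75)
    (hh : ∀ i k, |h i k| ≤ 2 ^ 75) (hA : S3bd A (2 ^ 97)) :
    (sdig u a : ℤ) = S3.pair A (crossS g h) + 2 ^ 255 := by
  obtain ⟨c1, c2, c3, c4, c5, c6⟩ := hA
  have Ggh := gram_bd hm hg hh
  have Ghg := gram_bd hm hh hg
  have G : ∀ k l : Fin 3, |∑ i, (g i k * h i l + h i k * g i l)| ≤ 2 ^ 154 := by
    intro k l
    rw [Finset.sum_add_distrib]
    refine (bd_add (Ggh k l) (Ghg k l)).trans ?_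
    norm_num
  have hT : |S3.pair A (crossS g h)| ≤ 9 * 2 ^ 251 := by
    have e250 : (2 : ℤ) ^ 97 * 2 ^ 154 = 2 ^ 251 := by norm_num
    have t1 := (bd_mul c1 (G 0 0))
    have t2 := (bd_mul c2 (G 1 1))
    have t3 := (bd_mul c3 (G 2 2))
    have t4 := (bd_mul c4 (G 0 1))
    have t5 := (bd_mul c5 (G 0 2))
    have t6 := (bd_mul c6 (G 1 2))
    rw [e250] at t1 t2 t3 t4 t5 t6
    unfold S3.pair crossS
    simp only
    rw [abs_le] at *
    constructor <;> linarith [t1.1, t1.2, t2.1, t2.2, t3.1, t3.2, t4.1, t4.2, t5.1, t5.2, t6.1, t6.2]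
  have cm : ∀ k l : Fin 3, ∑ i, (g i k * h i l + h i k * g i l) =
      ∑ i, (g i l * h i k + h i l * g i k) := fun k l => Finset.sum_congr rfl fun i _ => by ring
  have hu' : Rs u (p9 B1 (∑ i, (g i 0 * h i 0 + h i 0 * g i 0)) (∑ i, (g i 1 * h i 0 + h i 1 * g i 0))
      (∑ i, (g i 2 * h i 0 + h i 2 * g i 0)) (∑ i, (g i 0 * h i 1 + h i 0 * g i 1))
      (∑ i, (g i 1 * h i 1 + h i 1 * g i 1)) (∑ i, (g i 2 * h i 1 + h i 2 * g i 1))
      (∑ i, (g i 0 * h i 2 + h i 0 * g i 2)) (∑ i, (g i 1 * h i 2 + h i 1 * g i 2))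
      (∑ i, (g i 2 * h i 2 + h i 2 * g i 2))) := by
    refine hu.congr ?_
    unfold pG p9
    simp only [Finset.sum_add_distrib]
    ring
  have key := prod_topG (a := a) (u := u) (X := 2 ^ 154) (Y := 2 ^ 97) (by norm_num) hu' ha
    (G 0 0) (G 1 0) (G 2 0) (G 0 1) (G 1 1) (G 2 1) (G 0 2) (G 1 2)
    c3 c6 c5 c6 c2 c4 c5 c4 (S3.pair A (crossS g h)) (by
      unfold S3.pair crossS
      simp only
      rw [cm 1 0, cm 2 0, cm 2 1]
      ring) (2 ^ 255) (sh hT (by norm_num))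
  have e : ((sdig u a : ℕ) : ℤ) = ((u : ℤ) * a + (2 ^ 255 * (1 + (B1 : ℤ) + B1 ^ 2 + B1 ^ 3 + B1 ^ 4 +
      B1 ^ 5 + B1 ^ 6 + B1 ^ 7) + 2 ^ 255 * B1 ^ 8)) % (B1 : ℤ) ^ 9 / B1 ^ 8 := by
    have : sdig u a = (u * a + BI9) % B9 / B8 := rfl
    rw [this, BI9_eq, B9_eq, B8_eq]
    push_cast
    congr 2
  rw [e, key]

/-- the numbers of the test -/
theorem tst2D_spec {q rq rs K ka mu1 mu2 kd kl t al p1 p2 b1 b2 b3 : ℕ}
    (h : tst2D q rq rs K ka mu1 mu2 kd kl t al p1 p2 b1 b2 b3 = true) {c1 c2 c3 : ℤ}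
    (h1 : (p1 : ℤ) = c1 + 2 ^ 255) (h2 : (p2 : ℤ) = c2 + 2 ^ 255) (h3 : (b3 : ℤ) = c3 + 2 ^ 255) :
    ∃ N : ℕ, (rs : ℤ) * (t * kd) + q * (K * kd * al) + 2 * (q * kd) * (t * c1 + kl * c2) +
      q * (t * t * b1 + (kl * kl * b2 + t * kl * c3)) ≤ N ∧
      169 * (N * N) + 1 ≤ 18464 * ka * (t * mu1 + kl * mu2) * (t * (rq * kd * (rq * kd))) := by
  refine ⟨Nat.sub (posD q rs K kd kl t al p1 p2 b1 b2 b3) (negD q kd kl t), ?_,
    Nat.le_of_ble_eq_true h⟩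
  have e1 : Nat.sub (posD q rs K kd kl t al p1 p2 b1 b2 b3) (negD q kd kl t) =
      (rs * (t * kd) + q * (K * kd * al) + (2 * (q * kd) * (t * p1 + kl * p2) +
        q * (t * t * b1 + (kl * kl * b2 + t * kl * b3)))) -
      H1 * (2 * (q * kd) * (t + kl) + q * (t * kl)) := rfl
  rw [e1, H1_eq]
  have e2 : ((rs * (t * kd) + q * (K * kd * al) + (2 * (q * kd) * (t * p1 + kl * p2) +
        q * (t * t * b1 + (kl * kl * b2 + t * kl * b3))) : ℕ) : ℤ) -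
      ((2 ^ 255 * (2 * (q * kd) * (t + kl) + q * (t * kl)) : ℕ) : ℤ) ≤
      (((rs * (t * kd) + q * (K * kd * al) + (2 * (q * kd) * (t * p1 + kl * p2) +
        q * (t * t * b1 + (kl * kl * b2 + t * kl * b3)))) -
      2 ^ 255 * (2 * (q * kd) * (t + kl) + q * (t * kl)) : ℕ) : ℤ) := by
    generalize rs * (t * kd) + q * (K * kd * al) + (2 * (q * kd) * (t * p1 + kl * p2) +
        q * (t * t * b1 + (kl * kl * b2 + t * kl * b3))) = x
    generalize 2 ^ 255 * (2 * (q * kd) * (t + kl) + q * (t * kl)) = y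
    omega
  refine le_trans (le_of_eq ?_) e2
  push_cast
  rw [h1, h2, h3]
  ring

/-- the data of a leaf at one corner of the box -/
structure DataD (m : ℕ) (C M1 M2 : Fin m → Fin 3 → ℤ) (κ μ1 μ2 : ℤ) (xs ys : List ℕ) (ka : ℕ)
    (zs ws : List ℕ) (mu1 : ℕ) (us vs : List ℕ) (mu2 : ℕ) : Prop where
  rc : RowsG m C xs ys
  r1 : RowsG m M1 zs ws
  r2 : RowsG m M2 us vs
  bc : ∀ i k, |C i k| ≤ 2 ^ 52
  b1 : ∀ i k, |M1 i k| ≤ 2 ^ 52
  b2 : ∀ i k, |M2 i k| ≤ 2 ^ 52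
  ka : Rs ka κ
  mu1 : Rs mu1 μ1
  mu2 : Rs mu2 μ2
  bk : |κ| ≤ 2 ^ 60
  bu1 : |μ1| ≤ 2 ^ 60
  bu2 : |μ2| ≤ 2 ^ 60

/-- the scale of a corner in a leaf with mixed facts -/
noncomputable def sclD (h : Hd) (k : ℕ) : ℝ := (((h.ts >>> (16 * k)) % 65536 : ℕ) : ℝ) / (h.K : ℝ)

/-- the number `σ` -/
noncomputable def sigD (h : Hd) (cs : List V) (lam : ℕ → ℝ) : ℝ :=
  ∑ k ∈ range cs.length, lam k * sclD h k

/-- the number `S` -/
noncomputable def S2 (Q : Matrix (Fin 3) (Fin 3) ℝ) : ℝ :=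
  Q 0 0 + Q 1 1 + Q 2 2 + Q 0 1 + Q 0 2 + Q 1 2

theorem S2_sum (cs : List V) (hok : ∀ v ∈ cs, okV v) (lam : ℕ → ℝ)
    (Q : Matrix (Fin 3) (Fin 3) ℝ) (hQ : Q = ∑ k ∈ range cs.length, lam k • AtV cs k) :
    S2 Q = ∑ k : Fin cs.length, lam k * ((cs[k]).l : ℝ) := by
  have e : ∀ i j, Q i j = ∑ k ∈ range cs.length, lam k * AtV cs k i j := by
    intro i j
    rw [hQ, Matrix.sum_apply]
    rfl
  unfold S2
  simp only [e, ← Finset.sum_add_distrib]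
  rw [Finset.sum_range]
  refine Finset.sum_congr rfl fun k _ => ?_
  have h1 : AtV cs k = formV (cs[(k : ℕ)]) := by rw [AtV_get]; rfl
  have h2 := l_form (cs[(k : ℕ)]) (hok _ (List.getElem_mem k.2))
  have h3 : ((cs[k]).l : ℝ) = ((cs[(k : ℕ)]).l : ℝ) := rfl
  rw [h3, h2, h1]
  ring

/-- **Soundness of the leaf with mixed facts.** -/
theorem fleafD_sound (m : ℕ) (hm : m ≤ 8) (F : Matrix (Fin m) (Fin 3) ℝ)
    (Z : Matrix (Fin 3) (Fin 3) ℝ) (hZ : (Fᵀ * F) * Z = 1) (cs : List V)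
    (hok : ∀ v ∈ cs, okV v) (lam : ℕ → ℝ) (hlam : ∀ k, 0 ≤ lam k)
    (hQ : Fᵀ * F = ∑ k ∈ range cs.length, lam k • AtV cs k) (r : ℕ) (g : HdG)
    (hr : mkHdG m r = some g)
    (C M1 M2 : Fin m → Fin 3 → ℤ) (κ μ1 μ2 : ℤ) (xs ys : List ℕ) (ka : ℕ) (zs ws : List ℕ) (mu1 : ℕ)
    (us vs : List ℕ) (mu2 : ℕ)
    (hd : DataD m C M1 M2 κ μ1 μ2 xs ys ka zs ws mu1 us vs mu2)
    (hf : fleafD cs g xs ys ka zs ws mu1 us vs mu2 = true) :
    0 < sigD g.h cs lam ∧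
    trace (Fᵀ * toR C) + sigD g.h cs lam * trace ((F * Z)ᵀ * toR M1) +
      S2 (Fᵀ * F) * trace ((F * Z)ᵀ * toR M2) <
      κ + sigD g.h cs lam * ((1154 : ℝ) / 169 * μ1) + S2 (Fᵀ * F) * ((1154 : ℝ) / 169 * μ2) := by
  obtain ⟨L, T, δ, rho, hl⟩ := mkHdG_spec m hm r g hr
  unfold fleafD at hf
  obtain ⟨h1, hf⟩ := band_split hf
  obtain ⟨h2, hf⟩ := band_split hf
  obtain ⟨h3, hf⟩ := band_split hf
  have e128 : (340282366920938463463374607431768211456 : ℕ) = 2 ^ 128 := by norm_num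
  have k1 : (ka : ℤ) = κ := small_res hd.ka (by rw [← e128]; exact Nat.le_of_ble_eq_true h1) hd.bk
  have k2 : (mu1 : ℤ) = μ1 :=
    small_res hd.mu1 (by rw [← e128]; exact Nat.le_of_ble_eq_true h2) hd.bu1
  have k3 : (mu2 : ℤ) = μ2 :=
    small_res hd.mu2 (by rw [← e128]; exact Nat.le_of_ble_eq_true h3) hd.bu2
  have hκ0 : (0 : ℝ) ≤ κ := by
    rw [← k1]
    exact_mod_cast Int.natCast_nonneg ka
  have k1' : (ka : ℝ) = κ := by exact_mod_cast k1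
  have k2' : (mu1 : ℝ) = μ1 := by exact_mod_cast k2
  have k3' : (mu2 : ℝ) = μ2 := by exact_mod_cast k3
  have rG := rowsG_mul hl.hL hd.rc
  have rH := rowsG_mul hl.hL hd.r1
  have rK := rowsG_mul hl.hL hd.r2
  have bG : ∀ i k, |mulI L C i k| ≤ 2 ^ 75 := mulI_bd hm (hl.hL.bd) hd.bc
  have bH : ∀ i k, |mulI L M1 i k| ≤ 2 ^ 75 := mulI_bd hm (hl.hL.bd) hd.b1
  have bK : ∀ i k, |mulI L M2 i k| ≤ 2 ^ 75 := mulI_bd hm (hl.hL.bd) hd.b2
  have bM1 : ∀ i k, |M1 i k| ≤ 2 ^ 75 := fun i k => (hd.b1 i k).trans (by norm_num)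
  have bM2 : ∀ i k, |M2 i k| ≤ 2 ^ 75 := fun i k => (hd.b2 i k).trans (by norm_num)
  have rU := uuL_spec rG rG
  have rW1 := uuL_spec rH rH
  have rW2 := uuL_spec rK rK
  have rW3 := (uuL_spec rH rK).add (uuL_spec rK rH)
  have rV1 := uuL_spec hd.r1 hd.r1
  have rV2 := uuL_spec hd.r2 hd.r2
  have rP1 := tra_pairG hm (uuL_spec rG rH) bG bH
  have rP2 := tra_pairG hm (uuL_spec rG rK) bG bK
  unfold lf2D at hf
  have eS : ∀ u, sdig u JJ = Nat.div (Nat.mod (Nat.add (Nat.mul u JJ) BI9) B9) B8 := fun _ => rfl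
  have eA : ∀ x y : ℕ, Nat.add x y = x + y := fun _ _ => rfl
  rw [eS, eS, eA] at hf
  revert hf rU rW1 rW2 rW3 rV1 rV2 rP1 rP2
  generalize Nat.div (Nat.mod (Nat.add (Nat.mul (uuL (mulL g.L xs) (mulL g.L ws)) JJ) BI9) B9) B8 = p1
  generalize Nat.div (Nat.mod (Nat.add (Nat.mul (uuL (mulL g.L xs) (mulL g.L vs)) JJ) BI9) B9) B8 = p2
  generalize uuL (mulL g.L xs) (mulL g.L ys) = U
  generalize uuL (mulL g.L zs) (mulL g.L ws) = W1
  generalize uuL (mulL g.L us) (mulL g.L vs) = W2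
  generalize uuL (mulL g.L zs) (mulL g.L vs) + uuL (mulL g.L us) (mulL g.L ws) = W3
  generalize uuL zs ws = V1
  generalize uuL us vs = V2
  intro hf rU rW1 rW2 rW3 rV1 rV2 rP1 rP2
  have hc0 := fun k (hk : k < cs.length) => allT_spec _ cs _ hf k hk
  have hcorn : ∀ k : Fin cs.length, ∃ B N : S3, CornOK (cs[k]) B N :=
    fun k => exists_corn _ (hok _ (List.getElem_mem k.2))
  choose B N hcr using hcorn
  obtain ⟨t, ht⟩ : ∃ t : Fin cs.length → ℕ, ∀ k, t k = (g.h.ts >>> (16 * (k : ℕ))) % 65536 :=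
    ⟨_, fun _ => rfl⟩
  have hc : ∀ k : Fin cs.length, 1 ≤ t k ∧ tst2D g.h.q g.h.rq g.h.rs g.h.K ka mu1 mu2
      (Nat.mul g.h.K (cs[k]).d) (Nat.mul g.h.K (cs[k]).l) (t k) (dig U (cs[k]).a) p1 p2
      (dig W1 (cs[k]).b) (dig W2 (cs[k]).b) (sdig W3 (cs[k]).b) = true ∧
      dig V1 (cs[k]).n = 0 ∧ dig V2 (cs[k]).n = 0 := by
    intro k
    have h5 := hc0 k k.2
    rw [← ht k] at h5
    obtain ⟨h6, h5⟩ := band_split h5
    obtain ⟨h7, h5⟩ := band_split h5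
    obtain ⟨h8, h9⟩ := band_split h5
    exact ⟨Nat.le_of_ble_eq_true h6, h7, sng_spec _ _ h8, sng_spec _ _ h9⟩
  have hQ' : Fᵀ * F = ∑ k : Fin cs.length, lam k • (formS (cs[k])).toM := by
    rw [hQ, Finset.sum_range]
    refine Finset.sum_congr rfl fun k _ => ?_
    rw [AtV_get]
  have hdv : ∀ k : Fin cs.length, (0 : ℝ) < ((((cs[k]).d : ℕ) : ℤ) : ℝ) := fun k => by
    have := (hcr k).d
    have h5 : 0 < (cs[k]).d := by omega
    exact_mod_cast h5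
  have hpsd : ∀ k : Fin cs.length, (formS (cs[k])).toM.PosSemidef := fun k => formV_psd _
  have dU : ∀ k : Fin cs.length, (dig U (cs[k]).a : ℤ) = S3.pair (formS (cs[k])) (gramS (mulI L C)) :=
    fun k => dig_pairG hm rU (hcr k).a bG (hcr k).ba (pair_nonnegG _ (hpsd k) _)
  have dW1 : ∀ k : Fin cs.length, (dig W1 (cs[k]).b : ℤ) = S3.pair (B k) (gramS (mulI L M1)) :=
    fun k => dig_pairG hm rW1 (hcr k).b bH (hcr k).bb (pair_nonnegG _ (hcr k).psdB _)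
  have dW2 : ∀ k : Fin cs.length, (dig W2 (cs[k]).b : ℤ) = S3.pair (B k) (gramS (mulI L M2)) :=
    fun k => dig_pairG hm rW2 (hcr k).b bK (hcr k).bb (pair_nonnegG _ (hcr k).psdB _)
  have dW3 : ∀ k : Fin cs.length, (sdig W3 (cs[k]).b : ℤ) =
      S3.pair (B k) (crossS (mulI L M1) (mulI L M2)) + 2 ^ 255 :=
    fun k => sdig_cross hm rW3 (hcr k).b bH bK (hcr k).bb
  have hinv : ∀ (k : Fin cs.length) (M : Fin m → Fin 3 → ℤ) (V0 : ℕ), Rs V0 (pG M M) →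
      (∀ i k, |M i k| ≤ 2 ^ 75) → dig V0 (cs[k]).n = 0 →
      (formS (cs[k])).toM * ((B k).toM * (toR M)ᵀ) = ((((cs[k]).d : ℕ) : ℤ) : ℝ) • (toR M)ᵀ := by
    intro k M V0 rV bM hk
    have h4 : (dig V0 (cs[k]).n : ℤ) = S3.pair (N k) (gramS M) :=
      dig_pairG hm rV (hcr k).n bM (hcr k).bn (pair_nonnegG _ (hcr k).psdN _)
    rw [hk] at h4
    have h5 := killG (N k) (hcr k).psdN M (by rw [← h4]; rfl)
    have h6 := (hcr k).id
    have h7 : (formS (cs[k])).toM * (B k).toM =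
        ((((cs[k]).d : ℕ) : ℤ) : ℝ) • (1 : Matrix (Fin 3) (Fin 3) ℝ) - (N k).toM := by
      rw [← h6]
      abel
    rw [← Matrix.mul_assoc, h7, Matrix.sub_mul, h5, sub_zero, Matrix.smul_mul, Matrix.one_mul]
  have hδ : (0 : ℝ) < δ := by exact_mod_cast hl.hδ
  have hrho : (0 : ℝ) < rho := by exact_mod_cast hl.hrho
  have hK : (0 : ℝ) < g.h.K := by exact_mod_cast hl.hK
  have hnum : ∀ k : Fin cs.length, ∃ n : ℕ, (g.h.rs : ℤ) * (t k * (g.h.K * (cs[k]).d : ℕ)) +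
      g.h.q * (g.h.K * (g.h.K * (cs[k]).d : ℕ) * (dig U (cs[k]).a)) +
      2 * (g.h.q * (g.h.K * (cs[k]).d : ℕ)) * (t k * prI (mulI L C) (mulI L M1) +
        (g.h.K * (cs[k]).l : ℕ) * prI (mulI L C) (mulI L M2)) +
      g.h.q * (t k * t k * (dig W1 (cs[k]).b) + ((g.h.K * (cs[k]).l : ℕ) * (g.h.K * (cs[k]).l : ℕ) *
        (dig W2 (cs[k]).b) + t k * (g.h.K * (cs[k]).l : ℕ) *
          S3.pair (B k) (crossS (mulI L M1) (mulI L M2)))) ≤ n ∧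
      169 * (n * n) + 1 ≤ 18464 * ka * (t k * mu1 + (g.h.K * (cs[k]).l) * mu2) *
        (t k * (g.h.rq * (g.h.K * (cs[k]).d) * (g.h.rq * (g.h.K * (cs[k]).d)))) :=
    fun k => tst2D_spec (hc k).2.1 rP1 rP2 (dW3 k)
  choose n hn1 hn2 using hnum
  have hs : sigD g.h cs lam = ∑ k : Fin cs.length, lam k * ((t k : ℝ) / g.h.K) := by
    unfold sigD
    rw [Finset.sum_range]
    refine Finset.sum_congr rfl fun k _ => ?_
    rw [ht k]
    rfl
  rw [hs, S2_sum cs hok lam _ hQ]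
  refine G.tri_D F Z hZ (fun k : Fin cs.length => lam k) (fun k => hlam k)
    (fun k => (formS (cs[k])).toM) (fun k => (B k).toM) (fun k => ((((cs[k]).d : ℕ) : ℤ) : ℝ)) hdv
    hpsd (toR C) (toR M1) (toR M2) (fun k => hinv k M1 V1 rV1 bM1 (hc k).2.2.1)
    (fun k => hinv k M2 V2 rV2 bM2 (hc k).2.2.2) hQ' (toQ L) (toQ T) δ hδ (LT_real hl.hLT) rho κ
    _ _ hrho hκ0 (fun k => (t k : ℝ)) (fun k => ((cs[k]).l : ℝ)) (fun k => (n k : ℝ)) g.h.K hK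
    (fun k => ?_) (fun k => ?_) (fun k => ?_)
  · have := (hc k).1
    exact_mod_cast this
  · -- the number
    have eMh : (t k : ℝ) • toR M1 + ((g.h.K : ℝ) * ((cs[k]).l : ℝ)) • toR M2 =
        toR (cmb (t k) ((g.h.K : ℤ) * (cs[k]).l) M1 M2) := by
      rw [toR_cmb]
      push_cast
      rfl
    rw [eMh]
    unfold G.qa
    rw [toQ_mul, toQ_mul, pr_real, gram_real, gram_real, ← pair_real, ← pair_real, mulI_cmb, prI_cmb,
      pair_cmb, TT_real]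
    have h5 := hn1 k
    rw [dU, dW1, dW2] at h5
    have hq : ((g.h.q : ℕ) : ℝ) = (δ : ℝ) ^ 2 := by
      have := hl.hq
      exact_mod_cast this
    have hrs : ((g.h.rs : ℕ) : ℝ) = (rho : ℝ) ^ 2 * ((∑ i, ∑ j, T i j * T i j : ℤ) : ℝ) := by
      have := hl.hrs
      exact_mod_cast this
    have h6 : ((g.h.rs : ℤ) : ℝ) * (t k * ((g.h.K : ℝ) * (cs[k]).d)) +
      g.h.q * ((g.h.K : ℝ) * ((g.h.K : ℝ) * (cs[k]).d) *
        ((S3.pair (formS (cs[k])) (gramS (mulI L C)) : ℤ) : ℝ)) +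
      2 * (g.h.q * ((g.h.K : ℝ) * (cs[k]).d)) * (t k * ((prI (mulI L C) (mulI L M1) : ℤ) : ℝ) +
        ((g.h.K : ℝ) * (cs[k]).l) * ((prI (mulI L C) (mulI L M2) : ℤ) : ℝ)) +
      g.h.q * (t k * t k * ((S3.pair (B k) (gramS (mulI L M1)) : ℤ) : ℝ) +
        (((g.h.K : ℝ) * (cs[k]).l) * ((g.h.K : ℝ) * (cs[k]).l) *
        ((S3.pair (B k) (gramS (mulI L M2)) : ℤ) : ℝ) + t k * ((g.h.K : ℝ) * (cs[k]).l) *
          ((S3.pair (B k) (crossS (mulI L M1) (mulI L M2)) : ℤ) : ℝ))) ≤ n k := by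
      exact_mod_cast h5
    refine le_trans (le_of_eq ?_) h6
    simp only [Int.cast_natCast]
    rw [hq, hrs]
    push_cast
    ring
  · have h5 : 169 * ((n k : ℝ) * n k) + 1 ≤ 18464 * ka * (t k * mu1 + ((g.h.K : ℝ) * (cs[k]).l) * mu2) *
        (t k * (g.h.rq * ((g.h.K : ℝ) * (cs[k]).d) * (g.h.rq * ((g.h.K : ℝ) * (cs[k]).d)))) := by
      exact_mod_cast hn2 k
    have hrq : ((g.h.rq : ℕ) : ℝ) = (rho : ℝ) * (δ : ℝ) ^ 2 := by
      have := hl.hrq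
      exact_mod_cast this
    rw [k1', k2', k3', hrq] at h5
    have e : 16 * (κ : ℝ) * (t k * (1154 / 169 * (μ1 : ℝ)) +
        (g.h.K : ℝ) * ((cs[k]).l : ℝ) * (1154 / 169 * (μ2 : ℝ))) * t k *
        ((rho : ℝ) * (δ : ℝ) ^ 2 * g.h.K * ((((cs[k]).d : ℕ) : ℤ) : ℝ)) ^ 2 =
        (18464 * (κ : ℝ) * (t k * (μ1 : ℝ) + ((g.h.K : ℝ) * (cs[k]).l) * (μ2 : ℝ)) *
        (t k * (rho * δ ^ 2 * ((g.h.K : ℝ) * (cs[k]).d) * (rho * δ ^ 2 * ((g.h.K : ℝ) * (cs[k]).d))))) /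
          169 := by
      push_cast
      ring
    rw [e, lt_div_iff₀ (by norm_num)]
    linarith

end Pool.Agent.Helper82.FL
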