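import Mathlib
import Pool.Agent.Helper82.FL.DigK
import Pool.Agent.Helper82.FL.SoundD
import Pool.Agent.Helper82.FL.TriK

/-!
# Soundness of the leaves with the metric `P = 2 ^ k (th + u uᵀ + v vᵀ)`
-/

set_option autoImplicit false

namespace Pool.Agent.Helper82.FL

open Matrix Finset Pool.Agent.Helper28.TT

theorem OFK_eq : OFK + 512 = B9 := by decide +kernel

theorem offK_succ (n r : ℕ) :
    offK (n + 1) r = (r % 1024 + OFK) :: offK n (Nat.shiftRight r 10) := rfl

theorem offK_spec (n r : ℕ) : ∃ f : Fin n → ℤ, VR n (offK n r) f ∧ ∀ j, |f j| ≤ 2 ^ 9 := by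
  induction n generalizing r with
  | zero => exact ⟨fun i => i.elim0, rfl, fun i => i.elim0⟩
  | succ n ih =>
    obtain ⟨f, hf, hb⟩ := ih (Nat.shiftRight r 10)
    refine ⟨fun j => Fin.cases (motive := fun _ => ℤ) (((r % 1024 : ℕ) : ℤ) - 512) f j,
      ⟨_, _, offK_succ n r, ?_, hf⟩, ?_⟩
    · refine Rs.of_eq (q := 1) ?_
      simp only [Fin.cases_zero]
      have h1 : (OFK : ℤ) = (B1 : ℤ) ^ 9 - 512 := by
        have h : (OFK : ℤ) + 512 = (B9 : ℤ) := by exact_mod_cast OFK_eq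
        rw [← B9_int]
        linarith
      rw [Nat.cast_add, h1]
      ring
    · intro j
      refine Fin.cases ?_ (fun j => ?_) j
      · simp only [Fin.cases_zero]
        have := Nat.mod_lt r (show 0 < 1024 by norm_num)
        rw [abs_le]
        constructor <;> omega
      · exact hb j

theorem mkHdK_spec (m : ℕ) (hm : m ≤ 8) (r : ℕ) (g : HdK) (hg : mkHdK m r = some g) :
    ∃ (u v : Fin m → ℤ) (th b det rho : ℤ), HdKOK m g u v th b det rho := by
  unfold mkHdK at hg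
  rw [frc_eq, flist_eq, flist_eq, frc_eq] at hg
  obtain ⟨u, hu, hub⟩ := offK_spec m (Nat.shiftRight r 24)
  obtain ⟨v, hv, hvb⟩ := offK_spec m (Nat.shiftRight r (Nat.add 24 (Nat.mul 10 m)))
  have hth4 : Nat.mod (Nat.shiftRight r 2) 4194304 < 4194304 := Nat.mod_lt _ (by norm_num)
  revert hg hu hv hth4
  generalize offK m (Nat.shiftRight r 24) = us
  generalize offK m (Nat.shiftRight r (Nat.add 24 (Nat.mul 10 m))) = vs
  generalize Nat.shiftRight r (Nat.add 24 (Nat.mul 20 m)) = s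
  generalize Nat.mod (Nat.shiftRight r 2) 4194304 = th
  intro hg hu hv hth4
  unfold hd2K at hg
  rw [frc_eq, frc_eq, frc_eq] at hg
  have suu := (dot_spec hu hu).mod
  have svv := (dot_spec hv hv).mod
  have suv := (dot_spec hu hv).mod
  have hs : ∀ (f h : Fin m → ℤ), (∀ i, |f i| ≤ 2 ^ 9) → (∀ i, |h i| ≤ 2 ^ 9) →
      |∑ i, f i * h i| ≤ 2 ^ 21 := by
    intro f h hf hh
    refine (sum8 hm (by positivity) fun i => bd_mul (hf i) (hh i)).trans ?_
    norm_num
  have hB : (2 : ℤ) ^ 43 < (B1 : ℤ) ^ 9 := by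
    rw [B1_int]
    norm_num
  have vuu : ((Nat.mod (dot us us) B9 : ℕ) : ℤ) = ∑ i, u i * u i :=
    (dot_spec hu hu).val (Finset.sum_nonneg fun i _ => mul_self_nonneg _)
      (lt_of_le_of_lt ((le_abs_self _).trans (hs u u hub hub)) (lt_trans (by norm_num) hB))
  have vvv : ((Nat.mod (dot vs vs) B9 : ℕ) : ℤ) = ∑ i, v i * v i :=
    (dot_spec hv hv).val (Finset.sum_nonneg fun i _ => mul_self_nonneg _)
      (lt_of_le_of_lt ((le_abs_self _).trans (hs v v hvb hvb)) (lt_trans (by norm_num) hB))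
  have euv : Nat.mod (dot us vs) B9 = dot us vs % B9 := rfl
  rw [← euv] at suv
  revert hg vuu vvv suv
  generalize Nat.mod (dot us us) B9 = uu
  generalize Nat.mod (dot vs vs) B9 = vv
  generalize Nat.mod (dot us vs) B9 = uv
  intro hg suv vuu vvv
  unfold hd3K at hg
  rw [frc_eq, frc_eq, frc_eq, frc_eq, frc_eq] at hg
  have hnb := negR_spec suv
  have hb2 := (suv.mul suv).val (mul_self_nonneg _) (by
    have h1 := bd_mul (hs u v hub hvb) (hs u v hub hvb)
    exact lt_of_le_of_lt ((le_abs_self _).trans h1) (lt_trans (by norm_num) hB))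
  have hrho : (0 : ℤ) < ((Nat.shiftLeft 1 (Nat.mod s 256) : ℕ) : ℤ) := by
    have : Nat.shiftLeft 1 (Nat.mod s 256) = 1 <<< (s % 256) := rfl
    rw [this, Nat.one_shiftLeft]
    positivity
  have ha : ((Nat.add th uu : ℕ) : ℤ) = th + ∑ i, u i * u i := by
    have : Nat.add th uu = th + uu := rfl
    rw [this, ← vuu]
    push_cast
    rfl
  have hd : ((Nat.add th vv : ℕ) : ℤ) = th + ∑ i, v i * v i := by
    have : Nat.add th vv = th + vv := rfl
    rw [this, ← vvv]
    push_cast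
    rfl
  have hsu : ((Nat.add uu vv : ℕ) : ℤ) = ∑ i, u i * u i + ∑ i, v i * v i := by
    have : Nat.add uu vv = uu + vv := rfl
    rw [this, ← vuu, ← vvv]
    push_cast
    rfl
  have eb2 : Nat.mod (Nat.mul uv uv) B9 = Nat.mod (uv * uv) B9 := rfl
  rw [eb2] at hg
  revert hg hnb hb2 hrho ha hd hsu
  generalize Nat.shiftLeft 1 (Nat.mod s 256) = rho
  generalize negR uv = nb
  generalize Nat.add th uu = a
  generalize Nat.add th vv = d
  generalize Nat.add uu vv = su
  generalize Nat.mod (uv * uv) B9 = b2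
  intro hg hnb hb2 hrho ha hd hsu
  unfold hd4K at hg
  cases hb : band (Nat.ble 1 (Nat.sub (Nat.mul a d) b2))
      (band (Nat.ble (Nat.sub (Nat.mul a d) b2) 8796093022208) (Nat.ble 1 th)) with
  | false =>
    rw [hb] at hg
    exact absurd hg (by simp)
  | true =>
    rw [hb] at hg
    have hg' := Option.some.inj hg
    obtain ⟨h1, h2⟩ := band_split hb
    obtain ⟨h3, h4⟩ := band_split h2
    have h1' : 1 ≤ a * d - b2 := Nat.le_of_ble_eq_true h1
    have h3' : a * d - b2 ≤ 8796093022208 := Nat.le_of_ble_eq_true h3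
    have h4' : 1 ≤ th := Nat.le_of_ble_eq_true h4
    have hdet : ((Nat.sub (Nat.mul a d) b2 : ℕ) : ℤ) = (a : ℤ) * d - b2 := by
      have : Nat.sub (Nat.mul a d) b2 = a * d - b2 := rfl
      rw [this, Nat.cast_sub (by omega)]
      push_cast
      rfl
    refine ⟨u, v, th, ∑ i, u i * v i, (Nat.sub (Nat.mul a d) b2 : ℕ), rho, ?_⟩
    rw [← hg']
    refine ⟨hu, hv, hub, hvb, by exact_mod_cast h4', ?_, ha, hd, rfl, hnb, rfl, ?_, ?_, ?_, rfl, hrho,
      ?_, ?_, ?_⟩
    · have e : (2 : ℤ) ^ 22 = 4194304 := by norm_num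
      rw [e]
      exact_mod_cast hth4.le
    · rw [hdet, ha, hd, hb2]
    · exact_mod_cast h1'
    · have e : (2 : ℤ) ^ 43 = 8796093022208 := by norm_num
      rw [e]
      exact_mod_cast h3'
    · show ((Nat.mul rho (Nat.mul th (Nat.sub (Nat.mul a d) b2)) : ℕ) : ℤ) = _
      generalize Nat.sub (Nat.mul a d) b2 = det
      have : Nat.mul rho (Nat.mul th det) = rho * (th * det) := rfl
      rw [this]
      push_cast
      rfl
    · show ((Nat.mul (Nat.mul (Nat.mul rho (Nat.mul th (Nat.sub (Nat.mul a d) b2))) rho)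
        (Nat.add su (Nat.mul 3 th)) : ℕ) : ℤ) = _
      rw [← hsu]
      generalize Nat.sub (Nat.mul a d) b2 = det
      have : Nat.mul (Nat.mul (Nat.mul rho (Nat.mul th det)) rho) (Nat.add su (Nat.mul 3 th)) =
        rho * (th * det) * rho * (su + 3 * th) := rfl
      rw [this]
      push_cast
      rfl
    · show 0 < Nat.shiftLeft 1 (Nat.mod (Nat.shiftRight s 8) 64)
      have : Nat.shiftLeft 1 (Nat.mod (Nat.shiftRight s 8) 64) = 1 <<< ((s >>> 8) % 64) := rfl
      rw [this, Nat.one_shiftLeft]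
      positivity

section

variable {m : ℕ} {g : HdK} {u v : Fin m → ℤ} {th b det rho : ℤ} (hg : HdKOK m g u v th b det rho)

/-- the real vector of an integer vector -/
def toV {m : ℕ} (u : Fin m → ℤ) : Fin m → ℝ := fun i => (u i : ℝ)

/-- the part of rank two -/
noncomputable def P2 {m : ℕ} (u v : Fin m → ℤ) : Matrix (Fin m) (Fin m) ℝ :=
  Matrix.vecMulVec (toV u) (toV u) + Matrix.vecMulVec (toV v) (toV v)

theorem vv_psd (f : Fin m → ℝ) : (Matrix.vecMulVec f f).PosSemidef := by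
  have h1 := Matrix.posSemidef_vecMulVec_self_star (R := ℝ) f
  simpa using h1

theorem P2_psd (u v : Fin m → ℤ) : (P2 u v).PosSemidef := (vv_psd _).add (vv_psd _)

theorem P2_trace (u v : Fin m → ℤ) : trace (P2 u v) = ((∑ i, u i * u i + ∑ i, v i * v i : ℤ) : ℝ) := by
  unfold P2 toV
  rw [trace_add]
  simp only [Matrix.trace, Matrix.diag, Matrix.vecMulVec_apply]
  push_cast
  rfl

include hg

theorem PR_real : (P2 u v + (th : ℝ) • (1 : Matrix (Fin m) (Fin m) ℝ)) *
    toQ (R0g g u v b det) = ((th : ℝ) * det) • (1 : Matrix (Fin m) (Fin m) ℝ) := by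
  ext i j
  have h1 := PR_int hg i j
  have h2 : ∑ k, ((if i = k then (th : ℝ) else 0) + (u i : ℝ) * u k + (v i : ℝ) * v k) *
      ((R0g g u v b det k j : ℤ) : ℝ) = ((if i = j then th * det else 0 : ℤ) : ℝ) := by
    rw [← h1]
    push_cast
    rfl
  simp only [Matrix.mul_apply, Matrix.add_apply, Matrix.smul_apply, Matrix.one_apply, smul_eq_mul]
  have e : ∀ k, (P2 u v i k + (th : ℝ) * (if i = k then 1 else 0)) * toQ (R0g g u v b det) k j =
      ((if i = k then (th : ℝ) else 0) + (u i : ℝ) * u k + (v i : ℝ) * v k) *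
      ((R0g g u v b det k j : ℤ) : ℝ) := by
    intro k
    have e1 : P2 u v i k = (u i : ℝ) * u k + (v i : ℝ) * v k := by
      unfold P2 toV
      simp [Matrix.vecMulVec_apply]
    rw [e1]
    simp only [toQ, Matrix.of_apply]
    split <;> ring
  rw [Finset.sum_congr rfl fun k _ => e k, h2]
  split <;> simp

omit hg in
theorem R0_realsymm : (toQ (R0g g u v b det))ᵀ = toQ (R0g g u v b det) := by
  ext i j
  simp only [toQ, Matrix.transpose_apply, Matrix.of_apply]
  unfold R0g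
  rw [R0_symm]

theorem R0_psd : (toQ (R0g g u v b det)).PosSemidef := by
  have hth : (0 : ℝ) < th := by exact_mod_cast hg.hth
  have hdet : (0 : ℝ) < det := by exact_mod_cast hg.det0
  have hP : (P2 u v + (th : ℝ) • (1 : Matrix (Fin m) (Fin m) ℝ)).PosSemidef :=
    (P2_psd u v).add (Matrix.PosSemidef.one.smul hth.le)
  have h1 := hP.conjTranspose_mul_mul_same (toQ (R0g g u v b det))
  rw [Matrix.conjTranspose_eq_transpose_of_trivial, R0_realsymm, Matrix.mul_assoc, PR_real hg,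
    Matrix.mul_smul, Matrix.mul_one] at h1
  have h2 := h1.smul (inv_nonneg.2 (mul_pos hth hdet).le)
  rw [smul_smul, inv_mul_cancel₀ (mul_pos hth hdet).ne', one_smul] at h2
  exact h2

/-- the constant in front of `R0` -/
theorem dual_int (F : Matrix (Fin m) (Fin 3) ℝ) (Z : Matrix (Fin 3) (Fin 3) ℝ)
    (hZ : (Fᵀ * F) * Z = 1) (Y : Matrix (Fin m) (Fin m) ℝ) (hY : Y * (F * Z * Fᵀ) = Y) :
    2 * trace Y ≤ (rho : ℝ) * (((∑ i, u i * u i + ∑ i, v i * v i : ℤ) : ℝ) + 3 * th) +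
      trace ((((rho : ℝ) * (th * det))⁻¹ • toQ (R0g g u v b det)) * (Y * Yᵀ)) := by
  have hth : (0 : ℝ) < th := by exact_mod_cast hg.hth
  have hdet : (0 : ℝ) < det := by exact_mod_cast hg.det0
  have hrho : (0 : ℝ) < rho := by exact_mod_cast hg.hrho
  have h1 := G.dual_K F Z hZ ((rho : ℝ) • P2 u v)
    (((rho : ℝ) * (th * det))⁻¹ • toQ (R0g g u v b det)) (rho * th) ((P2_psd u v).smul hrho.le)
    (by
      have e : (rho : ℝ) • P2 u v + ((rho : ℝ) * th) • (1 : Matrix (Fin m) (Fin m) ℝ) =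
          (rho : ℝ) • (P2 u v + (th : ℝ) • (1 : Matrix (Fin m) (Fin m) ℝ)) := by
        rw [smul_add, smul_smul]
      rw [e, Matrix.smul_mul, Matrix.mul_smul, PR_real hg, smul_smul, smul_smul]
      convert one_smul ℝ (1 : Matrix (Fin m) (Fin m) ℝ) using 2
      field_simp)
    ((R0_psd hg).smul (inv_nonneg.2 (by positivity))) Y hY
  rw [trace_smul, smul_eq_mul, P2_trace] at h1
  linarith

end

theorem toQ_mulR {m : ℕ} (R : Fin m → Fin m → ℤ) (C M : Fin m → Fin 3 → ℤ) (k l : Fin 3) :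
    ((toR C)ᵀ * toQ R * toR M) k l = ((GX C (mulI R M) k l : ℤ) : ℝ) := by
  rw [Matrix.mul_assoc, toQ_mul]
  simp only [Matrix.mul_apply, Matrix.transpose_apply, toR, Matrix.of_apply, GX]
  push_cast
  rfl

theorem pairX_real (A : S3) (X : Fin 3 → Fin 3 → ℤ) (hs : ∀ k l, X k l = X l k)
    (Y : Matrix (Fin 3) (Fin 3) ℝ) (hY : ∀ k l, Y k l = ((X k l : ℤ) : ℝ)) :
    trace (A.toM * Y) = ((S3.pair A (symS X) : ℤ) : ℝ) := by
  have hYm : Y = (symS X).toM := by
    ext k l
    rw [hY]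
    fin_cases k <;> fin_cases l <;> simp [symS, S3.toM, hs 1 0, hs 2 0, hs 2 1]
  rw [hYm, ← pair_real]

/-- **Soundness of the fast leaf with the metric `P = 2 ^ k (th + u uᵀ + v vᵀ)`.** -/
theorem fleafK_sound (m : ℕ) (hm : m ≤ 8) (F : Matrix (Fin m) (Fin 3) ℝ)
    (Z : Matrix (Fin 3) (Fin 3) ℝ) (hZ : (Fᵀ * F) * Z = 1) (cs : List V)
    (hok : ∀ v ∈ cs, okV v) (lam : ℕ → ℝ) (hlam : ∀ k, 0 ≤ lam k)
    (hQ : Fᵀ * F = ∑ k ∈ range cs.length, lam k • AtV cs k) (r : ℕ) (g : HdK)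
    (hr : mkHdK m r = some g)
    (C M : Fin m → Fin 3 → ℤ) (κ μ : ℤ) (xs ys : List ℕ) (ka : ℕ) (zs ws : List ℕ) (mu D : ℕ)
    (hd : DataG m C M κ μ xs ys ka zs ws mu)
    (hf : fleafK cs g xs ys ka zs ws mu D = true) :
    (g.h.m = 0 → ∃ σ : ℝ, 0 < σ ∧ trace (Fᵀ * toR C) + σ * trace ((F * Z)ᵀ * toR M) <
      κ + σ * ((1154 : ℝ) / 169 * μ)) ∧
    (g.h.m ≠ 0 → 0 < sig g.h cs lam ∧
      trace (Fᵀ * toR C) + sig g.h cs lam * trace ((F * Z)ᵀ * toR M) <
      κ + sig g.h cs lam * ((1154 : ℝ) / 169 * μ)) := by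
  obtain ⟨u, v, th, b, det, rho, hl⟩ := mkHdK_spec m hm r g hr
  unfold fleafK at hf
  obtain ⟨h1, hf⟩ := band_split hf
  obtain ⟨h2, hf⟩ := band_split hf
  obtain ⟨h3, hf⟩ := band_split hf
  have e128 : (340282366920938463463374607431768211456 : ℕ) = 2 ^ 128 := by norm_num
  have k1 : (ka : ℤ) = κ := small_res hd.ka (by rw [← e128]; exact Nat.le_of_ble_eq_true h1) hd.bk
  have k2 : (mu : ℤ) = μ := small_res hd.mu (by rw [← e128]; exact Nat.le_of_ble_eq_true h2) hd.bu
  have h3' : 169 * (D * D) + 1 ≤ 18464 * (ka * mu) := Nat.le_of_ble_eq_true h3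
  have hκ0 : (0 : ℝ) ≤ κ := by
    rw [← k1]
    exact_mod_cast Int.natCast_nonneg ka
  have hμ0 : (0 : ℝ) ≤ (1154 : ℝ) / 169 * μ := by
    rw [← k2]
    have : (0 : ℝ) ≤ ((mu : ℤ) : ℝ) := by exact_mod_cast Int.natCast_nonneg mu
    positivity
  have hD : (D : ℝ) ^ 2 < 16 * ((κ : ℝ) * ((1154 : ℝ) / 169 * μ)) := by
    have h4 : (169 * ((D : ℝ) * D) + 1) ≤ 18464 * ((ka : ℝ) * mu) := by exact_mod_cast h3'
    have k1' : (ka : ℝ) = κ := by exact_mod_cast k1
    have k2' : (mu : ℝ) = μ := by exact_mod_cast k2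
    rw [k1', k2'] at h4
    linarith
  obtain ⟨R, hR⟩ : ∃ R : Fin m → Fin m → ℤ, R = R0g g u v b det := ⟨_, rfl⟩
  have rC := RK_rows hl hd.rc
  have rM := RK_rows hl hd.rm
  have bC := mulR_bd hl hm hd.bc
  have bM := mulR_bd hl hm hd.bm
  have bM75 : ∀ i k, |M i k| ≤ 2 ^ 75 := fun i k => (hd.bm i k).trans (by norm_num)
  rw [← hR] at rC rM bC bM
  have sym : ∀ k l, GX C (mulI R C) k l = GX C (mulI R C) l k := fun k l => by
    rw [hR]; exact GX_symm C C k l
  have symM : ∀ k l, GX M (mulI R M) k l = GX M (mulI R M) l k := fun k l => by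
    rw [hR]; exact GX_symm M M k l
  have bX := GX_bd' hm hd.bc bC
  have bW := GX_bd' hm hd.bm bM
  have bT := GX_bd' hm hd.bc bM
  have rU := uuX_spec hd.rc.x rC
  have rW := uuX_spec hd.rm.x rM
  have rT := uuX_spec hd.rc.x rM
  have rW0 := uuL_spec hd.rm hd.rm
  unfold lf2K at hf
  rw [frc_eq, frc_eq, frc_eq] at hf
  revert hf rU rW rW0 rT
  generalize uuL xs (RK g ys) = U
  generalize uuL zs (RK g ws) = W
  generalize uuL xs (RK g ws) = t
  generalize uuL zs ws = W0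
  intro hf rU rW rT rW0
  have hEE0 : 1 ≤ eNum g.h t D → (eNum g.h t D : ℤ) =
      g.h.rq * D - g.h.rs - 2 * (GX C (mulI R M) 0 0 + GX C (mulI R M) 1 1 + GX C (mulI R M) 2 2) := by
    have h5 := traX rT bT
    have eS : Nat.div (Nat.mod (Nat.add (Nat.mul t JJ) BI9) B9) B8 = sdig t JJ := rfl
    unfold eNum
    rw [eS]
    revert h5
    generalize sdig t JJ = x
    intro h5 h6
    have e : Nat.sub (Nat.add (Nat.mul g.h.rq D) (Nat.mul g.h.q B1))
      (Nat.add (Nat.mul (Nat.mul 2 g.h.q) x) g.h.rs) =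
      (g.h.rq * D + g.h.q * B1) - (2 * g.h.q * x + g.h.rs) := rfl
    rw [e] at h6 ⊢
    rw [Nat.cast_sub (by omega)]
    push_cast
    rw [hl.hq, h5, B1_int]
    push_cast
    ring
  revert hf hEE0
  generalize eNum g.h t D = E
  intro hf hEE0
  unfold lf3 at hf
  obtain ⟨hE, hf⟩ := band_split hf
  have hE1 : 1 ≤ E := Nat.le_of_ble_eq_true hE
  have hEE := hEE0 hE1
  have hcorn : ∀ k : Fin cs.length, ∃ B N : S3, CornOK (cs[k]) B N :=
    fun k => exists_corn _ (hok _ (List.getElem_mem k.2))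
  choose B N hcr using hcorn
  have hQ' : Fᵀ * F = ∑ k : Fin cs.length, lam k • (formS (cs[k])).toM := by
    rw [hQ, Finset.sum_range]
    refine Finset.sum_congr rfl fun k _ => ?_
    rw [AtV_get]
  have hdv : ∀ k : Fin cs.length, (0 : ℝ) < ((((cs[k]).d : ℕ) : ℤ) : ℝ) := fun k => by
    have := (hcr k).d
    have h5 : 0 < (cs[k]).d := by omega
    exact_mod_cast h5
  have hpsd : ∀ k : Fin cs.length, (formS (cs[k])).toM.PosSemidef := fun k => formV_psd _
  have R0psd := R0_psd hl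
  rw [← hR] at R0psd
  have rC1 : ∀ (A : S3) (M : Fin m → Fin 3 → ℤ), (∀ k l, GX M (mulI R M) k l = GX M (mulI R M) l k) →
      G.qK (toQ R) A.toM (toR M) = ((S3.pair A (symS (GX M (mulI R M))) : ℤ) : ℝ) := by
    intro A M hs
    unfold G.qK
    exact pairX_real A _ hs _ fun k l => toQ_mulR R M M k l
  have nn : ∀ (A : S3), A.toM.PosSemidef → ∀ (M : Fin m → Fin 3 → ℤ),
      (∀ k l, GX M (mulI R M) k l = GX M (mulI R M) l k) → 0 ≤ S3.pair A (symS (GX M (mulI R M))) := by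
    intro A hA M hs
    have h5 : (0 : ℝ) ≤ G.qK (toQ R) A.toM (toR M) := by
      have h6 := trace_conj_nonneg (toQ R) A.toM (toR M)ᵀ R0psd hA
      have h7 := G.qK_real (toQ R) 1 (toR M) A.toM
      rw [inv_one, one_smul, one_mul] at h7
      rw [← h7]
      simpa using h6
    rw [rC1 A M hs] at h5
    exact_mod_cast h5
  have dU : ∀ k : Fin cs.length, (dig U (cs[k]).a : ℤ) =
      S3.pair (formS (cs[k])) (symS (GX C (mulI R C))) :=
    fun k => digX rU sym (hcr k).a bX (hcr k).ba (nn _ (hpsd k) C sym)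
  have dW : ∀ k : Fin cs.length, (dig W (cs[k]).b : ℤ) =
      S3.pair (B k) (symS (GX M (mulI R M))) :=
    fun k => digX rW symM (hcr k).b bW (hcr k).bb (nn _ (hcr k).psdB M symM)
  have qU : ∀ k : Fin cs.length, G.qK (toQ R) (formS (cs[k])).toM (toR C) =
      ((dig U (cs[k]).a : ℤ) : ℝ) := fun k => by rw [rC1 _ C sym, dU]
  have qW : ∀ k : Fin cs.length, G.qK (toQ R) (B k).toM (toR M) =
      ((dig W (cs[k]).b : ℤ) : ℝ) := fun k => by rw [rC1 _ M symM, dW]
  obtain ⟨c, hc⟩ : ∃ c : ℝ, c = (rho : ℝ) * (th * det) := ⟨_, rfl⟩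
  obtain ⟨base, hbase⟩ : ∃ base : ℝ, base =
    (rho : ℝ) * (((∑ i, u i * u i + ∑ i, v i * v i : ℤ) : ℝ) + 3 * th) := ⟨_, rfl⟩
  have hdual := dual_int hl F Z hZ
  rw [← hR, ← hc, ← hbase] at hdual
  have hc0 : 0 < c := by
    have h5 : (0 : ℝ) < th := by exact_mod_cast hl.hth
    have h6 : (0 : ℝ) < det := by exact_mod_cast hl.det0
    have h7 : (0 : ℝ) < rho := by exact_mod_cast hl.hrho
    rw [hc]
    positivity
  have hEER : ((E : ℤ) : ℝ) = c * D - c * base - 2 * trace ((toR C)ᵀ * toQ R * toR M) := by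
    have h5 : trace ((toR C)ᵀ * toQ R * toR M) =
        ((GX C (mulI R M) 0 0 + GX C (mulI R M) 1 1 + GX C (mulI R M) 2 2 : ℤ) : ℝ) := by
      rw [Matrix.trace_fin_three, toQ_mulR, toQ_mulR, toQ_mulR]
      push_cast
      rfl
    rw [h5, hEE, hl.hrq, hl.hrs, hc, hbase]
    push_cast
    ring
  have hinv : ∀ k : Fin cs.length, dig W0 (cs[k]).n = 0 →
      (formS (cs[k])).toM * ((B k).toM * (toR M)ᵀ) = ((((cs[k]).d : ℕ) : ℤ) : ℝ) • (toR M)ᵀ := by
    intro k hk
    have h4 : (dig W0 (cs[k]).n : ℤ) = S3.pair (N k) (gramS M) :=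
      dig_pairG hm rW0 (hcr k).n bM75 (hcr k).bn (pair_nonnegG _ (hcr k).psdN _)
    rw [hk] at h4
    have h5 := killG (N k) (hcr k).psdN M (by rw [← h4]; rfl)
    have h6 := (hcr k).id
    have h7 : (formS (cs[k])).toM * (B k).toM =
        ((((cs[k]).d : ℕ) : ℤ) : ℝ) • (1 : Matrix (Fin 3) (Fin 3) ℝ) - (N k).toM := by
      rw [← h6]
      abel
    rw [← Matrix.mul_assoc, h7, Matrix.sub_mul, h5, sub_zero, Matrix.smul_mul, Matrix.one_mul]
  have hq : ((g.h.q : ℕ) : ℝ) = 1 := by rw [hl.hq]; norm_num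
  constructor
  · intro hm0
    rw [hm0] at hf
    have hcc := fun k (hk : k < cs.length) =>
      tstA_spec U W0 W _ _ (cs[k]) (allV_spec _ cs hf k hk)
    refine G.tri_freeK F Z hZ (fun k : Fin cs.length => lam k) (fun k => hlam k)
      (fun k => (formS (cs[k])).toM) (fun k => (B k).toM) (fun k => ((((cs[k]).d : ℕ) : ℤ) : ℝ)) hdv
      hpsd (toR C) hQ' (toQ R) R0psd c base hc0 hdual (toR M)
      (fun k => hinv k (hcc k k.2).2) D κ _ hκ0 hμ0 hD (fun k => S3.toM_transpose _) ((E : ℤ) : ℝ)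
      hEER (by exact_mod_cast hE1) (fun k => ?_)
    have h4 := (hcc k k.2).1
    rw [qU, qW]
    have e1 : Nat.mul 4 (Nat.mul g.h.q g.h.q) = 4 * (g.h.q * g.h.q) := rfl
    have e2 : Nat.mul E E = E * E := rfl
    rw [e1, e2] at h4
    have h5 : 4 * ((g.h.q : ℝ) * g.h.q) * ((dig U (cs[(k : ℕ)]).a : ℝ) * dig W (cs[(k : ℕ)]).b) ≤
      (E : ℝ) * E * (cs[(k : ℕ)]).d := by exact_mod_cast h4
    rw [hq] at h5
    simp only [Int.cast_natCast]
    have h6 : 4 * ((dig U (cs[(k : ℕ)]).a : ℝ) * dig W (cs[(k : ℕ)]).b) ≤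
      (E : ℝ) ^ 2 * (cs[(k : ℕ)]).d := by linarith
    exact h6
  · intro hm0
    have hs : sig g.h cs lam = ∑ k : Fin cs.length, lam k * scl g.h cs k := by
      unfold sig
      rw [Finset.sum_range]
    rw [hs]
    have main : (∀ k : Fin cs.length, 0 < scl g.h cs k) ∧
      (∀ k : Fin cs.length, dig W0 (cs[k]).n = 0) ∧
      (∀ k : Fin cs.length, (1 : ℝ) * (((((cs[k]).d : ℕ) : ℤ) : ℝ) *
        ((dig U (cs[k]).a : ℤ) : ℝ) + (scl g.h cs k) ^ 2 * ((dig W (cs[k]).b : ℤ) : ℝ)) ≤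
        scl g.h cs k * ((((cs[k]).d : ℕ) : ℤ) : ℝ) * ((E : ℤ) : ℝ)) := by
      by_cases h1m : g.h.m = 1
      · rw [h1m] at hf
        have hcc := fun k (hk : k < cs.length) =>
          tstT_spec U W0 W _ _ _ _ (cs[k]) _ (allT_spec _ cs _ hf k hk)
        have es : ∀ k : Fin cs.length, scl g.h cs k =
            (((g.h.ts >>> (16 * (k : ℕ))) % 65536 : ℕ) : ℝ) / (g.h.K : ℝ) := fun k => by
          unfold scl
          rw [if_pos h1m]
        refine ⟨fun k => ?_, fun k => (hcc k k.2).2.2, fun k => ?_⟩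
        · rw [es]
          have := (hcc k k.2).1
          have h4 : (0 : ℝ) < (((g.h.ts >>> (16 * (k : ℕ))) % 65536 : ℕ) : ℝ) := by
            exact_mod_cast this
          have hK : (0 : ℝ) < g.h.K := by exact_mod_cast hl.hK
          positivity
        · rw [es]
          exact core_test hl.hK rfl (hcc k k.2).2.1 hq
      · have hf' : allV (tstC U W0 W E g.h.q) cs = true := by
          revert hf
          rcases hmm : g.h.m with _ | _ | n
          · exact absurd hmm hm0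
          · exact absurd hmm h1m
          · intro hf; exact hf
        have hcc := fun k (hk : k < cs.length) =>
          tstT_spec U W0 W _ _ _ _ (cs[k]) _ (allV_spec _ cs hf' k hk)
        have es : ∀ k : Fin cs.length, scl g.h cs k = ((cs[k]).l : ℝ) := fun k => by
          unfold scl
          rw [if_neg h1m, lAt_get]
        refine ⟨fun k => ?_, fun k => (hcc k k.2).2.2, fun k => ?_⟩
        · rw [es]
          have := (hcc k k.2).1
          exact_mod_cast this
        · rw [es]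
          have h7 := core_test (K := 1) (by norm_num) (by norm_num) (hcc k k.2).2.1 hq
          rw [Nat.cast_one, div_one] at h7
          exact h7
    obtain ⟨m1, m2, m3⟩ := main
    exact G.tri_testK F Z hZ (fun k : Fin cs.length => lam k) (fun k => hlam k)
      (fun k => (formS (cs[k])).toM) (fun k => (B k).toM) (fun k => ((((cs[k]).d : ℕ) : ℤ) : ℝ)) hdv
      hpsd (toR C) hQ' (toQ R) R0psd c base hc0 hdual (toR M)
      (fun k => hinv k (m2 k)) D κ _ hκ0 hμ0 hD (fun k => scl g.h cs k) m1 (fun k => by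
        have h4 := m3 k
        rw [qU, qW, ← hEER]
        rw [one_mul] at h4
        exact h4)

end Pool.Agent.Helper82.FL
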