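import Mathlib
import Pool.Agent.Helper82.FL.SoundG
import Pool.Agent.Helper82.FL.HeadW

/-!
# Soundness of the fast leaf for the completed basis

`F` and `N` are the rows of `V` and of the completion without the last row; `HH m = 1 + J`.
-/

set_option autoImplicit false

namespace Pool.Agent.Helper82.FL

open Matrix Finset Pool.Agent.Helper28.TT

/-- an integer matrix as a real matrix -/
def toB {m k : ℕ} (B : Fin m → Fin k → ℤ) : Matrix (Fin m) (Fin k) ℝ :=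
  Matrix.of fun i j => (B i j : ℝ)

theorem toQ_mulB {m k : ℕ} (L : Fin m → Fin m → ℤ) (B : Fin m → Fin k → ℤ) :
    toQ L * toB B = toB (mulB L B) := by
  ext i j
  simp only [toQ, toB, mulB, Matrix.mul_apply, Matrix.of_apply]
  push_cast
  rfl

theorem BB_real {m k : ℕ} (B : Fin m → Fin k → ℤ) :
    trace (toB B * (toB B)ᵀ) = ((sqI B : ℤ) : ℝ) := by
  simp only [toB, sqI, Matrix.trace, Matrix.diag, Matrix.mul_apply, Matrix.of_apply,
    Matrix.transpose_apply]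
  push_cast
  rfl

theorem TTH_real {m : ℕ} (T : Fin m → Fin m → ℤ) :
    (m + 1 : ℝ) * trace (toQ T * (toQ T)ᵀ * HI m) =
      (((m + 1) * (∑ i, ∑ j, T i j * T i j) - colI T : ℤ) : ℝ) := by
  have h0 : ((m : ℝ) + 1) ≠ 0 := by positivity
  have h1 : trace (toQ T * (toQ T)ᵀ * (Matrix.of fun _ _ => (1 : ℝ))) = ((colI T : ℤ) : ℝ) := by
    have e : trace (toQ T * (toQ T)ᵀ * (Matrix.of fun _ _ => (1 : ℝ))) =
        ∑ j : Fin m, (∑ i, (T i j : ℝ)) * ∑ i, (T i j : ℝ) := by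
      simp only [toQ, Matrix.trace, Matrix.diag, Matrix.mul_apply, Matrix.of_apply,
        Matrix.transpose_apply, mul_one]
      rw [Finset.sum_congr rfl fun i _ => Finset.sum_comm]
      rw [Finset.sum_comm]
      refine Finset.sum_congr rfl fun j _ => ?_
      rw [Finset.sum_mul_sum]
    rw [e]
    unfold colI
    push_cast
    exact Finset.sum_congr rfl fun j _ => by ring
  unfold HI
  rw [Matrix.mul_sub, Matrix.mul_one, Matrix.mul_smul, trace_sub, trace_smul, smul_eq_mul, h1,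
    TT_real, mul_sub, ← mul_assoc, mul_inv_cancel₀ h0, one_mul]
  push_cast
  ring

/-- the number `E` -/
theorem eNumW_spec {m k : ℕ} (hm : m ≤ 8) (hk : k ≤ 4) {g : HdG} {L T : Fin m → Fin m → ℤ}
    {δ rho : ℤ}
    (hg : HdWOK m g L T δ rho) {C M : Fin m → Fin 3 → ℤ} {B : Fin m → Fin k → ℤ}
    {t D : ℕ} {ex ey : List ℕ}
    (hT : Rs t (pG (mulI L C) (mulI L M))) (hC : ∀ i k, |mulI L C i k| ≤ 2 ^ 75)
    (hM : ∀ i k, |mulI L M i k| ≤ 2 ^ 75) (hB : RowsB m k (mulB L B) ex ey)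
    (hb : ∀ i j, |mulB L B i j| ≤ 2 ^ 75)
    (h1 : 1 ≤ eNumW g.h t (uuL ex ey) D) : (eNumW g.h t (uuL ex ey) D : ℤ) =
      rho * ((m + 1) * δ ^ 2) * D - rho ^ 2 * ((m + 1) * (∑ i, ∑ j, T i j * T i j) - colI T) -
        (m + 1) * δ ^ 2 * (2 * prI (mulI L C) (mulI L M) + sqI (mulB L B)) := by
  have h2 := tra_pairG hm hT hC hM
  have h3 := sqB_digit hm hk hB hb
  have eS : Nat.div (Nat.mod (Nat.add (Nat.mul t JJ) BI9) B9) B8 = sdig t JJ := rfl
  rw [eS] at h2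
  unfold eNumW at h1 ⊢
  revert h1 h2 h3
  generalize sdig t JJ = x
  generalize sdig (uuL ex ey) B5 = y
  intro h1 h2 h3
  have e : Nat.sub (Nat.add (Nat.mul g.h.rq D) (Nat.mul g.h.q H3))
    (Nat.add (Nat.mul g.h.q (Nat.add (Nat.mul 2 x) y)) g.h.rs) =
    (g.h.rq * D + g.h.q * H3) - (g.h.q * (2 * x + y) + g.h.rs) := rfl
  rw [e] at h1 ⊢
  rw [Nat.cast_sub (by omega)]
  push_cast
  have hH3 : (H3 : ℤ) = 3 * 2 ^ 255 := by
    rw [H3_eq]
    push_cast
  rw [hg.hq, hg.hrq, hg.hrs, h2, h3, hH3]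
  ring

/-- the data of a leaf -/
structure DataW (m k : ℕ) (C M : Fin m → Fin 3 → ℤ) (B : Fin m → Fin k → ℤ) (κ μ : ℤ)
    (xs ys : List ℕ) (ka : ℕ) (zs ws : List ℕ) (mu : ℕ) (bs bt : List ℕ) : Prop where
  rc : RowsG m C xs ys
  rm : RowsG m M zs ws
  rb : RowsB m k B bs bt
  bc : ∀ i k, |C i k| ≤ 2 ^ 52
  bm : ∀ i k, |M i k| ≤ 2 ^ 52
  bb : ∀ i j, |B i j| ≤ 2 ^ 52
  ka : Rs ka κ
  mu : Rs mu μ
  bk : |κ| ≤ 2 ^ 60
  bu : |μ| ≤ 2 ^ 60

/-- **Soundness of the fast leaf for the completed basis.** -/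
theorem fleafW_sound (m k : ℕ) (hm : m ≤ 8) (hk : k ≤ 4) (F : Matrix (Fin m) (Fin 3) ℝ)
    (N : Matrix (Fin m) (Fin k) ℝ)
    (Z : Matrix (Fin 3) (Fin 3) ℝ) (hZ : (Fᵀ * HH m * F) * Z = 1) (hN : Nᵀ * HH m * N = 1)
    (hFN : Fᵀ * HH m * N = 0) (cs : List V)
    (hok : ∀ v ∈ cs, okV v) (lam : ℕ → ℝ) (hlam : ∀ k, 0 ≤ lam k)
    (hQ : Fᵀ * HH m * F = ∑ k ∈ range cs.length, lam k • AtV cs k) (r : ℕ) (g : HdG)
    (hr : mkHdW m r = some g)
    (C M : Fin m → Fin 3 → ℤ) (B : Fin m → Fin k → ℤ) (κ μ : ℤ) (xs ys : List ℕ) (ka : ℕ)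
    (zs ws : List ℕ) (mu : ℕ) (bs bt : List ℕ) (D D1 : ℕ)
    (hd : DataW m k C M B κ μ xs ys ka zs ws mu bs bt)
    (hf : fleafW cs g xs ys ka zs ws mu bs bt D D1 = true)
    (x : ℝ) (hx : (D1 : ℝ) ≤ D + 2 * x) :
    (g.h.m = 0 → ∃ σ : ℝ, 0 < σ ∧ trace (Fᵀ * toR C) + σ * trace ((F * Z)ᵀ * toR M) +
      Real.sqrt σ * trace (Nᵀ * toB B) <
      κ + σ * ((1154 : ℝ) / 169 * μ) + Real.sqrt σ * x) ∧
    (g.h.m ≠ 0 → 0 < sig g.h cs lam ∧
      trace (Fᵀ * toR C) + sig g.h cs lam * trace ((F * Z)ᵀ * toR M) +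
        Real.sqrt (sig g.h cs lam) * trace (Nᵀ * toB B) <
      κ + sig g.h cs lam * ((1154 : ℝ) / 169 * μ) + Real.sqrt (sig g.h cs lam) * x) := by
  obtain ⟨L, T, δ, rho, hl⟩ := mkHdW_spec m hm r g hr
  unfold fleafW at hf
  obtain ⟨h1, hf⟩ := band_split hf
  obtain ⟨h2, hf⟩ := band_split hf
  obtain ⟨h3, hf⟩ := band_split hf
  have e128 : (340282366920938463463374607431768211456 : ℕ) = 2 ^ 128 := by norm_num
  have k1 : (ka : ℤ) = κ := small_res hd.ka (by rw [← e128]; exact Nat.le_of_ble_eq_true h1) hd.bk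
  have k2 : (mu : ℤ) = μ := small_res hd.mu (by rw [← e128]; exact Nat.le_of_ble_eq_true h2) hd.bu
  have h3' : 169 * (D * D) + 1 ≤ 18464 * (ka * mu) := Nat.le_of_ble_eq_true h3
  have hκ0 : (0 : ℝ) ≤ κ := by
    rw [← k1]
    exact_mod_cast Int.natCast_nonneg ka
  have hμ0 : (0 : ℝ) ≤ (1154 : ℝ) / 169 * μ := by
    rw [← k2]
    have : (0 : ℝ) ≤ ((mu : ℤ) : ℝ) := by exact_mod_cast Int.natCast_nonneg mu
    positivity
  have hD : (D : ℝ) ^ 2 < 16 * ((κ : ℝ) * ((1154 : ℝ) / 169 * μ)) := by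
    have h4 : (169 * ((D : ℝ) * D) + 1) ≤ 18464 * ((ka : ℝ) * mu) := by exact_mod_cast h3'
    have k1' : (ka : ℝ) = κ := by exact_mod_cast k1
    have k2' : (mu : ℝ) = μ := by exact_mod_cast k2
    rw [k1', k2'] at h4
    linarith
  have rG := rowsG_mul hl.hL hd.rc
  have rH := rowsG_mul hl.hL hd.rm
  have rE := rowsB_mul hl.hL hd.rb
  have bG : ∀ i k, |mulI L C i k| ≤ 2 ^ 75 := mulI_bd hm (hl.hL.bd) hd.bc
  have bH : ∀ i k, |mulI L M i k| ≤ 2 ^ 75 := mulI_bd hm (hl.hL.bd) hd.bm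
  have bE : ∀ i j, |mulB L B i j| ≤ 2 ^ 75 := mulB_bd hm (hl.hL.bd) hd.bb
  have bM : ∀ i k, |M i k| ≤ 2 ^ 75 := fun i k => (hd.bm i k).trans (by norm_num)
  have rU := uuL_spec rG rG
  have rW := uuL_spec rH rH
  have rW0 := uuL_spec hd.rm hd.rm
  have rT := uuL_spec rG rH
  unfold lf2W at hf
  revert hf rU rW rW0 rT rE
  generalize uuL (mulL g.L xs) (mulL g.L ys) = U
  generalize uuL (mulL g.L zs) (mulL g.L ws) = W
  generalize uuL (mulL g.L xs) (mulL g.L ws) = t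
  generalize uuL zs ws = W0
  generalize mulL g.L bs = es
  generalize mulL g.L bt = et
  intro hf rE rU rW rW0 rT
  have hEE0 := fun h1 => eNumW_spec hm hk hl (D := D1) rT bG bH rE bE h1
  revert hf hEE0
  generalize eNumW g.h t (uuL es et) D1 = E
  intro hf hEE0
  unfold lf3 at hf
  obtain ⟨hE, hf⟩ := band_split hf
  have hE1 : 1 ≤ E := Nat.le_of_ble_eq_true hE
  have hEE := hEE0 hE1
  have hcorn : ∀ k : Fin cs.length, ∃ B N : S3, CornOK (cs[k]) B N :=
    fun k => exists_corn _ (hok _ (List.getElem_mem k.2))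
  choose Bk Nk hcr using hcorn
  have hQ' : Fᵀ * HH m * F = ∑ k : Fin cs.length, lam k • (formS (cs[k])).toM := by
    rw [hQ, Finset.sum_range]
    refine Finset.sum_congr rfl fun k _ => ?_
    rw [AtV_get]
  have hdv : ∀ k : Fin cs.length, (0 : ℝ) < ((((cs[k]).d : ℕ) : ℤ) : ℝ) := fun k => by
    have := (hcr k).d
    have h5 : 0 < (cs[k]).d := by omega
    exact_mod_cast h5
  have hpsd : ∀ k : Fin cs.length, (formS (cs[k])).toM.PosSemidef := fun k => formV_psd _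
  have dU : ∀ k : Fin cs.length, (dig U (cs[k]).a : ℤ) = S3.pair (formS (cs[k])) (gramS (mulI L C)) :=
    fun k => dig_pairG hm rU (hcr k).a bG (hcr k).ba (pair_nonnegG _ (hpsd k) _)
  have dW : ∀ k : Fin cs.length, (dig W (cs[k]).b : ℤ) = S3.pair (Bk k) (gramS (mulI L M)) :=
    fun k => dig_pairG hm rW (hcr k).b bH (hcr k).bb (pair_nonnegG _ (hcr k).psdB _)
  have qU : ∀ k : Fin cs.length, G.qa (toQ L) (formS (cs[k])).toM (toR C) =
      ((dig U (cs[k]).a : ℤ) : ℝ) := fun k => by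
    unfold G.qa
    rw [toQ_mul, gram_real, dU, pair_real]
  have qW : ∀ k : Fin cs.length, G.qa (toQ L) (Bk k).toM (toR M) =
      ((dig W (cs[k]).b : ℤ) : ℝ) := fun k => by
    unfold G.qa
    rw [toQ_mul, gram_real, dW, pair_real]
  obtain ⟨w, hw⟩ : ∃ w : ℝ, w = (m : ℝ) + 1 := ⟨_, rfl⟩
  have hw0 : 0 < w := by rw [hw]; positivity
  obtain ⟨e, he⟩ : ∃ e : ℝ, e = G.EW (toQ L) (toQ T) (HI m) δ rho D1 (toR C) (toR M) (toB B) :=
    ⟨_, rfl⟩
  have hEER : w * e = ((E : ℤ) : ℝ) := by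
    rw [he, hEE]
    unfold G.EW
    rw [toQ_mul, toQ_mul, toQ_mulB, pr_real, BB_real]
    have h5 := TTH_real T
    rw [← hw] at h5
    push_cast at h5 ⊢
    rw [← hw]
    rw [← hw] at h5
    linear_combination (-(rho : ℝ) ^ 2) * h5
  have hinv : ∀ k : Fin cs.length, dig W0 (cs[k]).n = 0 →
      (formS (cs[k])).toM * ((Bk k).toM * (toR M)ᵀ) = ((((cs[k]).d : ℕ) : ℤ) : ℝ) • (toR M)ᵀ := by
    intro k hk
    have h4 : (dig W0 (cs[k]).n : ℤ) = S3.pair (Nk k) (gramS M) :=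
      dig_pairG hm rW0 (hcr k).n bM (hcr k).bn (pair_nonnegG _ (hcr k).psdN _)
    rw [hk] at h4
    have h5 := killG (Nk k) (hcr k).psdN M (by rw [← h4]; rfl)
    have h6 := (hcr k).id
    have h7 : (formS (cs[k])).toM * (Bk k).toM =
        ((((cs[k]).d : ℕ) : ℤ) : ℝ) • (1 : Matrix (Fin 3) (Fin 3) ℝ) - (Nk k).toM := by
      rw [← h6]
      abel
    rw [← Matrix.mul_assoc, h7, Matrix.sub_mul, h5, sub_zero, Matrix.smul_mul, Matrix.one_mul]
  have hδ : (0 : ℝ) < δ := by exact_mod_cast hl.hδ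
  have hrho : (0 : ℝ) < rho := by exact_mod_cast hl.hrho
  have hq : ((g.h.q : ℕ) : ℝ) = w * (δ : ℝ) ^ 2 := by
    have := hl.hq
    rw [hw]
    exact_mod_cast this
  have hE0 : (0 : ℝ) < ((E : ℤ) : ℝ) := by exact_mod_cast hE1
  have he0 : 0 < e := by
    rw [← hEER] at hE0
    exact (mul_pos_iff_of_pos_left hw0).mp hE0
  constructor
  · intro hm0
    rw [hm0] at hf
    have hc := fun k (hk : k < cs.length) =>
      tstA_spec U W0 W _ _ (cs[k]) (allV_spec _ cs hf k hk)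
    refine G.tri_freeW F N (HH m) (HI m) (HH_psd m) (HH_mul_HI m) (HI_symm m) Z hZ hN hFN
      (fun k : Fin cs.length => lam k) (fun k => hlam k)
      (fun k => (formS (cs[k])).toM) (fun k => (Bk k).toM) (fun k => ((((cs[k]).d : ℕ) : ℤ) : ℝ)) hdv
      hpsd (toR C) (toR M) (toB B)
      (fun k => hinv k (hc k k.2).2) hQ' (toQ L) (toQ T) δ hδ (LT_real hl.hLT) rho D D1 x κ _
      hrho hκ0 hμ0 hD hx (fun k => S3.toM_transpose _)
      (by rw [← he]; exact he0) (fun k => ?_)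
    have h4 := (hc k k.2).1
    rw [← he, qU, qW]
    have e1 : Nat.mul 4 (Nat.mul g.h.q g.h.q) = 4 * (g.h.q * g.h.q) := rfl
    have e2 : Nat.mul E E = E * E := rfl
    rw [e1, e2] at h4
    have h5 : 4 * ((g.h.q : ℝ) * g.h.q) * ((dig U (cs[(k : ℕ)]).a : ℝ) * dig W (cs[(k : ℕ)]).b) ≤
      (E : ℝ) * E * (cs[(k : ℕ)]).d := by exact_mod_cast h4
    have hEE2 : (E : ℝ) = w * e := by
      rw [hEER]
      simp
    rw [hq, hEE2] at h5
    simp only [Int.cast_natCast]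
    have h6 : w ^ 2 * (4 * ((δ : ℝ) ^ 2) ^ 2 * ((dig U (cs[(k : ℕ)]).a : ℝ) *
        dig W (cs[(k : ℕ)]).b)) ≤ w ^ 2 * (e ^ 2 * (cs[(k : ℕ)]).d) := by linarith
    exact le_of_mul_le_mul_left h6 (by positivity)
  · intro hm0
    have hs : sig g.h cs lam = ∑ k : Fin cs.length, lam k * scl g.h cs k := by
      unfold sig
      rw [Finset.sum_range]
    rw [hs]
    have main : (∀ k : Fin cs.length, 0 < scl g.h cs k) ∧
      (∀ k : Fin cs.length, dig W0 (cs[k]).n = 0) ∧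
      (∀ k : Fin cs.length, (w * (δ : ℝ) ^ 2) * (((((cs[k]).d : ℕ) : ℤ) : ℝ) *
        ((dig U (cs[k]).a : ℤ) : ℝ) + (scl g.h cs k) ^ 2 * ((dig W (cs[k]).b : ℤ) : ℝ)) ≤
        scl g.h cs k * ((((cs[k]).d : ℕ) : ℤ) : ℝ) * ((E : ℤ) : ℝ)) := by
      by_cases h1m : g.h.m = 1
      · rw [h1m] at hf
        have hc := fun k (hk : k < cs.length) =>
          tstT_spec U W0 W _ _ _ _ (cs[k]) _ (allT_spec _ cs _ hf k hk)
        have es : ∀ k : Fin cs.length, scl g.h cs k =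
            (((g.h.ts >>> (16 * (k : ℕ))) % 65536 : ℕ) : ℝ) / (g.h.K : ℝ) := fun k => by
          unfold scl
          rw [if_pos h1m]
        refine ⟨fun k => ?_, fun k => (hc k k.2).2.2, fun k => ?_⟩
        · rw [es]
          have := (hc k k.2).1
          have h4 : (0 : ℝ) < (((g.h.ts >>> (16 * (k : ℕ))) % 65536 : ℕ) : ℝ) := by
            exact_mod_cast this
          have hK : (0 : ℝ) < g.h.K := by exact_mod_cast hl.hK
          positivity
        · rw [es]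
          exact core_test hl.hK rfl (hc k k.2).2.1 hq
      · have hf' : allV (tstC U W0 W E g.h.q) cs = true := by
          revert hf
          rcases hmm : g.h.m with _ | _ | n
          · exact absurd hmm hm0
          · exact absurd hmm h1m
          · intro hf; exact hf
        have hc := fun k (hk : k < cs.length) =>
          tstT_spec U W0 W _ _ _ _ (cs[k]) _ (allV_spec _ cs hf' k hk)
        have es : ∀ k : Fin cs.length, scl g.h cs k = ((cs[k]).l : ℝ) := fun k => by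
          unfold scl
          rw [if_neg h1m, lAt_get]
        refine ⟨fun k => ?_, fun k => (hc k k.2).2.2, fun k => ?_⟩
        · rw [es]
          have := (hc k k.2).1
          exact_mod_cast this
        · rw [es]
          have h7 := core_test (K := 1) (by norm_num) (by norm_num) (hc k k.2).2.1 hq
          rw [Nat.cast_one, div_one] at h7
          exact h7
    obtain ⟨m1, m2, m3⟩ := main
    exact G.tri_testW F N (HH m) (HI m) (HH_psd m) (HH_mul_HI m) (HI_symm m) Z hZ hN hFN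
      (fun k : Fin cs.length => lam k) (fun k => hlam k)
      (fun k => (formS (cs[k])).toM) (fun k => (Bk k).toM) (fun k => ((((cs[k]).d : ℕ) : ℤ) : ℝ)) hdv
      hpsd (toR C) (toR M) (toB B)
      (fun k => hinv k (m2 k)) hQ' (toQ L) (toQ T) δ hδ (LT_real hl.hLT) rho D D1 x κ _
      hrho hκ0 hμ0 hD hx (fun k => scl g.h cs k) m1 (fun k => by
        have h4 := m3 k
        rw [qU, qW, ← he]
        rw [← hEER] at h4
        have h6 : w * ((δ : ℝ) ^ 2 * (((((cs[k]).d : ℕ) : ℤ) : ℝ) *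
          ((dig U (cs[k]).a : ℤ) : ℝ) + (scl g.h cs k) ^ 2 * ((dig W (cs[k]).b : ℤ) : ℝ))) ≤
          w * (scl g.h cs k * ((((cs[k]).d : ℕ) : ℤ) : ℝ) * e) := by linarith
        exact le_of_mul_le_mul_left h6 hw0)

end Pool.Agent.Helper82.FL
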